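import Pool.Agent.Lib.MP_a93a81_co.Defs

/-!
# Module NARALG : algebraic facts on the Narayana polynomials `f_n(y) = N_n(-y)`
-/

namespace BMoll

open Polynomial Finset

/-! ### binomial coefficients over the reals -/

theorem chR_succ (n i : ℕ) :
    ((i:ℝ) + 1) * ((n.choose (i+1) : ℕ) : ℝ) = ((n:ℝ) - i) * (n.choose i : ℕ) := by
  rcases le_or_gt i n with h | h
  · have h1 := Nat.choose_succ_right_eq n i
    have h2 : ((n.choose (i+1) * (i+1) : ℕ) : ℝ) = ((n.choose i * (n - i) : ℕ) : ℝ) := by rw [h1]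
    push_cast [Nat.cast_sub h] at h2
    linarith
  · rw [Nat.choose_eq_zero_of_lt h, Nat.choose_eq_zero_of_lt (Nat.lt_succ_of_lt h)]
    simp

theorem chR_eq (n i : ℕ) :
    ((n.choose (i+1) : ℕ) : ℝ) = ((n:ℝ) - i) / ((i:ℝ) + 1) * (n.choose i : ℕ) := by
  have h := chR_succ n i
  have hi : (i:ℝ) + 1 ≠ 0 := by positivity
  field_simp
  linarith

theorem chR_pascal (n i : ℕ) :
    (((n+1).choose (i+1) : ℕ) : ℝ) = (n.choose i : ℕ) + (n.choose (i+1) : ℕ) := by
  rw [Nat.choose_succ_succ]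
  push_cast
  ring

theorem nar_pos {n i : ℕ} (hi : i ≤ n) : 0 < nar n i := by
  unfold nar
  have h1 : 0 < (n+1).choose (i+1) := Nat.choose_pos (by omega)
  have h2 : 0 < (n+1).choose i := Nat.choose_pos (by omega)
  have h1' : (0:ℝ) < ((n+1).choose (i+1) : ℕ) := by exact_mod_cast h1
  have h2' : (0:ℝ) < ((n+1).choose i : ℕ) := by exact_mod_cast h2
  positivity

theorem nar_zero {n i : ℕ} (hi : n < i) : nar n i = 0 := by
  unfold nar
  rw [Nat.choose_eq_zero_of_lt (by omega : n + 1 < i + 1)]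
  simp

theorem nar_symm {n i : ℕ} (hi : i ≤ n) : nar n (n - i) = nar n i := by
  unfold nar
  have h1 : (n+1).choose (n - i + 1) = (n+1).choose i := by
    rw [← Nat.choose_symm (by omega : n - i + 1 ≤ n + 1)]
    congr 1
    omega
  have h2 : (n+1).choose (n - i) = (n+1).choose (i+1) := by
    rw [← Nat.choose_symm (by omega : n - i ≤ n + 1)]
    congr 1
    omega
  rw [h1, h2]
  ring

/-- `C(n,i)^2 - C(n,i-1) C(n,i+1) = N(n+1,i+1)` -/
theorem nar_sq (n i : ℕ) : Lop (fun j => (n.choose j : ℝ)) i = nar n i := by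
  unfold Lop nar
  have hn : (n:ℝ) + 1 ≠ 0 := by positivity
  rcases i with _ | i
  · simp
    field_simp
  · simp only [Nat.succ_ne_zero, if_false, Nat.add_sub_cancel]
    have hi1 : (i:ℝ) + 1 ≠ 0 := by positivity
    have hi2 : (i:ℝ) + 1 + 1 ≠ 0 := by positivity
    rw [chR_pascal n (i+1), chR_pascal n i, chR_eq n (i+1), chR_eq n i]
    push_cast
    field_simp
    ring

/-- `C(n,i-1) C(n,i+1) = i (n-i)/(n+1) N(n+1,i+1)` -/
theorem nar_off {n i : ℕ} (hi : 1 ≤ i) :
    ((n.choose (i-1) : ℕ) : ℝ) * (n.choose (i+1) : ℕ) = i * ((n:ℝ) - i) / (n+1) * nar n i := by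
  unfold nar
  have hn : (n:ℝ) + 1 ≠ 0 := by positivity
  rcases i with _ | i
  · omega
  · simp only [Nat.add_sub_cancel]
    have hi1 : (i:ℝ) + 1 ≠ 0 := by positivity
    have hi2 : (i:ℝ) + 1 + 1 ≠ 0 := by positivity
    rw [chR_pascal n (i+1), chR_pascal n i, chR_eq n (i+1), chR_eq n i]
    push_cast
    field_simp
    ring

/-! ### the polynomial -/

/-- the Narayana polynomial as a polynomial -/
noncomputable def fP (n : ℕ) : ℝ[X] := ∑ i ∈ range (n+1), C (nar n i) * X ^ i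

theorem fP_coeff (n i : ℕ) : (fP n).coeff i = nar n i := by
  unfold fP
  rw [finsetSum_coeff]
  simp only [coeff_C_mul, coeff_X_pow, mul_ite, mul_one, mul_zero]
  rw [Finset.sum_ite_eq]
  split_ifs with h
  · rfl
  · rw [nar_zero]
    simpa using h

theorem fN_eq (n : ℕ) (y : ℝ) : fN n y = (fP n).eval (-y) := by
  unfold fN fP
  rw [eval_finsetSum]
  simp

theorem fN_eq' (n : ℕ) : fN n = fun y => ((fP n).comp (-X)).eval y := by
  funext y
  rw [fN_eq]
  simp

theorem fN_zero_left (y : ℝ) : fN 0 y = 1 := by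
  simp [fN, nar]

theorem fN_one_left (y : ℝ) : fN 1 y = 1 - y := by
  simp [fN, nar, Finset.sum_range_succ]
  ring

theorem fN_at_zero (n : ℕ) : fN n 0 = 1 := by
  have hn : (n:ℝ) + 1 ≠ 0 := by positivity
  rw [fN_eq, neg_zero, ← coeff_zero_eq_eval_zero, fP_coeff]
  unfold nar
  simp
  exact hn

theorem fP_rec (n : ℕ) :
    C ((n:ℝ)+4) * fP (n+2) = C ((2:ℝ)*n+5) * ((1 + X) * fP (n+1))
      - C ((n:ℝ)+1) * ((1 - X) * ((1 - X) * fP n)) := by
  have e1 : (1 + X) * fP (n+1) = fP (n+1) + X * fP (n+1) := by ring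
  have e2 : (1 - X) * ((1 - X) * fP n) = fP n - C 2 * (X * fP n) + X * (X * fP n) := by
    simp only [map_ofNat]
    ring
  rw [e1, e2]
  have hn1 : (n:ℝ) + 1 ≠ 0 := by positivity
  have hn2 : (n:ℝ) + 2 ≠ 0 := by positivity
  have hn3 : (n:ℝ) + 3 ≠ 0 := by positivity
  ext i
  rcases i with _ | _ | i
  · simp only [coeff_C_mul, coeff_add, coeff_sub, fP_coeff, coeff_X_mul_zero]
    have hn2' : (n:ℝ) + 1 + 1 ≠ 0 := by positivity
    have hn3' : (n:ℝ) + 2 + 1 ≠ 0 := by positivity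
    simp [nar]
    field_simp
    ring
  · have c1 : ∀ p : ℝ[X], (X * p).coeff 1 = p.coeff 0 := fun p => coeff_X_mul p 0
    have hn2' : (n:ℝ) + 1 + 1 ≠ 0 := by positivity
    have hn3' : (n:ℝ) + 2 + 1 ≠ 0 := by positivity
    simp only [zero_add, coeff_C_mul, coeff_add, coeff_sub, fP_coeff, c1, coeff_X_mul_zero]
    have a1 : ∀ k : ℕ, ((k.choose 2 : ℕ) : ℝ) = k * (k - 1) / 2 := fun k => Nat.cast_choose_two ℝ k
    unfold nar
    simp only [zero_add, Nat.reduceAdd, a1, Nat.choose_one_right, Nat.choose_zero_right]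
    push_cast
    field_simp
    ring
  · simp only [coeff_C_mul, coeff_add, coeff_sub, fP_coeff, coeff_X_mul]
    unfold nar
    have hi1 : (i:ℝ) + 1 ≠ 0 := by positivity
    have hi2 : (i:ℝ) + 1 + 1 ≠ 0 := by positivity
    have hi3 : (i:ℝ) + 1 + 1 + 1 ≠ 0 := by positivity
    rw [chR_pascal (n+2) (i+1+1), chR_pascal (n+2) (i+1), chR_pascal (n+1) (i+1+1),
      chR_pascal (n+1) (i+1), chR_pascal (n+1) i, chR_eq (n+1) (i+1+1), chR_eq (n+1) (i+1),
      chR_eq (n+1) i]
    push_cast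
    have hn2' : (n:ℝ) + 1 + 1 ≠ 0 := by positivity
    have hn3' : (n:ℝ) + 2 + 1 ≠ 0 := by positivity
    field_simp
    ring

/-- three term recurrence -/
theorem fN_rec (n : ℕ) (y : ℝ) :
    ((n:ℝ)+4) * fN (n+2) y = (2*n+5) * (1-y) * fN (n+1) y - (n+1) * (1+y)^2 * fN n y := by
  have h := congrArg (fun p : ℝ[X] => p.eval (-y)) (fP_rec n)
  simp only [eval_mul, eval_C, eval_sub, eval_add, eval_one, eval_X] at h
  rw [fN_eq, fN_eq, fN_eq, h]
  ring

theorem fN_contDiff (n : ℕ) : ContDiff ℝ ⊤ (fN n) := by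
  rw [fN_eq']
  exact Polynomial.contDiff_aeval _ _

theorem fN_deriv (n : ℕ) (y : ℝ) : deriv (fN n) y = -((derivative (fP n)).eval (-y)) := by
  rw [fN_eq', Polynomial.deriv]
  simp [derivative_comp]

theorem fN_deriv2 (n : ℕ) (y : ℝ) :
    deriv (deriv (fN n)) y = (derivative (derivative (fP n))).eval (-y) := by
  have h : deriv (fN n) = fun y => ((-(derivative (fP n))).comp (-X)).eval y := by
    funext y
    rw [fN_deriv]
    simp
  rw [h, Polynomial.deriv]
  simp [derivative_comp]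

theorem fP_ode (n : ℕ) :
    (X * derivative (derivative (fP n)) - X * (X * derivative (derivative (fP n))))
      + (C 2 * derivative (fP n) + C ((2:ℝ)*n) * (X * derivative (fP n)))
      - C ((n:ℝ)*(n+1)) * fP n = 0 := by
  ext i
  rcases i with _ | _ | i
  · simp only [coeff_C_mul, coeff_add, coeff_sub, fP_coeff, coeff_X_mul_zero, coeff_derivative,
      coeff_zero]
    unfold nar
    rw [chR_eq (n+1) (0+1), chR_eq (n+1) 0]
    push_cast
    simp
    field_simp
    ring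
  · have c1 : ∀ p : ℝ[X], (X * p).coeff 1 = p.coeff 0 := fun p => coeff_X_mul p 0
    simp only [zero_add, coeff_C_mul, coeff_add, coeff_sub, fP_coeff, c1, coeff_X_mul_zero,
      coeff_derivative, coeff_zero]
    unfold nar
    have e3 := chR_eq (n+1) 2
    have a1 : ∀ k : ℕ, ((k.choose 2 : ℕ) : ℝ) = k * (k - 1) / 2 := fun k => Nat.cast_choose_two ℝ k
    simp only [zero_add, Nat.reduceAdd] at e3 ⊢
    rw [e3]
    simp only [a1, Nat.choose_one_right, Nat.choose_zero_right]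
    push_cast
    field_simp
    ring
  · simp only [coeff_C_mul, coeff_add, coeff_sub, fP_coeff, coeff_X_mul, coeff_derivative,
      coeff_zero]
    unfold nar
    have hi1 : (i:ℝ) + 1 + 1 ≠ 0 := by positivity
    have hi2 : (i:ℝ) + 1 + 1 + 1 ≠ 0 := by positivity
    have hi3 : (i:ℝ) + 1 + 1 + 1 + 1 ≠ 0 := by positivity
    have hn1 : (n:ℝ) + 1 ≠ 0 := by positivity
    rw [chR_eq (n+1) (i+1+1+1), chR_eq (n+1) (i+1+1)]
    push_cast
    field_simp
    ring

/-- hypergeometric equation -/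
theorem fN_ode (n : ℕ) (z : ℝ) :
    z * (1+z) * deriv (deriv (fN n)) z + (2 - 2*n*z) * deriv (fN n) z + n*(n+1) * fN n z = 0 := by
  have h := congrArg (fun p : ℝ[X] => p.eval (-z)) (fP_ode n)
  simp only [eval_mul, eval_C, eval_sub, eval_add, eval_X, eval_zero] at h
  rw [fN_deriv2, fN_deriv, fN_eq]
  linear_combination -h

theorem fP_contig (m : ℕ) :
    fP m - X * fP m = fP (m+1) - C (2/((m:ℝ)+1)) * (X * derivative (fP (m+1))) := by
  have hn1 : (m:ℝ) + 1 ≠ 0 := by positivity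
  have hn2 : (m:ℝ) + 1 + 1 ≠ 0 := by positivity
  ext i
  rcases i with _ | i
  · simp only [coeff_C_mul, coeff_sub, fP_coeff, coeff_X_mul_zero]
    simp [nar]
    field_simp
  · simp only [coeff_C_mul, coeff_sub, fP_coeff, coeff_X_mul, coeff_derivative]
    unfold nar
    have hi1 : (i:ℝ) + 1 ≠ 0 := by positivity
    have hi2 : (i:ℝ) + 1 + 1 ≠ 0 := by positivity
    rw [chR_pascal (m+1) (i+1), chR_pascal (m+1) i, chR_eq (m+1) (i+1), chR_eq (m+1) i]
    push_cast
    field_simp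
    ring

/-- contiguous relation -/
theorem fN_contig (m : ℕ) (y : ℝ) :
    (1+y) * fN m y = fN (m+1) y - 2/((m:ℝ)+1) * y * deriv (fN (m+1)) y := by
  have h := congrArg (fun p : ℝ[X] => p.eval (-y)) (fP_contig m)
  simp only [eval_mul, eval_C, eval_sub, eval_X] at h
  rw [fN_deriv, fN_eq, fN_eq]
  linear_combination h

/-- palindromic -/
theorem fN_inv (n : ℕ) {y : ℝ} (hy : y ≠ 0) : y^n * fN n (1/y) = (-1)^n * fN n y := by
  unfold fN
  rw [Finset.mul_sum, Finset.mul_sum, ← Finset.sum_range_reflect]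
  refine Finset.sum_congr rfl ?_
  intro i hi
  have hi' : i ≤ n := by
    have := Finset.mem_range.1 hi
    omega
  have e : n + 1 - 1 - i = n - i := by omega
  rw [e, nar_symm hi']
  have h1 : y^n = y^(n-i) * y^i := by rw [← pow_add]; congr 1; omega
  have h2 : (-1:ℝ)^n = (-1)^(n-i) * (-1)^i := by rw [← pow_add]; congr 1; omega
  have h3 : (-(1/y))^(n-i) = (-1)^(n-i) / y^(n-i) := by
    rw [show -(1/y) = (-1)/y by ring, div_pow]
  have h4 : (-y)^i = (-1)^i * y^i := by
    rw [show -y = (-1)*y by ring, mul_pow]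
  rw [h3, h4, h1, h2]
  have h5 : ((-1:ℝ)^i) * (-1)^i = 1 := by
    rw [← mul_pow]; simp
  have hyp : y^(n-i) ≠ 0 := pow_ne_zero _ hy
  have h6 : y^(n-i) * y^i * (nar n i * ((-1)^(n-i) / y^(n-i))) = nar n i * (-1)^(n-i) * y^i := by
    field_simp
  rw [h6]
  linear_combination (-(nar n i * (-1)^(n-i) * y^i)) * h5

end BMoll
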