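import Pool.Agent.Lib.MP_a93a81_co.KerForm
import Pool.Agent.Lib.MP_a93a81_co.NarAlg

/-!
# Module IBP : integration by parts in `R`
-/

namespace BMoll

open MeasureTheory intervalIntegral

theorem Eh_pos_ibp {s : ℝ} (hs : 0 < s) (R : ℝ) : 0 < Eh R s := by
  unfold Eh
  rcases eq_or_ne R 1 with h | h
  · subst h; norm_num
  · have h1 : 0 < (1-R)^2 := by
      have : 1 - R ≠ 0 := sub_ne_zero.mpr (Ne.symm h)
      positivity
    have h2 : 0 < (1-R)^2 * s := mul_pos h1 hs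
    nlinarith [sq_nonneg (1+R)]

theorem Fh_pos_ibp {s : ℝ} (hs : 0 < s) {R : ℝ} (hR : 0 ≤ R) : 0 < Fh R s := by
  unfold Fh
  rcases hR.eq_or_lt with h | h
  · rw [← h]; simpa using hs
  · have : 0 ≤ (1-R)^2 * s := mul_nonneg (sq_nonneg _) hs.le
    linarith

/-- the smooth factor -/
noncomputable def psiI (m : ℕ) (s R : ℝ) : ℝ :=
  (Eh R s)^(-(2*m+3/2) : ℝ) * (Fh R s)^(-(1/2) : ℝ)

/-- the open set where everything is smooth -/
def UI (s : ℝ) : Set ℝ := {R | 0 < Fh R s}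

theorem isOpen_UI (s : ℝ) : IsOpen (UI s) := by
  unfold UI Fh
  exact isOpen_lt continuous_const (by fun_prop)

theorem Icc_sub_UI {s : ℝ} (hs : 0 < s) {R : ℝ} (hR : R ∈ Set.Icc (0:ℝ) 1) : R ∈ UI s :=
  Fh_pos_ibp hs hR.1

theorem psiI_smooth (m : ℕ) {s : ℝ} (hs : 0 < s) {R : ℝ} (hR : R ∈ UI s) (n : WithTop ℕ∞) :
    ContDiffAt ℝ n (psiI m s) R := by
  unfold psiI
  apply ContDiffAt.mul
  · apply ContDiffAt.rpow_const_of_ne
    · unfold Eh; fun_prop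
    · exact (Eh_pos_ibp hs R).ne'
  · apply ContDiffAt.rpow_const_of_ne
    · unfold Fh; fun_prop
    · exact (show 0 < Fh R s from hR).ne'

/-- `φ = (1/2)(1-R)^2 s Fh ψ` -/
noncomputable def phiI (m : ℕ) (s R : ℝ) : ℝ := (1-R)^2 * (1/2 * s * Fh R s * psiI m s R)

theorem chiI_smooth (m : ℕ) {s : ℝ} (hs : 0 < s) {R : ℝ} (hR : R ∈ UI s) (n : WithTop ℕ∞) :
    ContDiffAt ℝ n (fun R => 1/2 * s * Fh R s * psiI m s R) R := by
  have h := psiI_smooth m hs hR n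
  have h2 : ContDiffAt ℝ n (fun R => 1/2 * s * Fh R s) R := by unfold Fh; fun_prop
  exact h2.mul h

theorem phiI_smooth (m : ℕ) {s : ℝ} (hs : 0 < s) {R : ℝ} (hR : R ∈ UI s) (n : WithTop ℕ∞) :
    ContDiffAt ℝ n (phiI m s) R := by
  have h := chiI_smooth m hs hR n
  have h2 : ContDiffAt ℝ n (fun R : ℝ => (1-R)^2) R := by fun_prop
  exact h2.mul h

theorem G0_eq (m : ℕ) (R s : ℝ) : G0 m R s = R^(2*m+2) * psiI m s R := by
  unfold G0 psiI; ring

theorem F0_eq {m : ℕ} (hm : 1 ≤ m) (R s : ℝ) : F0 m R s = R^(2*m) * phiI m s R := by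
  unfold F0
  rw [G0_eq]
  unfold phiI
  rcases eq_or_ne R 0 with h | h
  · subst h
    have : (2*m) ≠ 0 := by omega
    simp [this]
  · have : R^(2*m+2) = R^(2*m) * R^2 := by ring
    rw [this]
    field_simp

/-- derivative of `R^(2m) φ` -/
theorem hasDerivAt_pow_mul {m : ℕ} (hm : 1 ≤ m) {U : Set ℝ} (hU : IsOpen U) {φ H : ℝ → ℝ}
    (hH : ∀ R ∈ U, H R = R^(2*m) * φ R) (hφ : ∀ R ∈ U, DifferentiableAt ℝ φ R) {R : ℝ}
    (hR : R ∈ U) :
    HasDerivAt H (R^(2*m-1) * (2*m * φ R + R * deriv φ R)) R := by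
  have h1 : HasDerivAt (fun R => R^(2*m) * φ R)
      (((2*m : ℕ) : ℝ) * R^(2*m-1) * φ R + R^(2*m) * deriv φ R) R :=
    (hasDerivAt_pow (2*m) R).mul (hφ R hR).hasDerivAt
  have h2 : H =ᶠ[nhds R] (fun R => R^(2*m) * φ R) := by
    filter_upwards [hU.mem_nhds hR] with x hx using hH x hx
  refine (h1.congr_of_eventuallyEq h2).congr_deriv ?_
  have : R^(2*m) = R^(2*m-1) * R := by
    rw [← pow_succ]; congr 1; omega
  rw [this]; push_cast; ring

theorem Aop_pow_mul {m : ℕ} (hm : 1 ≤ m) {U : Set ℝ} (hU : IsOpen U) {φ H : ℝ → ℝ}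
    (hH : ∀ R ∈ U, H R = R^(2*m) * φ R) (hφ : ∀ R ∈ U, DifferentiableAt ℝ φ R) {R : ℝ}
    (hR : R ∈ U) :
    Aop H R = R^(2*m) * (2*m * φ R + R * deriv φ R) := by
  unfold Aop
  rw [(hasDerivAt_pow_mul hm hU hH hφ hR).deriv]
  have : R^(2*m) = R * R^(2*m-1) := by
    rw [← pow_succ']; congr 1; omega
  rw [this]; ring

/-- `R^(2i) H / R` for `H = R^(2m) φ` -/
theorem pow_div {m : ℕ} (hm : 1 ≤ m) (i : ℕ) (R x : ℝ) :
    R^(2*i) * (R^(2*m) * x) / R = R^(2*i+2*m-1) * x := by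
  rcases eq_or_ne R 0 with h | h
  · subst h
    have : (2*i+2*m-1) ≠ 0 := by omega
    simp [this]
  · have : R^(2*i) * R^(2*m) = R^(2*i+2*m-1) * R := by
      rw [← pow_add, ← pow_succ]; congr 1; omega
    rw [← mul_assoc, this]; field_simp

theorem int_pow_mul {m : ℕ} (hm : 1 ≤ m) {φ H : ℝ → ℝ}
    (hH : ∀ R ∈ Set.Icc (0:ℝ) 1, H R = R^(2*m) * φ R) (hφ : ContinuousOn φ (Set.Icc 0 1))
    (i : ℕ) : IntervalIntegrable (fun R => R^(2*i) * H R / R) volume 0 1 := by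
  apply ContinuousOn.intervalIntegrable
  rw [Set.uIcc_of_le zero_le_one]
  have : ContinuousOn (fun R => R^(2*i+2*m-1) * φ R) (Set.Icc 0 1) := by fun_prop
  refine this.congr (fun R hR => ?_)
  simp only
  rw [hH R hR, pow_div hm]

theorem ibp_step {m : ℕ} (hm : 1 ≤ m) {U : Set ℝ} (hU : IsOpen U)
    (hsub : Set.Icc (0:ℝ) 1 ⊆ U) {φ H : ℝ → ℝ}
    (hH : ∀ R ∈ U, H R = R^(2*m) * φ R) (hφ : ∀ R ∈ U, ContDiffAt ℝ 1 φ R) (h1 : φ 1 = 0)
    (i : ℕ) :
    ∫ R in (0:ℝ)..1, R^(2*i) * Aop H R / R = - (2*i) * ∫ R in (0:ℝ)..1, R^(2*i) * H R / R := by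
  have hd : ∀ R ∈ U, DifferentiableAt ℝ φ R := fun R hR => (hφ R hR).differentiableAt one_ne_zero
  have hcφ : ContinuousOn φ (Set.Icc 0 1) := fun R hR =>
    (hd R (hsub hR)).continuousAt.continuousWithinAt
  have hcd : ContinuousOn (deriv φ) (Set.Icc 0 1) := by
    have : ContDiffOn ℝ 1 φ U := fun R hR => (hφ R hR).contDiffWithinAt
    exact (this.continuousOn_deriv_of_isOpen hU le_rfl).mono hsub
  set φ1 : ℝ → ℝ := fun R => 2*m * φ R + R * deriv φ R with hφ1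
  have hcφ1 : ContinuousOn φ1 (Set.Icc 0 1) := by
    rw [hφ1]; fun_prop
  have hA : ∀ R ∈ Set.Icc (0:ℝ) 1, Aop H R = R^(2*m) * φ1 R := fun R hR =>
    Aop_pow_mul hm hU hH hd (hsub hR)
  -- derivative of R^(2i) H
  have hderiv : ∀ R ∈ Set.uIcc (0:ℝ) 1, HasDerivAt (fun R => R^(2*i) * H R)
      (2*i * (R^(2*i) * H R / R) + R^(2*i) * Aop H R / R) R := by
    intro R hR
    rw [Set.uIcc_of_le zero_le_one] at hR
    have h2 : HasDerivAt (fun R => R^(2*i) * H R)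
      (((2*i : ℕ) : ℝ) * R^(2*i-1) * H R + R^(2*i) * (R^(2*m-1) * φ1 R)) R :=
      (hasDerivAt_pow (2*i) R).mul (hasDerivAt_pow_mul hm hU hH hd (hsub hR))
    refine h2.congr_deriv ?_
    rw [hA R hR, hH R (hsub hR), pow_div hm, pow_div hm]
    have e1 : R^(2*i) * (R^(2*m-1) * φ1 R) = R^(2*i+2*m-1) * φ1 R := by
      rw [← mul_assoc, ← pow_add]; congr 2; omega
    have e2 : ((2*i : ℕ) : ℝ) * R^(2*i-1) * (R^(2*m) * φ R) = 2*i * (R^(2*i+2*m-1) * φ R) := by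
      rcases Nat.eq_zero_or_pos i with h | h
      · subst h; simp
      · have : R^(2*i-1) * R^(2*m) = R^(2*i+2*m-1) := by
          rw [← pow_add]; congr 1; omega
        rw [← this]; push_cast; ring
    rw [e1, e2]
  have hi1 := int_pow_mul hm (fun R hR => hH R (hsub hR)) hcφ i
  have hi2 := int_pow_mul hm hA hcφ1 i
  have hint : IntervalIntegrable
      (fun R => 2*i * (R^(2*i) * H R / R) + R^(2*i) * Aop H R / R) volume 0 1 :=
    (hi1.const_mul _).add hi2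
  have hFTC := intervalIntegral.integral_eq_sub_of_hasDerivAt hderiv hint
  rw [intervalIntegral.integral_add (hi1.const_mul _) hi2, intervalIntegral.integral_const_mul]
    at hFTC
  have hH1 : H 1 = 0 := by
    rw [hH 1 (hsub ⟨zero_le_one, le_rfl⟩), h1, mul_zero]
  have hH0 : H 0 = 0 := by
    rw [hH 0 (hsub ⟨le_rfl, zero_le_one⟩)]
    have : 2*m ≠ 0 := by omega
    simp [this]
  rw [hH1, hH0] at hFTC
  simp only [mul_zero, sub_zero] at hFTC
  linarith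

theorem G0_int {m : ℕ} {s : ℝ} (hs : 0 < s) (hs1 : s ≤ 1) (i : ℕ) :
    IntervalIntegrable (fun R => R^(2*i) * G0 m R s / R) volume 0 1 := by
  have _ := hs1
  have h := int_pow_mul (m := m+1) (φ := psiI m s) (H := fun R => G0 m R s) (by omega)
    (fun R _ => by rw [G0_eq]; ring) (fun R hR =>
      (psiI_smooth m hs (Icc_sub_UI hs hR) 0).continuousAt.continuousWithinAt) i
  exact h

theorem F0_int {m : ℕ} (hm : 1 ≤ m) {s : ℝ} (hs : 0 < s) (hs1 : s ≤ 1) (i : ℕ) :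
    IntervalIntegrable (fun R => R^(2*i) * F0 m R s / R) volume 0 1 := by
  have _ := hs1
  have h := int_pow_mul (m := m) (φ := phiI m s) (H := fun R => F0 m R s) hm
    (fun R _ => F0_eq hm R s) (fun R hR =>
      (phiI_smooth m hs (Icc_sub_UI hs hR) 0).continuousAt.continuousWithinAt) i
  exact h

/-- `φ₁ = 2m φ + R φ'` -/
noncomputable def phiI1 (m : ℕ) (s R : ℝ) : ℝ := 2*m * phiI m s R + R * deriv (phiI m s) R

theorem phiI_contDiffOn (m : ℕ) {s : ℝ} (hs : 0 < s) (n : WithTop ℕ∞) :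
    ContDiffOn ℝ n (phiI m s) (UI s) := fun _ hR => (phiI_smooth m hs hR n).contDiffWithinAt

theorem phiI1_smooth (m : ℕ) {s : ℝ} (hs : 0 < s) {R : ℝ} (hR : R ∈ UI s) (n : ℕ) :
    ContDiffAt ℝ n (phiI1 m s) R := by
  have h1 : ContDiffOn ℝ n (deriv (phiI m s)) (UI s) :=
    (phiI_contDiffOn m hs (n+1)).deriv_of_isOpen (isOpen_UI s) le_rfl
  have h2 : ContDiffAt ℝ n (deriv (phiI m s)) R := h1.contDiffAt ((isOpen_UI s).mem_nhds hR)
  have h3 := phiI_smooth m hs hR n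
  unfold phiI1
  fun_prop

theorem phiI_one (m : ℕ) (s : ℝ) : phiI m s 1 = 0 := by
  simp [phiI]

theorem deriv_phiI_one (m : ℕ) {s : ℝ} (hs : 0 < s) : deriv (phiI m s) 1 = 0 := by
  have hU : (1:ℝ) ∈ UI s := Icc_sub_UI hs ⟨zero_le_one, le_rfl⟩
  have h := (chiI_smooth m hs hU 1).differentiableAt one_ne_zero
  have h2 : HasDerivAt (fun R : ℝ => (1-R)^2) 0 1 := by
    have := ((hasDerivAt_id (1:ℝ)).const_sub 1).pow 2
    refine this.congr_deriv ?_
    simp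
  have h3 := h2.mul h.hasDerivAt
  have h4 : HasDerivAt (phiI m s) _ 1 := h3
  rw [h4.deriv]
  simp

theorem phiI1_one (m : ℕ) {s : ℝ} (hs : 0 < s) : phiI1 m s 1 = 0 := by
  simp [phiI1, phiI_one, deriv_phiI_one m hs]

theorem A1_eq {m : ℕ} (hm : 1 ≤ m) {s : ℝ} (hs : 0 < s) {R : ℝ} (hR : R ∈ UI s) :
    Aop (fun r => F0 m r s) R = R^(2*m) * phiI1 m s R :=
  Aop_pow_mul hm (isOpen_UI s) (fun R _ => F0_eq hm R s)
    (fun R hR => (phiI_smooth m hs hR 1).differentiableAt one_ne_zero) hR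

/-- `φ₂ = 2m φ₁ + R φ₁'` -/
noncomputable def phiI2 (m : ℕ) (s R : ℝ) : ℝ := 2*m * phiI1 m s R + R * deriv (phiI1 m s) R

theorem A2_eq {m : ℕ} (hm : 1 ≤ m) {s : ℝ} (hs : 0 < s) {R : ℝ} (hR : R ∈ UI s) :
    Aop (Aop (fun r => F0 m r s)) R = R^(2*m) * phiI2 m s R :=
  Aop_pow_mul hm (isOpen_UI s) (fun R hR => A1_eq hm hs hR)
    (fun R hR => (phiI1_smooth m hs hR 1).differentiableAt one_ne_zero) hR

theorem phiI2_cont (m : ℕ) {s : ℝ} (hs : 0 < s) : ContinuousOn (phiI2 m s) (Set.Icc 0 1) := by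
  have h0 : ContDiffOn ℝ 1 (phiI1 m s) (UI s) := fun R hR =>
    (phiI1_smooth m hs hR 1).contDiffWithinAt
  have h1 : ContinuousOn (deriv (phiI1 m s)) (Set.Icc 0 1) :=
    (h0.continuousOn_deriv_of_isOpen (isOpen_UI s) le_rfl).mono (fun R hR => Icc_sub_UI hs hR)
  have h2 : ContinuousOn (phiI1 m s) (Set.Icc 0 1) :=
    h0.continuousOn.mono (fun R hR => Icc_sub_UI hs hR)
  unfold phiI2
  fun_prop

theorem phiI1_cont (m : ℕ) {s : ℝ} (hs : 0 < s) : ContinuousOn (phiI1 m s) (Set.Icc 0 1) := by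
  have h0 : ContDiffOn ℝ 1 (phiI1 m s) (UI s) := fun R hR =>
    (phiI1_smooth m hs hR 1).contDiffWithinAt
  exact h0.continuousOn.mono (fun R hR => Icc_sub_UI hs hR)

theorem A1_int {m : ℕ} (hm : 1 ≤ m) {s : ℝ} (hs : 0 < s) (i : ℕ) :
    IntervalIntegrable (fun R => R^(2*i) * Aop (fun r => F0 m r s) R / R) volume 0 1 :=
  int_pow_mul hm (fun _ hR => A1_eq hm hs (Icc_sub_UI hs hR)) (phiI1_cont m hs) i

theorem A2_int {m : ℕ} (hm : 1 ≤ m) {s : ℝ} (hs : 0 < s) (i : ℕ) :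
    IntervalIntegrable (fun R => R^(2*i) * Aop (Aop (fun r => F0 m r s)) R / R) volume 0 1 :=
  int_pow_mul hm (fun _ hR => A2_eq hm hs (Icc_sub_UI hs hR)) (phiI2_cont m hs) i

theorem Ks_split (m : ℕ) (s : ℝ) (i : ℕ) (R : ℝ) :
    R^(2*i) * Ks m s R / R = R^(2*i) * G0 m R s / R
      + ((2*m/(4*(m+1))) * (R^(2*i) * Aop (fun r => F0 m r s) R / R)
        + (1/(4*((m:ℝ)+1))) * (R^(2*i) * Aop (Aop (fun r => F0 m r s)) R / R)) := by
  unfold Ks
  have : (4*((m:ℝ)+1)) ≠ 0 := by positivity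
  rcases eq_or_ne R 0 with h | h
  · subst h; simp
  · field_simp

theorem Ks_int {m : ℕ} (hm : 1 ≤ m) {s : ℝ} (hs : 0 < s) (hs1 : s ≤ 1) (i : ℕ) :
    IntervalIntegrable (fun R => R^(2*i) * Ks m s R / R) volume 0 1 := by
  simp only [Ks_split]
  exact (G0_int hs hs1 i).add (((A1_int hm hs i).const_mul _).add ((A2_int hm hs i).const_mul _))

theorem ibp {m : ℕ} (hm : 1 ≤ m) {s : ℝ} (hs : 0 < s) (hs1 : s ≤ 1) (i : ℕ) :
    (∫ R in (0:ℝ)..1, R^(2*i) * G0 m R s / R)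
      - i * ((m:ℝ) - i)/(m+1) * (∫ R in (0:ℝ)..1, R^(2*i) * F0 m R s / R)
      = ∫ R in (0:ℝ)..1, R^(2*i) * Ks m s R / R := by
  have e1 := ibp_step hm (isOpen_UI s) (fun R hR => Icc_sub_UI hs hR)
    (φ := phiI m s) (H := fun r => F0 m r s) (fun R _ => F0_eq hm R s)
    (fun R hR => phiI_smooth m hs hR 1) (phiI_one m s) i
  have e2 := ibp_step hm (isOpen_UI s) (fun R hR => Icc_sub_UI hs hR)
    (φ := phiI1 m s) (H := Aop (fun r => F0 m r s)) (fun R hR => A1_eq hm hs hR)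
    (fun R hR => phiI1_smooth m hs hR 1) (phiI1_one m hs) i
  simp only [Ks_split]
  rw [intervalIntegral.integral_add (G0_int hs hs1 i)
      (((A1_int hm hs i).const_mul _).add ((A2_int hm hs i).const_mul _)),
    intervalIntegral.integral_add ((A1_int hm hs i).const_mul _) ((A2_int hm hs i).const_mul _),
    intervalIntegral.integral_const_mul, intervalIntegral.integral_const_mul, e2, e1]
  have : ((m:ℝ)+1) ≠ 0 := by positivity
  field_simp
  ring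

end BMoll
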