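import Pool.Agent.Lib.MP_a93a81_co.DoubleInt
import Pool.Agent.Lib.MP_a93a81_co.Ibp

/-!
# Module REP : representation of `L(d(m))`
-/

namespace BMoll

open MeasureTheory intervalIntegral Set

/-- `ibp` under the outer weight, for `s` in the closed interval away from `0` -/
theorem rep_comb {m : ℕ} (hm : 1 ≤ m) (i : ℕ) {s : ℝ} (hs : s ∈ Ioc (0:ℝ) 1) :
    (s*(1-s))^(-(1/2) : ℝ) * (∫ R in (0:ℝ)..1, R^(2*i) * Ks m s R / R)
      = (s*(1-s))^(-(1/2) : ℝ) * (∫ R in (0:ℝ)..1, R^(2*i) * G0 m R s / R)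
        - i * ((m:ℝ) - i)/(m+1) * ((s*(1-s))^(-(1/2) : ℝ) *
            ∫ R in (0:ℝ)..1, R^(2*i) * F0 m R s / R) := by
  rw [← ibp hm hs.1 hs.2 i]
  ring

theorem rep_int {m : ℕ} (hm : 2 ≤ m) (i : ℕ) :
    IntervalIntegrable (fun s => (s*(1-s))^(-(1/2) : ℝ) *
      ∫ R in (0:ℝ)..1, R^(2*i) * Ks m s R / R) volume 0 1 := by
  have h := (G0_outer m i).sub ((F0_outer m i (by omega)).const_mul (i * ((m:ℝ) - i)/(m+1)))
  refine h.congr ?_
  rw [uIoc_of_le zero_le_one]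
  intro s hs
  simp only
  rw [rep_comb (by omega) i hs]

theorem rep_lin {m : ℕ} (hm : 2 ≤ m) (i : ℕ) :
    ∫ s in (0:ℝ)..1, (s*(1-s))^(-(1/2) : ℝ) * ∫ R in (0:ℝ)..1, R^(2*i) * Ks m s R / R
    = (∫ s in (0:ℝ)..1, (s*(1-s))^(-(1/2) : ℝ) * ∫ R in (0:ℝ)..1, R^(2*i) * G0 m R s / R)
      - i * ((m:ℝ) - i)/(m+1) *
        ∫ s in (0:ℝ)..1, (s*(1-s))^(-(1/2) : ℝ) * ∫ R in (0:ℝ)..1, R^(2*i) * F0 m R s / R := by
  rw [← intervalIntegral.integral_const_mul, ← intervalIntegral.integral_sub (G0_outer m i)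
    ((F0_outer m i (by omega)).const_mul _)]
  refine intervalIntegral.integral_congr_ae (Filter.Eventually.of_forall fun s hs => ?_)
  rw [uIoc_of_le zero_le_one] at hs
  exact rep_comb (by omega) i hs

theorem rep_add {m : ℕ} (hm : 1 ≤ m) (i : ℕ) :
    ∫ s in (0:ℝ)..1, (s*(1-s))^(-(1/2) : ℝ) *
      ∫ R in (0:ℝ)..1, R^(2*i) * (G0 m R s + F0 m R s) / R
    = (∫ s in (0:ℝ)..1, (s*(1-s))^(-(1/2) : ℝ) * ∫ R in (0:ℝ)..1, R^(2*i) * G0 m R s / R)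
      + ∫ s in (0:ℝ)..1, (s*(1-s))^(-(1/2) : ℝ) * ∫ R in (0:ℝ)..1, R^(2*i) * F0 m R s / R := by
  rw [← intervalIntegral.integral_add (G0_outer m i) (F0_outer m i hm)]
  refine intervalIntegral.integral_congr_ae (Filter.Eventually.of_forall fun s hs => ?_)
  rw [uIoc_of_le zero_le_one] at hs
  have h1 : ∫ R in (0:ℝ)..1, R^(2*i) * (G0 m R s + F0 m R s) / R
      = (∫ R in (0:ℝ)..1, R^(2*i) * G0 m R s / R)
        + ∫ R in (0:ℝ)..1, R^(2*i) * F0 m R s / R := by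
    rw [← intervalIntegral.integral_add (G0_int hs.1 hs.2 i) (F0_int hm hs.1 hs.2 i)]
    refine intervalIntegral.integral_congr fun R _ => ?_
    ring
  rw [h1, mul_add]

theorem rep {m : ℕ} (hm : 2 ≤ m) : ∃ κ : ℝ, 0 < κ ∧ ∀ i ≤ m,
    Lop (bm m) i = κ * nar m i * ∫ s in (0:ℝ)..1, (s*(1-s))^(-(1/2) : ℝ) *
      ∫ R in (0:ℝ)..1, R^(2*i) * Ks m s R / R := by
  obtain ⟨κ, hκ, hbm⟩ := bm_beta m
  refine ⟨4*κ^2, by positivity, fun i hi => ?_⟩
  rw [rep_lin hm i]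
  set IG := ∫ s in (0:ℝ)..1, (s*(1-s))^(-(1/2) : ℝ) * ∫ R in (0:ℝ)..1, R^(2*i) * G0 m R s / R
    with hIG
  set IF := ∫ s in (0:ℝ)..1, (s*(1-s))^(-(1/2) : ℝ) * ∫ R in (0:ℝ)..1, R^(2*i) * F0 m R s / R
    with hIF
  have hsq : XI m i ^ 2 = 4 * IG := XI_sq m i
  have hnar := nar_sq m i
  unfold Lop at hnar ⊢
  rcases Nat.eq_zero_or_pos i with h0 | h0
  · subst h0
    simp only [if_true, zero_mul, sub_zero] at hnar ⊢
    rw [hbm 0 (by omega), ← hnar]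
    simp only [Nat.cast_zero, zero_mul, zero_div, sub_zero]
    calc (κ * (m.choose 0 : ℕ) * XI m 0)^2 = κ^2 * ((m.choose 0 : ℕ):ℝ)^2 * XI m 0 ^ 2 := by ring
      _ = _ := by rw [hsq]; ring
  · rw [if_neg (by omega)] at hnar ⊢
    have hmul : XI m (i-1) * XI m (i+1) = 4 * (IG + IF) := by
      rw [XI_mul m i (by omega) h0, rep_add (by omega) i]
    have hoff := nar_off (n := m) h0
    have hnext : bm m (i+1) = κ * (m.choose (i+1) : ℕ) * XI m (i+1) := by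
      rcases Nat.lt_or_ge i m with h | h
      · exact hbm (i+1) (by omega)
      · rw [bm_zero (by omega), Nat.choose_eq_zero_of_lt (by omega)]
        simp
    rw [hbm i hi, hbm (i-1) (by omega), hnext]
    calc (κ * (m.choose i : ℕ) * XI m i)^2
          - κ * (m.choose (i-1) : ℕ) * XI m (i-1) * (κ * (m.choose (i+1) : ℕ) * XI m (i+1))
        = κ^2 * (((m.choose i : ℕ):ℝ)^2 * XI m i ^ 2
          - (((m.choose (i-1) : ℕ) : ℝ) * (m.choose (i+1) : ℕ)) * (XI m (i-1) * XI m (i+1))) := by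
          ring
      _ = 4 * κ^2 * (((m.choose i : ℕ):ℝ)^2 - ((m.choose (i-1) : ℕ) : ℝ) * (m.choose (i+1) : ℕ))
            * IG - 4 * κ^2 * (((m.choose (i-1) : ℕ) : ℝ) * (m.choose (i+1) : ℕ)) * IF := by
          rw [hsq, hmul]; ring
      _ = _ := by
          rw [hnar, hoff]
          ring

end BMoll
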