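import Mathlib

/-!
# Module BERN : a kernel-checkable nonnegativity test for polynomials on the unit square

Horner form of the Bernstein transformation.  For `p(x) = ∑_{k≤N} a_k x^k` the homogeneous
polynomial `H_N(x,y) = ∑ a_k x^k (x+y)^{N-k}` is computed by `H_0 = a_0`,
`H_{k+1} = (x+y) H_k + a_{k+1} x^{k+1}`; on `x + y = 1` it equals `p(x)`.  So if all coefficients of
`H_N` are `≥ 0` then `p ≥ 0` on `[0,1]` (`N` may exceed the degree: degree elevation).
A homogeneous polynomial of degree `k` is stored as the list `[c_0, …, c_k]`,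
`c_i` the coefficient of `x^i y^{k-i}`.
-/

namespace BMoll

/-- value of a coefficient list `[a_0, a_1, …]` at `x` -/
def ev1 (a : List ℤ) (x : ℝ) : ℝ := a.foldr (fun (c : ℤ) (r : ℝ) => (c:ℝ) + x * r) 0

/-- value of `∑ a[k][l] t^k s^l` -/
def ev2 (a : List (List ℤ)) (t s : ℝ) : ℝ :=
  a.foldr (fun (c : List ℤ) (r : ℝ) => ev1 c s + t * r) 0

/-- pointwise sum of lists, keeping the longer tail -/
def ladd : List ℤ → List ℤ → List ℤ
  | [], b => b
  | a, [] => a
  | x :: a, y :: b => (x + y) :: ladd a b

/-- pointwise sum of lists of lists -/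
def lladd : List (List ℤ) → List (List ℤ) → List (List ℤ)
  | [], b => b
  | a, [] => a
  | x :: a, y :: b => ladd x y :: lladd a b

/-- one Horner step in one variable: `H ↦ (x+y) H + c x^{deg H + 1}` -/
def hstep (H : List ℤ) (c : ℤ) : List ℤ := ladd (0 :: H) (H ++ [c])

/-- `e` elevation steps -/
def helev (H : List ℤ) : ℕ → List ℤ
  | 0 => H
  | e+1 => hstep (helev H e) 0

/-- Horner scheme: `H_{k+1} = (x+y) H_k + a_{k+1} x^{k+1}`; the remaining `e` steps elevate the
degree. -/
def hrun (H : List ℤ) (a : List ℤ) (e : ℕ) : List ℤ :=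
  match a with
  | [] => helev H e
  | c :: a => hrun (hstep H c) a e

/-- one Horner step in the first variable, coefficients are lists in the second variable -/
def hstep2 (H : List (List ℤ)) (c : List ℤ) : List (List ℤ) := lladd ([] :: H) (H ++ [c])

def helev2 (H : List (List ℤ)) : ℕ → List (List ℤ)
  | 0 => H
  | e+1 => hstep2 (helev2 H e) []

def hrun2 (H : List (List ℤ)) (a : List (List ℤ)) (e : ℕ) : List (List ℤ) :=
  match a with
  | [] => helev2 H e
  | c :: a => hrun2 (hstep2 H c) a e

/-- nonnegativity test in one variable with `e` elevation steps -/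
def bcheck1 (e : ℕ) : List ℤ → Bool
  | [] => true
  | c :: a => (hrun [c] a e).all (fun z => decide (0 ≤ z))

/-- the test: `N` and `M` are the numbers of ELEVATION steps in `t` and in `s`. -/
def bcheck (N M : ℕ) : List (List ℤ) → Bool
  | [] => true
  | c :: a => (hrun2 [c] a N).all (bcheck1 M)

/-- value of a homogeneous form whose coefficients are read through `φ` -/
def evg {α : Type} (φ : α → ℝ) (x y : ℝ) : List α → ℝ
  | [] => 0
  | c :: H => φ c * y ^ H.length + x * evg φ x y H

theorem evg_append {α : Type} (φ : α → ℝ) (x y : ℝ) (H : List α) (c : α) :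
    evg φ x y (H ++ [c]) = y * evg φ x y H + φ c * x ^ H.length := by
  induction H with
  | nil => simp [evg]
  | cons d H ih =>
    simp only [List.cons_append, evg, ih, List.length_append, List.length_cons,
      List.length_nil, Nat.zero_add]
    ring

theorem evg_nonneg {α : Type} (φ : α → ℝ) {x y : ℝ} (hx : 0 ≤ x) (hy : 0 ≤ y) (H : List α)
    (h : ∀ c ∈ H, 0 ≤ φ c) : 0 ≤ evg φ x y H := by
  induction H with
  | nil => simp [evg]
  | cons d H ih =>
    have h1 : 0 ≤ φ d := h d (by simp)
    have h2 := ih (fun c hc => h c (by simp [hc]))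
    simp only [evg]
    positivity

theorem ev1_nil (x : ℝ) : ev1 [] x = 0 := rfl
theorem ev1_cons (c : ℤ) (a : List ℤ) (x : ℝ) : ev1 (c :: a) x = c + x * ev1 a x := rfl
theorem ev2_nil (t s : ℝ) : ev2 [] t s = 0 := rfl
theorem ev2_cons (c : List ℤ) (a : List (List ℤ)) (t s : ℝ) :
    ev2 (c :: a) t s = ev1 c s + t * ev2 a t s := rfl

theorem ladd_nil_right (a : List ℤ) : ladd a [] = a := by cases a <;> rfl
theorem lladd_nil_right (a : List (List ℤ)) : lladd a [] = a := by cases a <;> rfl

theorem ladd_length (a b : List ℤ) (h : a.length = b.length) : (ladd a b).length = b.length := by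
  induction a generalizing b with
  | nil => cases b <;> simp_all [ladd]
  | cons x a ih =>
    cases b with
    | nil => simp at h
    | cons y b =>
      have := ih b (by simpa using h)
      simp [ladd, this]

theorem lladd_length (a b : List (List ℤ)) (h : a.length = b.length) :
    (lladd a b).length = b.length := by
  induction a generalizing b with
  | nil => cases b <;> simp_all [lladd]
  | cons x a ih =>
    cases b with
    | nil => simp at h
    | cons y b =>
      have := ih b (by simpa using h)
      simp [lladd, this]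

theorem ev1_ladd (a b : List ℤ) (x : ℝ) : ev1 (ladd a b) x = ev1 a x + ev1 b x := by
  induction a generalizing b with
  | nil => simp [ladd, ev1_nil]
  | cons c a ih =>
    cases b with
    | nil => simp [ladd, ev1_nil]
    | cons d b =>
      simp only [ladd, ev1_cons, ih b]
      push_cast
      ring

theorem evg_ladd (x y : ℝ) (a b : List ℤ) (h : a.length = b.length) :
    evg (fun z : ℤ => (z:ℝ)) x y (ladd a b)
      = evg (fun z : ℤ => (z:ℝ)) x y a + evg (fun z : ℤ => (z:ℝ)) x y b := by
  induction a generalizing b with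
  | nil =>
    cases b with
    | nil => simp [ladd, evg]
    | cons d b => simp at h
  | cons c a ih =>
    cases b with
    | nil => simp at h
    | cons d b =>
      have h' : a.length = b.length := by simpa using h
      simp only [ladd, evg, ih b h', ladd_length a b h', h']
      push_cast
      ring

theorem evg_lladd (s x y : ℝ) (a b : List (List ℤ)) (h : a.length = b.length) :
    evg (fun z : List ℤ => ev1 z s) x y (lladd a b)
      = evg (fun z : List ℤ => ev1 z s) x y a + evg (fun z : List ℤ => ev1 z s) x y b := by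
  induction a generalizing b with
  | nil =>
    cases b with
    | nil => simp [lladd, evg]
    | cons d b => simp at h
  | cons c a ih =>
    cases b with
    | nil => simp at h
    | cons d b =>
      have h' : a.length = b.length := by simpa using h
      simp only [lladd, evg, ih b h', lladd_length a b h', h', ev1_ladd]
      ring

theorem hstep_length (H : List ℤ) (c : ℤ) : (hstep H c).length = H.length + 1 := by
  unfold hstep
  rw [ladd_length _ _ (by simp)]
  simp

theorem hstep2_length (H : List (List ℤ)) (c : List ℤ) :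
    (hstep2 H c).length = H.length + 1 := by
  unfold hstep2
  rw [lladd_length _ _ (by simp)]
  simp

theorem evg_hstep {x y : ℝ} (hxy : x + y = 1) (H : List ℤ) (c : ℤ) :
    evg (fun z : ℤ => (z:ℝ)) x y (hstep H c)
      = evg (fun z : ℤ => (z:ℝ)) x y H + c * x ^ H.length := by
  unfold hstep
  rw [evg_ladd x y _ _ (by simp), evg_append]
  have hy : y = 1 - x := by linarith
  simp only [evg, hy]
  push_cast
  ring

theorem evg_hstep2 (s : ℝ) {x y : ℝ} (hxy : x + y = 1) (H : List (List ℤ)) (c : List ℤ) :
    evg (fun z : List ℤ => ev1 z s) x y (hstep2 H c)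
      = evg (fun z : List ℤ => ev1 z s) x y H + ev1 c s * x ^ H.length := by
  unfold hstep2
  rw [evg_lladd s x y _ _ (by simp), evg_append]
  have hy : y = 1 - x := by linarith
  simp only [evg, hy, ev1_nil]
  ring

theorem evg_helev {x y : ℝ} (hxy : x + y = 1) (H : List ℤ) (e : ℕ) :
    evg (fun z : ℤ => (z:ℝ)) x y (helev H e) = evg (fun z : ℤ => (z:ℝ)) x y H := by
  induction e with
  | zero => rfl
  | succ e ih =>
    simp only [helev]
    rw [evg_hstep hxy, ih]
    simp

theorem evg_helev2 (s : ℝ) {x y : ℝ} (hxy : x + y = 1) (H : List (List ℤ)) (e : ℕ) :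
    evg (fun z : List ℤ => ev1 z s) x y (helev2 H e)
      = evg (fun z : List ℤ => ev1 z s) x y H := by
  induction e with
  | zero => rfl
  | succ e ih =>
    simp only [helev2]
    rw [evg_hstep2 s hxy, ih, ev1_nil]
    simp

theorem evg_hrun {x y : ℝ} (hxy : x + y = 1) (a : List ℤ) (e : ℕ) (H : List ℤ) :
    evg (fun z : ℤ => (z:ℝ)) x y (hrun H a e)
      = evg (fun z : ℤ => (z:ℝ)) x y H + x ^ H.length * ev1 a x := by
  induction a generalizing H with
  | nil => simp [hrun, ev1_nil, evg_helev hxy]
  | cons c a ih =>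
    simp only [hrun]
    rw [ih, evg_hstep hxy, hstep_length, ev1_cons]
    ring

theorem evg_hrun2 (s : ℝ) {x y : ℝ} (hxy : x + y = 1) (a : List (List ℤ)) (e : ℕ)
    (H : List (List ℤ)) :
    evg (fun z : List ℤ => ev1 z s) x y (hrun2 H a e)
      = evg (fun z : List ℤ => ev1 z s) x y H + x ^ H.length * ev2 a x s := by
  induction a generalizing H with
  | nil => simp [hrun2, ev2_nil, evg_helev2 s hxy]
  | cons c a ih =>
    simp only [hrun2]
    rw [ih, evg_hstep2 s hxy, hstep2_length, ev2_cons]
    ring

theorem bcheck1_sound {e : ℕ} {a : List ℤ} (h : bcheck1 e a = true) {s : ℝ}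
    (hs : 0 ≤ s) (hs1 : s ≤ 1) : 0 ≤ ev1 a s := by
  cases a with
  | nil => simp [ev1_nil]
  | cons c a =>
    have h1 : ∀ z ∈ hrun [c] a e, 0 ≤ ((z:ℤ):ℝ) := by
      intro z hz
      have := (List.all_eq_true.mp h) z hz
      exact_mod_cast (of_decide_eq_true this)
    have h2 := evg_hrun (x := s) (y := 1 - s) (by ring) a e [c]
    have h3 := evg_nonneg (fun z : ℤ => (z:ℝ)) hs (by linarith : (0:ℝ) ≤ 1 - s) _ h1
    rw [h2] at h3
    rw [ev1_cons]
    simpa [evg] using h3

theorem bcheck_sound {N M : ℕ} {a : List (List ℤ)} (h : bcheck N M a = true) {t s : ℝ}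
    (ht : 0 ≤ t) (ht1 : t ≤ 1) (hs : 0 ≤ s) (hs1 : s ≤ 1) : 0 ≤ ev2 a t s := by
  cases a with
  | nil => simp [ev2_nil]
  | cons c a =>
    have h1 : ∀ z ∈ hrun2 [c] a N, 0 ≤ ev1 z s := by
      intro z hz
      have := (List.all_eq_true.mp h) z hz
      exact bcheck1_sound this hs hs1
    have h2 := evg_hrun2 s (x := t) (y := 1 - t) (by ring) a N [c]
    have h3 := evg_nonneg (fun z : List ℤ => ev1 z s) ht (by linarith : (0:ℝ) ≤ 1 - t) _ h1
    rw [h2] at h3
    rw [ev2_cons]
    simpa [evg] using h3

/-- example -/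
example : bcheck 2 0 [[1, 1], [-1, -1], [1, 1]] = true := by decide +kernel

end BMoll
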