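import Pool.Agent.Lib.MP_a93a81_co.KPoly
import Pool.Agent.Lib.MP_a93a81_co.Bern

/-!
# Module CERTA : polynomial inequalities (P1), (P2)

With `m = 60 + n`, `n ≥ 0` real, `0 ≤ t < 1`, `0 ≤ s ≤ 1`.  Multiply by the positive denominators
(P1: `E1^2 F1 u1^2`, P2: `E1^3 F1^2 u1^2 (1+t^2)`): each coefficient of `n^j` is a polynomial in
`(t,s)` which has nonnegative Bernstein coefficients on `[0,1]^2` after degree elevation in `t`.
For (P1) the polynomial is that of `(expression - 50)`.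
-/

namespace BMoll

def cA0 : List (List ℤ) :=
  [[194,4,0,0,0,0],
   [0,-960,0,0,0,0],
   [-582,-1852,-2404,0,0,0],
   [0,118560,112320,0,0,0],
   [582,121888,234818,110860,0,0],
   [0,-234240,122880,342720,0,0],
   [-194,-238236,-231740,238320,228948,0],
   [0,116640,-351840,-109920,344640,0],
   [0,118196,6,-234664,976,115680],
   [0,0,116640,-117600,-114240,115200],
   [0,0,-680,684,476,-480]]

theorem cA0_ok : bcheck 4 0 cA0 = true := by decide +kernel

def cA1 : List (List ℤ) :=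
  [[4,0,0,0,0,0],
   [0,-16,0,0,0,0],
   [-12,-28,-40,0,0,0],
   [0,3896,3792,0,0,0],
   [12,3944,7756,3768,0,0],
   [0,-7744,3968,11472,0,0],
   [-4,-7804,-7708,7812,7656,0],
   [0,3864,-11624,-3752,11504,0],
   [0,3888,4,-7752,16,3848],
   [0,0,3864,-3880,-3824,3840],
   [0,0,-12,12,8,-8]]

theorem cA1_ok : bcheck 4 0 cA1 = true := by decide +kernel

def cA2 : List (List ℤ) :=
  [[0,0,0,0,0,0],
   [0,0,0,0,0,0],
   [0,0,0,0,0,0],
   [0,32,32,0,0,0],
   [0,32,64,32,0,0],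
   [0,-64,32,96,0,0],
   [0,-64,-64,64,64,0],
   [0,32,-96,-32,96,0],
   [0,32,0,-64,0,32],
   [0,0,32,-32,-32,32]]

theorem cA2_ok : bcheck 4 0 cA2 = true := by decide +kernel

def cB0 : List (List ℤ) :=
  [[488,488,0,0,0,0,0,0],
   [12078,30468,2904,0,0,0,0,0],
   [-1464,-225388,-292312,0,0,0,0,0],
   [-18666,-183525,-542288,-516912,0,0,0,0],
   [976,6447408,20039464,12938832,0,0,0,0],
   [-46116,6139962,27303722,34081984,12429120,0,0,0],
   [976,-3528992,-15904208,44839288,54688208,0,0,0],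
   [129564,-3156168,-27093157,2406117,67772304,40417872,0,0],
   [-1464,-25850912,4650452,-40249692,17779880,83501192,0,0],
   [-106506,-25993038,-17325932,-10324828,-25115160,36702604,41466216,0],
   [488,37623180,-54691068,-23150920,-4347384,-11910380,56157576,0],
   [29646,37629549,9618714,-61085850,-18368520,8911160,9310480,13997280],
   [0,-14465784,60604164,-17296760,-59730872,16133092,643688,14112960],
   [0,-14467248,7827786,35937468,-17099496,-26948620,9024792,5725440],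
   [0,0,-14406492,22859472,11544616,-28282900,2525304,5760000],
   [0,0,208251,-497979,196152,360184,-358288,91680],
   [0,0,0,59780,-120048,2196,116632,-58560]]

theorem cB0_ok : bcheck 15 0 cB0 = true := by decide +kernel

def cB1 : List (List ℤ) :=
  [[40,40,0,0,0,0,0,0],
   [1966,4936,240,0,0,0,0,0],
   [-120,-37020,-48360,0,0,0,0,0],
   [-2994,-29682,-88384,-86280,0,0,0,0],
   [80,1533760,4953160,3310240,0,0,0,0],
   [-7684,1482208,6620262,8448504,3224560,0,0,0],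
   [80,-817280,-4036400,10927000,13725360,0,0,0],
   [21356,-755492,-6587358,394402,16594576,10193760,0,0],
   [-120,-6381120,1238100,-9935900,4112040,20830440,0,0],
   [-17514,-6403992,-4268148,-2411276,-6261256,8880464,10367520,0],
   [40,9263900,-13490380,-5699160,-956520,-3138140,13967800,0],
   [4870,9264422,2291952,-15013024,-4444792,2175876,2242752,3484840],
   [0,-3562280,14936420,-4264760,-14790680,4069860,107400,3504080],
   [0,-3562400,1997286,8749484,-4230072,-6564272,2194944,1415040],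
   [0,0,-3552540,5652800,2844600,-7016740,651080,1420800],
   [0,0,34150,-81810,32184,59772,-59616,15320],
   [0,0,0,9780,-19600,180,19320,-9680]]

theorem cB1_ok : bcheck 15 0 cB1 = true := by decide +kernel

def cB2 : List (List ℤ) :=
  [[0,0,0,0,0,0,0,0],
   [16,40,0,0,0,0,0,0],
   [0,-304,-400,0,0,0,0,0],
   [-24,-240,-720,-720,0,0,0,0],
   [0,24288,81600,56400,0,0,0,0],
   [-64,23856,106976,139552,55680,0,0,0],
   [0,-12560,-68224,177440,229600,0,0,0],
   [176,-12048,-106720,3232,270768,171360,0,0],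
   [0,-105008,21856,-163456,63040,346400,0,0],
   [-144,-105192,-70112,-37368,-104032,143112,172800,0],
   [0,152064,-221840,-93552,-13744,-54960,231600,0],
   [40,152064,36360,-246016,-71608,35408,35968,57840],
   [0,-58480,245408,-70096,-244192,68464,896,58000],
   [0,-58480,33936,141992,-69792,-106536,35568,23312],
   [0,0,-58400,93184,46736,-116064,11184,23360],
   [0,0,280,-672,264,496,-496,128],
   [0,0,0,80,-160,0,160,-80]]

theorem cB2_ok : bcheck 15 0 cB2 = true := by decide +kernel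

def cB3 : List (List ℤ) :=
  [[0,0,0,0,0,0,0,0],
   [0,0,0,0,0,0,0,0],
   [0,0,0,0,0,0,0,0],
   [0,0,0,0,0,0,0,0],
   [0,128,448,320,0,0,0,0],
   [0,128,576,768,320,0,0,0],
   [0,-64,-384,960,1280,0,0,0],
   [0,-64,-576,0,1472,960,0,0],
   [0,-576,128,-896,320,1920,0,0],
   [0,-576,-384,-192,-576,768,960,0],
   [0,832,-1216,-512,-64,-320,1280,0],
   [0,832,192,-1344,-384,192,192,320],
   [0,-320,1344,-384,-1344,384,0,320],
   [0,-320,192,768,-384,-576,192,128],
   [0,0,-320,512,256,-640,64,128]]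

theorem cB3_ok : bcheck 15 0 cB3 = true := by decide +kernel


set_option maxRecDepth 100000 in
theorem cA_id (n t s : ℝ) :
    (4*((60+n)+1) - 50) * (E1 t s ^ 2 * F1 t s * u1 t ^ 2)
      + 2*(60+n)*(N1 (60+n) t s * (E1 t s * F1 t s)) + N2 (60+n) t s
    = ev2 cA0 t s + n * ev2 cA1 t s + n^2 * ev2 cA2 t s := by
  simp only [ev2, ev1, cA0, cA1, cA2, List.foldr_cons, List.foldr_nil,
    N1, N1c1, N1c3, N1c5, N2, N2c0, N2c2, N2c4, N2c6, N2c8, N2c10, E1, F1, u1]
  push_cast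
  ring

set_option maxRecDepth 100000 in
theorem cB_id (n t s : ℝ) :
    4*((60+n)+1)*(M1 (60+n) t s * (E1 t s ^ 2 * F1 t s * u1 t ^ 2) * (1+t^2)
        - ((6/5)*(60+n)*t - 2*(1+t^2)) * (E1 t s ^ 3 * F1 t s ^ 2 * u1 t ^ 2))
      + 2*(60+n)*(N2 (60+n) t s * (E1 t s * F1 t s) * (1+t^2)
        - ((6/5)*(60+n)*t - 2*(1+t^2)) * N1 (60+n) t s * (E1 t s ^ 2 * F1 t s ^ 2))
      + (N3 (60+n) t s * (1+t^2)
        - ((6/5)*(60+n)*t - 2*(1+t^2)) * N2 (60+n) t s * (E1 t s * F1 t s))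
    = ev2 cB0 t s + n * (ev2 cB1 t s / 5) + n^2 * (ev2 cB2 t s / 5) + n^3 * (ev2 cB3 t s / 5) := by
  simp only [ev2, ev1, cB0, cB1, cB2, cB3, List.foldr_cons, List.foldr_nil, M1, M1c1, M1c3, N1, N1c1, N1c3, N1c5,
    N2, N2c0, N2c2, N2c4, N2c6, N2c8, N2c10, N3, N3c1, N3c3, N3c5, N3c7, N3c9, N3c11, N3c13, E1, F1, u1]
  push_cast
  ring

theorem E1_pos {t s : ℝ} (hs : 0 ≤ s) : 0 < E1 t s := by
  unfold E1
  positivity

theorem F1_pos {t s : ℝ} (ht : 0 ≤ t) (ht1 : t < 1) (hs : 0 ≤ s) : 0 < F1 t s := by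
  unfold F1
  have : t^2 < 1 := by nlinarith
  have h2 : 0 ≤ s * t^2 := by positivity
  linarith

theorem u1_pos {t : ℝ} (ht : 0 ≤ t) (ht1 : t < 1) : 0 < u1 t := by
  unfold u1
  nlinarith

/-- (P1) `k > 0` -/
theorem cert_P1 {m t s : ℝ} (hm : 60 ≤ m) (ht : 0 ≤ t) (ht1 : t < 1) (hs : 0 ≤ s) (hs1 : s ≤ 1) :
    0 < 4*(m+1) + 2*m * T1f m t s + T2f m t s := by
  obtain ⟨n, hn, rfl⟩ : ∃ n : ℝ, 0 ≤ n ∧ m = 60 + n := ⟨m - 60, by linarith, by ring⟩
  have hE := E1_pos (t := t) hs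
  have hF := F1_pos ht ht1 hs
  have hu := u1_pos ht ht1
  have h0 := bcheck_sound cA0_ok ht ht1.le hs hs1
  have h1 := bcheck_sound cA1_ok ht ht1.le hs hs1
  have h2 := bcheck_sound cA2_ok ht ht1.le hs hs1
  have hid := cA_id n t s
  have hkey : (4*((60+n)+1) + 2*(60+n) * T1f (60+n) t s + T2f (60+n) t s - 50)
      * (E1 t s ^ 2 * F1 t s * u1 t ^ 2)
      = ev2 cA0 t s + n * ev2 cA1 t s + n^2 * ev2 cA2 t s := by
    rw [← hid]
    unfold T1f T2f
    generalize N1 (60+n) t s = a1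
    generalize N2 (60+n) t s = a2
    generalize E1 t s = e at hE ⊢
    generalize F1 t s = f at hF ⊢
    generalize u1 t = v at hu ⊢
    have he := hE.ne'
    have hf := hF.ne'
    have hv := hu.ne'
    field_simp
    ring
  have hD : 0 < E1 t s ^ 2 * F1 t s * u1 t ^ 2 := by positivity
  have hnn : 0 ≤ (4*((60+n)+1) + 2*(60+n) * T1f (60+n) t s + T2f (60+n) t s - 50)
      * (E1 t s ^ 2 * F1 t s * u1 t ^ 2) := by
    rw [hkey]; positivity
  have := nonneg_of_mul_nonneg_left hnn hD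
  linarith

/-- (P2) `k_1 - ρ k ≥ 0` (times `4(m+1)`) -/
theorem cert_P2 {m t s : ℝ} (hm : 60 ≤ m) (ht : 0 ≤ t) (ht1 : t < 1) (hs : 0 ≤ s) (hs1 : s ≤ 1) :
    0 ≤ 4*(m+1)*(gam m t s - rhot m t) + 2*m*(T2f m t s - rhot m t * T1f m t s)
      + (T3f m t s - rhot m t * T2f m t s) := by
  obtain ⟨n, hn, rfl⟩ : ∃ n : ℝ, 0 ≤ n ∧ m = 60 + n := ⟨m - 60, by linarith, by ring⟩
  have hE := E1_pos (t := t) hs
  have hF := F1_pos ht ht1 hs
  have hu := u1_pos ht ht1
  have h0 := bcheck_sound cB0_ok ht ht1.le hs hs1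
  have h1 := bcheck_sound cB1_ok ht ht1.le hs hs1
  have h2 := bcheck_sound cB2_ok ht ht1.le hs hs1
  have h3 := bcheck_sound cB3_ok ht ht1.le hs hs1
  have hid := cB_id n t s
  have hV : (0:ℝ) < 1 + t^2 := by positivity
  have hkey : (4*((60+n)+1)*(gam (60+n) t s - rhot (60+n) t)
      + 2*(60+n)*(T2f (60+n) t s - rhot (60+n) t * T1f (60+n) t s)
      + (T3f (60+n) t s - rhot (60+n) t * T2f (60+n) t s))
      * (E1 t s ^ 3 * F1 t s ^ 2 * u1 t ^ 2 * (1+t^2))
      = ev2 cB0 t s + n * (ev2 cB1 t s / 5) + n^2 * (ev2 cB2 t s / 5)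
        + n^3 * (ev2 cB3 t s / 5) := by
    rw [← hid]
    unfold T1f T2f T3f gam rhot
    generalize M1 (60+n) t s = b1
    generalize N1 (60+n) t s = a1
    generalize N2 (60+n) t s = a2
    generalize N3 (60+n) t s = a3
    generalize E1 t s = e at hE ⊢
    generalize F1 t s = f at hF ⊢
    generalize u1 t = v at hu ⊢
    have he := hE.ne'
    have hf := hF.ne'
    have hv := hu.ne'
    have hVne := hV.ne'
    field_simp
  have hD : 0 < E1 t s ^ 3 * F1 t s ^ 2 * u1 t ^ 2 * (1+t^2) := by positivity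
  have hnn : 0 ≤ (4*((60+n)+1)*(gam (60+n) t s - rhot (60+n) t)
      + 2*(60+n)*(T2f (60+n) t s - rhot (60+n) t * T1f (60+n) t s)
      + (T3f (60+n) t s - rhot (60+n) t * T2f (60+n) t s))
      * (E1 t s ^ 3 * F1 t s ^ 2 * u1 t ^ 2 * (1+t^2)) := by
    rw [hkey]; positivity
  exact nonneg_of_mul_nonneg_left hnn hD

end BMoll
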