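import Pool.Agent.Lib.MP_a93a81_co.KerForm
import Pool.Agent.Lib.MP_a93a81_co.CertA
import Pool.Agent.Lib.MP_a93a81_co.CertB

/-!
# Module KERPOS : pointwise inequalities of the kernel (assembly of KERFORM, CERTA, CERTB)
-/

namespace BMoll

theorem tR_nonneg {R : ℝ} (hR : 0 < R) (hR1 : R ≤ 1) : 0 ≤ tR R := by
  unfold tR
  exact div_nonneg (by linarith) (by linarith)

theorem tR_lt_one {R : ℝ} (hR : 0 < R) : tR R < 1 := by
  unfold tR
  rw [div_lt_one (by linarith)]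
  linarith

theorem rho_eq (m : ℕ) {R : ℝ} (hR : 0 < R) : rho m R = rhot m (tR R) := by
  unfold rho rhot tR
  have h1 : (1 + R) ≠ 0 := by positivity
  have h2 : (1 + R^2) ≠ 0 := by positivity
  have h3 : 1 + ((1-R)/(1+R))^2 = 2*(1+R^2)/(1+R)^2 := by
    field_simp
    ring
  rw [h3]
  field_simp
  ring

theorem Ks_pos {m : ℕ} (hm : 60 ≤ m) {s R : ℝ} (hs : 0 ≤ s) (hs1 : s ≤ 1) (hR : 0 < R)
    (hR1 : R ≤ 1) : 0 < Ks m s R := by
  have hm' : (60:ℝ) ≤ m := by exact_mod_cast hm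
  have h := cert_P1 hm' (tR_nonneg hR hR1) (tR_lt_one hR) hs hs1
  rw [Ks_form m hR hs]
  refine mul_pos ?_ (G0_pos m hR hs)
  have h4 : (0:ℝ) < 4*((m:ℝ)+1) := by positivity
  have : 1 + (2*(m:ℝ)*T1f m (tR R) s + T2f m (tR R) s)/(4*(m+1))
      = (4*((m:ℝ)+1) + 2*m*T1f m (tR R) s + T2f m (tR R) s)/(4*(m+1)) := by
    field_simp
    ring
  rw [this]
  exact div_pos h h4

theorem Ks_P2 {m : ℕ} (hm : 60 ≤ m) {s R : ℝ} (hs : 0 ≤ s) (hs1 : s ≤ 1) (hR : 0 < R)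
    (hR1 : R ≤ 1) : rho m R * Ks m s R ≤ Aop (Ks m s) R := by
  have hm' : (60:ℝ) ≤ m := by exact_mod_cast hm
  have h := cert_P2 hm' (tR_nonneg hR hR1) (tR_lt_one hR) hs hs1
  rw [rho_eq m hR, A1_Ks m hR hs, Ks_form m hR hs, ← sub_nonneg]
  have hg := G0_pos m hR hs
  have h4 : (0:ℝ) < 4*((m:ℝ)+1) := by positivity
  have : (gam m (tR R) s + (2*m*T2f m (tR R) s + T3f m (tR R) s)/(4*(m+1))) * G0 m R s
      - rhot m (tR R) * ((1 + (2*m*T1f m (tR R) s + T2f m (tR R) s)/(4*(m+1))) * G0 m R s)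
      = (4*((m:ℝ)+1)*(gam m (tR R) s - rhot m (tR R))
          + 2*m*(T2f m (tR R) s - rhot m (tR R) * T1f m (tR R) s)
          + (T3f m (tR R) s - rhot m (tR R) * T2f m (tR R) s)) / (4*(m+1)) * G0 m R s := by
    field_simp
    ring
  rw [this]
  exact mul_nonneg (div_nonneg h h4.le) hg.le

theorem Ks_P3 {m : ℕ} (hm : 60 ≤ m) {s R : ℝ} (hs : 0 ≤ s) (hs1 : s ≤ 1) (hR : 0 < R)
    (hR1 : R ≤ 1) :
    0 ≤ ((m:ℝ) - 1) * (Aop (Ks m s) R - rho m R * Ks m s R)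
      + (Aop (Aop (Ks m s)) R - rho m R * Aop (Ks m s) R - Ks m s R) := by
  have hm' : (60:ℝ) ≤ m := by exact_mod_cast hm
  have h := cert_P3 hm' (tR_nonneg hR hR1) (tR_lt_one hR) hs hs1
  rw [rho_eq m hR, A1_Ks m hR hs, A2_Ks m hR hs, Ks_form m hR hs]
  have hg := G0_pos m hR hs
  have h4 : (0:ℝ) < 4*((m:ℝ)+1) := by positivity
  generalize G0 m R s = g at hg ⊢
  generalize T1f m (tR R) s = a1 at h ⊢
  generalize T2f m (tR R) s = a2 at h ⊢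
  generalize T3f m (tR R) s = a3 at h ⊢
  generalize T4f m (tR R) s = a4 at h ⊢
  generalize gam m (tR R) s = b1 at h ⊢
  generalize G2 m (tR R) s = b2 at h ⊢
  generalize rhot m (tR R) = r at h ⊢
  have : ((m:ℝ) - 1) * ((b1 + (2*m*a2 + a3)/(4*(m+1))) * g
        - r * ((1 + (2*m*a1 + a2)/(4*(m+1))) * g))
      + ((b2 + (2*m*a3 + a4)/(4*(m+1))) * g - r * ((b1 + (2*m*a2 + a3)/(4*(m+1))) * g)
        - (1 + (2*m*a1 + a2)/(4*(m+1))) * g)
      = ((m-1) * (4*(m+1)*(b1 - r) + 2*m*(a2 - r * a1) + (a3 - r * a2))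
        + (4*(m+1)*(b2 - r * b1 - 1) + 2*m*(a3 - r * a2 - a1) + (a4 - r * a3 - a2)))
          / (4*(m+1)) * g := by
    field_simp
    ring
  rw [this]
  exact mul_nonneg (div_nonneg h h4.le) hg.le

end BMoll
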