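import Pool.Agent.Lib.MP_a93a81_co.SturmB

/-!
# Module WEIGHT : reflection inequality for the weight

`W(z) = (1+z)^{m+1} z^{-2} κ(z)`, `μ = 3m/5`, `Y = nz n k`, `y = nz n j`, `1 ≤ j < k ≤ n`,
`n = m` or `n = m+1`, `m ≥ 60`.  Hypothesis: `2 z κ'(z) ≥ (μ (Y-z)/(Y+z) - 2) κ(z)` on `(0,Y]`.
`(log W)'(z) = (m+1)/(1+z) - 2/z + κ'/κ ≥ h(z) := (m+1)/(1+z) + A/z - μ/(Y+z)`,
`A = (μ-6)/2` (since `(Y-z)/(z(Y+z)) = 1/z - 2/(Y+z)`).
`d/dt [log W(y+t) - log W(y-t)] ≥ h(y+t) + h(y-t)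
 = 2(m+1)(1+y)/((1+y)²-t²) + 2A y/(y²-t²) - 2μ(Y+y)/((Y+y)²-t²)`.
CLAIM (Λ): `(m+1)/(1+y) + A/y ≥ μ/(Y+y)`.  Given (Λ), for `0 < t < y`, `y + t ≤ Y`:
with `x = t²`: first term `≥ 2(m+1)/(1+y)`; second `= (2A/y)(1 + x/(y²-x))`; third
`= (2μ/(Y+y))(1 + x/((Y+y)²-x))`; so it suffices that
`(A/y) x/(y²-x) ≥ (μ/(Y+y)) x/((Y+y)²-x)`, true as `Y+y ≥ 2y`, `(Y+y)²-x ≥ 4(y²-x)`, `A ≥ μ/8`.
PROOF OF (Λ).  If `Y ≥ 1`: `(m+1)/(1+y) ≥ μ/(Y+y)`, `A > 0`.
If `Y < 1` (so `y < 1`): multiply by `2y(Y+y)`: to show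
`2(m+1) y (Y+y)/(1+y) + μ(Y-y) - 6(Y+y) ≥ 0`.  With `D = Y - y`, `Y+y = 2y+D`, `1/(1+y) ≥ 1/2`:
LHS `≥ 2(m+1) y² - 12 y + (μ-6) D`, and `D ≥ nz n (j+1) - nz n j ≥ π √y/√((n+1)(n+2))
≥ π √y/(m+5/2)` (`spacing`).  With `w = √y`: LHS `≥ w [2(m+1) w³ - 12 w + (μ-6)π/(m+5/2)]`, and for
`m ≥ 60`: `2(m+1) ≥ 122`, `(μ-6)π/(m+5/2) ≥ 30·3.14/62.5 ≥ 1.507`, and `122 w³ - 12 w + 1.507 > 0`
for `w ≥ 0` (minimum `≈ 0.058` at `w = √(12/366)`).
-/

namespace BMoll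

/-- the claim (Λ), given the spacing bound -/
theorem weight_lambda {M Y y : ℝ} (hM : 60 ≤ M) (hy : 0 < y) (hyY : y < Y)
    (hsp : 3.14 * √y / (M + 5/2) ≤ Y - y) :
    (3/5*M)/(Y+y) ≤ (M+1)/(1+y) + ((3/5*M) - 6)/2/y := by
  have hY : 0 < Y := hy.trans hyY
  rcases le_or_gt 1 Y with h | h
  · have h1 : (3/5*M)/(Y+y) ≤ (M+1)/(1+y) := by
      rw [div_le_div_iff₀ (by linarith) (by linarith)]
      nlinarith
    have h2 : 0 ≤ ((3/5*M) - 6)/2/y := by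
      apply div_nonneg _ hy.le
      linarith
    linarith
  · have hy1 : y < 1 := hyY.trans h
    set w := √y with hw
    have hw0 : 0 < w := Real.sqrt_pos.2 hy
    have hw2 : w^2 = y := Real.sq_sqrt hy.le
    have hD : 1.507 * w ≤ ((3/5*M) - 6) * (Y - y) := by
      have h3 : (3.14 * w / (M + 5/2)) * ((3/5*M) - 6) ≤ (Y - y) * ((3/5*M) - 6) :=
        mul_le_mul_of_nonneg_right hsp (by linarith)
      have h4 : 1.507 * w ≤ (3.14 * w / (M + 5/2)) * ((3/5*M) - 6) := by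
        rw [div_mul_eq_mul_div, le_div_iff₀ (by linarith)]
        nlinarith
      linarith
    have hcub : 0 ≤ 122 * w^3 - 12 * w + 1.507 := by
      have h5 : 0 ≤ (w - 0.1811)^2 * (w + 0.3622) := by positivity
      nlinarith
    have hmain : 0 ≤ 2*(M+1)*y^2 - 12*y + ((3/5*M) - 6) * (Y - y) := by
      have h6 : 122 * w^4 ≤ 2*(M+1)*y^2 := by
        rw [← hw2]
        have : 0 ≤ w^4 := by positivity
        nlinarith
      have h7 : 0 ≤ w * (122 * w^3 - 12 * w + 1.507) := mul_nonneg hw0.le hcub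
      nlinarith
    have h8 : (M+1)/2 ≤ (M+1)/(1+y) := by
      apply div_le_div_of_nonneg_left (by linarith) (by linarith) (by linarith)
    have h9 : (3/5*M)/(Y+y) ≤ (M+1)/2 + ((3/5*M) - 6)/2/y := by
      rw [div_le_iff₀ (by linarith)]
      have h10 : ((M+1)/2 + ((3/5*M) - 6)/2/y) * (Y+y)
          = (((M+1)*y + ((3/5*M) - 6)) * (Y+y)) / (2*y) := by
        field_simp
      rw [h10, le_div_iff₀ (by linarith)]
      nlinarith [mul_pos hy (sub_pos.2 hyY), mul_pos hy hy]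
    linarith

/-- the sum of the two values of `h` is nonnegative -/
theorem weight_h {M Y y t : ℝ} (hM : 60 ≤ M) (hy : 0 < y) (hyY : y < Y)
    (hL : (3/5*M)/(Y+y) ≤ (M+1)/(1+y) + ((3/5*M) - 6)/2/y) (ht : 0 ≤ t) (hty : t < y)
    (htY : y + t ≤ Y) :
    0 ≤ ((M+1)/(1+(y+t)) + ((3/5*M) - 6)/2/(y+t) - (3/5*M)/(Y+(y+t)))
      + ((M+1)/(1+(y-t)) + ((3/5*M) - 6)/2/(y-t) - (3/5*M)/(Y+(y-t))) := by
  have hY : 0 < Y := hy.trans hyY
  have p1 : 0 < y - t := by linarith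
  have p2 : 0 < y + t := by linarith
  have T1 : 2*((M+1)/(1+y)) ≤ (M+1)/(1+(y+t)) + (M+1)/(1+(y-t)) := by
    have e : (M+1)/(1+(y+t)) + (M+1)/(1+(y-t)) - 2*((M+1)/(1+y))
        = (M+1) * (2*t^2 / ((1+y)*((1+(y+t))*(1+(y-t))))) := by
      have h1 : 1+(y+t) ≠ 0 := by positivity
      have h2 : 1+(y-t) ≠ 0 := by positivity
      have h3 : 1+y ≠ 0 := by positivity
      field_simp
      ring
    have : 0 ≤ (M+1) * (2*t^2 / ((1+y)*((1+(y+t))*(1+(y-t))))) := by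
      apply mul_nonneg (by linarith)
      apply div_nonneg (by positivity)
      have h2 : 0 < 1+(y-t) := by positivity
      positivity
    linarith
  have T2 : ((3/5*M) - 6)/2/(y+t) + ((3/5*M) - 6)/2/(y-t)
      = 2*(((3/5*M) - 6)/2/y) + ((3/5*M) - 6) * (t^2/(y*((y+t)*(y-t)))) := by
    have h1 : y+t ≠ 0 := p2.ne'
    have h2 : y-t ≠ 0 := p1.ne'
    field_simp
    ring
  have T3 : (3/5*M)/(Y+(y+t)) + (3/5*M)/(Y+(y-t))
      = 2*((3/5*M)/(Y+y)) + 2*(3/5*M) * (t^2/((Y+y)*((Y+(y+t))*(Y+(y-t))))) := by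
    have h1 : Y+(y+t) ≠ 0 := by positivity
    have h2 : Y+(y-t) ≠ 0 := by positivity
    have h3 : Y+y ≠ 0 := by positivity
    field_simp
    ring
  have T4 : t^2/((Y+y)*((Y+(y+t))*(Y+(y-t)))) ≤ t^2/(8*(y*((y+t)*(y-t)))) := by
    apply div_le_div_of_nonneg_left (by positivity) (by positivity)
    have h4 : 4*((y+t)*(y-t)) ≤ (Y+(y+t))*(Y+(y-t)) := by nlinarith
    have h5 : 2*y ≤ Y+y := by linarith
    have h6 : 0 ≤ (y+t)*(y-t) := by positivity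
    calc 8*(y*((y+t)*(y-t))) = (2*y)*(4*((y+t)*(y-t))) := by ring
      _ ≤ (Y+y)*((Y+(y+t))*(Y+(y-t))) := mul_le_mul h5 h4 (by positivity) (by positivity)
  have T5 : t^2/(8*(y*((y+t)*(y-t)))) = (1/8)*(t^2/(y*((y+t)*(y-t)))) := by
    have h1 : y+t ≠ 0 := p2.ne'
    have h2 : y-t ≠ 0 := p1.ne'
    field_simp
  have T6 : 0 ≤ t^2/(y*((y+t)*(y-t))) := by positivity
  rw [T5] at T4
  have T7 : 2*(3/5*M) * (t^2/((Y+y)*((Y+(y+t))*(Y+(y-t)))))
      ≤ ((3/5*M) - 6) * (t^2/(y*((y+t)*(y-t)))) := by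
    have h7 : 2*(3/5*M) * (t^2/((Y+y)*((Y+(y+t))*(Y+(y-t)))))
        ≤ 2*(3/5*M) * ((1/8)*(t^2/(y*((y+t)*(y-t))))) :=
      mul_le_mul_of_nonneg_left T4 (by linarith)
    nlinarith
  linarith

theorem weight_refl {m n k : ℕ} (hm : 60 ≤ m) (hn : n = m ∨ n = m+1) (hk1 : 1 ≤ k) (hkn : k ≤ n)
    {κ κ' : ℝ → ℝ} (hpos : ∀ z ∈ Set.Ioc 0 (nz n k), 0 < κ z)
    (hder : ∀ z ∈ Set.Ioc 0 (nz n k), HasDerivAt κ (κ' z) z)
    (hineq : ∀ z ∈ Set.Ioc 0 (nz n k),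
      ((3/5)*m*(nz n k - z)/(nz n k + z) - 2) * κ z ≤ 2*z*κ' z)
    {j : ℕ} (hj1 : 1 ≤ j) (hjk : j < k) {t : ℝ} (ht : 0 < t) (htj : t < nz n j)
    (htk : nz n j + t ≤ nz n k) :
    (1 + (nz n j - t))^(m+1) / (nz n j - t)^2 * κ (nz n j - t)
      ≤ (1 + (nz n j + t))^(m+1) / (nz n j + t)^2 * κ (nz n j + t) := by
  have hM : (60:ℝ) ≤ m := by exact_mod_cast hm
  set Y := nz n k with hY
  set y := nz n j with hy
  have hy0 : 0 < y := nz_pos hj1 (by omega)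
  have hyY : y < Y := by linarith
  have hY0 : 0 < Y := hy0.trans hyY
  have hsp : 3.14 * √y / ((m:ℝ) + 5/2) ≤ Y - y := by
    have h1 := spacing (n := n) (j := j) hj1 (by omega)
    rw [← hy] at h1
    have h2 : nz n (j+1) ≤ Y := by
      rcases (show j + 1 ≤ k by omega).lt_or_eq with h | h
      · exact (nz_lt h hkn).le
      · rw [h]
    have hc0 : (0:ℝ) < ((n:ℝ)+1)*(n+2) := by positivity
    have hnm : (n:ℝ) ≤ m + 1 := by
      rcases hn with h | h <;> rw [h] <;> push_cast <;> linarith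
    have h3 : √(((n:ℝ)+1)*(n+2)) ≤ (m:ℝ) + 5/2 := by
      rw [Real.sqrt_le_left (by positivity)]
      nlinarith [show (0:ℝ) ≤ n from Nat.cast_nonneg n]
    have h4 : 3.14 * √y / ((m:ℝ) + 5/2) ≤ Real.pi * √y / √(((n:ℝ)+1)*(n+2)) := by
      apply div_le_div₀ (by positivity) _ (Real.sqrt_pos.2 hc0) h3
      exact mul_le_mul_of_nonneg_right Real.pi_gt_d2.le (Real.sqrt_nonneg _)
    linarith
  have hL := weight_lambda hM hy0 hyY hsp
  -- the logarithm of the weight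
  set LW : ℝ → ℝ := fun z => (m+1) * Real.log (1+z) - 2 * Real.log z + Real.log (κ z) with hLW
  have hLWd : ∀ z ∈ Set.Ioc 0 Y, HasDerivAt LW ((m+1)/(1+z) - 2/z + κ' z/κ z) z := by
    intro z hz
    have h1 : HasDerivAt (fun z : ℝ => 1 + z) 1 z := by
      simpa using (hasDerivAt_id z).const_add (1:ℝ)
    have h2 := (h1.log (by linarith [hz.1])).const_mul ((m:ℝ)+1)
    have h3 := (Real.hasDerivAt_log hz.1.ne').const_mul (2:ℝ)
    have h4 := (hder z hz).log (hpos z hz).ne'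
    exact ((h2.sub h3).add h4).congr_deriv (by ring)
  have hLWe : ∀ z ∈ Set.Ioc 0 Y, Real.log ((1+z)^(m+1) / z^2 * κ z) = LW z := by
    intro z hz
    have h1 : 0 < 1 + z := by linarith [hz.1]
    have h2 := hpos z hz
    have h3 := hz.1
    rw [Real.log_mul (by positivity) h2.ne', Real.log_div (by positivity) (by positivity),
      Real.log_pow, Real.log_pow, hLW]
    push_cast
    ring
  have hh : ∀ z ∈ Set.Ioc 0 Y, (m+1)/(1+z) + ((3/5*(m:ℝ)) - 6)/2/z - (3/5*m)/(Y+z)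
      ≤ (m+1)/(1+z) - 2/z + κ' z/κ z := by
    intro z hz
    have h1 := hineq z hz
    have h2 := hpos z hz
    have h3 := hz.1
    have h4 : ((3/5)*m*(Y - z)/(Y + z) - 2)/(2*z) ≤ κ' z/κ z := by
      rw [div_le_div_iff₀ (by linarith) h2]
      linarith
    have h5 : ((3/5)*m*(Y - z)/(Y + z) - 2)/(2*z)
        = ((3/5*(m:ℝ)) - 6)/2/z - (3/5*m)/(Y+z) + 2/z := by
      have : Y + z ≠ 0 := by positivity
      field_simp
      ring
    rw [h5] at h4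
    linarith
  have hmono : MonotoneOn (fun τ => LW (y+τ) - LW (y-τ)) (Set.Icc 0 t) := by
    have hd : ∀ τ ∈ Set.Icc 0 t, HasDerivAt (fun τ => LW (y+τ) - LW (y-τ))
        (((m+1)/(1+(y+τ)) - 2/(y+τ) + κ' (y+τ)/κ (y+τ))
          + ((m+1)/(1+(y-τ)) - 2/(y-τ) + κ' (y-τ)/κ (y-τ))) τ := by
      intro τ hτ
      have a1 : HasDerivAt (fun τ => y + τ) 1 τ := by
        simpa using (hasDerivAt_id τ).const_add y
      have a2 : HasDerivAt (fun τ => y - τ) (-1) τ := by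
        simpa using (hasDerivAt_id τ).const_sub y
      have b1 := (hLWd (y+τ) ⟨by linarith [hτ.1], by linarith [hτ.2]⟩).comp τ a1
      have b2 := (hLWd (y-τ) ⟨by linarith [hτ.2], by linarith [hτ.1]⟩).comp τ a2
      exact (b1.sub b2).congr_deriv (by ring)
    apply monotoneOn_of_deriv_nonneg (convex_Icc 0 t)
    · exact fun τ hτ => (hd τ hτ).continuousAt.continuousWithinAt
    · intro τ hτ
      rw [interior_Icc] at hτ
      exact (hd τ (Set.Ioo_subset_Icc_self hτ)).differentiableAt.differentiableWithinAt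
    · intro τ hτ
      rw [interior_Icc] at hτ
      rw [(hd τ (Set.Ioo_subset_Icc_self hτ)).deriv]
      have c1 := hh (y+τ) ⟨by linarith [hτ.1], by linarith [hτ.2]⟩
      have c2 := hh (y-τ) ⟨by linarith [hτ.2], by linarith [hτ.1]⟩
      have c3 := weight_h hM hy0 hyY hL hτ.1.le (by linarith [hτ.2]) (by linarith [hτ.2])
      linarith
  have hfin := hmono (Set.left_mem_Icc.2 ht.le) (Set.right_mem_Icc.2 ht.le) ht.le
  simp only [add_zero, sub_zero, sub_self] at hfin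
  have m1 : y - t ∈ Set.Ioc 0 Y := ⟨by linarith, by linarith⟩
  have m2 : y + t ∈ Set.Ioc 0 Y := ⟨by linarith, by linarith⟩
  have q1 : 0 < (1 + (y - t))^(m+1) / (y - t)^2 * κ (y - t) := by
    have h1 := m1.1
    have h2 := hpos _ m1
    have h3 : 0 < 1 + (y - t) := by linarith
    positivity
  have q2 : 0 < (1 + (y + t))^(m+1) / (y + t)^2 * κ (y + t) := by
    have h1 := m2.1
    have h2 := hpos _ m2
    have h3 : 0 < 1 + (y + t) := by linarith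
    positivity
  rw [← Real.log_le_log_iff q1 q2, hLWe _ m1, hLWe _ m2]
  linarith

end BMoll
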