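import Pool.Agent.Lib.MP_a93a81_co.HalfWave
import Pool.Agent.Lib.MP_a93a81_co.Weight
import Pool.Agent.Lib.MP_a93a81_co.KerPos
import Pool.Agent.Lib.MP_a93a81_co.Ibp

/-!
# Common part of SIGNI and SIGNII
-/

namespace BMoll

open MeasureTheory intervalIntegral

theorem Uf_W {m n e : ℕ} (hn : n = m + e) {z : ℝ} (hz : 0 ≤ z) (κ : ℝ) :
    Uf n z * ((1+z)^(m+1) / z^2 * κ) = fN n z / (1+z)^e * κ / z := by
  subst hn
  unfold Uf
  rcases hz.eq_or_lt with h | h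
  · rw [← h]; simp
  · have h1 : (1+z) ≠ 0 := by positivity
    have h2 : (1+z)^(m+e+1) = (1+z)^(m+1) * (1+z)^e := by rw [← pow_add]; congr 1; omega
    rw [h2]
    field_simp

theorem sign_gen {m n e : ℕ} (hm : 60 ≤ m) (hn : n = m + e) (he : e ≤ 1) {Q Q' Φ : ℝ → ℝ}
    (hΦ : ContinuousOn Φ (Set.Icc 0 1)) (hQ : ∀ R ∈ Set.Icc (0:ℝ) 1, Q R = R^(2*m) * Φ R)
    (hpos : ∀ R ∈ Set.Ioc (0:ℝ) 1, 0 < Q R)
    (hder : ∀ R ∈ Set.Ioc (0:ℝ) 1, HasDerivAt Q (Q' R) R)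
    (hineq : ∀ R ∈ Set.Ioc (0:ℝ) 1, rho m R * Q R ≤ R * Q' R) (k : Fin n) :
    0 < (-1)^(k:ℕ) * ∫ R in (0:ℝ)..1,
      Q R * fN n (R^2 * ny n k) / (1 + R^2 * ny n k)^e / R := by
  set Y := ny n k with hY
  have hY0 : 0 < Y := ny_pos n k
  have hYz : nz n ((k:ℕ)+1) = Y := nz_succ n k
  set κ : ℝ → ℝ := fun z => Q (√(z/Y)) with hκ
  set κ' : ℝ → ℝ := fun z => √(z/Y) * Q' (√(z/Y)) / (2*z) with hκ'
  set W : ℝ → ℝ := fun z => (1+z)^(m+1) / z^2 * κ z with hW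
  have hsq : ∀ z ∈ Set.Ioc (0:ℝ) Y, √(z/Y) ∈ Set.Ioc (0:ℝ) 1 := by
    intro z hz
    have h1 : 0 < z/Y := div_pos hz.1 hY0
    have h2 : z/Y ≤ 1 := (div_le_one hY0).2 hz.2
    exact ⟨Real.sqrt_pos.2 h1, (Real.sqrt_le_sqrt h2).trans_eq Real.sqrt_one⟩
  have hsq' : ∀ z ∈ Set.Icc (0:ℝ) Y, √(z/Y) ∈ Set.Icc (0:ℝ) 1 := by
    intro z hz
    have h2 : z/Y ≤ 1 := (div_le_one hY0).2 hz.2
    exact ⟨Real.sqrt_nonneg _, (Real.sqrt_le_sqrt h2).trans_eq Real.sqrt_one⟩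
  have hκpos : ∀ z ∈ Set.Ioc (0:ℝ) Y, 0 < κ z := fun z hz => hpos _ (hsq z hz)
  have hκder : ∀ z ∈ Set.Ioc (0:ℝ) Y, HasDerivAt κ (κ' z) z := by
    intro z hz
    have hzY : 0 < z/Y := div_pos hz.1 hY0
    have hR : 0 < √(z/Y) := Real.sqrt_pos.2 hzY
    have h1 : HasDerivAt (fun z : ℝ => z/Y) (1/Y) z := by
      simpa using (hasDerivAt_id z).div_const Y
    have h2 : HasDerivAt (fun z : ℝ => √(z/Y)) (1/Y / (2*√(z/Y))) z := h1.sqrt hzY.ne'
    have h3 := (hder _ (hsq z hz)).comp z h2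
    refine h3.congr_deriv ?_
    rw [hκ']
    simp only
    have h4 : √(z/Y) * √(z/Y) = z/Y := Real.mul_self_sqrt hzY.le
    have h5 : z = Y * (√(z/Y) * √(z/Y)) := by rw [h4]; field_simp
    have h6 : √(z/Y) * Q' (√(z/Y)) / (2*z)
        = √(z/Y) * Q' (√(z/Y)) / (2*(Y * (√(z/Y) * √(z/Y)))) := by
      conv_lhs => rw [show (2 * z : ℝ) = 2*(Y * (√(z/Y) * √(z/Y))) by rw [← h5]]
    rw [h6]
    have h7 : √(z/Y) ≠ 0 := hR.ne'
    field_simp
  have hκineq : ∀ z ∈ Set.Ioc (0:ℝ) Y,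
      ((3/5)*m*(Y - z)/(Y + z) - 2) * κ z ≤ 2*z*κ' z := by
    intro z hz
    have hzY : 0 < z/Y := div_pos hz.1 hY0
    have h0 := hineq _ (hsq z hz)
    have h1 : 2*z*κ' z = √(z/Y) * Q' (√(z/Y)) := by
      rw [hκ']
      simp only
      have : z ≠ 0 := hz.1.ne'
      field_simp
    have h2 : rho m (√(z/Y)) = (3/5)*m*(Y - z)/(Y + z) - 2 := by
      unfold rho
      rw [Real.sq_sqrt hzY.le]
      have : (0:ℝ) < Y + z := by have := hz.1; linarith
      have h3 : (0:ℝ) < 1 + z/Y := by linarith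
      field_simp
    rw [h1, ← h2]
    exact h0
  -- continuity of W on (0, Y]
  have hWcont : ContinuousOn W (Set.Ioc 0 Y) := by
    intro z hz
    have h1 : ContinuousAt κ z := (hκder z hz).continuousAt
    have h2 : z^2 ≠ 0 := by have := hz.1; positivity
    have h3 : ContinuousAt (fun z : ℝ => (1+z)^(m+1) / z^2) z :=
      ContinuousAt.div (by fun_prop) (by fun_prop) h2
    exact (h3.mul h1).continuousWithinAt
  have hWpos : ∀ z ∈ Set.Ioc (0:ℝ) Y, 0 < W z := by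
    intro z hz
    have h1 := hκpos z hz
    have h2 := hz.1
    rw [hW]
    simp only
    positivity
  -- the product is continuous on [0,Y]
  have hg : ∀ z ∈ Set.Icc (0:ℝ) Y,
      Uf n z * W z = fN n z / (1+z)^e * (z^(m-1) / Y^m * Φ (√(z/Y))) := by
    intro z hz
    rw [hW]
    simp only
    rw [Uf_W hn hz.1]
    rcases hz.1.eq_or_lt with h | h
    · rw [← h]
      have : m - 1 ≠ 0 := by omega
      simp [this]
    · rw [hκ]
      simp only
      rw [hQ _ (hsq' z hz), pow_mul, Real.sq_sqrt (div_nonneg hz.1 hY0.le), div_pow]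
      have : z^m = z^(m-1) * z := by rw [← pow_succ]; congr 1; omega
      rw [this]
      field_simp
  have hfc : Continuous (fN n) := (fN_contDiff n).continuous
  have hgc : ContinuousOn (fun z => Uf n z * W z) (Set.Icc 0 Y) := by
    have h1 : ContinuousOn (fun z : ℝ => fN n z / (1+z)^e * (z^(m-1) / Y^m * Φ (√(z/Y))))
        (Set.Icc 0 Y) := by
      have h2 : ContinuousOn (fun z : ℝ => Φ (√(z/Y))) (Set.Icc 0 Y) :=
        hΦ.comp (by fun_prop) (fun z hz => hsq' z hz)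
      have h3 : ContinuousOn (fun z : ℝ => fN n z / (1+z)^e) (Set.Icc 0 Y) := by
        apply ContinuousOn.div hfc.continuousOn (by fun_prop)
        intro z hz
        have := hz.1
        positivity
      have h4 : ContinuousOn (fun z : ℝ => z^(m-1) / Y^m) (Set.Icc 0 Y) := by fun_prop
      exact h3.mul (h4.mul h2)
    exact h1.congr (fun z hz => hg z hz)
  have hint : IntervalIntegrable (fun z => Uf n z * W z) volume 0 Y := by
    apply ContinuousOn.intervalIntegrable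
    rwa [Set.uIcc_of_le hY0.le]
  have hkn : (k:ℕ) + 1 ≤ n := k.2
  have hmn : n = m ∨ n = m+1 := by omega
  have hwave := half_wave (n := n) (k := (k:ℕ)+1) (by omega) hkn (W := W)
    (by rw [hYz]; exact hWpos) (by rw [hYz]; exact hWcont) (by rw [hYz]; exact hint) (by
      intro j hj1 hjk t ht htj htk
      exact weight_refl hm hmn (k := (k:ℕ)+1) (by omega) hkn (κ := κ) (κ' := κ')
        (by rw [hYz]; exact hκpos) (by rw [hYz]; exact hκder) (by rw [hYz]; exact hκineq)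
        hj1 hjk ht htj htk)
  rw [hYz] at hwave
  simp only [Nat.add_sub_cancel] at hwave
  -- substitution
  have hsub := intervalIntegral.integral_comp_mul_deriv' (a := 0) (b := 1)
    (f := fun R : ℝ => R^2 * Y) (f' := fun R : ℝ => 2*R*Y) (g := fun z => Uf n z * W z)
    (by
      intro x _
      have := (hasDerivAt_pow 2 x).mul_const Y
      simpa using this) (by fun_prop) (by
      apply hgc.mono
      rintro _ ⟨x, hx, rfl⟩
      rw [Set.uIcc_of_le zero_le_one] at hx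
      have h1 : x^2 ≤ 1 := pow_le_one₀ hx.1 hx.2
      exact ⟨by positivity, by nlinarith⟩)
  simp only [Function.comp] at hsub
  have e0 : (0:ℝ)^2 * Y = 0 := by simp
  have e1 : (1:ℝ)^2 * Y = Y := by simp
  rw [e0, e1] at hsub
  rw [← hsub] at hwave
  have hfin : (∫ R in (0:ℝ)..1, Uf n (R^2 * Y) * W (R^2 * Y) * (2*R*Y))
      = ∫ R in (0:ℝ)..1, 2 * (Q R * fN n (R^2 * Y) / (1 + R^2 * Y)^e / R) := by
    apply intervalIntegral.integral_congr
    intro R hR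
    rw [Set.uIcc_of_le zero_le_one] at hR
    simp only
    rcases hR.1.eq_or_lt with h | h
    · rw [← h]; simp
    · have hz : 0 ≤ R^2 * Y := by positivity
      rw [hW]
      simp only
      rw [Uf_W hn hz]
      have : κ (R^2 * Y) = Q R := by
        rw [hκ]
        simp only
        rw [mul_div_assoc, div_self hY0.ne', mul_one, Real.sqrt_sq hR.1]
      rw [this]
      have h1 : (1 + R^2 * Y) ≠ 0 := by positivity
      field_simp
  rw [hfin, intervalIntegral.integral_const_mul] at hwave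
  nlinarith [hwave]

/-- smoothness of `φ₂` -/
theorem phiI1_contDiffOn (m : ℕ) {s : ℝ} (hs : 0 < s) (n : ℕ) :
    ContDiffOn ℝ n (phiI1 m s) (UI s) := fun _ hR => (phiI1_smooth m hs hR n).contDiffWithinAt

theorem phiI2_smooth (m : ℕ) {s : ℝ} (hs : 0 < s) {R : ℝ} (hR : R ∈ UI s) (n : ℕ) :
    ContDiffAt ℝ n (phiI2 m s) R := by
  have h1 : ContDiffOn ℝ n (deriv (phiI1 m s)) (UI s) :=
    (phiI1_contDiffOn m hs (n+1)).deriv_of_isOpen (isOpen_UI s) (by push_cast; exact le_rfl)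
  have h2 : ContDiffAt ℝ n (deriv (phiI1 m s)) R := h1.contDiffAt ((isOpen_UI s).mem_nhds hR)
  have h3 := phiI1_smooth m hs hR n
  unfold phiI2
  fun_prop

/-- `K = R^(2m) Φ` -/
noncomputable def PhiK (m : ℕ) (s R : ℝ) : ℝ :=
  R^2 * psiI m s R + (2*m * phiI1 m s R + phiI2 m s R) / (4*(m+1))

theorem PhiK_smooth (m : ℕ) {s : ℝ} (hs : 0 < s) {R : ℝ} (hR : R ∈ UI s) (n : ℕ) :
    ContDiffAt ℝ n (PhiK m s) R := by
  have h1 := phiI1_smooth m hs hR n
  have h2 := phiI2_smooth m hs hR n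
  have h3 := psiI_smooth m hs hR n
  unfold PhiK
  fun_prop

theorem Ks_eq {m : ℕ} (hm : 1 ≤ m) {s : ℝ} (hs : 0 < s) {R : ℝ} (hR : R ∈ UI s) :
    Ks m s R = R^(2*m) * PhiK m s R := by
  unfold Ks PhiK
  rw [G0_eq, A1_eq hm hs hR, A2_eq hm hs hR]
  ring

/-- `AK = R^(2m) Φ'` -/
noncomputable def PhiK1 (m : ℕ) (s R : ℝ) : ℝ := 2*m * PhiK m s R + R * deriv (PhiK m s) R

theorem PhiK_contDiffOn (m : ℕ) {s : ℝ} (hs : 0 < s) (n : ℕ) :
    ContDiffOn ℝ n (PhiK m s) (UI s) := fun _ hR => (PhiK_smooth m hs hR n).contDiffWithinAt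

theorem PhiK1_smooth (m : ℕ) {s : ℝ} (hs : 0 < s) {R : ℝ} (hR : R ∈ UI s) (n : ℕ) :
    ContDiffAt ℝ n (PhiK1 m s) R := by
  have h1 : ContDiffOn ℝ n (deriv (PhiK m s)) (UI s) :=
    (PhiK_contDiffOn m hs (n+1)).deriv_of_isOpen (isOpen_UI s) (by push_cast; exact le_rfl)
  have h2 : ContDiffAt ℝ n (deriv (PhiK m s)) R := h1.contDiffAt ((isOpen_UI s).mem_nhds hR)
  have h3 := PhiK_smooth m hs hR n
  unfold PhiK1
  fun_prop

theorem Ks_hasDerivAt {m : ℕ} (hm : 1 ≤ m) {s : ℝ} (hs : 0 < s) {R : ℝ} (hR : R ∈ UI s) :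
    HasDerivAt (Ks m s) (R^(2*m-1) * PhiK1 m s R) R :=
  hasDerivAt_pow_mul hm (isOpen_UI s) (fun _ hR => Ks_eq hm hs hR)
    (fun _ hR => (PhiK_smooth m hs hR 1).differentiableAt one_ne_zero) hR

theorem AKs_eq {m : ℕ} (hm : 1 ≤ m) {s : ℝ} (hs : 0 < s) {R : ℝ} (hR : R ∈ UI s) :
    Aop (Ks m s) R = R^(2*m) * PhiK1 m s R :=
  Aop_pow_mul hm (isOpen_UI s) (fun _ hR => Ks_eq hm hs hR)
    (fun _ hR => (PhiK_smooth m hs hR 1).differentiableAt one_ne_zero) hR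

theorem PhiK_cont (m : ℕ) {s : ℝ} (hs : 0 < s) : ContinuousOn (PhiK m s) (Set.Icc 0 1) :=
  ((PhiK_contDiffOn m hs 0).continuousOn).mono (fun _ hR => Icc_sub_UI hs hR)

theorem PhiK1_cont (m : ℕ) {s : ℝ} (hs : 0 < s) : ContinuousOn (PhiK1 m s) (Set.Icc 0 1) := by
  have h : ContDiffOn ℝ (0:ℕ) (PhiK1 m s) (UI s) := fun _ hR =>
    (PhiK1_smooth m hs hR 0).contDiffWithinAt
  exact h.continuousOn.mono (fun _ hR => Icc_sub_UI hs hR)

end BMoll
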