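import Pool.Agent.Lib.MP_a93a81_co.HalfWave
import Pool.Agent.Lib.MP_a93a81_co.Weight
import Pool.Agent.Lib.MP_a93a81_co.KerPos
import Pool.Agent.Lib.MP_a93a81_co.Ibp
import Pool.Agent.Lib.MP_a93a81_co.SignGen

/-!
# Module SIGNI : sign at the zeros of `f_m`
-/

namespace BMoll

open MeasureTheory intervalIntegral

theorem sign_I {m : ℕ} (hm : 60 ≤ m) {s : ℝ} (hs : 0 < s) (hs1 : s ≤ 1) (k : Fin m) :
    0 < (-1)^(k:ℕ) * ∫ R in (0:ℝ)..1, Ks m s R * fN m (R^2 * ny m k) / R := by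
  have hm1 : 1 ≤ m := by omega
  have h := sign_gen (m := m) (n := m) (e := 0) hm rfl (by omega) (Q := Ks m s)
    (Q' := fun R => R^(2*m-1) * PhiK1 m s R) (Φ := PhiK m s) (PhiK_cont m hs)
    (fun R hR => Ks_eq hm1 hs (Icc_sub_UI hs hR))
    (fun R hR => Ks_pos hm hs.le hs1 hR.1 hR.2)
    (fun R hR => Ks_hasDerivAt hm1 hs (Icc_sub_UI hs ⟨hR.1.le, hR.2⟩))
    (fun R hR => by
      have h1 := Ks_P2 hm hs.le hs1 hR.1 hR.2
      unfold Aop at h1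
      rwa [(Ks_hasDerivAt hm1 hs (Icc_sub_UI hs ⟨hR.1.le, hR.2⟩)).deriv] at h1) k
  simpa using h

end BMoll
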