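import Pool.Agent.Lib.MP_a93a81_co.HalfWave
import Pool.Agent.Lib.MP_a93a81_co.Weight
import Pool.Agent.Lib.MP_a93a81_co.KerPos
import Pool.Agent.Lib.MP_a93a81_co.Ibp
import Pool.Agent.Lib.MP_a93a81_co.SignGen

/-!
# Module SIGNII : sign at the zeros of `f_{m+1}`
-/

namespace BMoll

open MeasureTheory intervalIntegral

/-- `θ = 1 - (2/(m+1)) z/(1+z)`, `z = R²Y` -/
noncomputable def thII (m : ℕ) (Y R : ℝ) : ℝ := 1 - 2/((m:ℝ)+1) * (R^2*Y/(1+R^2*Y))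

/-- the modified kernel -/
noncomputable def KII (m : ℕ) (s Y R : ℝ) : ℝ :=
  thII m Y R * Ks m s R + Aop (Ks m s) R / ((m:ℝ)+1)

theorem thII_hasDerivAt (m : ℕ) {Y : ℝ} (hY : 0 < Y) (R : ℝ) :
    HasDerivAt (thII m Y) (-(2/((m:ℝ)+1) * (2*R*Y/(1+R^2*Y)^2))) R := by
  have h1 : HasDerivAt (fun R : ℝ => R^2*Y) (2*R*Y) R := by
    have := (hasDerivAt_pow 2 R).mul_const Y
    simpa using this
  have hp : (1 + R^2*Y) ≠ 0 := by positivity
  have h2 := (h1.div (h1.const_add 1) hp)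
  have h3 := (h2.const_mul (2/((m:ℝ)+1))).const_sub 1
  refine h3.congr_deriv ?_
  field_simp
  ring

theorem thII_cont (m : ℕ) {Y : ℝ} (hY : 0 < Y) : Continuous (thII m Y) :=
  continuous_iff_continuousAt.2 fun R => (thII_hasDerivAt m hY R).continuousAt

/-- `(A K)'` -/
theorem AKs_hasDerivAt {m : ℕ} (hm : 1 ≤ m) {s : ℝ} (hs : 0 < s) {R : ℝ} (hR : R ∈ UI s) :
    HasDerivAt (Aop (Ks m s)) (deriv (Aop (Ks m s)) R) R := by
  have h := hasDerivAt_pow_mul hm (isOpen_UI s) (fun _ hR => AKs_eq hm hs hR)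
    (fun _ hR => (PhiK1_smooth m hs hR 1).differentiableAt one_ne_zero) hR
  exact h.differentiableAt.hasDerivAt

theorem KII_hasDerivAt {m : ℕ} (hm : 1 ≤ m) {s : ℝ} (hs : 0 < s) {Y : ℝ} (hY : 0 < Y) {R : ℝ}
    (hR : R ∈ UI s) :
    HasDerivAt (KII m s Y) (-(2/((m:ℝ)+1) * (2*R*Y/(1+R^2*Y)^2)) * Ks m s R
      + thII m Y R * deriv (Ks m s) R + deriv (Aop (Ks m s)) R / ((m:ℝ)+1)) R := by
  have h1 := thII_hasDerivAt m hY R
  have h2 := (Ks_hasDerivAt hm hs hR).differentiableAt.hasDerivAt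
  have h3 := AKs_hasDerivAt hm hs hR
  exact (h1.mul h2).add (h3.div_const _)

theorem thII_ge {m : ℕ} {Y R : ℝ} (hY : 0 < Y) :
    ((m:ℝ) - 1) / (m+1) ≤ thII m Y R := by
  unfold thII
  have hm : (0:ℝ) < (m:ℝ)+1 := by positivity
  have hz : 0 ≤ R^2*Y := by positivity
  have h1 : R^2*Y/(1+R^2*Y) ≤ 1 := by
    rw [div_le_one (by positivity)]; linarith
  have h2 : 2/((m:ℝ)+1) * (R^2*Y/(1+R^2*Y)) ≤ 2/((m:ℝ)+1) * 1 :=
    mul_le_mul_of_nonneg_left h1 (by positivity)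
  have h3 : ((m:ℝ) - 1) / (m+1) = 1 - 2/((m:ℝ)+1) * 1 := by
    field_simp; ring
  rw [h3]; linarith

theorem rho_ge (m : ℕ) {R : ℝ} (hR : R ∈ Set.Icc (0:ℝ) 1) : -2 ≤ rho m R := by
  unfold rho
  have h1 : R^2 ≤ 1 := pow_le_one₀ hR.1 hR.2
  have : 0 ≤ (3/5) * (m:ℝ) * (1-R^2)/(1+R^2) := by
    apply div_nonneg
    · apply mul_nonneg (by positivity); linarith
    · positivity
  linarith

theorem KII_pos {m : ℕ} (hm : 60 ≤ m) {s : ℝ} (hs : 0 < s) (hs1 : s ≤ 1) {Y : ℝ} (hY : 0 < Y)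
    {R : ℝ} (hR : R ∈ Set.Ioc (0:ℝ) 1) : 0 < KII m s Y R := by
  unfold KII
  have hK := Ks_pos hm hs.le hs1 hR.1 hR.2
  have hP := Ks_P2 hm hs.le hs1 hR.1 hR.2
  have hr := rho_ge m ⟨hR.1.le, hR.2⟩
  have hθ := thII_ge (m := m) (R := R) hY
  have hm' : (60:ℝ) ≤ m := by exact_mod_cast hm
  have hm1 : (0:ℝ) < (m:ℝ)+1 := by linarith
  have h1 : -2 * Ks m s R ≤ Aop (Ks m s) R := le_trans (mul_le_mul_of_nonneg_right hr hK.le) hP
  have h2 : ((m:ℝ) - 1) / (m+1) * Ks m s R ≤ thII m Y R * Ks m s R :=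
    mul_le_mul_of_nonneg_right hθ hK.le
  have h3 : -2 * Ks m s R / (m+1) ≤ Aop (Ks m s) R / ((m:ℝ)+1) :=
    div_le_div_of_nonneg_right h1 hm1.le
  have h4 : 0 < ((m:ℝ) - 1) / (m+1) * Ks m s R + -2 * Ks m s R / (m+1) := by
    have : ((m:ℝ) - 1) / (m+1) * Ks m s R + -2 * Ks m s R / (m+1)
        = ((m:ℝ)-3) * Ks m s R / (m+1) := by field_simp; ring
    rw [this]
    have : (0:ℝ) < (m:ℝ) - 3 := by linarith
    positivity
  linarith

theorem KII_ineq {m : ℕ} (hm : 60 ≤ m) {s : ℝ} (hs : 0 < s) (hs1 : s ≤ 1) {Y : ℝ} (hY : 0 < Y)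
    {R : ℝ} (hR : R ∈ Set.Ioc (0:ℝ) 1) :
    rho m R * KII m s Y R ≤ R * (-(2/((m:ℝ)+1) * (2*R*Y/(1+R^2*Y)^2)) * Ks m s R
      + thII m Y R * deriv (Ks m s) R + deriv (Aop (Ks m s)) R / ((m:ℝ)+1)) := by
  have hK := Ks_pos hm hs.le hs1 hR.1 hR.2
  have hP := Ks_P2 hm hs.le hs1 hR.1 hR.2
  have hP3 := Ks_P3 hm hs.le hs1 hR.1 hR.2
  have hθ := thII_ge (m := m) (R := R) hY
  have hm' : (60:ℝ) ≤ m := by exact_mod_cast hm
  have hm1 : (0:ℝ) < (m:ℝ)+1 := by linarith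
  have hA : R * deriv (Ks m s) R = Aop (Ks m s) R := rfl
  have hA2 : R * deriv (Aop (Ks m s)) R = Aop (Aop (Ks m s)) R := rfl
  have hz : 0 ≤ R^2*Y := by positivity
  have h4 : 4 * (R^2*Y)/(1+R^2*Y)^2 ≤ 1 := by
    rw [div_le_one (by positivity)]
    nlinarith [sq_nonneg (1 - R^2*Y)]
  have hθ' : (m:ℝ) - 1 ≤ (m+1) * thII m Y R := by
    rw [div_le_iff₀ hm1] at hθ; linarith
  -- multiply by m+1
  have e1 : R * (-(2/((m:ℝ)+1) * (2*R*Y/(1+R^2*Y)^2)) * Ks m s R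
      + thII m Y R * deriv (Ks m s) R + deriv (Aop (Ks m s)) R / ((m:ℝ)+1))
      = (1/((m:ℝ)+1)) * (-(4 * (R^2*Y)/(1+R^2*Y)^2) * Ks m s R
        + (m+1) * thII m Y R * Aop (Ks m s) R + Aop (Aop (Ks m s)) R) := by
    rw [← hA, ← hA2]
    have : (1 + R^2*Y) ≠ 0 := by positivity
    field_simp
    ring
  have e2 : rho m R * KII m s Y R = (1/((m:ℝ)+1)) * ((m+1) * thII m Y R * (rho m R * Ks m s R)
      + rho m R * Aop (Ks m s) R) := by
    unfold KII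
    field_simp
  rw [e1, e2]
  apply mul_le_mul_of_nonneg_left _ (by positivity)
  have h5 : -1 * Ks m s R ≤ -(4 * (R^2*Y)/(1+R^2*Y)^2) * Ks m s R :=
    mul_le_mul_of_nonneg_right (by linarith) hK.le
  have h6 : ((m:ℝ) - 1) * (Aop (Ks m s) R - rho m R * Ks m s R)
      ≤ (m+1) * thII m Y R * (Aop (Ks m s) R - rho m R * Ks m s R) :=
    mul_le_mul_of_nonneg_right hθ' (by linarith)
  nlinarith [hP3, h5, h6]

theorem KII_eq {m : ℕ} (hm : 1 ≤ m) {s : ℝ} (hs : 0 < s) (Y : ℝ) {R : ℝ} (hR : R ∈ UI s) :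
    KII m s Y R = R^(2*m) * (thII m Y R * PhiK m s R + PhiK1 m s R / ((m:ℝ)+1)) := by
  unfold KII
  rw [Ks_eq hm hs hR, AKs_eq hm hs hR]
  ring

theorem int_II {m : ℕ} (hm : 1 ≤ m) {s : ℝ} (hs : 0 < s) {Y : ℝ} (hY : 0 < Y)
    (hf : fN (m+1) Y = 0) :
    ∫ R in (0:ℝ)..1, Ks m s R * fN m (R^2 * Y) / R
      = ∫ R in (0:ℝ)..1, KII m s Y R * fN (m+1) (R^2 * Y) / (1 + R^2 * Y)^1 / R := by
  have hsubU : ∀ R ∈ Set.Icc (0:ℝ) 1, R ∈ UI s := fun R hR => Icc_sub_UI hs hR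
  have hfm : Continuous (fN m) := (fN_contDiff m).continuous
  have hfm1 : Continuous (fN (m+1)) := (fN_contDiff (m+1)).continuous
  -- integrability
  have hi1 : IntervalIntegrable (fun R => Ks m s R * fN m (R^2 * Y) / R) volume 0 1 := by
    have h := int_pow_mul (m := m) hm (φ := fun R => PhiK m s R * fN m (R^2*Y))
      (H := fun R => Ks m s R * fN m (R^2*Y))
      (fun R hR => by rw [Ks_eq hm hs (hsubU R hR)]; ring)
      ((PhiK_cont m hs).mul (by fun_prop)) 0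
    simpa using h
  have hi2 : IntervalIntegrable (fun R => KII m s Y R * fN (m+1) (R^2 * Y) / (1 + R^2 * Y)^1 / R)
      volume 0 1 := by
    have hc : ContinuousOn (fun R : ℝ => fN (m+1) (R^2*Y) / (1 + R^2 * Y)^1) (Set.Icc 0 1) := by
      apply ContinuousOn.div (by fun_prop) (by fun_prop)
      intro R _
      positivity
    have hc2 : ContinuousOn (fun R => thII m Y R * PhiK m s R + PhiK1 m s R / ((m:ℝ)+1))
        (Set.Icc 0 1) :=
      (((thII_cont m hY).continuousOn).mul (PhiK_cont m hs)).add ((PhiK1_cont m hs).div_const _)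
    have h := int_pow_mul (m := m) hm
      (φ := fun R => (thII m Y R * PhiK m s R + PhiK1 m s R / ((m:ℝ)+1)) *
        (fN (m+1) (R^2*Y) / (1 + R^2 * Y)^1))
      (H := fun R => KII m s Y R * fN (m+1) (R^2*Y) / (1 + R^2 * Y)^1)
      (fun R hR => by rw [KII_eq hm hs Y (hsubU R hR)]; ring)
      (hc2.mul hc) 0
    simpa using h
  -- the primitive
  set B : ℝ → ℝ := fun R => Ks m s R * (fN (m+1) (R^2*Y) / (1 + R^2*Y)) with hB
  have hder : ∀ R ∈ Set.Ioo (0:ℝ) 1, HasDerivAt B (((m:ℝ)+1) *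
      (KII m s Y R * fN (m+1) (R^2 * Y) / (1 + R^2 * Y)^1 / R
        - Ks m s R * fN m (R^2 * Y) / R)) R := by
    intro R hR
    have hU := hsubU R ⟨hR.1.le, hR.2.le⟩
    have hz : HasDerivAt (fun R : ℝ => R^2*Y) (2*R*Y) R := by
      have := (hasDerivAt_pow 2 R).mul_const Y
      simpa using this
    have hd : HasDerivAt (fN (m+1)) (deriv (fN (m+1)) (R^2*Y)) (R^2*Y) :=
      (((fN_contDiff (m+1)).differentiable (by simp)) (R^2*Y)).hasDerivAt
    have h1 := hd.comp R hz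
    have hp : (1 + R^2*Y) ≠ 0 := by positivity
    have h2 := h1.div (hz.const_add 1) hp
    have h3 := (Ks_hasDerivAt hm hs hU).differentiableAt.hasDerivAt
    have h4 := h3.mul h2
    refine h4.congr_deriv ?_
    have hc := fN_contig m (R^2*Y)
    have hc' : fN m (R^2*Y) = (fN (m+1) (R^2*Y) - 2/((m:ℝ)+1) * (R^2*Y)
        * deriv (fN (m+1)) (R^2*Y)) / (1+R^2*Y) := by
      rw [← hc]; field_simp
    rw [hc']
    have hR0 : R ≠ 0 := hR.1.ne'
    have hm1 : (m:ℝ)+1 ≠ 0 := by positivity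
    unfold KII thII Aop
    simp only [Function.comp, Pi.div_apply]
    field_simp
    ring
  have hcont : ContinuousOn B (Set.Icc 0 1) := by
    have h1 : ContinuousOn (Ks m s) (Set.Icc 0 1) := fun R hR =>
      (Ks_hasDerivAt hm hs (hsubU R hR)).continuousAt.continuousWithinAt
    apply h1.mul
    apply ContinuousOn.div (by fun_prop) (by fun_prop)
    intro R _
    positivity
  have hFTC := intervalIntegral.integral_eq_sub_of_hasDerivAt_of_le zero_le_one hcont hder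
    ((hi2.sub hi1).const_mul _)
  have hB1 : B 1 = 0 := by rw [hB]; simp [hf]
  have hB0 : B 0 = 0 := by
    rw [hB]
    simp only
    rw [Ks_eq hm hs (hsubU 0 ⟨le_rfl, zero_le_one⟩)]
    have : 2*m ≠ 0 := by omega
    simp [this]
  rw [hB1, hB0, intervalIntegral.integral_const_mul, intervalIntegral.integral_sub hi2 hi1,
    sub_zero] at hFTC
  have hm1 : (m:ℝ)+1 ≠ 0 := by positivity
  have := (mul_eq_zero.1 hFTC).resolve_left hm1
  linarith

theorem sign_II {m : ℕ} (hm : 60 ≤ m) {s : ℝ} (hs : 0 < s) (hs1 : s ≤ 1) (k : Fin (m+1)) :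
    0 < (-1)^(k:ℕ) * ∫ R in (0:ℝ)..1, Ks m s R * fN m (R^2 * ny (m+1) k) / R := by
  have hm1 : 1 ≤ m := by omega
  have hY := ny_pos (m+1) k
  have hf : fN (m+1) (ny (m+1) k) = 0 := by
    rw [fN_prod]
    apply Finset.prod_eq_zero (Finset.mem_univ k)
    rw [div_self hY.ne', sub_self]
  rw [int_II hm1 hs hY hf]
  exact sign_gen (m := m) (n := m+1) (e := 1) hm rfl (by omega) (Q := KII m s (ny (m+1) k))
    (Φ := fun R => thII m (ny (m+1) k) R * PhiK m s R + PhiK1 m s R / ((m:ℝ)+1))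
    ((((thII_cont m hY).continuousOn).mul (PhiK_cont m hs)).add ((PhiK1_cont m hs).div_const _))
    (fun R hR => KII_eq hm1 hs _ (Icc_sub_UI hs hR))
    (fun R hR => KII_pos hm hs hs1 hY hR)
    (fun R hR => KII_hasDerivAt hm1 hs hY (Icc_sub_UI hs ⟨hR.1.le, hR.2⟩))
    (fun R hR => KII_ineq hm hs hs1 hY hR) k

end BMoll
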