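import Pool.Agent.Lib.MP_a93a81_co.Sep
import Pool.Agent.Lib.MP_a93a81_co.Rep
import Pool.Agent.Lib.MP_a93a81_co.SignI
import Pool.Agent.Lib.MP_a93a81_co.SignII

/-!
# Module BASEBIG : `m ≥ 60`

`∑ b_i (-Y)^i = κ ∫_0^1 (s(1-s))^{-1/2} [∫_0^1 K(R,s) f_m(R²Y) dR/R] ds` (`rep`, finite sums),
positive times `(-1)^k` at `Y = ny m k` and `Y = ny (m+1) k` (`sign_I`, `sign_II`, `rep_int`).
`sep` with `l k = ny m k`, `h k = ny (m+1) k.succ`, `ny_symm`, `ny_interlace`.
-/

namespace BMoll

open Polynomial Finset MeasureTheory intervalIntegral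

theorem inner_sum {m : ℕ} (hm : 1 ≤ m) {s : ℝ} (hs : 0 < s) (hs1 : s ≤ 1) (Y : ℝ) :
    ∑ i ∈ range (m+1), nar m i * (-Y)^i * ∫ R in (0:ℝ)..1, R^(2*i) * Ks m s R / R
      = ∫ R in (0:ℝ)..1, Ks m s R * fN m (R^2 * Y) / R := by
  have h1 : ∀ i ∈ range (m+1), nar m i * (-Y)^i * ∫ R in (0:ℝ)..1, R^(2*i) * Ks m s R / R
      = ∫ R in (0:ℝ)..1, nar m i * (-Y)^i * (R^(2*i) * Ks m s R / R) := by
    intro i _
    rw [intervalIntegral.integral_const_mul]
  rw [Finset.sum_congr rfl h1, ← intervalIntegral.integral_finsetSum]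
  · apply intervalIntegral.integral_congr
    intro R _
    simp only [fN]
    rw [Finset.mul_sum, Finset.sum_div]
    apply Finset.sum_congr rfl
    intro i _
    have : (-(R^2*Y))^i = R^(2*i) * (-Y)^i := by
      rw [pow_mul, ← mul_pow]
      ring
    rw [this]
    ring
  · intro i _
    exact (Ks_int hm hs hs1 i).const_mul _

theorem sum_pos_of_sign {m : ℕ} (hm : 2 ≤ m) {Y : ℝ} {k : ℕ}
    (h : ∀ s : ℝ, 0 < s → s < 1 →
      0 < (-1)^k * ∫ R in (0:ℝ)..1, Ks m s R * fN m (R^2 * Y) / R) :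
    0 < (-1)^k * ∑ i ∈ range (m+1), Lop (bm m) i * (-Y)^i := by
  obtain ⟨κ, hκ, hrep⟩ := rep hm
  set w : ℝ → ℝ := fun s => (s*(1-s))^(-(1/2) : ℝ) with hw
  have h1 : ∑ i ∈ range (m+1), Lop (bm m) i * (-Y)^i
      = κ * ∫ s in (0:ℝ)..1, ∑ i ∈ range (m+1), nar m i * (-Y)^i *
          (w s * ∫ R in (0:ℝ)..1, R^(2*i) * Ks m s R / R) := by
    rw [intervalIntegral.integral_finsetSum]
    · rw [Finset.mul_sum]
      apply Finset.sum_congr rfl
      intro i hi
      rw [intervalIntegral.integral_const_mul, hrep i (by simpa [Nat.lt_succ_iff] using hi)]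
      ring
    · intro i _
      exact (rep_int hm i).const_mul _
  have hint : IntervalIntegrable (fun s => ∑ i ∈ range (m+1), nar m i * (-Y)^i *
          (w s * ∫ R in (0:ℝ)..1, R^(2*i) * Ks m s R / R)) volume 0 1 := by
    have h5 := IntervalIntegrable.sum (μ := volume) (a := (0:ℝ)) (b := 1) (range (m+1))
      (f := fun i s => nar m i * (-Y)^i * (w s * ∫ R in (0:ℝ)..1, R^(2*i) * Ks m s R / R))
      (fun i _ => (rep_int hm i).const_mul _)
    have h6 : (fun s => ∑ i ∈ range (m+1), nar m i * (-Y)^i *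
          (w s * ∫ R in (0:ℝ)..1, R^(2*i) * Ks m s R / R))
        = ∑ i ∈ range (m+1), fun s => nar m i * (-Y)^i *
          (w s * ∫ R in (0:ℝ)..1, R^(2*i) * Ks m s R / R) := by
      funext s
      simp
    rw [h6]
    exact h5
  have hpos : 0 < ∫ s in (0:ℝ)..1, (-1)^k * ∑ i ∈ range (m+1), nar m i * (-Y)^i *
          (w s * ∫ R in (0:ℝ)..1, R^(2*i) * Ks m s R / R) := by
    apply intervalIntegral.intervalIntegral_pos_of_pos_on (hint.const_mul _) _ one_pos
    intro s hs
    have h2 : ∑ i ∈ range (m+1), nar m i * (-Y)^i *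
          (w s * ∫ R in (0:ℝ)..1, R^(2*i) * Ks m s R / R)
        = w s * ∫ R in (0:ℝ)..1, Ks m s R * fN m (R^2 * Y) / R := by
      rw [← inner_sum (by omega) hs.1 hs.2.le Y, Finset.mul_sum]
      apply Finset.sum_congr rfl
      intro i _
      ring
    rw [h2]
    have h3 := h s hs.1 hs.2
    have h4 : 0 < w s := Real.rpow_pos_of_pos (mul_pos hs.1 (by linarith [hs.2])) _
    calc (0:ℝ) < w s * ((-1)^k * ∫ R in (0:ℝ)..1, Ks m s R * fN m (R^2 * Y) / R) := mul_pos h4 h3
      _ = _ := by ring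
  rw [intervalIntegral.integral_const_mul] at hpos
  rw [h1]
  calc (0:ℝ) < κ * _ := mul_pos hκ hpos
    _ = _ := by ring

theorem base_big {m : ℕ} (hm : 60 ≤ m) :
    ∃ x : Fin m → ℝ, Cls m x ∧ ∃ c : ℝ, 0 < c ∧ ∀ i, Lop (bm m) i = c * (pr x).coeff i := by
  have hz : ∀ i, m < i → Lop (bm m) i = 0 := by
    intro i hi
    unfold Lop
    rw [bm_zero hi, bm_zero (show m < i + 1 by omega)]
    simp
  have hbm : 0 < Lop (bm m) m := by
    unfold Lop
    rw [bm_zero (show m < m + 1 by omega)]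
    have := bm_pos (le_refl m)
    simp only [mul_zero, sub_zero]
    positivity
  obtain ⟨x, hx, hcoef⟩ := sep (m := m) (b := Lop (bm m)) hbm hz
    (l := fun k => ny m k) (h := fun k => ny (m+1) k.succ)
    (fun k => ny_pos m k)
    (fun k => (ny_interlace m k).2)
    (fun i j hij => by
      have h1 := (ny_interlace m j).1
      have h2 : ny (m+1) i.succ ≤ ny (m+1) j.castSucc := by
        apply (ny_strictMono (m+1)).monotone
        rw [Fin.le_def]
        simp only [Fin.val_succ, Fin.val_castSucc]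
        exact hij
      linarith)
    (fun k => sum_pos_of_sign (by omega) (fun s hs hs1 => sign_I hm hs hs1.le k))
    (fun k => by
      have := sum_pos_of_sign (m := m) (Y := ny (m+1) k.succ) (k := (k:ℕ)+1) (by omega)
        (fun s hs hs1 => by
          have := sign_II hm hs hs1.le k.succ
          simpa using this)
      exact this)
    (fun i j hij => (ny_symm m i j hij).ge)
    (fun i j hij => by
      apply (ny_symm (m+1) i.succ j.succ _).le
      simp only [Fin.val_succ]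
      omega)
  exact ⟨x, hx, Lop (bm m) m, hbm, hcoef⟩

end BMoll
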