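import Pool.Agent.Lib.MP_a93a81_co.Defs

/-!
# Module REC : recurrence of the Boros–Moll coefficients

Put `c_k = 2^k C(2m-2k,m-k) C(m+k,k)` for `k ≤ m` (and `0` for `k > m`).  Then
`(k+1)(2m-2k-1) c_{k+1} = (m-k)(m+k+1) c_k` for all `k ≤ m`, and `4^m d_i = ∑_k c_k C(k,i)`.
-/

namespace BMoll

open Polynomial Finset

namespace Rec

/-- the coefficients `c_k` -/
noncomputable def cc (m k : ℕ) : ℝ :=
  if k ≤ m then (2:ℝ)^k * ((2*m-2*k).choose (m-k) : ℝ) * ((m+k).choose k : ℝ) else 0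

theorem cc_rec (m k : ℕ) (hk : k ≤ m) :
    ((k:ℝ) + 1) * (2*m - 2*k - 1) * cc m (k+1) = (m - k) * (m + k + 1) * cc m k := by
  rcases Nat.eq_or_lt_of_le hk with h | h
  · subst h
    simp [cc]
  · obtain ⟨j, rfl⟩ := Nat.exists_eq_add_of_lt h
    have h1 : k + 1 ≤ k + j + 1 := by omega
    have h2 : k ≤ k + j + 1 := by omega
    rw [cc, cc, if_pos h1, if_pos h2]
    have e1 : 2 * (k + j + 1) - 2 * (k + 1) = 2 * j := by omega
    have e2 : k + j + 1 - (k + 1) = j := by omega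
    have e3 : 2 * (k + j + 1) - 2 * k = 2 * (j + 1) := by omega
    have e4 : k + j + 1 - k = j + 1 := by omega
    rw [e1, e2, e3, e4]
    have c1 : (((2 * j).choose j : ℕ) : ℝ) = (j.centralBinom : ℝ) := by
      rw [Nat.centralBinom_eq_two_mul_choose]
    have c2 : (((2 * (j + 1)).choose (j + 1) : ℕ) : ℝ) = ((j+1).centralBinom : ℝ) := by
      rw [Nat.centralBinom_eq_two_mul_choose]
    rw [c1, c2]
    have c3 : ((j:ℝ) + 1) * ((j+1).centralBinom : ℝ) = 2 * (2 * j + 1) * (j.centralBinom : ℝ) := by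
      exact_mod_cast Nat.succ_mul_centralBinom_succ j
    have c4 : ((k + j + 1 + k : ℕ) + 1 : ℝ) * ((k + j + 1 + k).choose k : ℝ) =
        ((k + j + 1 + (k+1)).choose (k + 1) : ℝ) * (k + 1) := by
      exact_mod_cast Nat.add_one_mul_choose_eq (k + j + 1 + k) k
    push_cast at c4 ⊢
    have t1 : ((k:ℝ) + 1) * (2 * (k + j + 1) - 2 * k - 1) *
        (2 ^ (k + 1) * (j.centralBinom : ℝ) * ((k + j + 1 + (k+1)).choose (k + 1) : ℝ)) =
        (2 * (2 * j + 1) * (j.centralBinom : ℝ)) * 2 ^ k *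
          (((k + j + 1 + (k+1)).choose (k + 1) : ℝ) * (k + 1)) := by
      rw [pow_succ]; ring
    rw [t1, ← c3, ← c4]
    ring

theorem bm_eq (m i : ℕ) : bm m i = (∑ k ∈ range (m+1), cc m k * (k.choose i : ℝ)) / 2^(2*m) := by
  unfold bm
  congr 1
  symm
  have hs : Icc i m ⊆ range (m+1) := by
    intro k hk
    rw [mem_Icc] at hk
    rw [mem_range]; omega
  rw [← Finset.sum_subset hs]
  · refine Finset.sum_congr rfl fun k hk => ?_
    rw [mem_Icc] at hk
    rw [cc, if_pos hk.2]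
  · intro k hk hk2
    rw [mem_range] at hk
    rw [mem_Icc] at hk2
    have : k < i := by omega
    rw [Nat.choose_eq_zero_of_lt this]
    simp

theorem ch1 (k i : ℕ) : ((i:ℝ) + 1) * (k.choose (i+1) : ℝ) = (k - i) * (k.choose i : ℝ) := by
  rcases Nat.lt_or_ge k i with h | h
  · rw [Nat.choose_eq_zero_of_lt h, Nat.choose_eq_zero_of_lt (by omega)]; simp
  · have := Nat.choose_succ_right_eq k i
    have h2 : ((k.choose (i+1) : ℕ) : ℝ) * (i + 1) = (k.choose i : ℝ) * (k - i : ℕ) := by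
      exact_mod_cast this
    rw [Nat.cast_sub h] at h2
    linarith

theorem ch2 (k i : ℕ) : ((k:ℝ) + 1) * (k.choose i : ℝ) = (k + 1 - i) * ((k+1).choose i : ℝ) := by
  rcases Nat.lt_or_ge k i with h | h
  · rcases Nat.lt_or_ge (k+1) i with h1 | h1
    · rw [Nat.choose_eq_zero_of_lt h, Nat.choose_eq_zero_of_lt h1]; simp
    · have : i = k + 1 := by omega
      subst this
      rw [Nat.choose_eq_zero_of_lt h]; push_cast; ring
  · have h3 := Nat.choose_mul_succ_eq k i
    have h4 : ((k.choose i : ℕ) : ℝ) * (k + 1) = ((k+1).choose i : ℝ) * (k + 1 - i : ℕ) := by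
      exact_mod_cast h3
    rw [Nat.cast_sub (by omega)] at h4
    push_cast at h4
    linarith

end Rec

open Rec

theorem bm_pos {m i : ℕ} (hi : i ≤ m) : 0 < bm m i := by
  unfold bm
  refine div_pos ?_ (by positivity)
  refine Finset.sum_pos ?_ ⟨m, by rw [mem_Icc]; exact ⟨hi, le_rfl⟩⟩
  intro k hk
  rw [mem_Icc] at hk
  have h1 : 0 < (2*m-2*k).choose (m-k) := Nat.choose_pos (by omega)
  have h2 : 0 < (m+k).choose k := Nat.choose_pos (by omega)
  have h3 : 0 < k.choose i := Nat.choose_pos hk.1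
  have h1' : (0:ℝ) < ((2*m-2*k).choose (m-k) : ℝ) := by exact_mod_cast h1
  have h2' : (0:ℝ) < ((m+k).choose k : ℝ) := by exact_mod_cast h2
  have h3' : (0:ℝ) < (k.choose i : ℝ) := by exact_mod_cast h3
  positivity

theorem bm_zero {m i : ℕ} (hi : m < i) : bm m i = 0 := by
  unfold bm
  rw [Finset.Icc_eq_empty (by omega)]
  simp

/-- `(m-i)(m+i+1) d_i - (2m+1)(i+1) d_{i+1} + (i+1)(i+2) d_{i+2} = 0` for all `i`. -/
theorem bm_rec (m i : ℕ) :
    ((m:ℝ) - i) * (m + i + 1) * bm m i - (2*m+1) * (i+1) * bm m (i+1)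
      + (i+1) * (i+2) * bm m (i+2) = 0 := by
  rw [bm_eq, bm_eq, bm_eq]
  have key : ((m:ℝ) - i) * (m + i + 1) * (∑ k ∈ range (m+1), cc m k * (k.choose i : ℝ))
      - (2*m+1) * (i+1) * (∑ k ∈ range (m+1), cc m k * (k.choose (i+1) : ℝ))
      + (i+1) * (i+2) * (∑ k ∈ range (m+1), cc m k * (k.choose (i+2) : ℝ)) = 0 := by
    rw [Finset.mul_sum, Finset.mul_sum, Finset.mul_sum, ← Finset.sum_sub_distrib,
      ← Finset.sum_add_distrib]
    -- telescoping
    have ht : ∀ k ∈ range (m+1),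
        ((m:ℝ) - i) * (m + i + 1) * (cc m k * (k.choose i : ℝ))
          - (2*m+1) * (i+1) * (cc m k * (k.choose (i+1) : ℝ))
          + (i+1) * (i+2) * (cc m k * (k.choose (i+2) : ℝ)) =
        ((k:ℝ) + 1 - i) * (2 * m - 2 * k - 1) * cc m (k+1) * ((k+1).choose i : ℝ) -
          (k - i) * (2 * m - 2 * k + 1) * cc m k * (k.choose i : ℝ) := by
      intro k hk
      rw [mem_range] at hk
      have h1 := ch1 k i
      have h2 : ((i:ℝ) + 2) * (k.choose (i+2) : ℝ) = (k - i - 1) * (k.choose (i+1) : ℝ) := by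
        have := ch1 k (i+1)
        push_cast at this
        linarith
      have h3 := ch2 k i
      have h4 := cc_rec m k (by omega)
      have e1 : ((k:ℝ) + 1 - i) * (2 * m - 2 * k - 1) * cc m (k+1) * ((k+1).choose i : ℝ) =
          (m - k) * (m + k + 1) * cc m k * (k.choose i : ℝ) := by
        rw [← h4]
        have : ((k:ℝ) + 1 - i) * (2 * m - 2 * k - 1) * cc m (k+1) * ((k+1).choose i : ℝ) =
          (2 * m - 2 * k - 1) * cc m (k+1) * (((k:ℝ) + 1 - i) * ((k+1).choose i : ℝ)) := by ring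
        rw [this, ← h3]
        ring
      rw [e1]
      have e2 : ((i:ℝ)+1) * (i+2) * (cc m k * (k.choose (i+2) : ℝ)) =
          cc m k * ((k - i - 1) * ((k - i) * (k.choose i : ℝ))) := by
        rw [← h1]
        have : ((i:ℝ)+1) * (i+2) * (cc m k * (k.choose (i+2) : ℝ)) =
          cc m k * (i + 1) * ((i+2) * (k.choose (i+2) : ℝ)) := by ring
        rw [this, h2]; ring
      have e3 : (2*(m:ℝ)+1) * (i+1) * (cc m k * (k.choose (i+1) : ℝ)) =
          (2 * m + 1) * cc m k * ((k - i) * (k.choose i : ℝ)) := by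
        rw [← h1]; ring
      rw [e2, e3]
      ring
    rw [Finset.sum_congr rfl ht]
    have hT := Finset.sum_range_sub (fun k : ℕ =>
      ((k:ℝ) - i) * (2 * m - 2 * k + 1) * cc m k * (k.choose i : ℝ)) (m+1)
    have hc : cc m (m+1) = 0 := by rw [cc, if_neg (by omega)]
    rw [hc] at hT
    have hcong : ∀ k ∈ range (m+1),
        ((k:ℝ) + 1 - i) * (2 * m - 2 * k - 1) * cc m (k+1) * ((k+1).choose i : ℝ) -
          (k - i) * (2 * m - 2 * k + 1) * cc m k * (k.choose i : ℝ) =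
        (((k+1 : ℕ):ℝ) - i) * (2 * m - 2 * ((k+1 : ℕ):ℝ) + 1) * cc m (k+1) * ((k+1).choose i : ℝ) -
          (k - i) * (2 * m - 2 * k + 1) * cc m k * (k.choose i : ℝ) := by
      intro k _
      push_cast
      ring
    rw [Finset.sum_congr rfl hcong, hT]
    rcases Nat.eq_zero_or_pos i with h | h
    · subst h; simp
    · rw [Nat.choose_eq_zero_of_lt h]; simp
  have h2 : (2:ℝ)^(2*m) ≠ 0 := by positivity
  field_simp
  linarith [key]

end BMoll
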