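import Pool.Agent.Lib.MP_a93a81_co.Sep
import Pool.Agent.Lib.MP_a93a81_co.Rec

/-!
# Module BASESMALL : finite check `2 ≤ m < 60`

The integers `a_i = 4^m d_i(m)` are computed by the downward three term recurrence (`alist`) and the
recurrence is verified (`recOK`); `b_i = a_i^2 - a_{i-1} a_{i+1}` (`blist`).  For each `m` rational
separators `l_k < h_k ≤ l_{k+1}` are given, and the signs of `∑ b_i (-l_k)^i`, `∑ b_i (-h_k)^i` are
checked in the kernel.
-/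

namespace BMoll

open Polynomial Finset

namespace BS

/-- downward recurrence -/
def alAux (m : ℤ) : ℕ → ℤ → ℤ → ℤ → List ℤ → List ℤ
  | 0, _, _, _, acc => acc
  | j+1, i, x, y, acc =>
    let z := ((2*m+1)*(i+1)*x - (i+1)*(i+2)*y) / ((m-i)*(m+i+1))
    alAux m j (i-1) z x (z :: acc)

/-- `2^m * C(2m,m)` -/
def cbm : ℕ → ℤ
  | 0 => 1
  | k+1 => cbm k * (4*(2*(k:ℤ)+1)) / ((k:ℤ)+1)

def alist (m : ℕ) : List ℤ := let t := cbm m; alAux m m ((m:ℤ)-1) t 0 [t]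

def recOK (m : ℤ) : ℤ → List ℤ → Bool
  | _, [] => true
  | i, a :: r => decide ((m-i)*(m+i+1)*a
        = (2*m+1)*(i+1)*(r.getD 0 0) - (i+1)*(i+2)*(r.getD 1 0))
      && recOK m (i+1) r

def blist : ℤ → List ℤ → List ℤ
  | _, [] => []
  | p, a :: r => (a*a - p*(r.getD 0 0)) :: blist a r

def hv (p q : ℤ) : List ℤ → ℤ × ℤ
  | [] => (0, 1)
  | b :: r => let t := hv p q r; (b * t.2 - p * t.1, t.2 * q)

def sgn (i : ℕ) (t : ℤ) : ℤ := if i % 2 = 0 then t else -t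

def gl (L : List (ℤ × ℤ)) (i : ℕ) : ℤ × ℤ := L.getD i (0, 0)

def chk1 (m : ℕ) (b : List ℤ) (L H : List (ℤ × ℤ)) (i : ℕ) : Bool :=
  decide (0 < (gl L i).1) && decide (0 < (gl L i).2) &&
  decide (0 < (gl H i).1) && decide (0 < (gl H i).2) &&
  decide ((gl L i).1 * (gl H i).2 < (gl H i).1 * (gl L i).2) &&
  decide ((gl L i).2 * (gl L (m-1-i)).2 ≤ (gl L i).1 * (gl L (m-1-i)).1) &&
  decide (0 < sgn i (hv (gl L i).1 (gl L i).2 b).1) &&
  decide (0 < sgn (i+1) (hv (gl H i).1 (gl H i).2 b).1)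

def chk2 (m : ℕ) (L H : List (ℤ × ℤ)) (i : ℕ) : Bool :=
  decide ((gl H i).1 * (gl L (i+1)).2 ≤ (gl L (i+1)).1 * (gl H i).2) &&
  decide ((gl H i).1 * (gl H (m-2-i)).1 ≤ (gl H i).2 * (gl H (m-2-i)).2)

def chk (m : ℕ) (L H : List (ℤ × ℤ)) : Bool :=
  decide ((alist m).length = m + 1) && decide (0 < (alist m).getD m 0) &&
  recOK m 0 (alist m) && (List.range m).all (chk1 m (blist 0 (alist m)) L H) &&
  (List.range (m-1)).all (chk2 m L H)

/-! ### soundness -/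

noncomputable def evR (x : ℝ) : List ℤ → ℝ
  | [] => 0
  | b :: r => (b:ℝ) + x * evR x r

theorem evR_sum (x : ℝ) (l : List ℤ) :
    evR x l = ∑ i ∈ range l.length, ((l.getD i 0 : ℤ) : ℝ) * x^i := by
  induction l with
  | nil => simp [evR]
  | cons b r ih =>
    rw [List.length_cons, sum_range_succ', evR, ih, mul_sum]
    simp only [List.getD_cons_succ, List.getD_cons_zero, pow_zero, mul_one, pow_succ]
    rw [add_comm]
    congr 1
    apply sum_congr rfl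
    intro i _
    ring

theorem hv_snd (p q : ℤ) (l : List ℤ) : (hv p q l).2 = q ^ l.length := by
  induction l with
  | nil => simp [hv]
  | cons b r ih => simp [hv, ih, pow_succ]

theorem hv_fst {p q : ℤ} (hq : 0 < q) (l : List ℤ) :
    (q:ℝ) * ((hv p q l).1 : ℤ) = (q:ℝ)^l.length * evR (-((p:ℝ)/q)) l := by
  have hq' : (q:ℝ) ≠ 0 := by exact_mod_cast hq.ne'
  induction l with
  | nil => simp [hv, evR]
  | cons b r ih =>
    have h2 : ((hv p q r).2 : ℝ) = (q:ℝ)^r.length := by rw [hv_snd]; push_cast; rfl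
    simp only [hv, evR, List.length_cons, pow_succ]
    push_cast
    rw [h2]
    have e : (q:ℝ) * (b * (q:ℝ)^r.length - p * ((hv p q r).1 : ℤ))
        = q * b * (q:ℝ)^r.length - p * ((q:ℝ) * ((hv p q r).1 : ℤ)) := by ring
    rw [e, ih]
    field_simp
    ring

theorem sgn_pos {i : ℕ} {t : ℤ} (h : 0 < sgn i t) : 0 < (-1:ℝ)^i * (t:ℝ) := by
  unfold sgn at h
  split_ifs at h with h0
  · rw [Even.neg_one_pow (Nat.even_iff.mpr h0), one_mul]; exact_mod_cast h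
  · rw [Odd.neg_one_pow (Nat.odd_iff.mpr (by omega))]
    have : (0:ℝ) < ((-t : ℤ) : ℝ) := by exact_mod_cast h
    push_cast at this
    linarith

theorem sgn_eval {i : ℕ} {p q : ℤ} (hq : 0 < q) {l : List ℤ} (h : 0 < sgn i (hv p q l).1) :
    0 < (-1:ℝ)^i * evR (-((p:ℝ)/q)) l := by
  have h1 := sgn_pos h
  have hq' : (0:ℝ) < q := by exact_mod_cast hq
  have h2 := hv_fst (p := p) hq l
  have h3 : 0 < (q:ℝ)^l.length * ((-1:ℝ)^i * evR (-((p:ℝ)/q)) l) := by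
    have : (q:ℝ)^l.length * ((-1:ℝ)^i * evR (-((p:ℝ)/q)) l)
        = q * ((-1:ℝ)^i * ((hv p q l).1 : ℤ)) := by
      linear_combination (-(-1:ℝ)^i) * h2
    rw [this]
    exact mul_pos hq' h1
  exact (pos_iff_pos_of_mul_pos h3).mp (pow_pos hq' _)

theorem blist_length (p : ℤ) (l : List ℤ) : (blist p l).length = l.length := by
  induction l generalizing p with
  | nil => simp [blist]
  | cons a r ih => simp [blist, ih]

theorem blist_getD (p : ℤ) (l : List ℤ) (i : ℕ) :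
    (blist p l).getD i 0
      = (l.getD i 0)^2 - (if i = 0 then p else l.getD (i-1) 0) * l.getD (i+1) 0 := by
  induction l generalizing p i with
  | nil => simp [blist]
  | cons a r ih =>
    cases i with
    | zero => simp [blist]; ring
    | succ i =>
      rw [blist, List.getD_cons_succ, ih]
      cases i with
      | zero => simp
      | succ i => simp

theorem recOK_sound {m : ℤ} {i : ℤ} {l : List ℤ} (h : recOK m i l = true) {k : ℕ}
    (hk : k < l.length) :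
    (m-(i+k))*(m+(i+k)+1)*(l.getD k 0)
      = (2*m+1)*(i+k+1)*(l.getD (k+1) 0) - (i+k+1)*(i+k+2)*(l.getD (k+2) 0) := by
  induction l generalizing i k with
  | nil => simp at hk
  | cons a r ih =>
    rw [recOK, Bool.and_eq_true, decide_eq_true_eq] at h
    cases k with
    | zero => simpa using h.1
    | succ k =>
      have := ih h.2 (k := k) (by simpa using hk)
      simp only [List.getD_cons_succ]
      push_cast at this ⊢
      linear_combination this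

theorem bm_list {m : ℕ} {a : List ℤ} (hlen : a.length = m+1) (hrec : recOK m 0 a = true)
    (i : ℕ) : bm m i * (a.getD m 0 : ℤ) = bm m m * (a.getD i 0 : ℤ) := by
  have big : ∀ i, m < i → bm m i * (a.getD m 0 : ℤ) = bm m m * (a.getD i 0 : ℤ) := by
    intro i hi
    have e : a.getD i 0 = 0 := List.getD_eq_default _ _ (by omega)
    rw [bm_zero hi, e]
    simp
  have key : ∀ d i, i + d = m → bm m i * (a.getD m 0 : ℤ) = bm m m * (a.getD i 0 : ℤ) ∧
      bm m (i+1) * (a.getD m 0 : ℤ) = bm m m * (a.getD (i+1) 0 : ℤ) := by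
    intro d
    induction d with
    | zero =>
      intro i hi
      obtain rfl : i = m := by omega
      exact ⟨rfl, big _ (by omega)⟩
    | succ d ih =>
      intro i hi
      obtain ⟨h1, h2⟩ := ih (i+1) (by omega)
      refine ⟨?_, h1⟩
      have hb := bm_rec m i
      have ha := recOK_sound hrec (k := i) (by omega)
      have ha' : (((m:ℝ)-i)*(m+i+1)*((a.getD i 0 : ℤ):ℝ))
          = (2*m+1)*(i+1)*((a.getD (i+1) 0 : ℤ):ℝ) - (i+1)*(i+2)*((a.getD (i+2) 0 : ℤ):ℝ) := by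
        have := congrArg (fun z : ℤ => (z:ℝ)) ha
        push_cast at this
        linear_combination this
      have hne : ((m:ℝ)-i)*(m+i+1) ≠ 0 := by
        have : (i:ℝ) < m := by exact_mod_cast (show i < m by omega)
        have h3 : (0:ℝ) < (m:ℝ) - i := by linarith
        positivity
      apply mul_left_cancel₀ hne
      rw [show i + 1 + 1 = i + 2 from rfl] at h2
      linear_combination ((a.getD m 0 : ℤ):ℝ) * hb - bm m m * ha' + (2*m+1)*(i+1) * h1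
        - (i+1)*(i+2) * h2
  rcases Nat.lt_or_ge m i with h | h
  · exact big i h
  · exact (key (m-i) i (by omega)).1

theorem Lop_list {m : ℕ} {a : List ℤ} (hlen : a.length = m+1) (hrec : recOK m 0 a = true)
    (i : ℕ) : Lop (bm m) i * ((a.getD m 0 : ℤ):ℝ)^2
      = (bm m m)^2 * (((blist 0 a).getD i 0 : ℤ) : ℝ) := by
  have h := bm_list hlen hrec
  rw [blist_getD, Lop]
  rcases Nat.eq_zero_or_pos i with rfl | hi
  · simp only [if_true]
    push_cast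
    have h0 := h 0
    linear_combination (bm m 0 * (a.getD m 0 : ℤ) + bm m m * (a.getD 0 0 : ℤ)) * h0
  · rw [if_neg (by omega), if_neg (by omega)]
    push_cast
    linear_combination (bm m i * (a.getD m 0 : ℤ) + bm m m * (a.getD i 0 : ℤ)) * h i
      - bm m (i+1) * (a.getD m 0 : ℤ) * h (i-1) - bm m m * (a.getD (i-1) 0 : ℤ) * h (i+1)

theorem sum_list {m : ℕ} {a : List ℤ} (hlen : a.length = m+1) (hrec : recOK m 0 a = true)
    (hpos : 0 < a.getD m 0) (x : ℝ) :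
    ∑ i ∈ range (m+1), Lop (bm m) i * x^i
      = (bm m m / ((a.getD m 0 : ℤ):ℝ))^2 * evR x (blist 0 a) := by
  have hne : ((a.getD m 0 : ℤ):ℝ) ≠ 0 := by exact_mod_cast hpos.ne'
  rw [evR_sum, blist_length, hlen, mul_sum]
  apply sum_congr rfl
  intro i _
  have := Lop_list hlen hrec i
  have h2 : Lop (bm m) i = (bm m m / ((a.getD m 0 : ℤ):ℝ))^2
      * (((blist 0 a).getD i 0 : ℤ) : ℝ) := by
    field_simp
    linarith
  rw [h2]
  ring

theorem sound {m : ℕ} (hm : 2 ≤ m) {L H : List (ℤ × ℤ)} (h : chk m L H = true) :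
    ∃ x : Fin m → ℝ, Cls m x ∧ ∃ c : ℝ, 0 < c ∧ ∀ i, Lop (bm m) i = c * (pr x).coeff i := by
  simp only [chk, Bool.and_eq_true, decide_eq_true_eq, List.all_eq_true, List.mem_range] at h
  obtain ⟨⟨⟨⟨hlen, hpos⟩, hrec⟩, h1⟩, h2⟩ := h
  have h1' : ∀ i < m, 0 < (gl L i).1 ∧ 0 < (gl L i).2 ∧ 0 < (gl H i).1 ∧ 0 < (gl H i).2 ∧
      (gl L i).1 * (gl H i).2 < (gl H i).1 * (gl L i).2 ∧
      (gl L i).2 * (gl L (m-1-i)).2 ≤ (gl L i).1 * (gl L (m-1-i)).1 ∧
      0 < sgn i (hv (gl L i).1 (gl L i).2 (blist 0 (alist m))).1 ∧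
      0 < sgn (i+1) (hv (gl H i).1 (gl H i).2 (blist 0 (alist m))).1 := by
    intro i hi
    have := h1 i hi
    simp only [chk1, Bool.and_eq_true, decide_eq_true_eq] at this
    obtain ⟨⟨⟨⟨⟨⟨⟨a1, a2⟩, a3⟩, a4⟩, a5⟩, a6⟩, a7⟩, a8⟩ := this
    exact ⟨a1, a2, a3, a4, a5, a6, a7, a8⟩
  have h2' : ∀ i < m - 1, (gl H i).1 * (gl L (i+1)).2 ≤ (gl L (i+1)).1 * (gl H i).2 ∧
      (gl H i).1 * (gl H (m-2-i)).1 ≤ (gl H i).2 * (gl H (m-2-i)).2 := by
    intro i hi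
    have := h2 i hi
    simp only [chk2, Bool.and_eq_true, decide_eq_true_eq] at this
    exact this
  set lN : ℕ → ℝ := fun i => ((gl L i).1 : ℝ) / ((gl L i).2 : ℝ) with hlN
  set hN : ℕ → ℝ := fun i => ((gl H i).1 : ℝ) / ((gl H i).2 : ℝ) with hhN
  have cL1 : ∀ i < m, (0:ℝ) < ((gl L i).1 : ℝ) := fun i hi => by exact_mod_cast (h1' i hi).1
  have cL2 : ∀ i < m, (0:ℝ) < ((gl L i).2 : ℝ) := fun i hi => by exact_mod_cast (h1' i hi).2.1
  have cH1 : ∀ i < m, (0:ℝ) < ((gl H i).1 : ℝ) := fun i hi => by exact_mod_cast (h1' i hi).2.2.1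
  have cH2 : ∀ i < m, (0:ℝ) < ((gl H i).2 : ℝ) :=
    fun i hi => by exact_mod_cast (h1' i hi).2.2.2.1
  have lpos : ∀ i < m, 0 < lN i := fun i hi => div_pos (cL1 i hi) (cL2 i hi)
  have lh : ∀ i < m, lN i < hN i := by
    intro i hi
    simp only [hlN, hhN]
    rw [div_lt_div_iff₀ (cL2 i hi) (cH2 i hi)]
    exact_mod_cast (h1' i hi).2.2.2.2.1
  have hl1 : ∀ i, i + 1 < m → hN i ≤ lN (i+1) := by
    intro i hi
    simp only [hlN, hhN]
    rw [div_le_div_iff₀ (cH2 i (by omega)) (cL2 (i+1) hi)]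
    exact_mod_cast (h2' i (by omega)).1
  have hl2 : ∀ d i, i + d + 1 < m → hN i ≤ lN (i+d+1) := by
    intro d
    induction d with
    | zero => intro i hi; exact hl1 i (by omega)
    | succ d ih =>
      intro i hi
      have e1 := ih i (by omega)
      have e2 := lh (i+d+1) (by omega)
      have e3 := hl1 (i+d+1) (by omega)
      have : i + (d+1) + 1 = i + d + 1 + 1 := by omega
      rw [this]
      linarith
  have hkap : 0 < (bm m m / (((alist m).getD m 0 : ℤ):ℝ))^2 := by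
    have : 0 < bm m m := bm_pos le_rfl
    have h3 : (0:ℝ) < (((alist m).getD m 0 : ℤ):ℝ) := by exact_mod_cast hpos
    positivity
  have hbm : 0 < Lop (bm m) m := by
    rw [Lop, bm_zero (m := m) (i := m+1) (by omega), mul_zero, sub_zero]
    have : 0 < bm m m := bm_pos le_rfl
    positivity
  have hb0 : ∀ i, m < i → Lop (bm m) i = 0 := by
    intro i hi
    rw [Lop, bm_zero (m := m) (i := i) hi, bm_zero (m := m) (i := i+1) (by omega)]
    simp
  obtain ⟨x, hx, hc⟩ := sep (m := m) (b := Lop (bm m)) hbm hb0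
    (l := fun k => lN k) (h := fun k => hN k)
    (fun k => lpos k k.2) (fun k => lh k k.2)
    (fun i j hij => by
      have hij' : (i:ℕ) < j := hij
      have := hl2 ((j:ℕ) - i - 1) i (by have := j.2; omega)
      rwa [show (i:ℕ) + ((j:ℕ) - i - 1) + 1 = j by omega] at this)
    (fun k => by
      rw [sum_list hlen hrec hpos]
      have := sgn_eval (h1' k k.2).2.1 (h1' k k.2).2.2.2.2.2.2.1
      have h5 := mul_pos hkap this
      simp only [hlN]
      linarith)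
    (fun k => by
      rw [sum_list hlen hrec hpos]
      have := sgn_eval (h1' k k.2).2.2.2.1 (h1' k k.2).2.2.2.2.2.2.2
      have h5 := mul_pos hkap this
      simp only [hhN]
      linarith)
    (fun i j hij => by
      have e : m - 1 - (i:ℕ) = j := by omega
      have := (h1' i i.2).2.2.2.2.2.1
      rw [e] at this
      have h5 : ((gl L i).2 : ℝ) * (gl L j).2 ≤ (gl L i).1 * (gl L j).1 := by exact_mod_cast this
      simp only [hlN]
      rw [div_mul_div_comm, one_le_div (mul_pos (cL2 i i.2) (cL2 j j.2))]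
      exact h5)
    (fun i j hij => by
      have e : m - 2 - (i:ℕ) = j := by omega
      have := (h2' i (by omega)).2
      rw [e] at this
      have h5 : ((gl H i).1 : ℝ) * (gl H j).1 ≤ (gl H i).2 * (gl H j).2 := by exact_mod_cast this
      simp only [hhN]
      rw [div_mul_div_comm, div_le_one (mul_pos (cH2 i i.2) (cH2 j j.2))]
      exact h5)
  exact ⟨x, hx, _, hbm, hc⟩

theorem ok2 : chk 2
    [(1, 2), (2, 1)]
    [(1, 1), (5, 1)] = true := by decide +kernel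

theorem ok3 : chk 3
    [(1, 3), (1, 1), (3, 1)]
    [(1, 2), (2, 1), (8, 1)] = true := by decide +kernel

theorem ok4 : chk 4
    [(1, 4), (1, 2), (2, 1), (4, 1)]
    [(1, 3), (1, 1), (3, 1), (11, 1)] = true := by decide +kernel

theorem ok5 : chk 5
    [(1, 6), (1, 2), (1, 1), (2, 1), (6, 1)]
    [(1, 4), (2, 3), (3, 2), (4, 1), (14, 1)] = true := by decide +kernel

theorem ok6 : chk 6
    [(1, 8), (1, 3), (2, 3), (3, 2), (3, 1), (8, 1)]
    [(1, 5), (1, 2), (1, 1), (2, 1), (5, 1), (18, 1)] = true := by decide +kernel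

theorem ok7 : chk 7
    [(1, 11), (1, 4), (1, 2), (1, 1), (2, 1), (4, 1), (11, 1)]
    [(1, 6), (1, 3), (2, 3), (3, 2), (3, 1), (6, 1), (23, 1)] = true := by decide +kernel

theorem ok8 : chk 8
    [(1, 14), (1, 5), (1, 3), (2, 3), (3, 2), (3, 1), (5, 1), (14, 1)]
    [(1, 8), (1, 4), (1, 2), (1, 1), (2, 1), (4, 1), (8, 1), (28, 1)] = true := by decide +kernel

theorem ok9 : chk 9
    [(1, 18), (1, 6), (1, 3), (1, 2), (1, 1), (2, 1), (3, 1), (6, 1), (18, 1)]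
    [(1, 10), (1, 5), (2, 5), (2, 3), (3, 2), (5, 2), (5, 1), (10, 1), (34, 1)] = true := by decide +kernel

theorem ok10 : chk 10
    [(1, 22), (1, 8), (1, 4), (1, 2), (3, 4), (4, 3), (2, 1), (4, 1), (8, 1), (22, 1)]
    [(1, 12), (1, 5), (1, 3), (2, 3), (1, 1), (3, 2), (3, 1), (5, 1), (12, 1), (40, 1)] = true := by decide +kernel

theorem ok11 : chk 11
    [(1, 27), (1, 9), (1, 5), (1, 3), (2, 3), (1, 1), (3, 2), (3, 1), (5, 1), (9, 1), (27, 1)]
    [(1, 14), (1, 6), (1, 4), (1, 2), (3, 4), (4, 3), (2, 1), (4, 1), (6, 1), (14, 1), (47, 1)] = true := by decide +kernel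

theorem ok12 : chk 12
    [(1, 32), (1, 11), (1, 6), (1, 3), (1, 2), (3, 4), (4, 3), (2, 1), (3, 1), (6, 1), (11, 1),
    (32, 1)]
    [(1, 16), (1, 7), (1, 4), (2, 5), (2, 3), (1, 1), (3, 2), (5, 2), (4, 1), (7, 1), (16, 1),
    (54, 1)] = true := by decide +kernel

theorem ok13 : chk 13
    [(1, 37), (1, 12), (1, 6), (1, 4), (2, 5), (2, 3), (1, 1), (3, 2), (5, 2), (4, 1), (6, 1),
    (12, 1), (37, 1)]
    [(1, 18), (1, 9), (1, 5), (1, 3), (1, 2), (3, 4), (4, 3), (2, 1), (3, 1), (5, 1), (9, 1),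
    (18, 1), (62, 1)] = true := by decide +kernel

theorem ok14 : chk 14
    [(1, 43), (1, 14), (1, 7), (1, 4), (1, 3), (1, 2), (3, 4), (4, 3), (2, 1), (3, 1), (4, 1),
    (7, 1), (14, 1), (43, 1)]
    [(1, 21), (1, 10), (1, 6), (2, 7), (2, 5), (2, 3), (1, 1), (3, 2), (5, 2), (7, 2), (6, 1),
    (10, 1), (21, 1), (71, 1)] = true := by decide +kernel

theorem ok15 : chk 15
    [(1, 50), (1, 16), (1, 8), (1, 5), (1, 3), (1, 2), (2, 3), (1, 1), (3, 2), (2, 1), (3, 1),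
    (5, 1), (8, 1), (16, 1), (50, 1)]
    [(1, 23), (1, 11), (1, 6), (1, 4), (2, 5), (3, 5), (4, 5), (5, 4), (5, 3), (5, 2), (4, 1),
    (6, 1), (11, 1), (23, 1), (80, 1)] = true := by decide +kernel

theorem ok16 : chk 16
    [(1, 57), (1, 18), (1, 9), (1, 6), (1, 4), (2, 5), (3, 5), (4, 5), (5, 4), (5, 3), (5, 2),
    (4, 1), (6, 1), (9, 1), (18, 1), (57, 1)]
    [(1, 26), (1, 12), (1, 7), (1, 5), (1, 3), (1, 2), (2, 3), (1, 1), (3, 2), (2, 1), (3, 1),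
    (5, 1), (7, 1), (12, 1), (26, 1), (89, 1)] = true := by decide +kernel

theorem ok17 : chk 17
    [(1, 64), (1, 20), (1, 10), (1, 6), (1, 4), (1, 3), (1, 2), (2, 3), (1, 1), (3, 2), (2, 1),
    (3, 1), (4, 1), (6, 1), (10, 1), (20, 1), (64, 1)]
    [(1, 29), (1, 14), (1, 8), (1, 5), (2, 7), (2, 5), (3, 5), (4, 5), (5, 4), (5, 3), (5, 2),
    (7, 2), (5, 1), (8, 1), (14, 1), (29, 1), (99, 1)] = true := by decide +kernel

theorem ok18 : chk 18
    [(1, 72), (1, 23), (1, 12), (1, 7), (1, 5), (1, 3), (3, 7), (2, 3), (4, 5), (5, 4), (3, 2),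
    (7, 3), (3, 1), (5, 1), (7, 1), (12, 1), (23, 1), (72, 1)]
    [(1, 32), (1, 15), (1, 9), (1, 6), (1, 4), (2, 5), (1, 2), (3, 4), (1, 1), (4, 3), (2, 1),
    (5, 2), (4, 1), (6, 1), (9, 1), (15, 1), (32, 1), (110, 1)] = true := by decide +kernel

theorem ok19 : chk 19
    [(1, 80), (1, 25), (1, 13), (1, 8), (1, 5), (2, 7), (2, 5), (4, 7), (3, 4), (1, 1), (4, 3),
    (7, 4), (5, 2), (7, 2), (5, 1), (8, 1), (13, 1), (25, 1), (80, 1)]
    [(1, 36), (1, 17), (1, 10), (1, 6), (1, 4), (1, 3), (1, 2), (2, 3), (4, 5), (5, 4), (3, 2),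
    (2, 1), (3, 1), (4, 1), (6, 1), (10, 1), (17, 1), (36, 1), (121, 1)] = true := by decide +kernel

theorem ok20 : chk 20
    [(1, 89), (1, 28), (1, 14), (1, 9), (1, 6), (1, 4), (1, 3), (1, 2), (2, 3), (5, 6), (6, 5),
    (3, 2), (2, 1), (3, 1), (4, 1), (6, 1), (9, 1), (14, 1), (28, 1), (89, 1)]
    [(1, 39), (1, 19), (1, 11), (1, 7), (1, 5), (2, 7), (2, 5), (3, 5), (3, 4), (1, 1), (4, 3),
    (5, 3), (5, 2), (7, 2), (5, 1), (7, 1), (11, 1), (19, 1), (39, 1), (133, 1)] = true := by decide +kernel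

theorem ok21 : chk 21
    [(1, 99), (1, 31), (1, 15), (1, 9), (1, 6), (2, 9), (1, 3), (2, 5), (3, 5), (3, 4), (1, 1),
    (4, 3), (5, 3), (5, 2), (3, 1), (9, 2), (6, 1), (9, 1), (15, 1), (31, 1), (99, 1)]
    [(1, 43), (1, 20), (1, 12), (1, 8), (1, 5), (1, 4), (3, 8), (1, 2), (2, 3), (5, 6), (6, 5),
    (3, 2), (2, 1), (8, 3), (4, 1), (5, 1), (8, 1), (12, 1), (20, 1), (43, 1), (145, 1)] = true := by decide +kernel

theorem ok22 : chk 22
    [(1, 109), (1, 34), (1, 17), (1, 10), (1, 7), (1, 5), (2, 7), (2, 5), (1, 2), (2, 3), (5,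
    6), (6, 5), (3, 2), (2, 1), (5, 2), (7, 2), (5, 1), (7, 1), (10, 1), (17, 1), (34, 1), (109,
    1)]
    [(1, 47), (1, 22), (1, 13), (1, 8), (1, 6), (1, 4), (1, 3), (3, 7), (3, 5), (3, 4), (1, 1),
    (4, 3), (5, 3), (7, 3), (3, 1), (4, 1), (6, 1), (8, 1), (13, 1), (22, 1), (47, 1), (158, 1)] = true := by decide +kernel

theorem ok23 : chk 23
    [(1, 119), (1, 37), (1, 18), (1, 11), (1, 8), (1, 5), (1, 4), (1, 3), (4, 9), (3, 5), (3,
    4), (1, 1), (4, 3), (5, 3), (9, 4), (3, 1), (4, 1), (5, 1), (8, 1), (11, 1), (18, 1), (37,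
    1), (119, 1)]
    [(1, 51), (1, 24), (1, 14), (1, 9), (1, 6), (2, 9), (2, 7), (2, 5), (1, 2), (2, 3), (5, 6),
    (6, 5), (3, 2), (2, 1), (5, 2), (7, 2), (9, 2), (6, 1), (9, 1), (14, 1), (24, 1), (51, 1),
    (171, 1)] = true := by decide +kernel

theorem ok24 : chk 24
    [(1, 130), (1, 40), (1, 20), (1, 12), (1, 8), (1, 6), (1, 4), (1, 3), (2, 5), (4, 7), (2,
    3), (6, 7), (7, 6), (3, 2), (7, 4), (5, 2), (3, 1), (4, 1), (6, 1), (8, 1), (12, 1), (20,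
    1), (40, 1), (130, 1)]
    [(1, 55), (1, 26), (1, 15), (1, 10), (1, 7), (1, 5), (2, 7), (3, 8), (1, 2), (3, 5), (3, 4),
    (1, 1), (4, 3), (5, 3), (2, 1), (8, 3), (7, 2), (5, 1), (7, 1), (10, 1), (15, 1), (26, 1),
    (55, 1), (185, 1)] = true := by decide +kernel

theorem ok25 : chk 25
    [(1, 141), (1, 43), (1, 21), (1, 13), (1, 9), (1, 6), (2, 9), (2, 7), (2, 5), (1, 2), (3,
    5), (3, 4), (1, 1), (4, 3), (5, 3), (2, 1), (5, 2), (7, 2), (9, 2), (6, 1), (9, 1), (13, 1),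
    (21, 1), (43, 1), (141, 1)]
    [(1, 59), (1, 28), (1, 16), (1, 11), (1, 7), (1, 5), (1, 4), (1, 3), (3, 7), (4, 7), (2, 3),
    (6, 7), (7, 6), (3, 2), (7, 4), (7, 3), (3, 1), (4, 1), (5, 1), (7, 1), (11, 1), (16, 1),
    (28, 1), (59, 1), (199, 1)] = true := by decide +kernel

theorem ok26 : chk 26
    [(1, 153), (1, 47), (1, 23), (1, 14), (1, 10), (1, 7), (1, 5), (1, 4), (1, 3), (3, 7), (3,
    5), (3, 4), (6, 7), (7, 6), (4, 3), (5, 3), (7, 3), (3, 1), (4, 1), (5, 1), (7, 1), (10, 1),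
    (14, 1), (23, 1), (47, 1), (153, 1)]
    [(1, 64), (1, 30), (1, 17), (1, 11), (1, 8), (1, 6), (2, 9), (2, 7), (2, 5), (1, 2), (2, 3),
    (4, 5), (1, 1), (5, 4), (3, 2), (2, 1), (5, 2), (7, 2), (9, 2), (6, 1), (8, 1), (11, 1),
    (17, 1), (30, 1), (64, 1), (214, 1)] = true := by decide +kernel

theorem ok27 : chk 27
    [(1, 165), (1, 51), (1, 25), (1, 15), (1, 10), (1, 7), (2, 11), (1, 4), (1, 3), (2, 5), (1,
    2), (2, 3), (4, 5), (1, 1), (5, 4), (3, 2), (2, 1), (5, 2), (3, 1), (4, 1), (11, 2), (7, 1),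
    (10, 1), (15, 1), (25, 1), (51, 1), (165, 1)]
    [(1, 68), (1, 32), (1, 19), (1, 12), (1, 9), (1, 6), (1, 5), (2, 7), (3, 8), (4, 9), (3, 5),
    (3, 4), (6, 7), (7, 6), (4, 3), (5, 3), (9, 4), (8, 3), (7, 2), (5, 1), (6, 1), (9, 1), (12,
    1), (19, 1), (32, 1), (68, 1), (230, 1)] = true := by decide +kernel

theorem ok28 : chk 28
    [(1, 178), (1, 54), (1, 27), (1, 16), (1, 11), (1, 8), (1, 6), (2, 9), (2, 7), (3, 8), (5,
    11), (3, 5), (3, 4), (6, 7), (7, 6), (4, 3), (5, 3), (11, 5), (8, 3), (7, 2), (9, 2), (6,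
    1), (8, 1), (11, 1), (16, 1), (27, 1), (54, 1), (178, 1)]
    [(1, 73), (1, 35), (1, 20), (1, 13), (1, 9), (1, 7), (1, 5), (1, 4), (1, 3), (2, 5), (1, 2),
    (2, 3), (4, 5), (1, 1), (5, 4), (3, 2), (2, 1), (5, 2), (3, 1), (4, 1), (5, 1), (7, 1), (9,
    1), (13, 1), (20, 1), (35, 1), (73, 1), (246, 1)] = true := by decide +kernel

theorem ok29 : chk 29
    [(1, 191), (1, 58), (1, 29), (1, 17), (1, 12), (1, 8), (1, 6), (1, 5), (2, 7), (1, 3), (3,
    7), (5, 9), (2, 3), (4, 5), (1, 1), (5, 4), (3, 2), (9, 5), (7, 3), (3, 1), (7, 2), (5, 1),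
    (6, 1), (8, 1), (12, 1), (17, 1), (29, 1), (58, 1), (191, 1)]
    [(1, 78), (1, 37), (1, 21), (1, 14), (1, 10), (1, 7), (2, 11), (1, 4), (3, 10), (2, 5), (1,
    2), (3, 5), (3, 4), (7, 8), (8, 7), (4, 3), (5, 3), (2, 1), (5, 2), (10, 3), (4, 1), (11,
    2), (7, 1), (10, 1), (14, 1), (21, 1), (37, 1), (78, 1), (263, 1)] = true := by decide +kernel

theorem ok30 : chk 30
    [(1, 205), (1, 62), (1, 31), (1, 19), (1, 12), (1, 9), (1, 7), (1, 5), (1, 4), (1, 3), (2,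
    5), (1, 2), (3, 5), (3, 4), (7, 8), (8, 7), (4, 3), (5, 3), (2, 1), (5, 2), (3, 1), (4, 1),
    (5, 1), (7, 1), (9, 1), (12, 1), (19, 1), (31, 1), (62, 1), (205, 1)]
    [(1, 83), (1, 39), (1, 23), (1, 15), (1, 10), (1, 8), (1, 6), (2, 9), (2, 7), (3, 8), (3,
    7), (4, 7), (2, 3), (4, 5), (1, 1), (5, 4), (3, 2), (7, 4), (7, 3), (8, 3), (7, 2), (9, 2),
    (6, 1), (8, 1), (10, 1), (15, 1), (23, 1), (39, 1), (83, 1), (280, 1)] = true := by decide +kernel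

theorem ok31 : chk 31
    [(1, 219), (1, 67), (1, 33), (1, 20), (1, 13), (1, 10), (1, 7), (2, 11), (1, 4), (2, 7), (3,
    8), (4, 9), (4, 7), (2, 3), (4, 5), (1, 1), (5, 4), (3, 2), (7, 4), (9, 4), (8, 3), (7, 2),
    (4, 1), (11, 2), (7, 1), (10, 1), (13, 1), (20, 1), (33, 1), (67, 1), (219, 1)]
    [(1, 88), (1, 42), (1, 24), (1, 16), (1, 11), (1, 8), (1, 6), (1, 5), (3, 11), (1, 3), (2,
    5), (1, 2), (3, 5), (3, 4), (7, 8), (8, 7), (4, 3), (5, 3), (2, 1), (5, 2), (3, 1), (11, 3),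
    (5, 1), (6, 1), (8, 1), (11, 1), (16, 1), (24, 1), (42, 1), (88, 1), (297, 1)] = true := by decide +kernel

theorem ok32 : chk 32
    [(1, 234), (1, 71), (1, 35), (1, 21), (1, 14), (1, 10), (1, 8), (1, 6), (2, 9), (2, 7), (1,
    3), (3, 7), (1, 2), (3, 5), (3, 4), (7, 8), (8, 7), (4, 3), (5, 3), (2, 1), (7, 3), (3, 1),
    (7, 2), (9, 2), (6, 1), (8, 1), (10, 1), (14, 1), (21, 1), (35, 1), (71, 1), (234, 1)]
    [(1, 94), (1, 45), (1, 26), (1, 17), (1, 12), (1, 9), (1, 7), (1, 5), (1, 4), (3, 10), (2,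
    5), (5, 11), (4, 7), (2, 3), (4, 5), (1, 1), (5, 4), (3, 2), (7, 4), (11, 5), (5, 2), (10,
    3), (4, 1), (5, 1), (7, 1), (9, 1), (12, 1), (17, 1), (26, 1), (45, 1), (94, 1), (316, 1)] = true := by decide +kernel

theorem ok33 : chk 33
    [(1, 249), (1, 76), (1, 37), (1, 22), (1, 15), (1, 11), (1, 8), (1, 6), (1, 5), (1, 4), (1,
    3), (2, 5), (1, 2), (3, 5), (2, 3), (4, 5), (1, 1), (5, 4), (3, 2), (5, 3), (2, 1), (5, 2),
    (3, 1), (4, 1), (5, 1), (6, 1), (8, 1), (11, 1), (15, 1), (22, 1), (37, 1), (76, 1), (249,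
    1)]
    [(1, 99), (1, 47), (1, 27), (1, 18), (1, 13), (1, 9), (1, 7), (2, 11), (2, 9), (2, 7), (3,
    8), (3, 7), (6, 11), (5, 8), (3, 4), (7, 8), (8, 7), (4, 3), (8, 5), (11, 6), (7, 3), (8,
    3), (7, 2), (9, 2), (11, 2), (7, 1), (9, 1), (13, 1), (18, 1), (27, 1), (47, 1), (99, 1),
    (335, 1)] = true := by decide +kernel

theorem ok34 : chk 34
    [(1, 265), (1, 80), (1, 39), (1, 24), (1, 16), (1, 11), (1, 9), (1, 7), (1, 5), (1, 4), (2,
    7), (3, 8), (3, 7), (5, 9), (2, 3), (3, 4), (8, 9), (9, 8), (4, 3), (3, 2), (9, 5), (7, 3),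
    (8, 3), (7, 2), (4, 1), (5, 1), (7, 1), (9, 1), (11, 1), (16, 1), (24, 1), (39, 1), (80, 1),
    (265, 1)]
    [(1, 105), (1, 50), (1, 29), (1, 19), (1, 13), (1, 10), (1, 8), (1, 6), (2, 9), (3, 11), (1,
    3), (2, 5), (1, 2), (3, 5), (5, 7), (5, 6), (1, 1), (6, 5), (7, 5), (5, 3), (2, 1), (5, 2),
    (3, 1), (11, 3), (9, 2), (6, 1), (8, 1), (10, 1), (13, 1), (19, 1), (29, 1), (50, 1), (105,
    1), (354, 1)] = true := by decide +kernel

theorem ok35 : chk 35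
    [(1, 281), (1, 85), (1, 42), (1, 25), (1, 17), (1, 12), (1, 9), (1, 7), (2, 11), (2, 9), (2,
    7), (1, 3), (2, 5), (1, 2), (3, 5), (5, 7), (5, 6), (1, 1), (6, 5), (7, 5), (5, 3), (2, 1),
    (5, 2), (3, 1), (7, 2), (9, 2), (11, 2), (7, 1), (9, 1), (12, 1), (17, 1), (25, 1), (42, 1),
    (85, 1), (281, 1)]
    [(1, 111), (1, 53), (1, 31), (1, 20), (1, 14), (1, 10), (1, 8), (1, 6), (1, 5), (1, 4), (3,
    10), (3, 8), (4, 9), (4, 7), (2, 3), (3, 4), (8, 9), (9, 8), (4, 3), (3, 2), (7, 4), (9, 4),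
    (8, 3), (10, 3), (4, 1), (5, 1), (6, 1), (8, 1), (10, 1), (14, 1), (20, 1), (31, 1), (53,
    1), (111, 1), (374, 1)] = true := by decide +kernel

theorem ok36 : chk 36
    [(1, 298), (1, 90), (1, 44), (1, 26), (1, 18), (1, 13), (1, 10), (2, 15), (1, 6), (2, 9),
    (3, 11), (1, 3), (2, 5), (5, 11), (4, 7), (2, 3), (3, 4), (8, 9), (9, 8), (4, 3), (3, 2),
    (7, 4), (11, 5), (5, 2), (3, 1), (11, 3), (9, 2), (6, 1), (15, 2), (10, 1), (13, 1), (18,
    1), (26, 1), (44, 1), (90, 1), (298, 1)]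
    [(1, 117), (1, 56), (1, 32), (1, 21), (1, 15), (1, 11), (1, 8), (1, 7), (1, 5), (1, 4), (2,
    7), (4, 11), (3, 7), (1, 2), (3, 5), (5, 7), (5, 6), (1, 1), (6, 5), (7, 5), (5, 3), (2, 1),
    (7, 3), (11, 4), (7, 2), (4, 1), (5, 1), (7, 1), (8, 1), (11, 1), (15, 1), (21, 1), (32, 1),
    (56, 1), (117, 1), (394, 1)] = true := by decide +kernel

theorem ok37 : chk 37
    [(1, 315), (1, 95), (1, 46), (1, 28), (1, 19), (1, 13), (1, 10), (1, 8), (1, 6), (1, 5), (1,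
    4), (3, 10), (3, 8), (3, 7), (1, 2), (3, 5), (3, 4), (5, 6), (1, 1), (6, 5), (4, 3), (5, 3),
    (2, 1), (7, 3), (8, 3), (10, 3), (4, 1), (5, 1), (6, 1), (8, 1), (10, 1), (13, 1), (19, 1),
    (28, 1), (46, 1), (95, 1), (315, 1)]
    [(1, 123), (1, 59), (1, 34), (1, 22), (1, 16), (1, 12), (1, 9), (1, 7), (2, 11), (2, 9), (2,
    7), (1, 3), (2, 5), (6, 13), (4, 7), (2, 3), (4, 5), (8, 9), (9, 8), (5, 4), (3, 2), (7, 4),
    (13, 6), (5, 2), (3, 1), (7, 2), (9, 2), (11, 2), (7, 1), (9, 1), (12, 1), (16, 1), (22, 1),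
    (34, 1), (59, 1), (123, 1), (415, 1)] = true := by decide +kernel

theorem ok38 : chk 38
    [(1, 333), (1, 101), (1, 49), (1, 29), (1, 20), (1, 14), (1, 11), (1, 8), (2, 13), (1, 5),
    (3, 13), (2, 7), (1, 3), (2, 5), (1, 2), (4, 7), (2, 3), (4, 5), (8, 9), (9, 8), (5, 4), (3,
    2), (7, 4), (2, 1), (5, 2), (3, 1), (7, 2), (13, 3), (5, 1), (13, 2), (8, 1), (11, 1), (14,
    1), (20, 1), (29, 1), (49, 1), (101, 1), (333, 1)]
    [(1, 130), (1, 62), (1, 36), (1, 23), (1, 16), (1, 12), (1, 9), (1, 7), (1, 6), (2, 9), (1,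
    4), (3, 10), (3, 8), (3, 7), (6, 11), (3, 5), (3, 4), (5, 6), (1, 1), (6, 5), (4, 3), (5,
    3), (11, 6), (7, 3), (8, 3), (10, 3), (4, 1), (9, 2), (6, 1), (7, 1), (9, 1), (12, 1), (16,
    1), (23, 1), (36, 1), (62, 1), (130, 1), (437, 1)] = true := by decide +kernel

theorem ok39 : chk 39
    [(1, 351), (1, 106), (1, 52), (1, 31), (1, 21), (1, 15), (1, 11), (1, 9), (1, 7), (2, 11),
    (2, 9), (3, 11), (1, 3), (2, 5), (4, 9), (5, 9), (5, 8), (3, 4), (5, 6), (1, 1), (6, 5), (4,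
    3), (8, 5), (9, 5), (9, 4), (5, 2), (3, 1), (11, 3), (9, 2), (11, 2), (7, 1), (9, 1), (11,
    1), (15, 1), (21, 1), (31, 1), (52, 1), (106, 1), (351, 1)]
    [(1, 136), (1, 65), (1, 38), (1, 25), (1, 17), (1, 13), (1, 10), (1, 8), (1, 6), (1, 5), (1,
    4), (2, 7), (4, 11), (3, 7), (1, 2), (3, 5), (2, 3), (4, 5), (9, 10), (10, 9), (5, 4), (3,
    2), (5, 3), (2, 1), (7, 3), (11, 4), (7, 2), (4, 1), (5, 1), (6, 1), (8, 1), (10, 1), (13,
    1), (17, 1), (25, 1), (38, 1), (65, 1), (136, 1), (459, 1)] = true := by decide +kernel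

theorem ok40 : chk 40
    [(1, 370), (1, 112), (1, 54), (1, 32), (1, 22), (1, 16), (1, 12), (1, 9), (1, 7), (1, 6),
    (3, 14), (1, 4), (3, 10), (3, 8), (3, 7), (1, 2), (3, 5), (2, 3), (4, 5), (9, 10), (10, 9),
    (5, 4), (3, 2), (5, 3), (2, 1), (7, 3), (8, 3), (10, 3), (4, 1), (14, 3), (6, 1), (7, 1),
    (9, 1), (12, 1), (16, 1), (22, 1), (32, 1), (54, 1), (112, 1), (370, 1)]
    [(1, 143), (1, 68), (1, 40), (1, 26), (1, 18), (1, 13), (1, 10), (1, 8), (2, 13), (1, 5),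
    (2, 9), (2, 7), (1, 3), (2, 5), (5, 11), (5, 9), (5, 8), (3, 4), (5, 6), (1, 1), (6, 5), (4,
    3), (8, 5), (9, 5), (11, 5), (5, 2), (3, 1), (7, 2), (9, 2), (5, 1), (13, 2), (8, 1), (10,
    1), (13, 1), (18, 1), (26, 1), (40, 1), (68, 1), (143, 1), (481, 1)] = true := by decide +kernel

theorem ok41 : chk 41
    [(1, 389), (1, 118), (1, 57), (1, 34), (1, 23), (1, 16), (1, 12), (1, 10), (1, 8), (1, 6),
    (1, 5), (1, 4), (2, 7), (1, 3), (2, 5), (6, 13), (4, 7), (2, 3), (3, 4), (5, 6), (1, 1), (6,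
    5), (4, 3), (3, 2), (7, 4), (13, 6), (5, 2), (3, 1), (7, 2), (4, 1), (5, 1), (6, 1), (8, 1),
    (10, 1), (12, 1), (16, 1), (23, 1), (34, 1), (57, 1), (118, 1), (389, 1)]
    [(1, 150), (1, 71), (1, 41), (1, 27), (1, 19), (1, 14), (1, 11), (1, 9), (1, 7), (2, 11),
    (2, 9), (3, 11), (4, 13), (3, 8), (3, 7), (1, 2), (3, 5), (5, 7), (4, 5), (9, 10), (10, 9),
    (5, 4), (7, 5), (5, 3), (2, 1), (7, 3), (8, 3), (13, 4), (11, 3), (9, 2), (11, 2), (7, 1),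
    (9, 1), (11, 1), (14, 1), (19, 1), (27, 1), (41, 1), (71, 1), (150, 1), (505, 1)] = true := by decide +kernel

theorem ok42 : chk 42
    [(1, 409), (1, 124), (1, 60), (1, 36), (1, 24), (1, 17), (1, 13), (1, 10), (1, 8), (2, 13),
    (2, 11), (2, 9), (3, 11), (1, 3), (3, 8), (4, 9), (7, 13), (3, 5), (5, 7), (4, 5), (9, 10),
    (10, 9), (5, 4), (7, 5), (5, 3), (13, 7), (9, 4), (8, 3), (3, 1), (11, 3), (9, 2), (11, 2),
    (13, 2), (8, 1), (10, 1), (13, 1), (17, 1), (24, 1), (36, 1), (60, 1), (124, 1), (409, 1)]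
    [(1, 157), (1, 75), (1, 43), (1, 28), (1, 20), (1, 15), (1, 11), (1, 9), (1, 7), (1, 6), (1,
    5), (1, 4), (2, 7), (4, 11), (2, 5), (1, 2), (4, 7), (2, 3), (3, 4), (6, 7), (1, 1), (7, 6),
    (4, 3), (3, 2), (7, 4), (2, 1), (5, 2), (11, 4), (7, 2), (4, 1), (5, 1), (6, 1), (7, 1), (9,
    1), (11, 1), (15, 1), (20, 1), (28, 1), (43, 1), (75, 1), (157, 1), (528, 1)] = true := by decide +kernel

theorem ok43 : chk 43
    [(1, 429), (1, 130), (1, 63), (1, 37), (1, 25), (1, 18), (1, 14), (1, 11), (1, 8), (1, 7),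
    (2, 11), (2, 9), (1, 4), (3, 10), (3, 8), (3, 7), (1, 2), (4, 7), (2, 3), (3, 4), (6, 7),
    (1, 1), (7, 6), (4, 3), (3, 2), (7, 4), (2, 1), (7, 3), (8, 3), (10, 3), (4, 1), (9, 2),
    (11, 2), (7, 1), (8, 1), (11, 1), (14, 1), (18, 1), (25, 1), (37, 1), (63, 1), (130, 1),
    (429, 1)]
    [(1, 164), (1, 78), (1, 45), (1, 30), (1, 21), (1, 15), (1, 12), (1, 9), (2, 15), (1, 6),
    (1, 5), (3, 13), (2, 7), (1, 3), (2, 5), (4, 9), (6, 11), (3, 5), (5, 7), (4, 5), (10, 11),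
    (11, 10), (5, 4), (7, 5), (5, 3), (11, 6), (9, 4), (5, 2), (3, 1), (7, 2), (13, 3), (5, 1),
    (6, 1), (15, 2), (9, 1), (12, 1), (15, 1), (21, 1), (30, 1), (45, 1), (78, 1), (164, 1),
    (552, 1)] = true := by decide +kernel

theorem ok44 : chk 44
    [(1, 450), (1, 136), (1, 66), (1, 39), (1, 26), (1, 19), (1, 14), (1, 11), (1, 9), (1, 7),
    (1, 6), (1, 5), (1, 4), (2, 7), (1, 3), (2, 5), (5, 11), (6, 11), (3, 5), (5, 7), (4, 5),
    (10, 11), (11, 10), (5, 4), (7, 5), (5, 3), (11, 6), (11, 5), (5, 2), (3, 1), (7, 2), (4,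
    1), (5, 1), (6, 1), (7, 1), (9, 1), (11, 1), (14, 1), (19, 1), (26, 1), (39, 1), (66, 1),
    (136, 1), (450, 1)]
    [(1, 172), (1, 82), (1, 48), (1, 31), (1, 22), (1, 16), (1, 12), (1, 10), (1, 8), (2, 13),
    (2, 11), (2, 9), (3, 11), (4, 13), (3, 8), (3, 7), (1, 2), (4, 7), (2, 3), (3, 4), (6, 7),
    (1, 1), (7, 6), (4, 3), (3, 2), (7, 4), (2, 1), (7, 3), (8, 3), (13, 4), (11, 3), (9, 2),
    (11, 2), (13, 2), (8, 1), (10, 1), (12, 1), (16, 1), (22, 1), (31, 1), (48, 1), (82, 1),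
    (172, 1), (577, 1)] = true := by decide +kernel

theorem ok45 : chk 45
    [(1, 471), (1, 142), (1, 69), (1, 41), (1, 27), (1, 20), (1, 15), (1, 12), (1, 9), (2, 15),
    (1, 6), (1, 5), (3, 13), (2, 7), (1, 3), (3, 8), (3, 7), (1, 2), (3, 5), (2, 3), (3, 4), (6,
    7), (1, 1), (7, 6), (4, 3), (3, 2), (5, 3), (2, 1), (7, 3), (8, 3), (3, 1), (7, 2), (13, 3),
    (5, 1), (6, 1), (15, 2), (9, 1), (12, 1), (15, 1), (20, 1), (27, 1), (41, 1), (69, 1), (142,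
    1), (471, 1)]
    [(1, 179), (1, 85), (1, 50), (1, 32), (1, 23), (1, 17), (1, 13), (1, 10), (1, 8), (1, 7),
    (2, 11), (2, 9), (1, 4), (3, 10), (4, 11), (2, 5), (5, 11), (5, 9), (5, 8), (5, 7), (4, 5),
    (10, 11), (11, 10), (5, 4), (7, 5), (8, 5), (9, 5), (11, 5), (5, 2), (11, 4), (10, 3), (4,
    1), (9, 2), (11, 2), (7, 1), (8, 1), (10, 1), (13, 1), (17, 1), (23, 1), (32, 1), (50, 1),
    (85, 1), (179, 1), (603, 1)] = true := by decide +kernel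

theorem ok46 : chk 46
    [(1, 493), (1, 149), (1, 72), (1, 43), (1, 29), (1, 20), (1, 15), (1, 12), (1, 10), (1, 8),
    (2, 13), (2, 11), (2, 9), (3, 11), (3, 10), (4, 11), (3, 7), (7, 15), (5, 9), (5, 8), (5,
    7), (4, 5), (10, 11), (11, 10), (5, 4), (7, 5), (8, 5), (9, 5), (15, 7), (7, 3), (11, 4),
    (10, 3), (11, 3), (9, 2), (11, 2), (13, 2), (8, 1), (10, 1), (12, 1), (15, 1), (20, 1), (29,
    1), (43, 1), (72, 1), (149, 1), (493, 1)]
    [(1, 187), (1, 89), (1, 52), (1, 34), (1, 24), (1, 18), (1, 14), (1, 11), (1, 9), (1, 7),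
    (1, 6), (1, 5), (1, 4), (2, 7), (1, 3), (2, 5), (4, 9), (1, 2), (3, 5), (2, 3), (3, 4), (6,
    7), (1, 1), (7, 6), (4, 3), (3, 2), (5, 3), (2, 1), (9, 4), (5, 2), (3, 1), (7, 2), (4, 1),
    (5, 1), (6, 1), (7, 1), (9, 1), (11, 1), (14, 1), (18, 1), (24, 1), (34, 1), (52, 1), (89,
    1), (187, 1), (628, 1)] = true := by decide +kernel

theorem ok47 : chk 47
    [(1, 515), (1, 155), (1, 75), (1, 45), (1, 30), (1, 21), (1, 16), (1, 13), (1, 10), (1, 8),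
    (1, 7), (2, 11), (2, 9), (1, 4), (2, 7), (1, 3), (2, 5), (4, 9), (7, 13), (3, 5), (2, 3),
    (3, 4), (6, 7), (1, 1), (7, 6), (4, 3), (3, 2), (5, 3), (13, 7), (9, 4), (5, 2), (3, 1), (7,
    2), (4, 1), (9, 2), (11, 2), (7, 1), (8, 1), (10, 1), (13, 1), (16, 1), (21, 1), (30, 1),
    (45, 1), (75, 1), (155, 1), (515, 1)]
    [(1, 195), (1, 93), (1, 54), (1, 35), (1, 25), (1, 18), (1, 14), (1, 11), (1, 9), (2, 15),
    (1, 6), (1, 5), (3, 13), (3, 11), (4, 13), (3, 8), (3, 7), (1, 2), (4, 7), (5, 8), (5, 7),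
    (4, 5), (10, 11), (11, 10), (5, 4), (7, 5), (8, 5), (7, 4), (2, 1), (7, 3), (8, 3), (13, 4),
    (11, 3), (13, 3), (5, 1), (6, 1), (15, 2), (9, 1), (11, 1), (14, 1), (18, 1), (25, 1), (35,
    1), (54, 1), (93, 1), (195, 1), (655, 1)] = true := by decide +kernel

theorem ok48 : chk 48
    [(1, 538), (1, 162), (1, 78), (1, 46), (1, 31), (1, 22), (1, 17), (1, 13), (1, 11), (2, 17),
    (1, 7), (1, 6), (1, 5), (3, 13), (2, 7), (1, 3), (3, 8), (3, 7), (1, 2), (4, 7), (5, 8), (3,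
    4), (5, 6), (11, 12), (12, 11), (6, 5), (4, 3), (8, 5), (7, 4), (2, 1), (7, 3), (8, 3), (3,
    1), (7, 2), (13, 3), (5, 1), (6, 1), (7, 1), (17, 2), (11, 1), (13, 1), (17, 1), (22, 1),
    (31, 1), (46, 1), (78, 1), (162, 1), (538, 1)]
    [(1, 203), (1, 96), (1, 56), (1, 37), (1, 26), (1, 19), (1, 15), (1, 12), (1, 9), (1, 8),
    (2, 13), (2, 11), (2, 9), (1, 4), (3, 10), (5, 14), (2, 5), (5, 11), (6, 11), (3, 5), (2,
    3), (4, 5), (6, 7), (1, 1), (7, 6), (5, 4), (3, 2), (5, 3), (11, 6), (11, 5), (5, 2), (14,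
    5), (10, 3), (4, 1), (9, 2), (11, 2), (13, 2), (8, 1), (9, 1), (12, 1), (15, 1), (19, 1),
    (26, 1), (37, 1), (56, 1), (96, 1), (203, 1), (682, 1)] = true := by decide +kernel

theorem ok49 : chk 49
    [(1, 562), (1, 169), (1, 82), (1, 48), (1, 32), (1, 23), (1, 17), (1, 14), (1, 11), (1, 9),
    (1, 7), (1, 6), (1, 5), (2, 9), (3, 11), (3, 10), (4, 11), (2, 5), (5, 11), (6, 11), (3, 5),
    (7, 10), (4, 5), (6, 7), (1, 1), (7, 6), (5, 4), (10, 7), (5, 3), (11, 6), (11, 5), (5, 2),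
    (11, 4), (10, 3), (11, 3), (9, 2), (5, 1), (6, 1), (7, 1), (9, 1), (11, 1), (14, 1), (17,
    1), (23, 1), (32, 1), (48, 1), (82, 1), (169, 1), (562, 1)]
    [(1, 211), (1, 100), (1, 58), (1, 38), (1, 27), (1, 20), (1, 15), (1, 12), (1, 10), (1, 8),
    (2, 13), (2, 11), (3, 14), (1, 4), (2, 7), (1, 3), (3, 8), (3, 7), (1, 2), (4, 7), (2, 3),
    (3, 4), (5, 6), (11, 12), (12, 11), (6, 5), (4, 3), (3, 2), (7, 4), (2, 1), (7, 3), (8, 3),
    (3, 1), (7, 2), (4, 1), (14, 3), (11, 2), (13, 2), (8, 1), (10, 1), (12, 1), (15, 1), (20,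
    1), (27, 1), (38, 1), (58, 1), (100, 1), (211, 1), (709, 1)] = true := by decide +kernel

theorem ok50 : chk 50
    [(1, 585), (1, 176), (1, 85), (1, 50), (1, 34), (1, 24), (1, 18), (1, 14), (1, 11), (1, 9),
    (1, 8), (2, 13), (2, 11), (2, 9), (1, 4), (2, 7), (1, 3), (2, 5), (4, 9), (1, 2), (4, 7),
    (2, 3), (3, 4), (5, 6), (11, 12), (12, 11), (6, 5), (4, 3), (3, 2), (7, 4), (2, 1), (9, 4),
    (5, 2), (3, 1), (7, 2), (4, 1), (9, 2), (11, 2), (13, 2), (8, 1), (9, 1), (11, 1), (14, 1),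
    (18, 1), (24, 1), (34, 1), (50, 1), (85, 1), (176, 1), (585, 1)]
    [(1, 220), (1, 104), (1, 61), (1, 40), (1, 28), (1, 21), (1, 16), (1, 13), (1, 10), (2, 17),
    (1, 7), (1, 6), (1, 5), (3, 13), (3, 11), (4, 13), (3, 8), (3, 7), (6, 13), (5, 9), (3, 5),
    (5, 7), (4, 5), (7, 8), (1, 1), (8, 7), (5, 4), (7, 5), (5, 3), (9, 5), (13, 6), (7, 3), (8,
    3), (13, 4), (11, 3), (13, 3), (5, 1), (6, 1), (7, 1), (17, 2), (10, 1), (13, 1), (16, 1),
    (21, 1), (28, 1), (40, 1), (61, 1), (104, 1), (220, 1), (737, 1)] = true := by decide +kernel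

theorem ok51 : chk 51
    [(1, 610), (1, 183), (1, 88), (1, 52), (1, 35), (1, 25), (1, 19), (1, 15), (1, 12), (1, 10),
    (1, 8), (2, 13), (2, 11), (3, 14), (1, 4), (2, 7), (1, 3), (3, 8), (3, 7), (8, 17), (5, 9),
    (5, 8), (5, 7), (4, 5), (7, 8), (1, 1), (8, 7), (5, 4), (7, 5), (8, 5), (9, 5), (17, 8), (7,
    3), (8, 3), (3, 1), (7, 2), (4, 1), (14, 3), (11, 2), (13, 2), (8, 1), (10, 1), (12, 1),
    (15, 1), (19, 1), (25, 1), (35, 1), (52, 1), (88, 1), (183, 1), (610, 1)]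
    [(1, 228), (1, 108), (1, 63), (1, 41), (1, 29), (1, 22), (1, 17), (1, 13), (1, 11), (1, 9),
    (1, 7), (1, 6), (1, 5), (2, 9), (3, 11), (3, 10), (5, 14), (2, 5), (4, 9), (1, 2), (3, 5),
    (2, 3), (3, 4), (5, 6), (11, 12), (12, 11), (6, 5), (4, 3), (3, 2), (5, 3), (2, 1), (9, 4),
    (5, 2), (14, 5), (10, 3), (11, 3), (9, 2), (5, 1), (6, 1), (7, 1), (9, 1), (11, 1), (13, 1),
    (17, 1), (22, 1), (29, 1), (41, 1), (63, 1), (108, 1), (228, 1), (766, 1)] = true := by decide +kernel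

theorem ok52 : chk 52
    [(1, 635), (1, 191), (1, 92), (1, 54), (1, 36), (1, 26), (1, 20), (1, 15), (1, 12), (1, 10),
    (1, 8), (1, 7), (1, 6), (1, 5), (3, 13), (3, 11), (4, 13), (4, 11), (2, 5), (5, 11), (8,
    15), (3, 5), (2, 3), (3, 4), (5, 6), (11, 12), (12, 11), (6, 5), (4, 3), (3, 2), (5, 3),
    (15, 8), (11, 5), (5, 2), (11, 4), (13, 4), (11, 3), (13, 3), (5, 1), (6, 1), (7, 1), (8,
    1), (10, 1), (12, 1), (15, 1), (20, 1), (26, 1), (36, 1), (54, 1), (92, 1), (191, 1), (635,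
    1)]
    [(1, 237), (1, 113), (1, 66), (1, 43), (1, 30), (1, 22), (1, 17), (1, 14), (1, 11), (1, 9),
    (2, 15), (2, 13), (2, 11), (2, 9), (1, 4), (2, 7), (1, 3), (3, 8), (3, 7), (1, 2), (5, 9),
    (5, 8), (5, 7), (4, 5), (7, 8), (1, 1), (8, 7), (5, 4), (7, 5), (8, 5), (9, 5), (2, 1), (7,
    3), (8, 3), (3, 1), (7, 2), (4, 1), (9, 2), (11, 2), (13, 2), (15, 2), (9, 1), (11, 1), (14,
    1), (17, 1), (22, 1), (30, 1), (43, 1), (66, 1), (113, 1), (237, 1), (795, 1)] = true := by decide +kernel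

theorem ok53 : chk 53
    [(1, 660), (1, 198), (1, 96), (1, 57), (1, 38), (1, 27), (1, 20), (1, 16), (1, 13), (1, 10),
    (1, 9), (1, 7), (1, 6), (1, 5), (2, 9), (4, 15), (3, 10), (1, 3), (2, 5), (3, 7), (1, 2),
    (4, 7), (5, 8), (5, 7), (4, 5), (7, 8), (1, 1), (8, 7), (5, 4), (7, 5), (8, 5), (7, 4), (2,
    1), (7, 3), (5, 2), (3, 1), (10, 3), (15, 4), (9, 2), (5, 1), (6, 1), (7, 1), (9, 1), (10,
    1), (13, 1), (16, 1), (20, 1), (27, 1), (38, 1), (57, 1), (96, 1), (198, 1), (660, 1)]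
    [(1, 246), (1, 117), (1, 68), (1, 44), (1, 31), (1, 23), (1, 18), (1, 14), (1, 12), (2, 19),
    (1, 8), (2, 13), (2, 11), (3, 14), (1, 4), (2, 7), (5, 16), (3, 8), (5, 12), (5, 11), (7,
    13), (3, 5), (2, 3), (3, 4), (5, 6), (12, 13), (13, 12), (6, 5), (4, 3), (3, 2), (5, 3),
    (13, 7), (11, 5), (12, 5), (8, 3), (16, 5), (7, 2), (4, 1), (14, 3), (11, 2), (13, 2), (8,
    1), (19, 2), (12, 1), (14, 1), (18, 1), (23, 1), (31, 1), (44, 1), (68, 1), (117, 1), (246,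
    1), (825, 1)] = true := by decide +kernel

theorem ok54 : chk 54
    [(1, 686), (1, 206), (1, 99), (1, 59), (1, 39), (1, 28), (1, 21), (1, 16), (1, 13), (1, 11),
    (1, 9), (2, 15), (2, 13), (2, 11), (2, 9), (1, 4), (2, 7), (1, 3), (3, 8), (3, 7), (6, 13),
    (6, 11), (3, 5), (2, 3), (3, 4), (5, 6), (12, 13), (13, 12), (6, 5), (4, 3), (3, 2), (5, 3),
    (11, 6), (13, 6), (7, 3), (8, 3), (3, 1), (7, 2), (4, 1), (9, 2), (11, 2), (13, 2), (15, 2),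
    (9, 1), (11, 1), (13, 1), (16, 1), (21, 1), (28, 1), (39, 1), (59, 1), (99, 1), (206, 1),
    (686, 1)]
    [(1, 255), (1, 121), (1, 70), (1, 46), (1, 32), (1, 24), (1, 19), (1, 15), (1, 12), (1, 10),
    (1, 8), (1, 7), (1, 6), (1, 5), (3, 13), (3, 11), (3, 10), (5, 14), (2, 5), (4, 9), (1, 2),
    (4, 7), (5, 8), (5, 7), (4, 5), (7, 8), (1, 1), (8, 7), (5, 4), (7, 5), (8, 5), (7, 4), (2,
    1), (9, 4), (5, 2), (14, 5), (10, 3), (11, 3), (13, 3), (5, 1), (6, 1), (7, 1), (8, 1), (10,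
    1), (12, 1), (15, 1), (19, 1), (24, 1), (32, 1), (46, 1), (70, 1), (121, 1), (255, 1), (855,
    1)] = true := by decide +kernel

theorem ok55 : chk 55
    [(1, 712), (1, 214), (1, 103), (1, 61), (1, 41), (1, 29), (1, 22), (1, 17), (1, 14), (1,
    11), (1, 9), (1, 8), (2, 13), (2, 11), (1, 5), (3, 13), (3, 11), (4, 13), (4, 11), (2, 5),
    (4, 9), (1, 2), (4, 7), (5, 8), (5, 7), (4, 5), (7, 8), (1, 1), (8, 7), (5, 4), (7, 5), (8,
    5), (7, 4), (2, 1), (9, 4), (5, 2), (11, 4), (13, 4), (11, 3), (13, 3), (5, 1), (11, 2),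
    (13, 2), (8, 1), (9, 1), (11, 1), (14, 1), (17, 1), (22, 1), (29, 1), (41, 1), (61, 1),
    (103, 1), (214, 1), (712, 1)]
    [(1, 264), (1, 125), (1, 73), (1, 48), (1, 34), (1, 25), (1, 19), (1, 15), (1, 12), (1, 10),
    (2, 17), (1, 7), (1, 6), (3, 16), (2, 9), (1, 4), (2, 7), (1, 3), (3, 8), (3, 7), (8, 17),
    (5, 9), (3, 5), (2, 3), (3, 4), (5, 6), (12, 13), (13, 12), (6, 5), (4, 3), (3, 2), (5, 3),
    (9, 5), (17, 8), (7, 3), (8, 3), (3, 1), (7, 2), (4, 1), (9, 2), (16, 3), (6, 1), (7, 1),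
    (17, 2), (10, 1), (12, 1), (15, 1), (19, 1), (25, 1), (34, 1), (48, 1), (73, 1), (125, 1),
    (264, 1), (886, 1)] = true := by decide +kernel

theorem ok56 : chk 56
    [(1, 739), (1, 222), (1, 107), (1, 63), (1, 42), (1, 30), (1, 23), (1, 18), (1, 14), (1,
    12), (1, 10), (1, 8), (1, 7), (1, 6), (1, 5), (2, 9), (4, 15), (3, 10), (1, 3), (3, 8), (3,
    7), (1, 2), (5, 9), (3, 5), (2, 3), (3, 4), (5, 6), (12, 13), (13, 12), (6, 5), (4, 3), (3,
    2), (5, 3), (9, 5), (2, 1), (7, 3), (8, 3), (3, 1), (10, 3), (15, 4), (9, 2), (5, 1), (6,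
    1), (7, 1), (8, 1), (10, 1), (12, 1), (14, 1), (18, 1), (23, 1), (30, 1), (42, 1), (63, 1),
    (107, 1), (222, 1), (739, 1)]
    [(1, 273), (1, 130), (1, 76), (1, 49), (1, 35), (1, 26), (1, 20), (1, 16), (1, 13), (1, 11),
    (1, 9), (2, 15), (2, 13), (2, 11), (3, 14), (1, 4), (2, 7), (5, 16), (4, 11), (2, 5), (5,
    11), (9, 17), (4, 7), (7, 11), (5, 7), (4, 5), (7, 8), (1, 1), (8, 7), (5, 4), (7, 5), (11,
    7), (7, 4), (17, 9), (11, 5), (5, 2), (11, 4), (16, 5), (7, 2), (4, 1), (14, 3), (11, 2),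
    (13, 2), (15, 2), (9, 1), (11, 1), (13, 1), (16, 1), (20, 1), (26, 1), (35, 1), (49, 1),
    (76, 1), (130, 1), (273, 1), (917, 1)] = true := by decide +kernel

theorem ok57 : chk 57
    [(1, 766), (1, 230), (1, 111), (1, 65), (1, 43), (1, 31), (1, 23), (1, 18), (1, 15), (1,
    12), (1, 10), (2, 17), (1, 7), (1, 6), (3, 16), (2, 9), (1, 4), (2, 7), (1, 3), (3, 8), (5,
    12), (5, 11), (8, 15), (4, 7), (2, 3), (5, 7), (4, 5), (8, 9), (1, 1), (9, 8), (5, 4), (7,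
    5), (3, 2), (7, 4), (15, 8), (11, 5), (12, 5), (8, 3), (3, 1), (7, 2), (4, 1), (9, 2), (16,
    3), (6, 1), (7, 1), (17, 2), (10, 1), (12, 1), (15, 1), (18, 1), (23, 1), (31, 1), (43, 1),
    (65, 1), (111, 1), (230, 1), (766, 1)]
    [(1, 283), (1, 134), (1, 78), (1, 51), (1, 36), (1, 27), (1, 21), (1, 16), (1, 13), (1, 11),
    (1, 9), (1, 8), (2, 13), (2, 11), (1, 5), (3, 13), (3, 11), (3, 10), (5, 14), (2, 5), (3,
    7), (1, 2), (5, 9), (3, 5), (7, 10), (3, 4), (5, 6), (13, 14), (14, 13), (6, 5), (4, 3),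
    (10, 7), (5, 3), (9, 5), (2, 1), (7, 3), (5, 2), (14, 5), (10, 3), (11, 3), (13, 3), (5, 1),
    (11, 2), (13, 2), (8, 1), (9, 1), (11, 1), (13, 1), (16, 1), (21, 1), (27, 1), (36, 1), (51,
    1), (78, 1), (134, 1), (283, 1), (949, 1)] = true := by decide +kernel

theorem ok58 : chk 58
    [(1, 794), (1, 239), (1, 115), (1, 68), (1, 45), (1, 32), (1, 24), (1, 19), (1, 15), (1,
    12), (1, 10), (1, 9), (2, 15), (2, 13), (2, 11), (3, 14), (1, 4), (3, 11), (4, 13), (4, 11),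
    (2, 5), (4, 9), (1, 2), (4, 7), (5, 8), (7, 10), (3, 4), (5, 6), (13, 14), (14, 13), (6, 5),
    (4, 3), (10, 7), (8, 5), (7, 4), (2, 1), (9, 4), (5, 2), (11, 4), (13, 4), (11, 3), (4, 1),
    (14, 3), (11, 2), (13, 2), (15, 2), (9, 1), (10, 1), (12, 1), (15, 1), (19, 1), (24, 1),
    (32, 1), (45, 1), (68, 1), (115, 1), (239, 1), (794, 1)]
    [(1, 292), (1, 139), (1, 81), (1, 53), (1, 37), (1, 28), (1, 21), (1, 17), (1, 14), (1, 11),
    (2, 19), (1, 8), (1, 7), (1, 6), (1, 5), (2, 9), (4, 15), (2, 7), (1, 3), (3, 8), (3, 7),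
    (6, 13), (7, 13), (3, 5), (2, 3), (5, 7), (4, 5), (8, 9), (1, 1), (9, 8), (5, 4), (7, 5),
    (3, 2), (5, 3), (13, 7), (13, 6), (7, 3), (8, 3), (3, 1), (7, 2), (15, 4), (9, 2), (5, 1),
    (6, 1), (7, 1), (8, 1), (19, 2), (11, 1), (14, 1), (17, 1), (21, 1), (28, 1), (37, 1), (53,
    1), (81, 1), (139, 1), (292, 1), (982, 1)] = true := by decide +kernel

theorem ok59 : chk 59
    [(1, 822), (1, 247), (1, 119), (1, 70), (1, 47), (1, 33), (1, 25), (1, 20), (1, 16), (1,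
    13), (1, 11), (1, 9), (2, 15), (2, 13), (2, 11), (1, 5), (3, 13), (3, 11), (3, 10), (1, 3),
    (3, 8), (3, 7), (7, 15), (6, 11), (3, 5), (2, 3), (3, 4), (4, 5), (8, 9), (1, 1), (9, 8),
    (5, 4), (4, 3), (3, 2), (5, 3), (11, 6), (15, 7), (7, 3), (8, 3), (3, 1), (10, 3), (11, 3),
    (13, 3), (5, 1), (11, 2), (13, 2), (15, 2), (9, 1), (11, 1), (13, 1), (16, 1), (20, 1), (25,
    1), (33, 1), (47, 1), (70, 1), (119, 1), (247, 1), (822, 1)]
    [(1, 302), (1, 144), (1, 84), (1, 55), (1, 39), (1, 29), (1, 22), (1, 17), (1, 14), (1, 12),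
    (1, 10), (1, 8), (1, 7), (1, 6), (3, 16), (2, 9), (1, 4), (2, 7), (5, 16), (4, 11), (2, 5),
    (4, 9), (1, 2), (4, 7), (5, 8), (5, 7), (7, 9), (6, 7), (13, 14), (14, 13), (7, 6), (9, 7),
    (7, 5), (8, 5), (7, 4), (2, 1), (9, 4), (5, 2), (11, 4), (16, 5), (7, 2), (4, 1), (9, 2),
    (16, 3), (6, 1), (7, 1), (8, 1), (10, 1), (12, 1), (14, 1), (17, 1), (22, 1), (29, 1), (39,
    1), (55, 1), (84, 1), (144, 1), (302, 1), (1015, 1)] = true := by decide +kernel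

end BS

theorem base_small {m : ℕ} (hm : 2 ≤ m) (hm' : m < 60) :
    ∃ x : Fin m → ℝ, Cls m x ∧ ∃ c : ℝ, 0 < c ∧ ∀ i, Lop (bm m) i = c * (pr x).coeff i := by
  interval_cases m
  · exact BS.sound hm BS.ok2
  · exact BS.sound hm BS.ok3
  · exact BS.sound hm BS.ok4
  · exact BS.sound hm BS.ok5
  · exact BS.sound hm BS.ok6
  · exact BS.sound hm BS.ok7
  · exact BS.sound hm BS.ok8
  · exact BS.sound hm BS.ok9
  · exact BS.sound hm BS.ok10
  · exact BS.sound hm BS.ok11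
  · exact BS.sound hm BS.ok12
  · exact BS.sound hm BS.ok13
  · exact BS.sound hm BS.ok14
  · exact BS.sound hm BS.ok15
  · exact BS.sound hm BS.ok16
  · exact BS.sound hm BS.ok17
  · exact BS.sound hm BS.ok18
  · exact BS.sound hm BS.ok19
  · exact BS.sound hm BS.ok20
  · exact BS.sound hm BS.ok21
  · exact BS.sound hm BS.ok22
  · exact BS.sound hm BS.ok23
  · exact BS.sound hm BS.ok24
  · exact BS.sound hm BS.ok25
  · exact BS.sound hm BS.ok26
  · exact BS.sound hm BS.ok27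
  · exact BS.sound hm BS.ok28
  · exact BS.sound hm BS.ok29
  · exact BS.sound hm BS.ok30
  · exact BS.sound hm BS.ok31
  · exact BS.sound hm BS.ok32
  · exact BS.sound hm BS.ok33
  · exact BS.sound hm BS.ok34
  · exact BS.sound hm BS.ok35
  · exact BS.sound hm BS.ok36
  · exact BS.sound hm BS.ok37
  · exact BS.sound hm BS.ok38
  · exact BS.sound hm BS.ok39
  · exact BS.sound hm BS.ok40
  · exact BS.sound hm BS.ok41
  · exact BS.sound hm BS.ok42
  · exact BS.sound hm BS.ok43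
  · exact BS.sound hm BS.ok44
  · exact BS.sound hm BS.ok45
  · exact BS.sound hm BS.ok46
  · exact BS.sound hm BS.ok47
  · exact BS.sound hm BS.ok48
  · exact BS.sound hm BS.ok49
  · exact BS.sound hm BS.ok50
  · exact BS.sound hm BS.ok51
  · exact BS.sound hm BS.ok52
  · exact BS.sound hm BS.ok53
  · exact BS.sound hm BS.ok54
  · exact BS.sound hm BS.ok55
  · exact BS.sound hm BS.ok56
  · exact BS.sound hm BS.ok57
  · exact BS.sound hm BS.ok58
  · exact BS.sound hm BS.ok59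

end BMoll
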