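import Pool.Agent.Lib.MP_a93a81_co.Rec

/-!
# Module BETA : moment representation of the Boros–Moll coefficients

`XI m i = ∫_0^1 σ^{m+i} (1-σ)^{-1/2} (1+σ)^{-(2m+3/2)} dσ`.
For `i ≥ 1` (or `m + i ≥ 1`): `(m+i) X_{i-1} - (2m+1) X_i + (m-i) X_{i+1} = 0`, by integrating the
derivative of `σ^{m+i} (1-σ)^{1/2} (1+σ)^{-(2m+1/2)}`, which is
`σ^{m+i-1}(1-σ)^{-1/2}(1+σ)^{-(2m+3/2)} [ (m+i) - (2m+1)σ + (m-i)σ^2 ]`.
`δ_i = d_i/C(m,i)` satisfies `(m+i) δ_{i-1} - (2m+1) δ_i + (m-i) δ_{i+1} = 0` for `1 ≤ i ≤ m`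
(from `bm_rec` with `i-1`, divided by `(m-i+1) C(m,i-1)`).  Downward induction from `i = m`:
`δ_i = κ X_i` with `κ = δ_m / X_m`.
-/

namespace BMoll

open MeasureTheory intervalIntegral

theorem wt_int (m i : ℕ) : IntervalIntegrable (fun σ => σ^i * wt m σ) volume 0 1 := by
  have h0 : IntervalIntegrable (fun x : ℝ => x^(-(1/2) : ℝ)) volume 1 0 :=
    intervalIntegral.intervalIntegrable_rpow' (by norm_num)
  have h1 : IntervalIntegrable (fun x : ℝ => (1 - x)^(-(1/2) : ℝ)) volume 0 1 := by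
    simpa using h0.comp_sub_left 1
  have hc : ContinuousOn (fun σ : ℝ => σ^i * σ^m * (1+σ)^(-(2*m+3/2) : ℝ)) (Set.uIcc 0 1) := by
    apply ContinuousOn.mul
    · fun_prop
    · apply ContinuousOn.rpow_const (by fun_prop)
      intro x hx
      rw [Set.uIcc_of_le (by norm_num)] at hx
      left
      have := hx.1
      positivity
  have h2 := h1.mul_continuousOn hc
  refine h2.congr ?_
  intro x _
  simp only [wt]
  ring

theorem XI_pos (m i : ℕ) : 0 < XI m i := by
  unfold XI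
  apply intervalIntegral.intervalIntegral_pos_of_pos_on (wt_int m i) _ (by norm_num)
  intro x hx
  have h1 : 0 < x := hx.1
  have h2 : 0 < 1 - x := by linarith [hx.2]
  have h3 : 0 < 1 + x := by linarith
  unfold wt
  have := Real.rpow_pos_of_pos h2 (-(1/2) : ℝ)
  have := Real.rpow_pos_of_pos h3 (-(2*m+3/2) : ℝ)
  positivity

/-- recurrence of the moments -/
theorem XI_rec (m i : ℕ) :
    ((m:ℝ) + i + 1) * XI m i - (2*m+1) * XI m (i+1) + ((m:ℝ) - i - 1) * XI m (i+2) = 0 := by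
  have hint : IntervalIntegrable (fun σ => ((m:ℝ) + i + 1) * (σ^i * wt m σ)
      - (2*m+1) * (σ^(i+1) * wt m σ) + ((m:ℝ) - i - 1) * (σ^(i+2) * wt m σ)) volume 0 1 :=
    (((wt_int m i).const_mul _).sub ((wt_int m (i+1)).const_mul _)).add
      ((wt_int m (i+2)).const_mul _)
  have hcont : ContinuousOn (fun σ : ℝ => σ^(m+i+1) * (1-σ)^((1/2) : ℝ) *
      (1+σ)^(-(2*m+1/2) : ℝ)) (Set.Icc 0 1) := by
    apply ContinuousOn.mul
    · apply ContinuousOn.mul
      · fun_prop
      · apply ContinuousOn.rpow_const (by fun_prop)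
        intro x _
        right
        norm_num
    · apply ContinuousOn.rpow_const (by fun_prop)
      intro x hx
      left
      have := hx.1
      positivity
  have hder : ∀ x ∈ Set.Ioo (0:ℝ) 1, HasDerivAt (fun σ : ℝ => σ^(m+i+1) * (1-σ)^((1/2) : ℝ) *
      (1+σ)^(-(2*m+1/2) : ℝ)) (((m:ℝ) + i + 1) * (x^i * wt m x)
      - (2*m+1) * (x^(i+1) * wt m x) + ((m:ℝ) - i - 1) * (x^(i+2) * wt m x)) x := by
    intro x hx
    have h1 : 0 < x := hx.1
    have h2 : 0 < 1 - x := by linarith [hx.2]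
    have h3 : 0 < 1 + x := by linarith
    have d1 : HasDerivAt (fun σ : ℝ => σ^(m+i+1)) (((m+i+1 : ℕ) : ℝ) * x^(m+i)) x := by
      simpa using hasDerivAt_pow (m+i+1) x
    have d2 : HasDerivAt (fun σ : ℝ => (1-σ)^((1/2) : ℝ)) ((-1) * (1/2) * (1-x)^((1/2) - 1 : ℝ)) x := by
      have : HasDerivAt (fun σ : ℝ => 1 - σ) (-1) x := by
        simpa using (hasDerivAt_id x).const_sub 1
      exact this.rpow_const (Or.inl h2.ne')
    have d3 : HasDerivAt (fun σ : ℝ => (1+σ)^(-(2*m+1/2) : ℝ))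
        (1 * (-(2*m+1/2)) * (1+x)^(-(2*m+1/2) - 1 : ℝ)) x := by
      have : HasDerivAt (fun σ : ℝ => 1 + σ) 1 x := by
        simpa using (hasDerivAt_id x).const_add 1
      exact this.rpow_const (Or.inl h3.ne')
    have d := (d1.mul d2).mul d3
    refine d.congr_deriv ?_
    have e1 : (1-x)^((1/2) : ℝ) = (1-x) * (1-x)^(-(1/2) : ℝ) := by
      have := Real.rpow_add h2 1 (-(1/2))
      rw [Real.rpow_one] at this
      rw [← this]; norm_num
    have e2 : (1-x)^((1/2) - 1 : ℝ) = (1-x)^(-(1/2) : ℝ) := by norm_num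
    have e3 : (1+x)^(-(2*m+1/2) : ℝ) = (1+x) * (1+x)^(-(2*m+3/2) : ℝ) := by
      have := Real.rpow_add h3 1 (-(2*m+3/2))
      rw [Real.rpow_one] at this
      rw [← this]; congr 1; ring
    have e4 : (1+x)^(-(2*m+1/2) - 1 : ℝ) = (1+x)^(-(2*m+3/2) : ℝ) := by
      congr 1; ring
    simp only [wt, Pi.mul_apply]
    rw [e1, e2, e3, e4]
    generalize (1-x)^(-(1/2) : ℝ) = p
    generalize (1+x)^(-(2*m+3/2) : ℝ) = q
    push_cast
    ring
  have hFTC := intervalIntegral.integral_eq_sub_of_hasDerivAt_of_le (by norm_num : (0:ℝ) ≤ 1)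
    hcont hder hint
  have hz : (0:ℝ)^(m+i+1) = 0 := by simp
  rw [intervalIntegral.integral_add ((((wt_int m i).const_mul _).sub
      ((wt_int m (i+1)).const_mul _))) ((wt_int m (i+2)).const_mul _),
    intervalIntegral.integral_sub ((wt_int m i).const_mul _) ((wt_int m (i+1)).const_mul _),
    intervalIntegral.integral_const_mul, intervalIntegral.integral_const_mul,
    intervalIntegral.integral_const_mul] at hFTC
  rw [hz, sub_self, Real.zero_rpow (by norm_num)] at hFTC
  simp only [zero_mul, mul_zero, sub_zero] at hFTC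
  unfold XI
  linarith [hFTC]

theorem bm_beta (m : ℕ) : ∃ κ : ℝ, 0 < κ ∧ ∀ i ≤ m, bm m i = κ * (m.choose i : ℕ) * XI m i := by
  refine ⟨bm m m / XI m m, div_pos (bm_pos le_rfl) (XI_pos m m), ?_⟩
  set κ := bm m m / XI m m with hκ
  have key : ∀ j, j ≤ m → (bm m (m-j) = κ * (m.choose (m-j) : ℕ) * XI m (m-j)) ∧
      (bm m (m-j+1) = κ * (m.choose (m-j+1) : ℕ) * XI m (m-j+1)) := by
    intro j
    induction j with
    | zero =>
      intro _
      constructor
      · simp only [Nat.sub_zero, Nat.choose_self, Nat.cast_one, mul_one]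
        rw [hκ, div_mul_cancel₀ _ (XI_pos m m).ne']
      · simp only [Nat.sub_zero]
        rw [bm_zero (by omega), Nat.choose_eq_zero_of_lt (by omega)]
        simp
    | succ j ih =>
      intro hj
      obtain ⟨h1, h2⟩ := ih (by omega)
      obtain ⟨i, hi⟩ : ∃ i, m - (j+1) = i := ⟨_, rfl⟩
      have hi1 : m - j = i + 1 := by omega
      have him : i + 1 ≤ m := by omega
      rw [hi1] at h1 h2
      rw [hi]
      refine ⟨?_, h1⟩
      have hr := bm_rec m i
      have hX := XI_rec m i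
      rw [h1, show i + 2 = i + 1 + 1 from rfl, h2] at hr
      -- binomial identities
      have c1 : ((m.choose (i+1) : ℕ) : ℝ) * (i+1) = (m.choose i : ℕ) * ((m:ℝ) - i) := by
        have := Nat.choose_succ_right_eq m i
        have h3 : (((m.choose (i+1) * (i+1) : ℕ)) : ℝ) = ((m.choose i * (m - i) : ℕ) : ℝ) := by
          rw [this]
        rw [Nat.cast_mul, Nat.cast_mul, Nat.cast_sub (by omega)] at h3
        push_cast at h3 ⊢
        linarith
      have c2 : ((m.choose (i+1+1) : ℕ) : ℝ) * (i+2) = (m.choose (i+1) : ℕ) * ((m:ℝ) - i - 1) := by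
        have := Nat.choose_succ_right_eq m (i+1)
        have h3 : (((m.choose (i+1+1) * (i+1+1) : ℕ)) : ℝ)
            = ((m.choose (i+1) * (m - (i+1)) : ℕ) : ℝ) := by
          rw [this]
        rw [Nat.cast_mul, Nat.cast_mul, Nat.cast_sub (by omega)] at h3
        push_cast at h3 ⊢
        linarith
      have him' : ((i:ℝ) + 1) ≤ m := by exact_mod_cast him
      have hpos : 0 < ((m:ℝ) - i) * (m + i + 1) := by
        apply mul_pos
        · linarith
        · positivity
      apply mul_left_cancel₀ hpos.ne'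
      have e1 : ((m:ℝ) - i) * (m + i + 1) * bm m i
          = (2*m+1) * (i+1) * (κ * (m.choose (i+1) : ℕ) * XI m (i+1))
            - (i+1) * (i+2) * (κ * (m.choose (i+1+1) : ℕ) * XI m (i+1+1)) := by linarith
      rw [e1]
      have e2 : (2*(m:ℝ)+1) * (i+1) * (κ * (m.choose (i+1) : ℕ) * XI m (i+1))
          = κ * ((m.choose i : ℕ) * ((m:ℝ) - i)) * ((2*m+1) * XI m (i+1)) := by
        rw [← c1]; ring
      have e3 : ((i:ℝ)+1) * (i+2) * (κ * (m.choose (i+1+1) : ℕ) * XI m (i+1+1))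
          = κ * ((m.choose i : ℕ) * ((m:ℝ) - i)) * (((m:ℝ) - i - 1) * XI m (i+2)) := by
        rw [← c1]
        have : ((i:ℝ)+1) * (i+2) * (κ * (m.choose (i+1+1) : ℕ) * XI m (i+1+1))
            = ((i:ℝ)+1) * κ * (((m.choose (i+1+1) : ℕ) : ℝ) * (i+2)) * XI m (i+1+1) := by ring
        rw [this, c2]; ring
      rw [e2, e3]
      have e4 : (2*(m:ℝ)+1) * XI m (i+1) - ((m:ℝ) - i - 1) * XI m (i+2)
          = ((m:ℝ) + i + 1) * XI m i := by linarith
      rw [← mul_sub, e4]
      ring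
  intro i hi
  have := (key (m - i) (by omega)).1
  rwa [show m - (m - i) = i by omega] at this

end BMoll
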