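import Pool.Agent.Lib.MP_a93a81_co.Moves

/-!
# Module CLSL : the class `Cls n` is preserved by `L`

Let `x ∈ Cls n`, `x*_k = 1/x_{n-1-k}` (again increasing, positive).  The conditions say
`x*_k < x_k` for all `k` and `x_k < x*_{k+1}` for `k ≤ n-2`.  Let `L(pr x) = pr σ` (T1), then
`L(pr x*) = pr σ*`, `σ*_k = 1/σ_{n-1-k}` (`LP_rev`).
(1) `σ*_k < σ_k` by `LP_mono_strict`: that is `σ_k σ_{n-1-k} > 1`.
(2) `σ_k < σ*_{k+1}` (`k ≤ n-2`): let `x' = (x_0,…,x_{n-2})`, `y' = (x*_1,…,x*_{n-1})`, so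
`x' < y'` pointwise.  `σ_k < υ_k` where `L(pr x') = pr υ` (`T1_interlace`, `pr x = (X+x_{n-1}) pr x'`),
`υ_k ≤ υ'_k` where `L(pr y') = pr υ'` (`LP_mono`), `υ'_k < σ*_{k+1}` (`T1_interlace`,
`pr x* = (X + x*_0) pr y'`).  So `σ_k σ_{n-2-k} < 1`.
-/

namespace BMoll

open Polynomial Finset

theorem strictMono_inv_rev {n : ℕ} {x : Fin n → ℝ} (hx : StrictMono x) (h0 : ∀ k, 0 < x k) :
    StrictMono (fun k : Fin n => 1 / x k.rev) := by
  intro i j hij
  have : x j.rev < x i.rev := hx (Fin.rev_lt_rev.mpr hij)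
  exact one_div_lt_one_div_of_lt (h0 _) this

theorem cls_L {n : ℕ} {x : Fin n → ℝ} (hx : Cls n x) :
    ∃ σ : Fin n → ℝ, Cls n σ ∧ LP (pr x) = pr σ := by
  obtain ⟨hmono, hpos, hc1, hc2⟩ := hx
  obtain ⟨σ, hσ, hσ0, hL⟩ := T1 hpos
  refine ⟨σ, ⟨hσ, hσ0, ?_, ?_⟩, hL⟩
  · -- σ*_k < σ_k
    intro i j hij
    have hj : j = i.rev := by
      ext; rw [Fin.val_rev]; omega
    have hlt : ∀ k : Fin n, 1 / x k.rev < x k := by
      intro k
      rw [div_lt_iff₀ (hpos _)]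
      exact hc1 k k.rev (by rw [Fin.val_rev]; omega)
    have h1 := LP_mono_strict (ρ := fun k : Fin n => 1 / x k.rev) (ρ' := x)
      (fun k => one_div_pos.mpr (hpos _)) hlt (strictMono_inv_rev hσ hσ0) hσ
      (LP_rev hpos hσ0 hL) hL i
    rw [div_lt_iff₀ (hσ0 _)] at h1
    rw [hj]; exact h1
  · intro i j hij
    -- `n = p + 1`, `p ≥ 1`
    obtain ⟨p, rfl⟩ : ∃ p, n = p + 1 := ⟨n - 1, by omega⟩
    have hip : (i : ℕ) < p := by omega
    -- the truncated vectors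
    set x' : Fin p → ℝ := fun k => x k.castSucc with hx'
    set y' : Fin p → ℝ := fun k => 1 / x (k.succ).rev with hy'
    have hx'0 : ∀ k, 0 < x' k := fun k => hpos _
    have hy'0 : ∀ k, 0 < y' k := fun k => one_div_pos.mpr (hpos _)
    have hle : ∀ k, x' k ≤ y' k := by
      intro k
      refine le_of_lt ?_
      simp only [hx', hy']
      rw [lt_div_iff₀ (hpos _)]
      exact hc2 k.castSucc (k.succ).rev (by
        rw [Fin.val_rev, Fin.val_succ, Fin.val_castSucc]; omega)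
    obtain ⟨υ, hυ, hυ0, hLυ⟩ := T1 hx'0
    obtain ⟨υ', hυ', hυ'0, hLυ'⟩ := T1 hy'0
    have e1 : pr x = pr (Fin.cons (x (Fin.last p)) x' : Fin (p+1) → ℝ) := by
      rw [pr_cons]
      unfold pr
      rw [Fin.prod_univ_castSucc, mul_comm]
    have e2 : pr (fun k : Fin (p+1) => 1 / x k.rev)
        = pr (Fin.cons (1 / x (Fin.last p)) y' : Fin (p+1) → ℝ) := by
      rw [pr_cons]
      unfold pr
      rw [Fin.prod_univ_succ]
      simp only [Fin.rev_zero, hy']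
    have hLs := LP_rev hpos hσ0 hL
    have i1 := (T1_interlace hx'0 (hpos (Fin.last p)) hυ hLυ hσ (by rw [← e1]; exact hL)
      ⟨i, hip⟩).1
    have i2 := (T1_interlace hy'0 (one_div_pos.mpr (hpos (Fin.last p))) hυ' hLυ'
      (strictMono_inv_rev hσ hσ0) (by rw [← e2]; exact hLs) ⟨i, hip⟩).2
    have i3 := LP_mono hx'0 hle hυ hυ' hLυ hLυ' ⟨i, hip⟩
    have c1 : (⟨i, hip⟩ : Fin p).castSucc = i := by ext; simp
    have c2 : ((⟨i, hip⟩ : Fin p).succ).rev = j := by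
      ext; rw [Fin.val_rev, Fin.val_succ]; simp only; omega
    rw [c1] at i1
    simp only [c2] at i2
    have h1 : σ i < 1 / σ j := lt_of_lt_of_le i1 i3 |>.trans i2
    rwa [lt_div_iff₀ (hσ0 _)] at h1

end BMoll
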