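import Mathlib

/-!
# MP_a93a81_co : Boros–Moll sequences, definitions
-/

namespace BMoll

open Polynomial Finset

/-- The Boros–Moll coefficient `d_i(m)`. -/
noncomputable def bm (m i : ℕ) : ℝ :=
  (∑ k ∈ Icc i m, (2:ℝ)^k * ((2*m-2*k).choose (m-k) : ℝ) * ((m+k).choose k : ℝ) *
    (k.choose i : ℝ)) / 2^(2*m)

/-- The operator `L` on sequences, `L(a)_i = a_i^2 - a_{i-1} a_{i+1}` with `a_{-1} = 0`. -/
noncomputable def Lop (a : ℕ → ℝ) (i : ℕ) : ℝ :=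
  a i ^ 2 - (if i = 0 then 0 else a (i-1)) * a (i+1)

/-- Strict ratio monotonicity of the finite sequence `a_0, …, a_n`. -/
def StrictRatioMono (n : ℕ) (a : ℕ → ℝ) : Prop :=
  (∀ i ≤ n, 0 < a i) ∧
  (∀ i, i + 1 < n / 2 → a i / a (n - 1 - i) < a (i+1) / a (n - 2 - i)) ∧
  (1 ≤ n / 2 → a (n/2 - 1) / a (n - n/2) < 1) ∧
  (∀ i, i < (n-1) / 2 → a (n - i) / a i < a (n - i - 1) / a (i+1)) ∧
  a (n - (n-1)/2) / a ((n-1)/2) < 1

/-- The operator `L` on polynomials. -/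
noncomputable def LP (p : ℝ[X]) : ℝ[X] :=
  ∑ i ∈ range (p.natDegree + 1), C (Lop p.coeff i) * X ^ i

/-- `∏ (X + x_k)`. -/
noncomputable def pr {n : ℕ} (x : Fin n → ℝ) : ℝ[X] := ∏ k, (X + C (x k))

/-- The class of admissible zero sets: `0 < x_0 < … < x_{n-1}`, `x_i x_j > 1` for `i + j = n - 1`,
`x_i x_j < 1` for `i + j = n - 2`. -/
def Cls (n : ℕ) (x : Fin n → ℝ) : Prop :=
  StrictMono x ∧ (∀ k, 0 < x k) ∧
  (∀ i j : Fin n, (i:ℕ) + j + 1 = n → 1 < x i * x j) ∧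
  (∀ i j : Fin n, (i:ℕ) + j + 2 = n → x i * x j < 1)

/-- moments of the (imaginary) semicircle law -/
noncomputable def ellm (j : ℕ) : ℝ := if Even j then (-1)^(j/2) * (catalan (j/2) : ℝ) else 0

/-- the functional `ell(X^(2q)) = (-1)^q Cat_q`, `ell(X^odd) = 0` -/
noncomputable def ell : ℝ[X] →ₗ[ℝ] ℝ := Polynomial.lsum fun j => ellm j • LinearMap.id

/-- The Narayana number `N(n+1, i+1)`. -/
noncomputable def nar (n i : ℕ) : ℝ :=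
  ((n+1).choose (i+1) : ℝ) * ((n+1).choose i : ℝ) / (n+1)

/-- `f_n(y) = N_n(-y)`, the Narayana polynomial at `-y`. -/
noncomputable def fN (n : ℕ) (y : ℝ) : ℝ := ∑ i ∈ range (n+1), nar n i * (-y)^i

/-- Liouville form: `U_n(z) = z f_n(z) (1+z)^(-n-1)`. -/
noncomputable def Uf (n : ℕ) (z : ℝ) : ℝ := z * fN n z / (1+z)^(n+1)

/-- weight of the moment representation -/
noncomputable def wt (m : ℕ) (σ : ℝ) : ℝ :=
  σ^m * (1-σ)^(-(1/2) : ℝ) * (1+σ)^(-(2*m+3/2) : ℝ)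

/-- moments -/
noncomputable def XI (m i : ℕ) : ℝ := ∫ σ in (0:ℝ)..1, σ^i * wt m σ

noncomputable def Eh (R s : ℝ) : ℝ := (1+R)^2 + (1-R)^2 * s
noncomputable def Fh (R s : ℝ) : ℝ := 4*R + (1-R)^2 * s

noncomputable def G0 (m : ℕ) (R s : ℝ) : ℝ :=
  R^(2*m+2) * (Eh R s)^(-(2*m+3/2) : ℝ) * (Fh R s)^(-(1/2) : ℝ)

noncomputable def F0 (m : ℕ) (R s : ℝ) : ℝ := (1-R)^2 * s * Fh R s / (2*R^2) * G0 m R s

/-- the operator `A = R d/dR` -/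
noncomputable def Aop (F : ℝ → ℝ) (R : ℝ) : ℝ := R * deriv F R

/-- the kernel `K = g + (2 m A f + A^2 f)/(4(m+1))` -/
noncomputable def Ks (m : ℕ) (s : ℝ) (R : ℝ) : ℝ :=
  G0 m R s + (2*m * Aop (fun r => F0 m r s) R + Aop (Aop (fun r => F0 m r s)) R) / (4*(m+1))

/-- `ρ = μ tanh a - 2`, `μ = 3m/5`, `R = e^{-a}` -/
noncomputable def rho (m : ℕ) (R : ℝ) : ℝ := (3/5) * m * (1-R^2)/(1+R^2) - 2

end BMoll
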