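import Pool.Agent.Lib.MP_a93a81_co.Beta

/-!
# Module DOUBLEA : product of moments, multiplicative convolution

`X_i X_j = ∫_0^1∫_0^1 σ₁^i σ₂^j w(σ₁) w(σ₂)`.  For fixed `σ` the substitution `τ = R²/σ`,
`0 < R < σ`, turns `∫_{τ<σ} g(τ) dτ` into `∫_{R<σ} g(R²/σ) 2R/σ dR`; Tonelli (in `lintegral`).
-/

namespace BMoll

open MeasureTheory intervalIntegral
open scoped ENNReal

theorem wt_meas (m : ℕ) : Measurable (wt m) := by
  unfold wt
  fun_prop

theorem wt_nonneg (m : ℕ) {σ : ℝ} (h0 : 0 ≤ σ) (h1 : σ ≤ 1) : 0 ≤ wt m σ := by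
  unfold wt
  have : 0 ≤ 1 - σ := by linarith
  positivity

theorem subst_sq {σ : ℝ} (hσ : 0 < σ) (g : ℝ → ℝ≥0∞) :
    ∫⁻ τ in Set.Ioo 0 σ, g τ = ∫⁻ R in Set.Ioo 0 σ, ENNReal.ofReal (2*R/σ) * g (R^2/σ) := by
  have himg : (fun R : ℝ => R^2/σ) '' Set.Ioo 0 σ = Set.Ioo 0 σ := by
    apply Set.Subset.antisymm
    · rintro _ ⟨R, hR, rfl⟩
      have h0 : 0 < R := hR.1
      refine ⟨by positivity, ?_⟩
      simp only
      rw [div_lt_iff₀ hσ]
      nlinarith [hR.2]
    · intro τ hτ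
      have h0 : 0 < τ := hτ.1
      refine ⟨√(τ * σ), ⟨Real.sqrt_pos.2 (by positivity), ?_⟩, ?_⟩
      · rw [Real.sqrt_lt' hσ]
        nlinarith [hτ.2]
      · simp only
        rw [Real.sq_sqrt (by positivity)]
        field_simp
  have hder : ∀ x ∈ Set.Ioo (0:ℝ) σ,
      HasDerivWithinAt (fun R : ℝ => R^2/σ) (2*x/σ) (Set.Ioo 0 σ) x := by
    intro x _
    have := ((hasDerivAt_id' x).fun_pow 2).div_const σ
    refine HasDerivAt.hasDerivWithinAt (this.congr_deriv ?_)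
    simp
  have hinj : Set.InjOn (fun R : ℝ => R^2/σ) (Set.Ioo 0 σ) := by
    intro a ha b hb hab
    simp only at hab
    have h1 : a^2 = b^2 := by
      field_simp at hab
      exact hab
    have ha0 : 0 < a := ha.1
    have hb0 : 0 < b := hb.1
    nlinarith [sq_nonneg (a-b)]
  have := lintegral_image_eq_lintegral_abs_deriv_mul measurableSet_Ioo hder hinj g
  rw [himg] at this
  rw [this]
  refine setLIntegral_congr_fun measurableSet_Ioo ?_
  intro R hR
  have h0 : 0 < R := hR.1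
  simp only
  rw [abs_of_nonneg (by positivity)]

/-- Tonelli and the substitution, in `lintegral` form. -/
theorem conv_half {F G : ℝ → ℝ≥0∞} (hF : Measurable F) (hG : Measurable G) :
    ∫⁻ R in Set.Ioo (0:ℝ) 1, ∫⁻ σ in Set.Ioo R 1, F σ * (ENNReal.ofReal (2*R/σ) * G (R^2/σ))
      = ∫⁻ σ in Set.Ioo (0:ℝ) 1, F σ * ∫⁻ τ in Set.Ioo 0 σ, G τ := by
  have hmeas : Measurable (fun p : ℝ × ℝ => F p.2 * (ENNReal.ofReal (2*p.1/p.2) * G (p.1^2/p.2))) := by
    fun_prop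
  have hset : MeasurableSet {p : ℝ × ℝ | p.1 < p.2} := measurableSet_lt measurable_fst measurable_snd
  have e1 : ∀ R ∈ Set.Ioo (0:ℝ) 1,
      ∫⁻ σ in Set.Ioo R 1, F σ * (ENNReal.ofReal (2*R/σ) * G (R^2/σ))
        = ∫⁻ σ in Set.Ioo (0:ℝ) 1, Set.indicator {p : ℝ × ℝ | p.1 < p.2}
          (fun p : ℝ × ℝ => F p.2 * (ENNReal.ofReal (2*p.1/p.2) * G (p.1^2/p.2))) (R, σ) := by
    intro R hR
    have e2 : (fun σ => Set.indicator {p : ℝ × ℝ | p.1 < p.2}
          (fun p : ℝ × ℝ => F p.2 * (ENNReal.ofReal (2*p.1/p.2) * G (p.1^2/p.2))) (R, σ))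
        = Set.indicator (Set.Ioi R) (fun σ => F σ * (ENNReal.ofReal (2*R/σ) * G (R^2/σ))) := by
      funext σ
      simp [Set.indicator]
    rw [e2, lintegral_indicator measurableSet_Ioi, Measure.restrict_restrict measurableSet_Ioi]
    congr 2
    ext x
    simp only [Set.mem_Ioo, Set.mem_inter_iff, Set.mem_Ioi]
    constructor
    · rintro ⟨a, b⟩; exact ⟨a, lt_trans hR.1 a, b⟩
    · rintro ⟨a, _, b⟩; exact ⟨a, b⟩
  have hm2 : Measurable (Function.uncurry fun R σ => Set.indicator {p : ℝ × ℝ | p.1 < p.2}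
          (fun p : ℝ × ℝ => F p.2 * (ENNReal.ofReal (2*p.1/p.2) * G (p.1^2/p.2))) (R, σ)) :=
    hmeas.indicator hset
  rw [setLIntegral_congr_fun measurableSet_Ioo e1, lintegral_lintegral_swap hm2.aemeasurable]
  refine setLIntegral_congr_fun measurableSet_Ioo ?_
  intro σ hσ
  simp only
  have e3 : (fun R => Set.indicator {p : ℝ × ℝ | p.1 < p.2}
          (fun p : ℝ × ℝ => F p.2 * (ENNReal.ofReal (2*p.1/p.2) * G (p.1^2/p.2))) (R, σ))
        = Set.indicator (Set.Iio σ) (fun R => F σ * (ENNReal.ofReal (2*R/σ) * G (R^2/σ))) := by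
    funext R
    simp [Set.indicator]
  rw [e3, lintegral_indicator measurableSet_Iio, Measure.restrict_restrict measurableSet_Iio]
  have e4 : Set.Iio σ ∩ Set.Ioo 0 1 = Set.Ioo 0 σ := by
    ext x
    simp only [Set.mem_Ioo, Set.mem_inter_iff, Set.mem_Iio]
    constructor
    · rintro ⟨a, b, _⟩; exact ⟨b, a⟩
    · rintro ⟨a, b⟩; exact ⟨b, a, lt_trans b hσ.2⟩
  rw [e4, lintegral_const_mul _ (by fun_prop), ← subst_sq hσ.1]

theorem conv_full {F G : ℝ → ℝ≥0∞} (hF : Measurable F) (hG : Measurable G) :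
    (∫⁻ σ in Set.Ioo (0:ℝ) 1, F σ * ∫⁻ τ in Set.Ioo 0 σ, G τ)
      + (∫⁻ σ in Set.Ioo (0:ℝ) 1, G σ * ∫⁻ τ in Set.Ioo 0 σ, F τ)
      = (∫⁻ σ in Set.Ioo (0:ℝ) 1, F σ) * (∫⁻ σ in Set.Ioo (0:ℝ) 1, G σ) := by
  -- second term: swap
  have hmeas : Measurable (fun p : ℝ × ℝ => G p.1 * F p.2) := by fun_prop
  have hset : MeasurableSet {p : ℝ × ℝ | p.2 < p.1} := measurableSet_lt measurable_snd measurable_fst
  have e1 : ∀ σ ∈ Set.Ioo (0:ℝ) 1, G σ * ∫⁻ τ in Set.Ioo 0 σ, F τ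
      = ∫⁻ τ in Set.Ioo (0:ℝ) 1, Set.indicator {p : ℝ × ℝ | p.2 < p.1}
          (fun p : ℝ × ℝ => G p.1 * F p.2) (σ, τ) := by
    intro σ hσ
    have e2 : (fun τ => Set.indicator {p : ℝ × ℝ | p.2 < p.1}
          (fun p : ℝ × ℝ => G p.1 * F p.2) (σ, τ))
        = Set.indicator (Set.Iio σ) (fun τ => G σ * F τ) := by
      funext τ
      simp [Set.indicator]
    have e4 : Set.Iio σ ∩ Set.Ioo 0 1 = Set.Ioo 0 σ := by
      ext x
      simp only [Set.mem_Ioo, Set.mem_inter_iff, Set.mem_Iio]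
      constructor
      · rintro ⟨a, b, _⟩; exact ⟨b, a⟩
      · rintro ⟨a, b⟩; exact ⟨b, a, lt_trans b hσ.2⟩
    rw [e2, lintegral_indicator measurableSet_Iio, Measure.restrict_restrict measurableSet_Iio, e4,
      lintegral_const_mul _ hF]
  have e5 : ∫⁻ σ in Set.Ioo (0:ℝ) 1, G σ * ∫⁻ τ in Set.Ioo 0 σ, F τ
      = ∫⁻ τ in Set.Ioo (0:ℝ) 1, F τ * ∫⁻ σ in Set.Ioo τ 1, G σ := by
    have hm2 : Measurable (Function.uncurry fun σ τ => Set.indicator {p : ℝ × ℝ | p.2 < p.1}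
          (fun p : ℝ × ℝ => G p.1 * F p.2) (σ, τ)) := hmeas.indicator hset
    rw [setLIntegral_congr_fun measurableSet_Ioo e1, lintegral_lintegral_swap hm2.aemeasurable]
    refine setLIntegral_congr_fun measurableSet_Ioo ?_
    intro τ hτ
    simp only
    have e2 : (fun σ => Set.indicator {p : ℝ × ℝ | p.2 < p.1}
          (fun p : ℝ × ℝ => G p.1 * F p.2) (σ, τ))
        = Set.indicator (Set.Ioi τ) (fun σ => F τ * G σ) := by
      funext σ
      simp [Set.indicator, mul_comm]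
    have e4 : Set.Ioi τ ∩ Set.Ioo 0 1 = Set.Ioo τ 1 := by
      ext x
      simp only [Set.mem_Ioo, Set.mem_inter_iff, Set.mem_Ioi]
      constructor
      · rintro ⟨a, _, b⟩; exact ⟨a, b⟩
      · rintro ⟨a, b⟩; exact ⟨a, lt_trans hτ.1 a, b⟩
    rw [e2, lintegral_indicator measurableSet_Ioi, Measure.restrict_restrict measurableSet_Ioi, e4,
      lintegral_const_mul _ hG]
  have e6 : ∀ σ ∈ Set.Ioo (0:ℝ) 1,
      F σ * (∫⁻ τ in Set.Ioo 0 σ, G τ) + F σ * (∫⁻ τ in Set.Ioo σ 1, G τ)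
        = F σ * ∫⁻ τ in Set.Ioo (0:ℝ) 1, G τ := by
    intro σ hσ
    rw [← mul_add]
    congr 1
    have hd : Disjoint (Set.Ioo 0 σ) (Set.Ioo σ 1) := by
      rw [Set.disjoint_left]
      intro x hx hx'
      exact absurd hx.2 (not_lt.2 hx'.1.le)
    rw [← lintegral_union measurableSet_Ioo hd]
    have hu : (Set.Ioo 0 σ ∪ Set.Ioo σ 1 : Set ℝ) =ᵐ[volume] Set.Ioo 0 1 := by
      have h1 : Set.Ioo (0:ℝ) 1 \ {σ} = Set.Ioo 0 σ ∪ Set.Ioo σ 1 := by
        ext x
        simp only [Set.mem_sdiff, Set.mem_Ioo, Set.mem_singleton_iff, Set.mem_union]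
        constructor
        · rintro ⟨⟨a, b⟩, c⟩
          rcases lt_or_gt_of_ne c with h | h
          · exact Or.inl ⟨a, h⟩
          · exact Or.inr ⟨h, b⟩
        · rintro (⟨a, b⟩ | ⟨a, b⟩)
          · exact ⟨⟨a, lt_trans b hσ.2⟩, b.ne⟩
          · exact ⟨⟨lt_trans hσ.1 a, b⟩, a.ne'⟩
      rw [← h1]
      exact sdiff_null_ae_eq_self (by simp)
    exact setLIntegral_congr hu
  have hGI : Measurable (fun σ : ℝ => ∫⁻ τ in Set.Ioo 0 σ, G τ) := by
    have h1 : Measurable (fun σ : ℝ => ∫⁻ τ, Set.indicator {p : ℝ × ℝ | 0 < p.2 ∧ p.2 < p.1}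
          (fun p : ℝ × ℝ => G p.2) (σ, τ)) := by
      apply Measurable.lintegral_prod_right'
      apply Measurable.indicator (by fun_prop)
      exact (measurableSet_lt measurable_const measurable_snd).inter
        (measurableSet_lt measurable_snd measurable_fst)
    convert h1 using 2 with σ
    rw [← lintegral_indicator measurableSet_Ioo]
    congr 1
  rw [e5, ← lintegral_add_left (f := fun σ => F σ * ∫⁻ τ in Set.Ioo 0 σ, G τ) (hF.mul hGI),
    setLIntegral_congr_fun measurableSet_Ioo e6,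
    lintegral_mul_const _ hF]

theorem XI_toReal (m i : ℕ) :
    XI m i = (∫⁻ σ in Set.Ioo (0:ℝ) 1, ENNReal.ofReal (σ^i * wt m σ)).toReal := by
  unfold XI
  rw [intervalIntegral.integral_of_le zero_le_one, integral_Ioc_eq_integral_Ioo,
    integral_eq_lintegral_of_nonneg_ae]
  · refine (ae_restrict_iff' measurableSet_Ioo).2 (Filter.Eventually.of_forall ?_)
    intro σ hσ
    exact mul_nonneg (pow_nonneg hσ.1.le _) (wt_nonneg m hσ.1.le hσ.2.le)
  · have := wt_meas m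
    exact (by fun_prop : Measurable fun σ => σ^i * wt m σ).aestronglyMeasurable

theorem XI_lt_top (m i : ℕ) :
    ∫⁻ σ in Set.Ioo (0:ℝ) 1, ENNReal.ofReal (σ^i * wt m σ) < ∞ := by
  have h := (wt_int m i).1
  have h2 : IntegrableOn (fun σ => σ^i * wt m σ) (Set.Ioo 0 1) volume :=
    h.mono_set Set.Ioo_subset_Ioc_self
  exact Integrable.lintegral_lt_top h2

theorem XI_mul_eq (m i j : ℕ) :
    XI m i * XI m j = ∫ R in (0:ℝ)..1, ∫ σ in R..1,
      2*R*(σ^i * (R^2/σ)^j + σ^j * (R^2/σ)^i) * (wt m σ * wt m (R^2/σ) / σ) := by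
  have hwm := wt_meas m
  set H : ℝ → ℝ → ℝ := fun R σ =>
    2*R*(σ^i * (R^2/σ)^j + σ^j * (R^2/σ)^i) * (wt m σ * wt m (R^2/σ) / σ) with hH
  have hHm : Measurable (fun p : ℝ × ℝ => H p.1 p.2) := by
    simp only [hH]
    fun_prop
  set F : ℝ → ℝ≥0∞ := fun σ => ENNReal.ofReal (σ^i * wt m σ) with hF
  set G : ℝ → ℝ≥0∞ := fun σ => ENNReal.ofReal (σ^j * wt m σ) with hG
  have hFm : Measurable F := by simp only [hF]; fun_prop
  have hGm : Measurable G := by simp only [hG]; fun_prop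
  have hdec : ∀ R ∈ Set.Ioo (0:ℝ) 1, ∀ σ ∈ Set.Ioo R 1, ENNReal.ofReal (H R σ)
      = F σ * (ENNReal.ofReal (2*R/σ) * G (R^2/σ))
        + G σ * (ENNReal.ofReal (2*R/σ) * F (R^2/σ)) := by
    intro R hR σ hσ
    have hR0 : 0 < R := hR.1
    have hσ0 : 0 < σ := lt_trans hR0 hσ.1
    have hq : R^2/σ < 1 := by
      rw [div_lt_one hσ0]; nlinarith [hσ.1, hσ.2]
    have hq0 : 0 < R^2/σ := by positivity
    have w1 := wt_nonneg m hσ0.le hσ.2.le
    have w2 := wt_nonneg m hq0.le hq.le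
    simp only [hF, hG]
    rw [← ENNReal.ofReal_mul (by positivity), ← ENNReal.ofReal_mul (by positivity),
      ← ENNReal.ofReal_mul (by positivity), ← ENNReal.ofReal_mul (by positivity),
      ← ENNReal.ofReal_add (by positivity) (by positivity)]
    congr 1
    simp only [hH]
    ring
  have hHnn : ∀ R ∈ Set.Ioo (0:ℝ) 1, ∀ σ ∈ Set.Ioo R 1, 0 ≤ H R σ := by
    intro R hR σ hσ
    have hR0 : 0 < R := hR.1
    have hσ0 : 0 < σ := lt_trans hR0 hσ.1
    have hq : R^2/σ < 1 := by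
      rw [div_lt_one hσ0]; nlinarith [hσ.1, hσ.2]
    have hq0 : 0 < R^2/σ := by positivity
    have w1 := wt_nonneg m hσ0.le hσ.2.le
    have w2 := wt_nonneg m hq0.le hq.le
    simp only [hH]
    positivity
  set I : ℝ → ℝ≥0∞ := fun R => ∫⁻ σ, Set.indicator {p : ℝ × ℝ | p.1 < p.2 ∧ p.2 < 1}
      (fun p : ℝ × ℝ => ENNReal.ofReal (H p.1 p.2)) (R, σ) with hI
  have hIm : Measurable I := by
    apply Measurable.lintegral_prod_right'
    apply Measurable.indicator (by fun_prop)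
    exact (measurableSet_lt measurable_fst measurable_snd).inter
      (measurableSet_lt measurable_snd measurable_const)
  have hIe : ∀ R, I R = ∫⁻ σ in Set.Ioo R 1, ENNReal.ofReal (H R σ) := by
    intro R
    rw [← lintegral_indicator measurableSet_Ioo]
    simp only [hI]
    congr 1
  have hIR : ∀ R ∈ Set.Ioo (0:ℝ) 1, I R =
      (∫⁻ σ in Set.Ioo R 1, F σ * (ENNReal.ofReal (2*R/σ) * G (R^2/σ)))
        + ∫⁻ σ in Set.Ioo R 1, G σ * (ENNReal.ofReal (2*R/σ) * F (R^2/σ)) := by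
    intro R hR
    rw [hIe R, setLIntegral_congr_fun measurableSet_Ioo (hdec R hR), lintegral_add_left]
    fun_prop
  have hcm : Measurable (fun R : ℝ => ∫⁻ σ in Set.Ioo R 1,
      F σ * (ENNReal.ofReal (2*R/σ) * G (R^2/σ))) := by
    have h1 : Measurable (fun R : ℝ => ∫⁻ σ, Set.indicator {p : ℝ × ℝ | p.1 < p.2 ∧ p.2 < 1}
          (fun p : ℝ × ℝ => F p.2 * (ENNReal.ofReal (2*p.1/p.2) * G (p.1^2/p.2))) (R, σ)) := by
      apply Measurable.lintegral_prod_right'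
      apply Measurable.indicator (by fun_prop)
      exact (measurableSet_lt measurable_fst measurable_snd).inter
        (measurableSet_lt measurable_snd measurable_const)
    convert h1 using 2 with R
    rw [← lintegral_indicator measurableSet_Ioo]
    congr 1
  have htot : ∫⁻ R in Set.Ioo (0:ℝ) 1, I R
      = (∫⁻ σ in Set.Ioo (0:ℝ) 1, F σ) * (∫⁻ σ in Set.Ioo (0:ℝ) 1, G σ) := by
    rw [setLIntegral_congr_fun measurableSet_Ioo hIR, lintegral_add_left hcm,
      conv_half hFm hGm, conv_half hGm hFm, conv_full hFm hGm]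
  have hfin : ∫⁻ R in Set.Ioo (0:ℝ) 1, I R ≠ ∞ := by
    rw [htot]
    exact ENNReal.mul_ne_top (XI_lt_top m i).ne (XI_lt_top m j).ne
  have hout : ∫ R in (0:ℝ)..1, ∫ σ in R..1, H R σ = ∫ R in Set.Ioo (0:ℝ) 1, (I R).toReal := by
    rw [intervalIntegral.integral_of_le zero_le_one, integral_Ioc_eq_integral_Ioo]
    refine setIntegral_congr_fun measurableSet_Ioo ?_
    intro R hR
    simp only
    rw [intervalIntegral.integral_of_le hR.2.le, integral_Ioc_eq_integral_Ioo,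
      integral_eq_lintegral_of_nonneg_ae, hIe R]
    · exact (ae_restrict_iff' measurableSet_Ioo).2 (Filter.Eventually.of_forall (hHnn R hR))
    · exact (hHm.comp measurable_prodMk_left).aestronglyMeasurable
  rw [hout, integral_toReal hIm.aemeasurable (ae_lt_top hIm hfin), htot, ENNReal.toReal_mul,
    XI_toReal, XI_toReal]

end BMoll
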