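import Pool.Agent.Lib.MP_a93a81_co.Defs

/-!
# Module DOUBLEB : substitution `s = (σ-R)²/(σ(1-R)²)`

For fixed `0 < R < 1`, `σ ∈ (R,1) ↦ s ∈ (0,1)` is an increasing bijection,
`ds/dσ = (1 - R²/σ²)/(1-R)²`.  Identities:
`(σ+R)²/σ = 4R + (1-R)² s = Fh R s`, `(1+σ)(σ+R²)/σ = (1+R)² + (1-R)² s = Eh R s`,
`(1-σ)(σ-R²)/σ = (1-R)² (1-s)`, `(σ - R²/σ)² = (1-R)² s Fh R s`, hence
`dσ/σ = (1-R) ds / (√s √Fh)`, `w(σ) w(R²/σ) = R^{2m} [(1-R)²(1-s)]^{-1/2} Eh^{-(2m+3/2)}`.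
-/

namespace BMoll

open MeasureTheory intervalIntegral

/-- the substitution -/
noncomputable def sB (R σ : ℝ) : ℝ := (σ - R)^2 / (σ * (1-R)^2)

theorem rpow_neg_half {x : ℝ} (hx : 0 ≤ x) : x ^ (-(1/2) : ℝ) = (√x)⁻¹ := by
  rw [Real.rpow_neg hx, Real.sqrt_eq_rpow]

theorem sB_deriv {R σ : ℝ} (hR1 : R < 1) (hσ : 0 < σ) :
    HasDerivAt (sB R) ((1 - R^2/σ^2)/(1-R)^2) σ := by
  have h1 : (1-R) ≠ 0 := by linarith
  have h2 : HasDerivAt (fun σ : ℝ => (σ - R)^2) (2*(σ-R)) σ := by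
    have := ((hasDerivAt_id' σ).sub_const R).fun_pow 2
    simpa using this
  have h3 : HasDerivAt (fun σ : ℝ => σ * (1-R)^2) ((1-R)^2) σ := by
    simpa using (hasDerivAt_id σ).mul_const ((1-R)^2)
  have h4 := h2.div h3 (by positivity)
  refine h4.congr_deriv ?_
  field_simp
  ring

theorem sB_strictMono {R : ℝ} (hR : 0 < R) (hR1 : R < 1) : StrictMonoOn (sB R) (Set.Icc R 1) := by
  have h1 : 0 < 1 - R := by linarith
  intro a ha b hb hab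
  have ha0 : 0 < a := lt_of_lt_of_le hR ha.1
  have hb0 : 0 < b := lt_of_lt_of_le hR hb.1
  unfold sB
  rw [div_lt_div_iff₀ (by positivity) (by positivity)]
  have key : (b - R)^2 * a - (a-R)^2 * b = (b - a) * (a*b - R^2) := by ring
  have h2 : 0 < a*b - R^2 := by
    have : R < b := lt_of_le_of_lt ha.1 hab
    nlinarith [ha.1]
  have h3 : 0 < (b - R)^2 * a - (a-R)^2 * b := by rw [key]; exact mul_pos (by linarith) h2
  have h4 : 0 < (1-R)^2 := by positivity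
  nlinarith [mul_pos h3 h4]

theorem sB_image {R : ℝ} (hR : 0 < R) (hR1 : R < 1) : sB R '' Set.Ioo R 1 = Set.Ioo 0 1 := by
  have h1 : 0 < 1 - R := by linarith
  have hmono := sB_strictMono hR hR1
  have hz : sB R R = 0 := by simp [sB]
  have ho : sB R 1 = 1 := by
    unfold sB; rw [one_mul]; exact div_self (by positivity)
  apply Set.Subset.antisymm
  · rintro _ ⟨x, hx, rfl⟩
    constructor
    · rw [← hz]; exact hmono ⟨le_refl _, hR1.le⟩ ⟨hx.1.le, hx.2.le⟩ hx.1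
    · rw [← ho]; exact hmono ⟨hx.1.le, hx.2.le⟩ ⟨hR1.le, le_refl _⟩ hx.2
  · have hc : ContinuousOn (sB R) (Set.Icc R 1) := by
      intro x hx
      exact (sB_deriv hR1 (lt_of_lt_of_le hR hx.1)).continuousAt.continuousWithinAt
    have := intermediate_value_Ioo hR1.le hc
    rwa [hz, ho] at this

theorem subst_s (m : ℕ) {R : ℝ} (hR : 0 < R) (hR1 : R < 1) {ψ : ℝ → ℝ} (hψ : Continuous ψ) :
    ∫ σ in R..1, wt m σ * wt m (R^2/σ) / σ * ψ ((σ - R^2/σ)^2)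
      = ∫ s in (0:ℝ)..1, R^(2*m) * (Eh R s)^(-(2*m+3/2) : ℝ) * (Fh R s)^(-(1/2) : ℝ)
          * (s*(1-s))^(-(1/2) : ℝ) * ψ ((1-R)^2 * s * Fh R s) := by
  have h1 : 0 < 1 - R := by linarith
  rw [intervalIntegral.integral_of_le hR1.le, intervalIntegral.integral_of_le zero_le_one,
    integral_Ioc_eq_integral_Ioo, integral_Ioc_eq_integral_Ioo, ← sB_image hR hR1,
    integral_image_eq_integral_abs_deriv_smul measurableSet_Ioo
      (fun x hx => (sB_deriv hR1 (lt_trans hR hx.1)).hasDerivWithinAt)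
      ((sB_strictMono hR hR1).injOn.mono Set.Ioo_subset_Icc_self)]
  refine setIntegral_congr_fun measurableSet_Ioo ?_
  intro σ hσ
  have hσ0 : 0 < σ := lt_trans hR hσ.1
  have hσ1 : σ < 1 := hσ.2
  have hs : sB R σ ∈ Set.Ioo (0:ℝ) 1 := by rw [← sB_image hR hR1]; exact ⟨σ, hσ, rfl⟩
  have hs0 : 0 < sB R σ := hs.1
  have hs1 : sB R σ < 1 := hs.2
  have hq1 : R^2/σ < 1 := by
    rw [div_lt_one hσ0]; nlinarith [hσ.1]
  have hq0 : 0 < R^2/σ := by positivity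
  have hq2 : R^2/σ < σ := by
    rw [div_lt_iff₀ hσ0]; nlinarith [hσ.1]
  -- identities
  have iF : (σ+R)^2/σ = Fh R (sB R σ) := by
    unfold Fh sB; field_simp; ring
  have iE : (1+σ)*(1+R^2/σ) = Eh R (sB R σ) := by
    unfold Eh sB; field_simp; ring
  have i1 : (1-σ)*(1-R^2/σ) = (1-R)^2*(1 - sB R σ) := by
    unfold sB; field_simp; ring
  have i2 : (σ - R^2/σ)^2 = (1-R)^2 * sB R σ * Fh R (sB R σ) := by
    rw [← iF]; unfold sB; field_simp; ring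
  have hF : 0 < Fh R (sB R σ) := by rw [← iF]; positivity
  have hE : 0 < Eh R (sB R σ) := by rw [← iE]; positivity
  have hroot : σ - R^2/σ = (1-R) * √(sB R σ) * √(Fh R (sB R σ)) := by
    have : √((σ - R^2/σ)^2) = √((1-R)^2 * sB R σ * Fh R (sB R σ)) := by rw [i2]
    rw [Real.sqrt_sq (by linarith), Real.sqrt_mul (by positivity), Real.sqrt_mul (by positivity),
      Real.sqrt_sq h1.le] at this
    exact this
  have hder : (1 - R^2/σ^2)/(1-R)^2 = √(sB R σ) * √(Fh R (sB R σ)) / (σ * (1-R)) := by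
    have e : (1 - R^2/σ^2)/(1-R)^2 = (σ - R^2/σ)/(σ * (1-R)^2) := by field_simp
    rw [e, hroot]; field_simp
  have hdpos : 0 ≤ (1 - R^2/σ^2)/(1-R)^2 := by rw [hder]; positivity
  have hw : wt m σ * wt m (R^2/σ) = R^(2*m) * (Eh R (sB R σ))^(-(2*m+3/2) : ℝ)
      * ((1-R)⁻¹ * (√(1 - sB R σ))⁻¹) := by
    have e1 : σ^m * (R^2/σ)^m = R^(2*m) := by
      rw [← mul_pow, pow_mul]; congr 1; field_simp
    have e2 : (1-σ)^(-(1/2) : ℝ) * (1-R^2/σ)^(-(1/2) : ℝ) = (1-R)⁻¹ * (√(1 - sB R σ))⁻¹ := by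
      rw [← Real.mul_rpow (by linarith) (by linarith), i1, rpow_neg_half
        (mul_nonneg (by positivity) (by linarith)), Real.sqrt_mul (by positivity),
        Real.sqrt_sq h1.le, mul_inv]
    have e3 : (1+σ)^(-(2*m+3/2) : ℝ) * (1+R^2/σ)^(-(2*m+3/2) : ℝ)
        = (Eh R (sB R σ))^(-(2*m+3/2) : ℝ) := by
      rw [← Real.mul_rpow (by linarith) (by linarith), iE]
    unfold wt
    calc σ^m * (1-σ)^(-(1/2) : ℝ) * (1+σ)^(-(2*m+3/2) : ℝ) *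
        ((R^2/σ)^m * (1-R^2/σ)^(-(1/2) : ℝ) * (1+R^2/σ)^(-(2*m+3/2) : ℝ))
        = (σ^m * (R^2/σ)^m) * ((1+σ)^(-(2*m+3/2) : ℝ) * (1+R^2/σ)^(-(2*m+3/2) : ℝ)) *
          ((1-σ)^(-(1/2) : ℝ) * (1-R^2/σ)^(-(1/2) : ℝ)) := by ring
      _ = _ := by rw [e1, e2, e3]
  have hs12 : (sB R σ * (1 - sB R σ))^(-(1/2) : ℝ)
      = (√(sB R σ))⁻¹ * (√(1 - sB R σ))⁻¹ := by
    rw [rpow_neg_half (mul_nonneg hs0.le (by linarith)), Real.sqrt_mul hs0.le, mul_inv]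
  simp only [smul_eq_mul]
  rw [abs_of_nonneg hdpos, hder, hw, hs12, rpow_neg_half hF.le, i2]
  have hsq : √(sB R σ) ≠ 0 := (Real.sqrt_pos.2 hs0).ne'
  have hFq : √(Fh R (sB R σ)) ≠ 0 := (Real.sqrt_pos.2 hF).ne'
  field_simp

end BMoll
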