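import Pool.Agent.Lib.MP_a93a81_co.DoubleA
import Pool.Agent.Lib.MP_a93a81_co.DoubleB

/-!
# Module DOUBLEINT : assembly of DOUBLEA and DOUBLEB
-/

namespace BMoll

open MeasureTheory intervalIntegral Set

theorem wS_nonneg (s : ℝ) (hs : 0 < s) (hs1 : s ≤ 1) : 0 ≤ (s*(1-s))^(-(1/2) : ℝ) :=
  Real.rpow_nonneg (mul_nonneg hs.le (by linarith)) _

theorem wS_bound (s : ℝ) (hs : 0 < s) (hs1 : s ≤ 1) :
    (s*(1-s))^(-(1/2) : ℝ) ≤ 2 * (s^(-(1/2):ℝ) + (1-s)^(-(1/2):ℝ)) := by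
  have h1s : 0 ≤ 1 - s := by linarith
  have hA : 0 ≤ s^(-(1/2):ℝ) := Real.rpow_nonneg hs.le _
  have hB : 0 ≤ (1-s)^(-(1/2):ℝ) := Real.rpow_nonneg h1s _
  rw [Real.mul_rpow hs.le h1s]
  have h4 : ((1:ℝ)/4)^(-(1/2):ℝ) = 2 := by
    rw [show ((1:ℝ)/4) = (2:ℝ)^(-2:ℝ) by
      rw [Real.rpow_neg (by norm_num)]; norm_num, ← Real.rpow_mul (by norm_num)]
    norm_num
  rcases le_total s (1/2) with h | h
  · have : (1-s)^(-(1/2):ℝ) ≤ 2 :=
      (Real.rpow_le_rpow_of_nonpos (show (0:ℝ) < 1/4 by norm_num) (by linarith)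
        (show (-(1/2):ℝ) ≤ 0 by norm_num)).trans_eq h4
    nlinarith
  · have : s^(-(1/2):ℝ) ≤ 2 :=
      (Real.rpow_le_rpow_of_nonpos (show (0:ℝ) < 1/4 by norm_num) (by linarith)
        (show (-(1/2):ℝ) ≤ 0 by norm_num)).trans_eq h4
    nlinarith

theorem wS_meas : Measurable (fun s : ℝ => (s*(1-s))^(-(1/2) : ℝ)) := by
  fun_prop

theorem wS_int : IntegrableOn (fun s : ℝ => (s*(1-s))^(-(1/2) : ℝ)) (Ioc 0 1) := by
  have h1 : IntervalIntegrable (fun s : ℝ => s^(-(1/2):ℝ)) volume 0 1 :=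
    intervalIntegral.intervalIntegrable_rpow' (by norm_num)
  have h2 : IntervalIntegrable (fun s : ℝ => (1-s)^(-(1/2):ℝ)) volume 0 1 := by
    have := h1.comp_sub_left 1
    simpa using this.symm
  have h3 := ((h1.add h2).const_mul 2)
  rw [intervalIntegrable_iff_integrableOn_Ioc_of_le zero_le_one] at h3
  refine Integrable.mono' h3 wS_meas.aestronglyMeasurable ?_
  refine (ae_restrict_iff' measurableSet_Ioc).2 (Filter.Eventually.of_forall ?_)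
  intro s hs
  rw [Real.norm_of_nonneg (wS_nonneg s hs.1 hs.2)]
  simpa using wS_bound s hs.1 hs.2

/-- general swap -/
theorem wS_prod {H : ℝ → ℝ → ℝ} (hm : Measurable (Function.uncurry H)) {M : ℝ}
    (hb : ∀ R ∈ Ioc (0:ℝ) 1, ∀ s ∈ Ioc (0:ℝ) 1, |H R s| ≤ M) :
    IntegrableOn (Function.uncurry fun R s => (s*(1-s))^(-(1/2) : ℝ) * H R s)
      (Ioc 0 1 ×ˢ Ioc 0 1) := by
  have h0 : Integrable (fun z : ℝ × ℝ => M * (z.2*(1-z.2))^(-(1/2) : ℝ))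
      ((volume.restrict (Ioc 0 1)).prod (volume.restrict (Ioc 0 1))) := by
    have hc : Integrable (fun _ : ℝ => M) (volume.restrict (Ioc (0:ℝ) 1)) :=
      integrable_const M
    exact hc.mul_prod wS_int
  rw [IntegrableOn, Measure.volume_eq_prod, ← Measure.prod_restrict]
  refine Integrable.mono' h0 ?_ ?_
  · exact ((wS_meas.comp measurable_snd).mul hm).aestronglyMeasurable
  · rw [Measure.prod_restrict]
    refine (ae_restrict_iff' (measurableSet_Ioc.prod measurableSet_Ioc)).2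
      (Filter.Eventually.of_forall ?_)
    rintro ⟨R, s⟩ ⟨hR, hs⟩
    simp only [Function.uncurry_apply_pair]
    rw [norm_mul, Real.norm_of_nonneg (wS_nonneg s hs.1 hs.2), mul_comm]
    exact mul_le_mul_of_nonneg_right (hb R hR s hs) (wS_nonneg s hs.1 hs.2)

theorem wS_swap {H : ℝ → ℝ → ℝ} (hm : Measurable (Function.uncurry H)) {M : ℝ}
    (hb : ∀ R ∈ Ioc (0:ℝ) 1, ∀ s ∈ Ioc (0:ℝ) 1, |H R s| ≤ M) :
    ∫ R in (0:ℝ)..1, ∫ s in (0:ℝ)..1, (s*(1-s))^(-(1/2) : ℝ) * H R s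
      = ∫ s in (0:ℝ)..1, (s*(1-s))^(-(1/2) : ℝ) * ∫ R in (0:ℝ)..1, H R s := by
  rw [intervalIntegral_intervalIntegral_swap]
  · simp_rw [intervalIntegral.integral_const_mul]
  · rw [uIoc_of_le zero_le_one]
    exact wS_prod hm hb

theorem wS_inner {H : ℝ → ℝ → ℝ} (hm : Measurable (Function.uncurry H)) {M : ℝ}
    (hb : ∀ R ∈ Ioc (0:ℝ) 1, ∀ s ∈ Ioc (0:ℝ) 1, |H R s| ≤ M) :
    IntervalIntegrable (fun s => (s*(1-s))^(-(1/2) : ℝ) * ∫ R in (0:ℝ)..1, H R s)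
      volume 0 1 := by
  have h := wS_prod hm hb
  rw [IntegrableOn, Measure.volume_eq_prod, ← Measure.prod_restrict] at h
  have h2 := h.integral_prod_right
  rw [intervalIntegrable_iff_integrableOn_Ioc_of_le zero_le_one]
  refine h2.congr (Filter.Eventually.of_forall ?_)
  intro s
  simp only [Function.uncurry_apply_pair]
  rw [MeasureTheory.integral_const_mul, intervalIntegral.integral_of_le zero_le_one]

/-- `g R^{2i-1}` without the singularity -/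
noncomputable def HG (m i : ℕ) (R s : ℝ) : ℝ :=
  R^(2*i+2*m+1) * (Eh R s)^(-(2*m+3/2) : ℝ) * (Fh R s)^(-(1/2) : ℝ)

/-- `f R^{2i-1}` without the singularity -/
noncomputable def HF (m i : ℕ) (R s : ℝ) : ℝ :=
  1/2 * (1-R)^2 * s * (R^(2*i+2*m-1) * (Eh R s)^(-(2*m+3/2) : ℝ) * (Fh R s)^((1/2) : ℝ))

theorem HG_eq (m i : ℕ) {R s : ℝ} : R^(2*i) * G0 m R s / R = HG m i R s := by
  unfold HG G0
  rcases eq_or_ne R 0 with h | h
  · subst h; simp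
  · field_simp
    ring

theorem Eh_one_le {R s : ℝ} (hR : 0 ≤ R) (hs : 0 ≤ s) : 1 ≤ Eh R s := by
  unfold Eh
  nlinarith [mul_nonneg (sq_nonneg (1-R)) hs]

theorem Fh_ge {R s : ℝ} (hs : 0 ≤ s) : 4*R ≤ Fh R s := by
  unfold Fh
  nlinarith [mul_nonneg (sq_nonneg (1-R)) hs]

theorem HF_eq (m i : ℕ) (hm : 1 ≤ m) {R s : ℝ} (hR : 0 ≤ R) (hs : 0 ≤ s) :
    R^(2*i) * F0 m R s / R = HF m i R s := by
  unfold HF F0 G0
  rcases eq_or_ne R 0 with h | h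
  · subst h
    have : 2*i+2*m-1 ≠ 0 := by omega
    simp [this]
  · have hRp : 0 < R := lt_of_le_of_ne hR (Ne.symm h)
    have hF : 0 < Fh R s := lt_of_lt_of_le (by linarith) (Fh_ge hs)
    obtain ⟨m, rfl⟩ : ∃ k, m = k + 1 := ⟨m - 1, by omega⟩
    have e1 : 2*i+2*(m+1)-1 = 2*i+2*m+1 := by omega
    rw [e1]
    have e2 : (Fh R s)^((1/2) : ℝ) = Fh R s * (Fh R s)^(-(1/2) : ℝ) := by
      nth_rewrite 2 [← Real.rpow_one (Fh R s)]
      rw [← Real.rpow_add hF]; norm_num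
    rw [e2]
    field_simp
    ring

theorem Fh_le {R s : ℝ} (hR : 0 ≤ R) (hR1 : R ≤ 1) (hs1 : s ≤ 1) : Fh R s ≤ 4 := by
  unfold Fh
  nlinarith [mul_nonneg (sq_nonneg (1-R)) (sub_nonneg.2 hs1), mul_nonneg hR (sub_nonneg.2 hR1)]

theorem HG_bound (m i : ℕ) {R s : ℝ} (hR : R ∈ Ioc (0:ℝ) 1) (hs : s ∈ Ioc (0:ℝ) 1) :
    |HG m i R s| ≤ 1 := by
  have hF : 4 * R ≤ Fh R s := Fh_ge hs.1.le
  have hFp : 0 < Fh R s := lt_of_lt_of_le (by linarith [hR.1]) hF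
  have hE : 1 ≤ Eh R s := Eh_one_le hR.1.le hs.1.le
  have e1 : (Eh R s)^(-(2*m+3/2) : ℝ) ≤ 1 :=
    Real.rpow_le_one_of_one_le_of_nonpos hE (by
      have : (0:ℝ) ≤ m := Nat.cast_nonneg m
      linarith)
  have e2 : (Fh R s)^(-(1/2) : ℝ) ≤ R^(-(1/2) : ℝ) :=
    Real.rpow_le_rpow_of_nonpos hR.1 (by linarith [hR.1]) (by norm_num)
  have e1' : 0 ≤ (Eh R s)^(-(2*m+3/2) : ℝ) := Real.rpow_nonneg (by linarith) _
  have e2' : 0 ≤ (Fh R s)^(-(1/2) : ℝ) := Real.rpow_nonneg hFp.le _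
  have e3 : R^(2*i+2*m+1) ≤ R := by
    have := pow_le_pow_of_le_one hR.1.le hR.2 (show 1 ≤ 2*i+2*m+1 by omega)
    simpa using this
  have e3' : 0 ≤ R^(2*i+2*m+1) := pow_nonneg hR.1.le _
  have e4 : R * R^(-(1/2) : ℝ) = R^((1/2):ℝ) := by
    nth_rewrite 1 [← Real.rpow_one R]
    rw [← Real.rpow_add hR.1]; norm_num
  have e5 : R^((1/2):ℝ) ≤ 1 := Real.rpow_le_one hR.1.le hR.2 (by norm_num)
  unfold HG
  rw [abs_of_nonneg (by positivity)]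
  calc R^(2*i+2*m+1) * (Eh R s)^(-(2*m+3/2) : ℝ) * (Fh R s)^(-(1/2) : ℝ)
      ≤ R * 1 * R^(-(1/2) : ℝ) := by
        have := hR.1.le
        gcongr
    _ ≤ 1 := by rw [mul_one, e4]; exact e5

theorem HF_bound (m i : ℕ) {R s : ℝ} (hR : R ∈ Ioc (0:ℝ) 1) (hs : s ∈ Ioc (0:ℝ) 1) :
    |HF m i R s| ≤ 1 := by
  have hF : 4 * R ≤ Fh R s := Fh_ge hs.1.le
  have hFp : 0 < Fh R s := lt_of_lt_of_le (by linarith [hR.1]) hF
  have hE : 1 ≤ Eh R s := Eh_one_le hR.1.le hs.1.le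
  have e1 : (Eh R s)^(-(2*m+3/2) : ℝ) ≤ 1 :=
    Real.rpow_le_one_of_one_le_of_nonpos hE (by
      have : (0:ℝ) ≤ m := Nat.cast_nonneg m
      linarith)
  have e1' : 0 ≤ (Eh R s)^(-(2*m+3/2) : ℝ) := Real.rpow_nonneg (by linarith) _
  have h4 : (4:ℝ)^((1/2):ℝ) = 2 := by
    rw [show (4:ℝ) = (2:ℝ)^(2:ℝ) by norm_num, ← Real.rpow_mul (by norm_num)]
    norm_num
  have e2 : (Fh R s)^((1/2) : ℝ) ≤ 2 :=
    (Real.rpow_le_rpow hFp.le (Fh_le hR.1.le hR.2 hs.2)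
      (show (0:ℝ) ≤ 1/2 by norm_num)).trans_eq h4
  have e2' : 0 ≤ (Fh R s)^((1/2) : ℝ) := Real.rpow_nonneg hFp.le _
  have e3 : R^(2*i+2*m-1) ≤ 1 := pow_le_one₀ hR.1.le hR.2
  have e3' : 0 ≤ R^(2*i+2*m-1) := pow_nonneg hR.1.le _
  have e6 : (1-R)^2 ≤ 1 := by nlinarith [hR.1, hR.2]
  have hs0 := hs.1.le
  unfold HF
  rw [abs_of_nonneg (by positivity)]
  calc 1/2 * (1-R)^2 * s * (R^(2*i+2*m-1) * (Eh R s)^(-(2*m+3/2) : ℝ) * (Fh R s)^((1/2) : ℝ))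
      ≤ 1/2 * 1 * 1 * (1 * 1 * 2) := by
        gcongr
        exact hs.2
    _ = 1 := by norm_num

theorem HG_meas (m i : ℕ) : Measurable (Function.uncurry (HG m i)) := by
  unfold HG Eh Fh Function.uncurry
  fun_prop

theorem HF_meas (m i : ℕ) : Measurable (Function.uncurry (HF m i)) := by
  unfold HF Eh Fh Function.uncurry
  fun_prop

/-- the outer integrand with `G0` is integrable -/
theorem G0_outer (m i : ℕ) : IntervalIntegrable (fun s => (s*(1-s))^(-(1/2) : ℝ) *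
    ∫ R in (0:ℝ)..1, R^(2*i) * G0 m R s / R) volume 0 1 := by
  simp_rw [HG_eq]
  exact wS_inner (HG_meas m i) (fun R hR s hs => HG_bound m i hR hs)

theorem F0_inner (m i : ℕ) (hm : 1 ≤ m) {s : ℝ} (hs : 0 ≤ s) :
    ∫ R in (0:ℝ)..1, R^(2*i) * F0 m R s / R = ∫ R in (0:ℝ)..1, HF m i R s := by
  refine intervalIntegral.integral_congr fun R hR => ?_
  rw [uIcc_of_le zero_le_one] at hR
  exact HF_eq m i hm hR.1 hs

/-- the outer integrand with `F0` is integrable -/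
theorem F0_outer (m i : ℕ) (hm : 1 ≤ m) : IntervalIntegrable (fun s => (s*(1-s))^(-(1/2) : ℝ) *
    ∫ R in (0:ℝ)..1, R^(2*i) * F0 m R s / R) volume 0 1 := by
  have h := wS_inner (HF_meas m i) (fun R hR s hs => HF_bound m i hR hs)
  refine h.congr ?_
  rw [uIoc_of_le zero_le_one]
  intro s hs
  simp only
  rw [F0_inner m i hm hs.1.le]

theorem Ioo_ae : ∀ᵐ R : ℝ, R ∈ Set.uIoc (0:ℝ) 1 → R ∈ Ioo (0:ℝ) 1 := by
  have : ∀ᵐ R : ℝ, R ≠ 1 := by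
    rw [ae_iff]; simp
  filter_upwards [this] with R h1 hR
  rw [uIoc_of_le zero_le_one] at hR
  exact ⟨hR.1, lt_of_le_of_ne hR.2 h1⟩

theorem XI_sq (m i : ℕ) :
    XI m i ^ 2 = 4 * ∫ s in (0:ℝ)..1, (s*(1-s))^(-(1/2) : ℝ) *
      ∫ R in (0:ℝ)..1, R^(2*i) * G0 m R s / R := by
  simp_rw [HG_eq]
  rw [← wS_swap (HG_meas m i) (fun R hR s hs => HG_bound m i hR hs), pow_two, XI_mul_eq,
    ← intervalIntegral.integral_const_mul]
  refine intervalIntegral.integral_congr_ae ?_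
  filter_upwards [Ioo_ae] with R h1 hR
  obtain ⟨hR0, hR1⟩ := h1 hR
  have key := subst_s m hR0 hR1 (ψ := fun _ => 1) continuous_const
  simp only [mul_one] at key
  have e1 : ∫ σ in R..1, 2*R*(σ^i * (R^2/σ)^i + σ^i * (R^2/σ)^i) * (wt m σ * wt m (R^2/σ) / σ)
      = ∫ σ in R..1, 4 * R^(2*i+1) * (wt m σ * wt m (R^2/σ) / σ) := by
    refine intervalIntegral.integral_congr fun σ hσ => ?_
    rw [uIcc_of_le hR1.le] at hσ
    have hσ0 : σ ≠ 0 := (lt_of_lt_of_le hR0 hσ.1).ne'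
    congr 1
    rw [← mul_pow, mul_div_cancel₀ _ hσ0]
    ring
  rw [e1, intervalIntegral.integral_const_mul, key, ← intervalIntegral.integral_const_mul,
    ← intervalIntegral.integral_const_mul]
  refine intervalIntegral.integral_congr fun s hs => ?_
  simp only [HG]
  ring

theorem XI_mul (m i : ℕ) (hm : 1 ≤ m) (hi : 1 ≤ i) :
    XI m (i-1) * XI m (i+1) = 4 * ∫ s in (0:ℝ)..1, (s*(1-s))^(-(1/2) : ℝ) *
      ∫ R in (0:ℝ)..1, R^(2*i) * (G0 m R s + F0 m R s) / R := by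
  have e0 : ∫ s in (0:ℝ)..1, (s*(1-s))^(-(1/2) : ℝ) *
      ∫ R in (0:ℝ)..1, R^(2*i) * (G0 m R s + F0 m R s) / R
      = ∫ s in (0:ℝ)..1, (s*(1-s))^(-(1/2) : ℝ) *
      ∫ R in (0:ℝ)..1, (fun R s => HG m i R s + HF m i R s) R s := by
    refine intervalIntegral.integral_congr fun s hs => ?_
    rw [uIcc_of_le zero_le_one] at hs
    congr 1
    refine intervalIntegral.integral_congr fun R hR => ?_
    rw [uIcc_of_le zero_le_one] at hR
    beta_reduce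
    rw [← HG_eq, ← HF_eq m i hm hR.1 hs.1]
    ring
  have hmeas : Measurable (Function.uncurry fun R s => HG m i R s + HF m i R s) :=
    (HG_meas m i).add (HF_meas m i)
  have hbd : ∀ R ∈ Ioc (0:ℝ) 1, ∀ s ∈ Ioc (0:ℝ) 1, |HG m i R s + HF m i R s| ≤ 1 + 1 :=
    fun R hR s hs => (abs_add_le _ _).trans (add_le_add (HG_bound m i hR hs) (HF_bound m i hR hs))
  rw [e0, ← wS_swap hmeas hbd, XI_mul_eq, ← intervalIntegral.integral_const_mul]
  refine intervalIntegral.integral_congr_ae ?_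
  filter_upwards [Ioo_ae] with R h1 hR
  obtain ⟨hR0, hR1⟩ := h1 hR
  have key := subst_s m hR0 hR1 (ψ := fun x => 1 + x/(2*R^2)) (by fun_prop)
  have e1 : ∫ σ in R..1, 2*R*(σ^(i-1) * (R^2/σ)^(i+1) + σ^(i+1) * (R^2/σ)^(i-1))
        * (wt m σ * wt m (R^2/σ) / σ)
      = ∫ σ in R..1, 4 * R^(2*i+1) * (wt m σ * wt m (R^2/σ) / σ
          * (1 + (σ - R^2/σ)^2/(2*R^2))) := by
    refine intervalIntegral.integral_congr fun σ hσ => ?_
    rw [uIcc_of_le hR1.le] at hσ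
    have hσ0 : σ ≠ 0 := (lt_of_lt_of_le hR0 hσ.1).ne'
    have hR00 : R ≠ 0 := hR0.ne'
    obtain ⟨j, rfl⟩ : ∃ j, i = j + 1 := ⟨i - 1, by omega⟩
    simp only [Nat.add_sub_cancel]
    have e2 : 2*R*(σ^j * (R^2/σ)^(j+1+1) + σ^(j+1+1) * (R^2/σ)^j)
        = 4 * R^(2*(j+1)+1) * (1 + (σ - R^2/σ)^2/(2*R^2)) := by
      have e3 : σ^j * (R^2/σ)^j = R^(2*j) := by
        rw [← mul_pow, mul_div_cancel₀ _ hσ0]; ring
      have e4 : 2*R*(σ^j * (R^2/σ)^(j+1+1) + σ^(j+1+1) * (R^2/σ)^j)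
          = 2*R*(σ^j * (R^2/σ)^j)*((R^2/σ)^2 + σ^2) := by ring
      rw [e4, e3]
      field_simp
      ring
    rw [e2]
    ring
  rw [e1, intervalIntegral.integral_const_mul, key, ← intervalIntegral.integral_const_mul,
    ← intervalIntegral.integral_const_mul]
  refine intervalIntegral.integral_congr fun s hs => ?_
  rw [uIcc_of_le zero_le_one] at hs
  have hF : 0 < Fh R s := lt_of_lt_of_le (by linarith) (Fh_ge hs.1)
  have e2 : (Fh R s)^((1/2) : ℝ) = Fh R s * (Fh R s)^(-(1/2) : ℝ) := by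
    nth_rewrite 2 [← Real.rpow_one (Fh R s)]
    rw [← Real.rpow_add hF]; norm_num
  obtain ⟨j, rfl⟩ : ∃ k, m = k + 1 := ⟨m - 1, by omega⟩
  have e5 : 2*i+2*(j+1)-1 = 2*i+2*j+1 := by omega
  simp only [HG, HF]
  rw [e2, e5]
  have hR00 : R ≠ 0 := hR0.ne'
  field_simp
  ring

end BMoll
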