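import Pool.Agent.Lib.MP_a93a81_co.LPBasic

/-!
# Module FUNCID : L(D)(-u) as a functional
-/

namespace BMoll

open Polynomial Finset

theorem ell_apply (q : ℝ[X]) : ell q = q.sum fun j a => ellm j * a := by
  unfold ell
  rw [Polynomial.lsum_apply]
  rfl

theorem ell_X_pow (j : ℕ) : ell (X ^ j) = ellm j := by
  rw [ell_apply, ← Polynomial.monomial_one_right_eq_X_pow, Polynomial.sum_monomial_index]
  · simp
  · simp

/-- homogenisation with `X ↦ τ - 1/τ` -/
noncomputable def Psi (n : ℕ) (q : ℝ[X]) : ℝ[X] :=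
  ∑ j ∈ range (n+1), C (q.coeff j) * (X^(n-j) * (X^2 - 1)^j)

noncomputable def cc (n : ℕ) (p : ℝ[X]) : ℝ := p.coeff n + (if 2 ≤ n then p.coeff (n-2) else 0)

theorem coeff_sq_sub_one (j k : ℕ) :
    ((X^2 - 1 : ℝ[X])^j).coeff k = if 2 ∣ k then (-1)^(j - k/2) * (j.choose (k/2) : ℝ) else 0 := by
  have h : (X^2 - 1 : ℝ[X])^j = expand ℝ 2 ((X + C (-1))^j) := by
    rw [map_pow, map_add, expand_X, expand_C, C_neg, C_1]
    rfl
  rw [h, coeff_expand (by norm_num)]
  split_ifs with hk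
  · rw [coeff_X_add_C_pow]
  · rfl

theorem catalan_choose (q : ℕ) :
    (catalan (q+1) : ℝ) = ((2*(q+1)).choose (q+1) : ℝ) - ((2*(q+1)).choose q : ℝ) := by
  have h1 : ((q+1)+1) * catalan (q+1) = (2*(q+1)).choose (q+1) := by
    rw [succ_mul_catalan_eq_centralBinom, Nat.centralBinom_eq_two_mul_choose]
  have h2 : (2*(q+1)).choose (q+1) * (q+1) = (2*(q+1)).choose q * (2*(q+1) - q) :=
    Nat.choose_succ_right_eq _ _
  rw [show 2*(q+1) - q = q + 2 by omega] at h2
  have h1' : ((q:ℝ)+1+1) * catalan (q+1) = ((2*(q+1)).choose (q+1) : ℝ) := by exact_mod_cast h1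
  have h2' : ((2*(q+1)).choose (q+1) : ℝ) * (q+1) = ((2*(q+1)).choose q : ℝ) * (q+2) := by
    exact_mod_cast h2
  have h3 : ((q:ℝ)+2) ≠ 0 := by positivity
  have : ((q:ℝ)+2) * catalan (q+1) = ((q:ℝ)+2) * (((2*(q+1)).choose (q+1) : ℝ) - ((2*(q+1)).choose q : ℝ)) := by
    rw [mul_sub, mul_comm ((q:ℝ)+2) (((2*(q+1)).choose q : ℝ)), ← h2']
    nlinarith
  exact mul_left_cancel₀ h3 this

theorem cc_base {n j : ℕ} (hj : j ≤ n) : cc n (X^(n-j) * (X^2 - 1)^j) = ellm j := by
  unfold cc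
  have h1 : (X^(n-j) * (X^2 - 1)^j : ℝ[X]).coeff n = ((X^2 - 1 : ℝ[X])^j).coeff j := by
    have := coeff_X_pow_mul ((X^2 - 1 : ℝ[X])^j) (n-j) j
    rwa [show j + (n - j) = n by omega] at this
  have h2 : (if 2 ≤ n then (X^(n-j) * (X^2 - 1)^j : ℝ[X]).coeff (n-2) else 0)
      = if 2 ≤ j then ((X^2 - 1 : ℝ[X])^j).coeff (j-2) else 0 := by
    by_cases h2 : 2 ≤ j
    · rw [if_pos h2, if_pos (by omega)]
      have := coeff_X_pow_mul ((X^2 - 1 : ℝ[X])^j) (n-j) (j-2)
      rwa [show j - 2 + (n - j) = n - 2 by omega] at this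
    · rw [if_neg h2]
      split_ifs with h3
      · rw [coeff_X_pow_mul', if_neg (by omega)]
      · rfl
  rw [h1, h2, coeff_sq_sub_one, coeff_sq_sub_one]
  unfold ellm
  rcases Nat.even_or_odd j with he | ho
  · obtain ⟨q, hq⟩ := he
    have hq' : j = 2 * q := by omega
    subst hq'
    rw [if_pos (Dvd.intro _ rfl), if_pos (by simp : Even (2*q))]
    have e1 : 2 * q / 2 = q := by omega
    rw [e1]
    rcases q with _ | q
    · simp
    · rw [if_pos (by omega : 2 ≤ 2*(q+1)), if_pos (by omega : 2 ∣ 2*(q+1) - 2)]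
      have e2 : (2*(q+1) - 2)/2 = q := by omega
      rw [e2, catalan_choose, show 2*(q+1) - (q+1) = q + 1 by omega,
        show 2*(q+1) - q = q + 2 by omega]
      ring
  · have : ¬ Even j := by
      rwa [Nat.not_even_iff_odd]
    obtain ⟨q, hq⟩ := ho
    rw [if_neg this, if_neg (by omega : ¬ 2 ∣ j)]
    by_cases h3 : 2 ≤ j
    · rw [if_pos h3, if_neg (by omega : ¬ 2 ∣ j - 2)]; simp
    · rw [if_neg h3]; simp

theorem cc_sum {ι : Type*} (n : ℕ) (s : Finset ι) (f : ι → ℝ[X]) :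
    cc n (∑ i ∈ s, f i) = ∑ i ∈ s, cc n (f i) := by
  unfold cc
  rw [Finset.sum_add_distrib, finsetSum_coeff]
  congr 1
  split_ifs
  · rw [finsetSum_coeff]
  · simp

theorem cc_C_mul (n : ℕ) (a : ℝ) (f : ℝ[X]) : cc n (C a * f) = a * cc n f := by
  unfold cc
  rw [coeff_C_mul]
  split_ifs
  · rw [coeff_C_mul]; ring
  · ring

theorem ell_psi {n : ℕ} {q : ℝ[X]} (hq : q.natDegree ≤ n) : ell q = cc n (Psi n q) := by
  unfold Psi
  rw [cc_sum, ell_apply, Polynomial.sum_over_range' q _ (n+1) (by omega)]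
  · refine Finset.sum_congr rfl fun j hj => ?_
    have : j < n + 1 := Finset.mem_range.mp hj
    rw [cc_C_mul, cc_base (by omega)]
    ring
  · intro j; ring

theorem psi_mul {n : ℕ} {q : ℝ[X]} (hq : q.natDegree ≤ n) (a b : ℝ) :
    Psi (n+1) ((C a - C b * X) * q) = (C a * X + C b * (1 - X^2)) * Psi n q := by
  have hc : ∀ j, ((C a - C b * X) * q).coeff j = a * q.coeff j - b * (if j = 0 then 0 else q.coeff (j-1)) := by
    intro j
    rw [sub_mul, coeff_sub, coeff_C_mul, mul_assoc, coeff_C_mul]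
    rcases j with _ | j
    · simp
    · rw [coeff_X_mul]; simp
  unfold Psi
  simp only [hc]
  have hl : ∀ j ∈ range (n+1+1), C (a * q.coeff j - b * (if j = 0 then 0 else q.coeff (j-1))) * (X^(n+1-j) * (X^2 - 1)^j)
      = C (a * q.coeff j) * (X^(n+1-j) * (X^2 - 1)^j : ℝ[X])
        - C (b * (if j = 0 then 0 else q.coeff (j-1))) * (X^(n+1-j) * (X^2 - 1)^j) := by
    intro j _
    rw [C_sub, sub_mul]
  rw [Finset.sum_congr rfl hl, Finset.sum_sub_distrib]
  rw [Finset.sum_range_succ]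
  rw [Finset.sum_range_succ' (fun j => C (b * (if j = 0 then 0 else q.coeff (j-1))) * (X^(n+1-j) * (X^2 - 1)^j : ℝ[X]))]
  have hq0 : q.coeff (n+1) = 0 := coeff_eq_zero_of_natDegree_lt (by omega)
  rw [hq0]
  simp only [mul_zero, C_0, zero_mul, add_zero, if_true]
  rw [add_mul, Finset.mul_sum, Finset.mul_sum, sub_eq_add_neg, ← Finset.sum_neg_distrib]
  congr 1
  · refine Finset.sum_congr rfl fun j hj => ?_
    have : j < n + 1 := Finset.mem_range.mp hj
    rw [show n + 1 - j = (n - j) + 1 by omega, pow_succ, C_mul]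
    ring
  · refine Finset.sum_congr rfl fun j hj => ?_
    have : j < n + 1 := Finset.mem_range.mp hj
    rw [show n + 1 - (j + 1) = n - j by omega, pow_succ (X^2 - 1), C_mul]
    simp only [Nat.add_sub_cancel, if_neg (Nat.succ_ne_zero j)]
    ring

theorem psi_prod : ∀ {n : ℕ} (a b : Fin n → ℝ),
    (∏ l, (C (a l) - C (b l) * X)).natDegree ≤ n ∧
    Psi n (∏ l, (C (a l) - C (b l) * X)) = ∏ l, (C (a l) * X + C (b l) * (1 - X^2)) := by
  intro n
  induction n with
  | zero =>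
    intro a b
    refine ⟨by simp, ?_⟩
    simp [Psi]
  | succ n ih =>
    intro a b
    obtain ⟨h1, h2⟩ := ih (fun i => a i.succ) (fun i => b i.succ)
    rw [Fin.prod_univ_succ, Fin.prod_univ_succ]
    constructor
    · refine le_trans natDegree_mul_le ?_
      have : (C (a 0) - C (b 0) * X : ℝ[X]).natDegree ≤ 1 := by
        refine le_trans (natDegree_sub_le _ _) ?_
        simp only [natDegree_C, max_le_iff]
        exact ⟨by omega, (natDegree_C_mul_le _ _).trans natDegree_X_le⟩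
      omega
    · rw [psi_mul h1, h2]

theorem rev_lin {a b : ℝ} (ha : a ≠ 0) : (C a * X + C b : ℝ[X]).reverse = C a + C b * X := by
  rw [reverse_add_C, reverse_mul_X, reverse_C, natDegree_C_mul_X a ha, pow_one]

theorem comp_prod {n : ℕ} (ρ : Fin n → ℝ) (e : ℝ) :
    (pr ρ).comp (C e * X) = ∏ l, (C e * X + C (ρ l)) := by
  unfold pr
  rw [Polynomial.prod_comp]
  refine Finset.prod_congr rfl fun l _ => ?_
  rw [add_comp, X_comp, C_comp]

theorem rev_comp {n : ℕ} (ρ : Fin n → ℝ) {e : ℝ} (he : e ≠ 0) :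
    ((pr ρ).comp (C e * X)).reverse = ∏ l, (C e + C (ρ l) * X) := by
  rw [comp_prod]
  have : ∀ s : Finset (Fin n), (∏ l ∈ s, (C e * X + C (ρ l))).reverse = ∏ l ∈ s, (C e + C (ρ l) * X) := by
    intro s
    induction s using Finset.induction_on with
    | empty =>
      rw [Finset.prod_empty, Finset.prod_empty]
      simpa using reverse_C (1:ℝ)
    | insert a s ha ih =>
      rw [Finset.prod_insert ha, Finset.prod_insert ha, reverse_mul_of_domain, ih, rev_lin he]
  exact this _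

theorem natDegree_comp_lin {n : ℕ} (ρ : Fin n → ℝ) {e : ℝ} (he : e ≠ 0) :
    ((pr ρ).comp (C e * X)).natDegree = n := by
  rw [natDegree_comp, natDegree_C_mul_X e he, pr_natDegree, mul_one]

theorem LP_functional {n : ℕ} (ρ : Fin n → ℝ) {u : ℝ} (hu : 0 < u) :
    (LP (pr ρ)).eval (-u) = ell (∏ l, (C (ρ l ^ 2 - u) - C (ρ l * √u) * X)) := by
  obtain ⟨h1, h2⟩ := psi_prod (fun l => ρ l ^ 2 - u) (fun l => ρ l * √u)
  rw [ell_psi h1, h2]
  set e : ℝ := √u with he
  have he0 : e ≠ 0 := (Real.sqrt_pos.mpr hu).ne'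
  have hee : e * e = u := Real.mul_self_sqrt hu.le
  have hfac : ∏ l, (C (ρ l ^ 2 - u) * X + C (ρ l * e) * (1 - X^2) : ℝ[X])
      = (pr ρ).comp (C (-e) * X) * ((pr ρ).comp (C e * X)).reverse := by
    rw [rev_comp ρ he0, comp_prod, ← Finset.prod_mul_distrib]
    refine Finset.prod_congr rfl fun l _ => ?_
    have : (C u : ℝ[X]) = C e * C e := by rw [← C_mul, hee]
    simp only [C_sub, C_mul, C_pow, C_neg, this]
    ring
  rw [hfac]
  set d : ℕ → ℝ := (pr ρ).coeff with hd
  set A : ℝ[X] := (pr ρ).comp (C (-e) * X) with hA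
  set B : ℝ[X] := ((pr ρ).comp (C e * X)).reverse with hB
  have hAc : ∀ i, A.coeff i = d i * (-e)^i := fun i => by
    rw [hA, comp_C_mul_X_coeff]
  have hBc : ∀ i, i ≤ n → B.coeff (n - i) = d i * e^i := fun i hi => by
    rw [hB, coeff_reverse, natDegree_comp_lin ρ he0, revAt_le (by omega),
      show n - (n - i) = i by omega, comp_C_mul_X_coeff]
  have hdz : ∀ i, n < i → d i = 0 := fun i hi => pr_coeff_gt ρ hi
  have hL : (LP (pr ρ)).eval (-u) = ∑ i ∈ range (n+1), Lop d i * (-u)^i := by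
    unfold LP
    rw [pr_natDegree, eval_finsetSum]
    refine Finset.sum_congr rfl fun i _ => ?_
    simp [hd]
  rw [hL]
  have hpw : ∀ i, (-e)^i * e^i = (-u)^i := fun i => by
    rw [← mul_pow]; congr 1; rw [neg_mul, hee]
  have hn : (A * B).coeff n = ∑ i ∈ range (n+1), d i ^ 2 * (-u)^i := by
    rw [coeff_mul, Finset.Nat.sum_antidiagonal_eq_sum_range_succ_mk]
    refine Finset.sum_congr rfl fun i hi => ?_
    have : i < n + 1 := Finset.mem_range.mp hi
    rw [hAc, hBc i (by omega), ← hpw]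
    ring
  have hsplit : ∑ i ∈ range (n+1), Lop d i * (-u)^i
      = ∑ i ∈ range (n+1), d i ^ 2 * (-u)^i + ∑ i ∈ range n, u * (d i * d (i+2)) * (-u)^i := by
    have : ∀ i ∈ range (n+1), Lop d i * (-u)^i
        = d i ^ 2 * (-u)^i - ((if i = 0 then 0 else d (i-1)) * d (i+1)) * (-u)^i := by
      intro i _
      unfold Lop
      ring
    rw [Finset.sum_congr rfl this, Finset.sum_sub_distrib, sub_eq_add_neg, ← Finset.sum_neg_distrib]
    congr 1
    rw [Finset.sum_range_succ']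
    simp only [if_true, zero_mul, neg_zero, add_zero]
    refine Finset.sum_congr rfl fun i _ => ?_
    rw [if_neg (Nat.succ_ne_zero i), Nat.add_sub_cancel, pow_succ]
    ring
  rw [hsplit]
  unfold cc
  rw [hn]
  congr 1
  rcases n with _ | _ | k
  · simp
  · simp [hdz 2 (by omega)]
  · rw [if_pos (by omega), show k + 2 - 2 = k by omega, coeff_mul,
      Finset.Nat.sum_antidiagonal_eq_sum_range_succ_mk, Finset.sum_range_succ]
    rw [hdz (k+1+2) (by omega)]
    simp only [mul_zero, zero_mul, add_zero]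
    refine Finset.sum_congr rfl fun i hi => ?_
    have : i < k + 1 := Finset.mem_range.mp hi
    have hb := hBc (i+2) (by omega)
    rw [show k + 1 + 1 - (i + 2) = k - i by omega] at hb
    rw [hAc, hb, ← hpw, pow_add e, sq e, hee]
    ring

end BMoll
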