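import Pool.Agent.Lib.MP_a93a81_co.NarZeros
import Pool.Agent.Lib.MP_a93a81_co.FuncId

/-!
# Module ELLROOTS : `t ↦ ell((X+t)^N)` has N distinct real zeros

Proof. `LP_functional` with all `ρ_l = 1`: `LP((X+1)^N)(-u) = ell((1-u-√u X)^N)
= (-√u)^N ell((X + w)^N)`, `w = √u - 1/√u`.  And `LP((X+1)^N)(-u) = fN N u` by `nar_sq`, which
vanishes at the `N` distinct positive `ny N k`; `u ↦ √u - 1/√u` is strictly increasing.
-/

namespace BMoll

open Polynomial Finset

private theorem pr_one (N : ℕ) : pr (fun _ : Fin N => (1:ℝ)) = (X + 1) ^ N := by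
  unfold pr
  rw [Finset.prod_const, Finset.card_univ, Fintype.card_fin, C_1]

private theorem LP_pr_one (N : ℕ) (u : ℝ) :
    (LP (pr (fun _ : Fin N => (1:ℝ)))).eval (-u) = fN N u := by
  unfold LP fN
  rw [eval_finsetSum, pr_natDegree]
  refine Finset.sum_congr rfl fun i _ => ?_
  rw [eval_mul, eval_C, eval_pow, eval_X, pr_one, ← nar_sq]
  congr 2
  funext j
  exact coeff_X_add_one_pow ℝ N j

theorem ell_pow_roots (N : ℕ) :
    ∃ t : Fin N → ℝ, StrictMono t ∧ ∀ k, ell ((X + C (t k)) ^ N) = 0 := by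
  refine ⟨fun k => √(ny N k) - 1 / √(ny N k), ?_, ?_⟩
  · intro i j hij
    have hi := ny_pos N i
    have hlt := ny_strictMono N hij
    have h1 : 0 < √(ny N i) := Real.sqrt_pos.mpr hi
    have h2 : √(ny N i) < √(ny N j) := Real.sqrt_lt_sqrt hi.le hlt
    have h3 : 1 / √(ny N j) < 1 / √(ny N i) := one_div_lt_one_div_of_lt h1 h2
    show √(ny N i) - 1 / √(ny N i) < √(ny N j) - 1 / √(ny N j)
    linarith
  · intro k
    obtain ⟨u, hu⟩ : ∃ u, u = ny N k := ⟨_, rfl⟩
    have hu0 : 0 < u := by rw [hu]; exact ny_pos N k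
    show ell ((X + C (√(ny N k) - 1 / √(ny N k))) ^ N) = 0
    rw [← hu]
    have h1 : 0 < √u := Real.sqrt_pos.mpr hu0
    have h2 : √u * √u = u := Real.mul_self_sqrt hu0.le
    have h3 := LP_functional (fun _ : Fin N => (1:ℝ)) hu0
    rw [LP_pr_one, Finset.prod_const, Finset.card_univ, Fintype.card_fin] at h3
    have h4 : fN N u = 0 := by
      rw [fN_prod]
      refine Finset.prod_eq_zero (mem_univ k) ?_
      rw [← hu, div_self hu0.ne', sub_self]
    have h5 : (C ((1:ℝ) ^ 2 - u) - C (1 * √u) * X) = C (-√u) * (X + C (√u - 1 / √u)) := by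
      have h6 : (1:ℝ) ^ 2 - u = -√u * (√u - 1 / √u) := by
        field_simp
        nlinarith [h2]
      rw [mul_add, ← C_mul, ← h6, C_neg, one_mul]
      ring
    rw [h5, mul_pow, ← C_pow, ← smul_eq_C_mul, map_smul, smul_eq_mul, h4] at h3
    have h7 : (-√u) ^ N ≠ 0 := pow_ne_zero _ (neg_ne_zero.mpr h1.ne')
    exact (mul_eq_zero.mp h3.symm).resolve_left h7

end BMoll
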