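import Pool.Agent.Lib.MP_a93a81_co.Rec

/-!
# Module KZERO : the case k = 0

For `0 ≤ i ≤ m-1`: `(i+1) d_{i+1} < (m-i) d_i < (i+2) d_{i+1}`, by downward induction from the
three term recurrence; strict ratio monotonicity follows.
-/

namespace BMoll

open Polynomial Finset

/-- The two families of inequalities give strict ratio monotonicity.
(I) `a_{i+1} a_{n-i} < a_i a_{n-1-i}` for `i ≤ n-1`, (II) `a_i a_{n-2-i} < a_{i+1} a_{n-1-i}`
for `i ≤ n-2`.
Last inequality of the first chain (`i = n/2 - 1`): `n = 2h`: (II) with `i = h-1` reads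
`a_{h-1}^2 < a_h^2`; `n = 2h+1`: (II) with `i = h-1` reads `a_{h-1} a_h < a_h a_{h+1}`.
Last inequality of the second chain (`i = (n-1)/2`): `n = 2h`: (I) with `i = h-1` reads
`a_h a_{h+1} < a_{h-1} a_h`; `n = 2h+1`: (I) with `i = h` reads `a_{h+1}^2 < a_h^2`. -/
theorem ratio_of_families {n : ℕ} (hn : 2 ≤ n) {a : ℕ → ℝ} (hpos : ∀ i ≤ n, 0 < a i)
    (hI : ∀ i, i + 1 ≤ n → a (i+1) * a (n-i) < a i * a (n-1-i))
    (hII : ∀ i, i + 2 ≤ n → a i * a (n-2-i) < a (i+1) * a (n-1-i)) :
    StrictRatioMono n a := by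
  refine ⟨hpos, ?_, ?_, ?_, ?_⟩
  · intro i hi
    rw [div_lt_div_iff₀ (hpos _ (by omega)) (hpos _ (by omega))]
    exact hII i (by omega)
  · intro _
    rw [div_lt_one (hpos _ (by omega))]
    rcases Nat.even_or_odd' n with ⟨h, rfl | rfl⟩
    · have := hII (h - 1) (by omega)
      have e1 : 2 * h - 2 - (h - 1) = h - 1 := by omega
      have e2 : h - 1 + 1 = h := by omega
      have e3 : 2 * h - 1 - (h - 1) = h := by omega
      rw [e1, e2, e3] at this
      have e4 : 2 * h / 2 - 1 = h - 1 := by omega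
      have e5 : 2 * h - 2 * h / 2 = h := by omega
      rw [e4, e5]
      have p1 := hpos (h-1) (by omega)
      have p2 := hpos h (by omega)
      nlinarith
    · have := hII (h - 1) (by omega)
      have e1 : 2 * h + 1 - 2 - (h - 1) = h := by omega
      have e2 : h - 1 + 1 = h := by omega
      have e3 : 2 * h + 1 - 1 - (h - 1) = h + 1 := by omega
      rw [e1, e2, e3] at this
      have e4 : (2 * h + 1) / 2 - 1 = h - 1 := by omega
      have e5 : 2 * h + 1 - (2 * h + 1) / 2 = h + 1 := by omega
      rw [e4, e5]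
      have p2 := hpos h (by omega)
      nlinarith
  · intro i hi
    rw [div_lt_div_iff₀ (hpos _ (by omega)) (hpos _ (by omega))]
    have := hI i (by omega)
    have e1 : n - i - 1 = n - 1 - i := by omega
    rw [e1]
    linarith
  · rw [div_lt_one (hpos _ (by omega))]
    rcases Nat.even_or_odd' n with ⟨h, rfl | rfl⟩
    · have := hI (h - 1) (by omega)
      have e1 : h - 1 + 1 = h := by omega
      have e2 : 2 * h - (h - 1) = h + 1 := by omega
      have e3 : 2 * h - 1 - (h - 1) = h := by omega
      rw [e1, e2, e3] at this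
      have e4 : (2 * h - 1) / 2 = h - 1 := by omega
      rw [e4, e2]
      have p2 := hpos h (by omega)
      nlinarith
    · have := hI h (by omega)
      have e2 : 2 * h + 1 - h = h + 1 := by omega
      have e3 : 2 * h + 1 - 1 - h = h := by omega
      rw [e2, e3] at this
      have e4 : (2 * h + 1 - 1) / 2 = h := by omega
      rw [e4, e2]
      have p1 := hpos h (by omega)
      have p2 := hpos (h+1) (by omega)
      nlinarith

namespace KZero

theorem claims (m : ℕ) : ∀ j i : ℕ, i + 1 + j = m →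
    ((i:ℝ) + 1) * bm m (i+1) < (m - i) * bm m i ∧
    ((m:ℝ) - i) * bm m i < (i + 2) * bm m (i+1) := by
  intro j
  induction j with
  | zero =>
    intro i hi
    have hr := bm_rec m i
    have h0 : bm m (i+2) = 0 := bm_zero (by omega)
    have hm : (m:ℝ) = i + 1 := by
      have : m = i + 1 := by omega
      rw [this]; push_cast; ring
    rw [h0, hm] at hr
    rw [hm]
    have hp : 0 < bm m (i+1) := bm_pos (by omega)
    have hp0 : 0 < bm m i := bm_pos (by omega)
    have hi0 : (0:ℝ) ≤ i := Nat.cast_nonneg i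
    have e : (2 * ((i:ℝ) + 1)) * bm m i = (2 * (i+1) + 1) * (i + 1) * bm m (i+1) := by
      linarith
    have e2 : 2 * bm m i = (2 * (i+1) + 1) * bm m (i+1) := by
      have h1 : (0:ℝ) < i + 1 := by positivity
      apply mul_left_cancel₀ h1.ne'
      linarith
    constructor
    · nlinarith
    · nlinarith
  | succ j ih =>
    intro i hi
    obtain ⟨h1, h2⟩ := ih (i+1) (by omega)
    have hr := bm_rec m i
    push_cast at h1 h2
    have hm : (m:ℝ) = i + j + 2 := by
      have : m = i + j + 2 := by omega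
      rw [this]; push_cast; ring
    have hp : 0 < bm m (i+1) := bm_pos (by omega)
    have hp0 : 0 < bm m i := bm_pos (by omega)
    have hp2 : 0 < bm m (i+2) := bm_pos (by omega)
    have hi0 : (0:ℝ) ≤ i := Nat.cast_nonneg i
    have hj0 : (0:ℝ) ≤ j := Nat.cast_nonneg j
    have e12 : i + 1 + 1 = i + 2 := by omega
    rw [e12] at h1 h2
    have hq : (0:ℝ) < m + i + 1 := by rw [hm]; positivity
    have e : ((m:ℝ) + i + 1) * ((m - i) * bm m i) =
        (i + 1) * ((2*m+1) * bm m (i+1) - (i+2) * bm m (i+2)) := by linarith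
    constructor
    · apply lt_of_mul_lt_mul_left _ hq.le
      rw [e]
      have : ((m:ℝ) + i + 1) * bm m (i+1) < (2*m+1) * bm m (i+1) - (i+2) * bm m (i+2) := by
        linarith
      have hi1 : (0:ℝ) < i + 1 := by positivity
      calc ((m:ℝ) + i + 1) * ((i + 1) * bm m (i+1)) = (i+1) * (((m:ℝ) + i + 1) * bm m (i+1)) := by
            ring
        _ < _ := mul_lt_mul_of_pos_left this hi1
    · apply lt_of_mul_lt_mul_left _ hq.le
      rw [e]
      have hi3 : (0:ℝ) < i + 3 := by positivity
      apply lt_of_mul_lt_mul_left _ hi3.le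
      -- (i+3) d_{i+2} > (m-i-1) d_{i+1}
      have h3 : ((m:ℝ) - i - 1) * bm m (i+1) < (i + 3) * bm m (i+2) := by linarith
      have hpos1 : (0:ℝ) < (i + 1) * (i + 2) := by positivity
      have h4 := mul_lt_mul_of_pos_left h3 hpos1
      have h5 : 0 < (2 * (m:ℝ) + (i+1)^2) * bm m (i+1) := by
        rw [hm]; positivity
      nlinarith [h4, h5]

end KZero

theorem bm_ratio {m : ℕ} (hm : 2 ≤ m) : StrictRatioMono m (bm m) := by
  refine ratio_of_families hm (fun i hi => bm_pos hi) ?_ ?_
  · intro i hi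
    have h1 := (KZero.claims m (m - 1 - i) i (by omega)).1
    have h2 := (KZero.claims m i (m - 1 - i) (by omega)).1
    have e1 : m - 1 - i + 1 = m - i := by omega
    rw [e1] at h2
    have e2 : ((m - 1 - i : ℕ) : ℝ) = m - 1 - i := by
      rw [Nat.cast_sub (by omega), Nat.cast_sub (by omega)]; push_cast; ring
    rw [e2] at h2
    have hp1 : 0 < bm m (i+1) := bm_pos (by omega)
    have hp2 : 0 < bm m (m-i) := bm_pos (by omega)
    have hi0 : (0:ℝ) ≤ i := Nat.cast_nonneg i
    have hmi : (0:ℝ) < m - i := by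
      have : ((i:ℕ):ℝ) < m := by exact_mod_cast (by omega : i < m)
      linarith
    have h2' : ((m:ℝ) - i) * bm m (m-i) < (i + 1) * bm m (m-1-i) := by
      have a1 : ((m:ℝ) - 1 - i + 1) = m - i := by ring
      have a2 : ((m:ℝ) - (m - 1 - i)) = i + 1 := by ring
      rw [a1, a2] at h2
      exact h2
    have h3 := mul_lt_mul'' h1 h2' (by positivity) (by positivity)
    have hq : (0:ℝ) < (m - i) * (i+1) := by positivity
    apply lt_of_mul_lt_mul_left _ hq.le
    calc _ = ((i:ℝ) + 1) * bm m (i+1) * (((m:ℝ) - i) * bm m (m-i)) := by ring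
      _ < _ := h3
      _ = _ := by ring
  · intro i hi
    have h1 := (KZero.claims m (m - 1 - i) i (by omega)).2
    have h2 := (KZero.claims m (i+1) (m - 2 - i) (by omega)).2
    have e1 : m - 2 - i + 1 = m - 1 - i := by omega
    rw [e1] at h2
    have e2 : ((m - 2 - i : ℕ) : ℝ) = m - 2 - i := by
      rw [Nat.cast_sub (by omega), Nat.cast_sub (by omega)]; push_cast; ring
    rw [e2] at h2
    have hp1 : 0 < bm m i := bm_pos (by omega)
    have hp2 : 0 < bm m (m-2-i) := bm_pos (by omega)
    have hi0 : (0:ℝ) ≤ i := Nat.cast_nonneg i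
    have hmi : (0:ℝ) < m - i := by
      have : ((i:ℕ):ℝ) < m := by exact_mod_cast (by omega : i < m)
      linarith
    have h2' : ((i:ℝ) + 2) * bm m (m-2-i) < (m - i) * bm m (m-1-i) := by
      have a1 : ((m:ℝ) - 2 - i + 2) = m - i := by ring
      have a2 : ((m:ℝ) - (m - 2 - i)) = i + 2 := by ring
      rw [a1, a2] at h2
      exact h2
    have h3 := mul_lt_mul'' h1 h2' (by positivity) (by positivity)
    have hq : (0:ℝ) < (m - i) * (i+2) := by positivity
    apply lt_of_mul_lt_mul_left _ hq.le
    calc _ = ((m:ℝ) - i) * bm m i * (((i:ℝ) + 2) * bm m (m-2-i)) := by ring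
      _ < _ := h3
      _ = _ := by ring

end BMoll
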