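import Pool.Agent.Lib.MP_a93a81_co.LPBasic
import Pool.Agent.Lib.MP_a93a81_co.KZero

/-!
# Module TRANS : `x ∈ Cls n` implies that the coefficients of `pr x` are strictly ratio monotone

`E_j(x)` are the coefficients of `∏ (1 + x_k X)`.  Then `(pr x).coeff (n-j) = E_j(x)` and
`(pr x).coeff j = (∏ x_k) E_j(x*)`, `x*_k = 1/x_{n-1-k}`.
-/

namespace BMoll

open Polynomial Finset

namespace Trans

/-- `∏ (1 + x_k X)` -/
noncomputable def Q {n : ℕ} (x : Fin n → ℝ) : ℝ[X] := ∏ k, (1 + C (x k) * X)

/-- elementary symmetric functions -/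
noncomputable def E {n : ℕ} (x : Fin n → ℝ) (j : ℕ) : ℝ := (Q x).coeff j

theorem Q_zero (x : Fin 0 → ℝ) : Q x = 1 := by simp [Q]

theorem Q_succ {n : ℕ} (x : Fin (n+1) → ℝ) : Q x = (1 + C (x 0) * X) * Q (Fin.tail x) := by
  simp only [Q, Fin.prod_univ_succ, Fin.tail]

theorem Q_init {n : ℕ} (x : Fin (n+1) → ℝ) :
    Q x = (1 + C (x (Fin.last n)) * X) * Q (Fin.init x) := by
  simp only [Q, Fin.prod_univ_castSucc, Fin.init]
  ring

theorem coeff_step (t : ℝ) (p : ℝ[X]) (j : ℕ) :
    ((1 + C t * X) * p).coeff (j+1) = p.coeff (j+1) + t * p.coeff j := by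
  rw [add_mul, one_mul, coeff_add, mul_assoc, coeff_C_mul, mul_comm X p, coeff_mul_X]

theorem coeff_step0 (t : ℝ) (p : ℝ[X]) : ((1 + C t * X) * p).coeff 0 = p.coeff 0 := by
  simp [mul_coeff_zero]

theorem E_succ {n : ℕ} (x : Fin (n+1) → ℝ) (j : ℕ) :
    E x (j+1) = E (Fin.tail x) (j+1) + x 0 * E (Fin.tail x) j := by
  rw [E, Q_succ, coeff_step]; rfl

theorem E_init {n : ℕ} (x : Fin (n+1) → ℝ) (j : ℕ) :
    E x (j+1) = E (Fin.init x) (j+1) + x (Fin.last n) * E (Fin.init x) j := by
  rw [E, Q_init, coeff_step]; rfl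

theorem E_zero {n : ℕ} (x : Fin n → ℝ) : E x 0 = 1 := by
  induction n with
  | zero => rw [E, Q_zero]; simp
  | succ n ih => rw [E, Q_succ, coeff_step0]; exact ih _

theorem E_gt {n : ℕ} (x : Fin n → ℝ) {j : ℕ} (hj : n < j) : E x j = 0 := by
  induction n generalizing j with
  | zero =>
    rw [E, Q_zero, coeff_one, if_neg (by omega)]
  | succ n ih =>
    obtain ⟨i, rfl⟩ : ∃ i, j = i + 1 := ⟨j - 1, by omega⟩
    rw [E_succ, ih _ (by omega), ih _ (by omega)]; ring

theorem E_nonneg {n : ℕ} (x : Fin n → ℝ) (hx : ∀ k, 0 < x k) (j : ℕ) : 0 ≤ E x j := by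
  induction n generalizing j with
  | zero =>
    rw [E, Q_zero, coeff_one]; split_ifs <;> norm_num
  | succ n ih =>
    have ht : ∀ k, 0 < Fin.tail x k := fun k => hx _
    cases j with
    | zero => rw [E_zero]; norm_num
    | succ j =>
      rw [E_succ]
      have := ih _ ht (j+1)
      have h2 := ih _ ht j
      have h3 := hx 0
      positivity

theorem E_pos {n : ℕ} (x : Fin n → ℝ) (hx : ∀ k, 0 < x k) {j : ℕ} (hj : j ≤ n) : 0 < E x j := by
  induction n generalizing j with
  | zero =>
    have : j = 0 := by omega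
    rw [this, E_zero]; norm_num
  | succ n ih =>
    have ht : ∀ k, 0 < Fin.tail x k := fun k => hx _
    cases j with
    | zero => rw [E_zero]; norm_num
    | succ j =>
      rw [E_succ]
      have := E_nonneg _ ht (j+1)
      have h2 := ih _ ht (show j ≤ n by omega)
      have h3 := hx 0
      positivity

/-- strict log-concavity -/
theorem E_log {n : ℕ} (x : Fin n → ℝ) (hx : ∀ k, 0 < x k) {j : ℕ} (hj : j + 1 ≤ n) :
    E x j * E x (j+2) < E x (j+1) ^ 2 := by
  induction n generalizing j with
  | zero => omega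
  | succ n ih =>
    have ht : ∀ k, 0 < Fin.tail x k := fun k => hx _
    set y := Fin.tail x with hy
    have h0 := hx 0
    set t := x 0 with ht0
    rcases Nat.lt_or_ge j n with hjn | hjn
    · -- first bracket positive
      have k1 := ih y ht (show j + 1 ≤ n by omega)
      have p2 := E_nonneg y ht (j+2)
      have p1 := E_pos y ht (show j + 1 ≤ n by omega)
      have p0 := E_pos y ht (show j ≤ n by omega)
      cases j with
      | zero =>
        rw [E_zero, E_succ, E_succ, ← hy, ← ht0]
        simp only [E_zero] at k1 ⊢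
        nlinarith [mul_pos h0 p1, mul_pos h0 h0]
      | succ i =>
        have pm := E_pos y ht (show i ≤ n by omega)
        have k2 := ih y ht (show i + 1 ≤ n by omega)
        rw [E_succ, E_succ, E_succ, ← hy, ← ht0]
        -- names
        have k3 : E y i * E y (i+1+2) ≤ E y (i+1) * E y (i+1+1) := by
          have h1 : (E y i * E y (i+2)) * (E y (i+1) * E y (i+1+2)) ≤ E y (i+1)^2 * E y (i+1+1)^2 :=
            mul_le_mul k2.le k1.le (by positivity) (by positivity)
          have h2 : 0 < E y (i+1) * E y (i+1+1) := mul_pos p0 p1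
          have h3 : (E y i * E y (i+1+2)) * (E y (i+1) * E y (i+1+1)) ≤
              (E y (i+1) * E y (i+1+1)) * (E y (i+1) * E y (i+1+1)) := by
            calc _ = (E y i * E y (i+2)) * (E y (i+1) * E y (i+1+2)) := by ring
              _ ≤ _ := h1
              _ = _ := by ring
          exact le_of_mul_le_mul_right h3 h2
        have k4 : 0 ≤ t * (E y (i+1) * E y (i+1+1) - E y i * E y (i+1+2)) :=
          mul_nonneg h0.le (by linarith)
        have k5 : 0 ≤ t^2 * (E y (i+1)^2 - E y i * E y (i+2)) :=
          mul_nonneg (by positivity) (by linarith)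
        have e12 : i + 1 + 1 = i + 2 := rfl
        nlinarith [k1, k4, k5]
    · have hjn' : j = n := by omega
      subst hjn'
      have z1 : E y (j+1) = 0 := E_gt y (by omega)
      have z2 : E y (j+2) = 0 := E_gt y (by omega)
      have p0 := E_pos y ht (le_refl j)
      cases j with
      | zero =>
        rw [E_zero, E_succ, E_succ, ← hy, ← ht0, z1, z2]
        have : 0 < t * E y 0 := mul_pos h0 p0
        nlinarith
      | succ i =>
        rw [E_succ x i, E_succ x (i+1+1), E_succ x (i+1), ← hy, ← ht0, z1, z2]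
        have : 0 < t * E y (i+1) := mul_pos h0 p0
        nlinarith

/-- comparison of the ratios -/
theorem E_cmp {n : ℕ} (x y : Fin n → ℝ) (hy : ∀ k, 0 < y k) (hxy : ∀ k, y k < x k) {j : ℕ}
    (hj : j + 1 ≤ n) : E y (j+1) * E x j < E y j * E x (j+1) := by
  induction n generalizing j with
  | zero => omega
  | succ n ih =>
    have hx : ∀ k, 0 < x k := fun k => (hy k).trans (hxy k)
    have htx : ∀ k, 0 < Fin.tail x k := fun k => hx _
    have hty : ∀ k, 0 < Fin.tail y k := fun k => hy _
    have htxy : ∀ k, Fin.tail y k < Fin.tail x k := fun k => hxy _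
    set x' := Fin.tail x with hx'
    set y' := Fin.tail y with hy'
    have hs := hy 0
    have hst := hxy 0
    set s := y 0 with hs0
    set t := x 0 with ht0
    cases j with
    | zero =>
      rw [E_zero, E_zero, E_succ, E_succ, ← hx', ← hy', ← hs0, ← ht0, E_zero, E_zero]
      rcases Nat.lt_or_ge 0 n with hn | hn
      · have := ih x' y' hty htxy (show 0 + 1 ≤ n by omega)
        rw [E_zero, E_zero] at this
        linarith
      · rw [E_gt y' (show n < 0 + 1 by omega), E_gt x' (show n < 0 + 1 by omega)]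
        linarith
    | succ i =>
      rw [E_succ, E_succ, E_succ, E_succ, ← hx', ← hy', ← hs0, ← ht0]
      have a1 := ih x' y' hty htxy (show i + 1 ≤ n by omega)
      -- E y (i+1) E x i < E y i E x (i+1)
      have px0 := E_pos x' htx (show i ≤ n by omega)
      have px1 := E_pos x' htx (show i + 1 ≤ n by omega)
      have py0 := E_pos y' hty (show i ≤ n by omega)
      have py1 := E_pos y' hty (show i + 1 ≤ n by omega)
      have px2 := E_nonneg x' htx (i+1+1)
      have py2 := E_nonneg y' hty (i+1+1)
      have lx := E_log x' htx (show i + 1 ≤ n by omega)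
      have a2 : E y' (i+1+1) * E x' (i+1) ≤ E y' (i+1) * E x' (i+1+1) := by
        rcases Nat.lt_or_ge (i+1) n with hn | hn
        · exact (ih x' y' hty htxy (show i + 1 + 1 ≤ n by omega)).le
        · rw [E_gt y' (show n < i + 1 + 1 by omega), E_gt x' (show n < i + 1 + 1 by omega)]
          simp
      -- (A) E y (i+2) E x i ≤ E y i E x (i+2)
      have A : E y' (i+1+1) * E x' i ≤ E y' i * E x' (i+1+1) := by
        have h1 : (E y' (i+1+1) * E x' (i+1)) * (E y' (i+1) * E x' i) ≤
            (E y' (i+1) * E x' (i+1+1)) * (E y' i * E x' (i+1)) :=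
          mul_le_mul a2 a1.le (by positivity) (by positivity)
        have h2 : 0 < E x' (i+1) * E y' (i+1) := mul_pos px1 py1
        refine le_of_mul_le_mul_right ?_ h2
        calc _ = (E y' (i+1+1) * E x' (i+1)) * (E y' (i+1) * E x' i) := by ring
          _ ≤ _ := h1
          _ = _ := by ring
      -- (B) E y (i+2) E x i ≤ E y (i+1) E x (i+1)
      have B : E y' (i+1+1) * E x' i ≤ E y' (i+1) * E x' (i+1) := by
        have h1 : (E y' (i+1+1) * E x' (i+1)) * E x' i ≤ (E y' (i+1) * E x' (i+1+1)) * E x' i :=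
          mul_le_mul_of_nonneg_right a2 px0.le
        have h3 : E y' (i+1) * (E x' i * E x' (i+2)) ≤ E y' (i+1) * E x' (i+1)^2 :=
          mul_le_mul_of_nonneg_left lx.le py1.le
        refine le_of_mul_le_mul_right ?_ px1
        calc _ = (E y' (i+1+1) * E x' (i+1)) * E x' i := by ring
          _ ≤ _ := h1
          _ = E y' (i+1) * (E x' i * E x' (i+2)) := by ring
          _ ≤ _ := h3
          _ = _ := by ring
      have c1 : 0 ≤ s * (E y' i * E x' (i+1+1) - E y' (i+1+1) * E x' i) :=
        mul_nonneg hs.le (by linarith)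
      have c2 : 0 ≤ (t - s) * (E y' (i+1) * E x' (i+1) - E y' (i+1+1) * E x' i) :=
        mul_nonneg (by linarith) (by linarith)
      have c3 : 0 < (s * t) * (E y' i * E x' (i+1) - E y' (i+1) * E x' i) :=
        mul_pos (mul_pos hs (hs.trans hst)) (by linarith)
      nlinarith [c1, c2, c3, a2]

/-- coefficients of `pr x` -/
theorem pr_coeff_E {n : ℕ} (x : Fin n → ℝ) {j : ℕ} (hj : j ≤ n) :
    (pr x).coeff (n - j) = E x j := by
  induction n generalizing j with
  | zero =>
    have : j = 0 := by omega
    subst this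
    simp [pr, E_zero]
  | succ n ih =>
    have hp : pr x = (X + C (x 0)) * pr (Fin.tail x) := by
      simp only [pr, Fin.prod_univ_succ, Fin.tail]
    have hs : ∀ i, ((X + C (x 0)) * pr (Fin.tail x)).coeff (i+1) =
        (pr (Fin.tail x)).coeff i + x 0 * (pr (Fin.tail x)).coeff (i+1) := by
      intro i
      rw [add_mul, coeff_add, coeff_X_mul, coeff_C_mul]
    rw [hp]
    cases j with
    | zero =>
      rw [Nat.sub_zero, hs, E_zero, pr_coeff_gt _ (Nat.lt_succ_self n)]
      have := ih (Fin.tail x) (j := 0) (Nat.zero_le _)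
      rw [Nat.sub_zero, E_zero] at this
      rw [this]; ring
    | succ j =>
      rw [E_succ]
      rcases Nat.lt_or_ge j n with h | h
      · obtain ⟨m, hm⟩ : ∃ m, n - j = m + 1 := ⟨n - j - 1, by omega⟩
        have e1 : n + 1 - (j + 1) = m + 1 := by omega
        rw [e1, hs]
        have h1 := ih (Fin.tail x) (j := j + 1) (by omega)
        have h2 := ih (Fin.tail x) (j := j) (by omega)
        have e2 : n - (j + 1) = m := by omega
        rw [e2] at h1
        rw [hm] at h2
        rw [h1, h2]
      · have hjn : j = n := by omega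
        subst hjn
        rw [Nat.sub_self, E_gt _ (Nat.lt_succ_self j), mul_coeff_zero]
        have h2 := ih (Fin.tail x) (j := j) le_rfl
        rw [Nat.sub_self] at h2
        rw [h2]
        simp

theorem pr_star {n : ℕ} (x : Fin n → ℝ) (hx : ∀ k, 0 < x k) (j : ℕ) :
    (pr x).coeff j = (∏ k, x k) * E (fun k => 1 / x k.rev) j := by
  have h : pr x = C (∏ k, x k) * Q (fun k => 1 / x k.rev) := by
    have h1 : Q (fun k => 1 / x k.rev) = ∏ k, (1 + C (1 / x k) * X) := by
      unfold Q
      exact Fintype.prod_equiv Fin.revPerm _ _ (fun k => rfl)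
    rw [h1, map_prod, ← Finset.prod_mul_distrib]
    unfold pr
    refine Finset.prod_congr rfl fun k _ => ?_
    rw [mul_add, ← mul_assoc, ← C_mul, mul_one_div_cancel (hx k).ne', C_1, mul_one, one_mul,
      add_comm]
  rw [h, coeff_C_mul]; rfl

end Trans

open _root_.BMoll.Trans

theorem cls_ratio {n : ℕ} (hn : 2 ≤ n) {x : Fin n → ℝ} (hx : Cls n x) :
    StrictRatioMono n (fun i => (pr x).coeff i) := by
  obtain ⟨hmono, hpos, h1, h2⟩ := hx
  have hP : 0 < ∏ k, x k := Finset.prod_pos fun k _ => hpos k
  set y : Fin n → ℝ := fun k => 1 / x k.rev with hy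
  have hypos : ∀ k, 0 < y k := fun k => one_div_pos.2 (hpos _)
  refine ratio_of_families hn (fun i hi => pr_coeff_pos hpos hi) ?_ ?_
  · intro i hi
    have hyx : ∀ k, y k < x k := by
      intro k
      rw [hy]
      simp only
      rw [div_lt_iff₀ (hpos _)]
      refine h1 k k.rev ?_
      rw [Fin.val_rev]; omega
    have key := E_cmp x y hypos hyx hi
    have e1 : n - i = n - i := rfl
    have c1 := pr_star x hpos (i+1)
    have c2 := pr_star x hpos i
    have c3 := pr_coeff_E x (show i ≤ n by omega)
    have c4 := pr_coeff_E x (show i + 1 ≤ n by omega)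
    have e2 : n - 1 - i = n - (i + 1) := by omega
    rw [e2, c1, c2, c3, c4]
    have := mul_lt_mul_of_pos_left key hP
    calc _ = (∏ k, x k) * (E y (i+1) * E x i) := by ring
      _ < _ := this
      _ = _ := by ring
  · intro i hi
    obtain ⟨m, rfl⟩ : ∃ m, n = m + 1 := ⟨n - 1, by omega⟩
    have c1 := pr_star x hpos (i+1)
    have c2 := pr_star x hpos i
    have c3 := pr_coeff_E x (show i + 2 ≤ m + 1 by omega)
    have c4 := pr_coeff_E x (show i + 1 ≤ m + 1 by omega)
    have e2 : m + 1 - 1 - i = m + 1 - (i + 1) := by omega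
    have e3 : m + 1 - 2 - i = m + 1 - (i + 2) := by omega
    rw [e2, e3, c1, c2, c3, c4]
    -- E_{i+2}(x) E_i(x*) < E_{i+1}(x*) E_{i+1}(x)
    set x' := Fin.init x with hx'
    set y' := Fin.tail y with hy'
    have px' : ∀ k, 0 < x' k := fun k => hpos _
    have py' : ∀ k, 0 < y' k := fun k => hypos _
    have hxy : ∀ k, x' k < y' k := by
      intro k
      have : x' k * x (Fin.castSucc k.rev) < 1 := by
        refine h2 (Fin.castSucc k) (Fin.castSucc k.rev) ?_
        rw [Fin.val_castSucc, Fin.val_castSucc, Fin.val_rev]; omega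
      have e : y' k = 1 / x (Fin.castSucc k.rev) := by
        rw [hy', hy]
        simp only [Fin.tail]
        rw [Fin.rev_succ]
      rw [e, lt_div_iff₀ (hpos _)]
      exact this
    have t0 := hpos (Fin.last m)
    have s0 := hypos 0
    have b := E_log x' px' (show i + 1 ≤ m by omega)
    have a := E_cmp y' x' px' hxy (show i + 1 ≤ m by omega)
    have qx0 := E_pos x' px' (show i ≤ m by omega)
    have qx1 := E_pos x' px' (show i + 1 ≤ m by omega)
    have qy0 := E_pos y' py' (show i ≤ m by omega)
    have qy1 := E_pos y' py' (show i + 1 ≤ m by omega)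
    -- (b)
    have B : E x (i+2) * E x' i < E x' (i+1) * E x (i+1) := by
      rw [E_init, E_init, ← hx']
      nlinarith
    -- (c)
    have Cc : E y' (i+1) * E y i < E y (i+1) * E y' i := by
      rw [E_succ y i, ← hy']
      cases i with
      | zero =>
        rw [E_zero, E_zero] at *
        nlinarith
      | succ i =>
        rw [E_succ y i, ← hy']
        have c := E_log y' py' (show i + 1 ≤ m by omega)
        nlinarith
    have qyi : 0 < E y i := E_pos y hypos (by omega)
    have qxi : 0 < E x (i+1) := E_pos x hpos (by omega)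
    have qyi1 : 0 < E y (i+1) := E_pos y hypos (by omega)
    have qx2 : 0 < E x (i+2) := E_pos x hpos (by omega)
    have key : E y i * E x (i+2) < E y (i+1) * E x (i+1) := by
      -- multiply chains
      have m1 : (E x (i+2) * E x' i) * (E x' (i+1) * E y' i) <
          (E x' (i+1) * E x (i+1)) * (E x' i * E y' (i+1)) :=
        mul_lt_mul'' B a (by positivity) (by positivity)
      have m2 : E x (i+2) * E y' i < E x (i+1) * E y' (i+1) := by
        refine lt_of_mul_lt_mul_right ?_ (mul_pos qx0 qx1).le
        calc _ = (E x (i+2) * E x' i) * (E x' (i+1) * E y' i) := by ring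
          _ < _ := m1
          _ = _ := by ring
      have m3 : (E x (i+2) * E y' i) * (E y' (i+1) * E y i) <
          (E x (i+1) * E y' (i+1)) * (E y (i+1) * E y' i) :=
        mul_lt_mul'' m2 Cc (by positivity) (by positivity)
      refine lt_of_mul_lt_mul_right ?_ (mul_pos qy0 qy1).le
      calc _ = (E x (i+2) * E y' i) * (E y' (i+1) * E y i) := by ring
        _ < _ := m3
        _ = _ := by ring
    have := mul_lt_mul_of_pos_left key hP
    calc _ = (∏ k, x k) * (E y i * E x (i+2)) := by ring
      _ < _ := this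
      _ = _ := by ring

end BMoll
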