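import Pool.Agent.Lib.MP_a93a81_co.ClsL
import Pool.Agent.Lib.MP_a93a81_co.Trans
import Pool.Agent.Lib.MP_a93a81_co.BaseSmall
import Pool.Agent.Lib.MP_a93a81_co.BaseBig

/-!
# Module FINAL
-/

namespace BMoll

open Polynomial Finset

theorem srm_smul {n : ℕ} {a : ℕ → ℝ} (h : StrictRatioMono n a) {c : ℝ} (hc : 0 < c) :
    StrictRatioMono n (fun i => c * a i) := by
  obtain ⟨h1, h2, h3, h4, h5⟩ := h
  have key : ∀ x y : ℝ, c * x / (c * y) = x / y := fun x y => mul_div_mul_left x y hc.ne'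
  refine ⟨fun i hi => mul_pos hc (h1 i hi), fun i hi => ?_, fun hn => ?_, fun i hi => ?_, ?_⟩
  · simp only [key]; exact h2 i hi
  · simp only [key]; exact h3 hn
  · simp only [key]; exact h4 i hi
  · simp only [key]; exact h5

theorem iter_cls {m : ℕ} (hm : 2 ≤ m) (k : ℕ) :
    ∃ x : Fin m → ℝ, Cls m x ∧ ∃ c : ℝ, 0 < c ∧ ∀ i, Lop^[k+1] (bm m) i = c * (pr x).coeff i := by
  induction k with
  | zero =>
    rcases lt_or_ge m 60 with h | h
    · simpa using base_small hm h
    · simpa using base_big h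
  | succ k ih =>
    obtain ⟨x, hx, c, hc, hcoef⟩ := ih
    obtain ⟨σ, hσ, hL⟩ := cls_L hx
    refine ⟨σ, hσ, c^2, by positivity, fun i => ?_⟩
    rw [Function.iterate_succ_apply']
    have : Lop^[k+1] (bm m) = fun j => c * (pr x).coeff j := funext hcoef
    rw [this, Lop_smul, ← hL, LP_coeff]

theorem main {m : ℕ} (hm : 2 ≤ m) (k : ℕ) : StrictRatioMono m (Lop^[k] (bm m)) := by
  cases k with
  | zero => exact bm_ratio hm
  | succ k =>
    obtain ⟨x, hx, c, hc, hcoef⟩ := iter_cls hm k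
    have : Lop^[k+1] (bm m) = fun j => c * (pr x).coeff j := funext hcoef
    rw [this]
    exact srm_smul (cls_ratio hm hx) hc

end BMoll
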