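import Pool.Agent.Lib.MP_a93a81_co.SturmB

/-!
# Module HALFWAVE : sign of `∫ U W`

`a_j = ∫_{nz j}^{nz (j+1)} |U| W` for `0 ≤ j ≤ k-1`.  For `1 ≤ j ≤ k-1` reflection at `nz n j` gives
`a_{j-1} = ∫_0^{g₁} |U(y-t)| W(y-t) dt < ∫_0^{g₁} |U(y+t)| W(y+t) dt ≤ a_j`
(`Uf_reflect`, `gap_lt`, `hrefl`; for `t < g₁ ≤ nz n j`).  `∫_0^{Y} U W = ∑_{j<k} (-1)^j a_j`, and with
`S_j = ∑_{i<j} (-1)^i a_i` one shows `0 < (-1)^{j-1} S_j ≤ a_{j-1}` by induction.
-/

namespace BMoll

open MeasureTheory intervalIntegral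

theorem nz_le_of {n i j : ℕ} (hij : i ≤ j) (hj : j ≤ n) : nz n i ≤ nz n j := by
  rcases hij.lt_or_eq with h | h
  · exact (nz_lt h hj).le
  · rw [h]

theorem nz_nonneg {n j : ℕ} (hj : j ≤ n) : 0 ≤ nz n j := by
  have := nz_le_of (Nat.zero_le j) hj
  rwa [nz_zero] at this

section

variable {n k : ℕ} (hkn : k ≤ n) {W : ℝ → ℝ}
    (hpos : ∀ z ∈ Set.Ioc 0 (nz n k), 0 < W z)
    (hint : IntervalIntegrable (fun z => Uf n z * W z) volume 0 (nz n k))

include hkn hint

theorem hw_int {i j : ℕ} (hij : i ≤ j) (hj : j ≤ k) :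
    IntervalIntegrable (fun z => Uf n z * W z) volume (nz n i) (nz n j) := by
  apply hint.mono_set
  rw [Set.uIcc_of_le (nz_le_of hij (hj.trans hkn)), Set.uIcc_of_le (nz_nonneg hkn)]
  exact Set.Icc_subset_Icc (nz_nonneg (by omega)) (nz_le_of hj hkn)

theorem hw_intabs {i j : ℕ} (hij : i ≤ j) (hj : j ≤ k) :
    IntervalIntegrable (fun z => |Uf n z * W z|) volume (nz n i) (nz n j) :=
  (hw_int hkn hint hij hj).abs

include hpos

theorem hw_seg {j : ℕ} (hj : j < k) :
    ∫ z in (nz n j)..(nz n (j+1)), Uf n z * W z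
      = (-1)^j * ∫ z in (nz n j)..(nz n (j+1)), |Uf n z * W z| := by
  rw [← intervalIntegral.integral_const_mul,
    intervalIntegral.integral_of_le (nz_le_of (by omega) (by omega)),
    intervalIntegral.integral_of_le (nz_le_of (by omega) (by omega))]
  apply setIntegral_congr_fun measurableSet_Ioc
  intro z hz
  simp only
  rcases hz.2.lt_or_eq with h | h
  · have h1 := Uf_sign (n := n) (j := j) (by omega) hz.1 h
    have h2 : 0 < W z := hpos z ⟨(nz_nonneg (by omega)).trans_lt hz.1,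
      hz.2.trans (nz_le_of (by omega) hkn)⟩
    have h3 : |Uf n z| = (-1)^j * Uf n z := by
      have : |(-1)^j * Uf n z| = |Uf n z| := by rw [abs_mul, abs_pow]; simp
      rw [← this, abs_of_pos h1]
    rw [abs_mul, abs_of_pos h2, h3, ← mul_assoc, ← mul_assoc, ← mul_pow]
    simp
  · rw [h, Uf_zero_iff (by omega)]
    simp

theorem hw_pos {j : ℕ} (hj : j < k) :
    0 < ∫ z in (nz n j)..(nz n (j+1)), |Uf n z * W z| := by
  apply intervalIntegral_pos_of_pos_on (hw_intabs hkn hint (by omega) (by omega)) _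
    (nz_lt (by omega) (by omega))
  intro z hz
  have h1 := Uf_sign (n := n) (j := j) (by omega) hz.1 hz.2
  have h2 : 0 < W z := hpos z ⟨(nz_nonneg (by omega)).trans_lt hz.1,
      hz.2.le.trans (nz_le_of (by omega) hkn)⟩
  have h3 : Uf n z ≠ 0 := by
    rintro h; rw [h] at h1; simp at h1
  exact abs_pos.2 (mul_ne_zero h3 h2.ne')

theorem hw_step (hrefl : ∀ j, 1 ≤ j → j < k → ∀ t, 0 < t → t < nz n j → nz n j + t ≤ nz n k →
      W (nz n j - t) ≤ W (nz n j + t)) {j : ℕ} (hj1 : 1 ≤ j) (hj : j < k) :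
    ∫ z in (nz n (j-1))..(nz n j), |Uf n z * W z|
      < ∫ z in (nz n j)..(nz n (j+1)), |Uf n z * W z| := by
  have hgap := gap_lt (n := n) (j := j) hj1 (by omega)
  have hbl : nz n (j-1) < nz n j := nz_lt (by omega) (by omega)
  have hbn : 0 ≤ nz n (j-1) := nz_nonneg (by omega)
  have hjk : nz n (j+1) ≤ nz n k := nz_le_of (by omega) hkn
  set y := nz n j with hy
  set g := y - nz n (j-1) with hg
  have hg0 : 0 < g := by linarith
  have e1 : ∫ z in (nz n (j-1))..y, |Uf n z * W z|
      = ∫ t in (0:ℝ)..g, |Uf n (y - t) * W (y - t)| := by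
    rw [intervalIntegral.integral_comp_sub_left (fun z => |Uf n z * W z|) y]
    congr 1 <;> simp [hg]
  have e2 : ∫ t in (0:ℝ)..g, |Uf n (y + t) * W (y + t)|
      = ∫ z in y..(y+g), |Uf n z * W z| := by
    rw [intervalIntegral.integral_comp_add_left (fun z => |Uf n z * W z|) y]
    congr 1 <;> simp
  have i1 : IntervalIntegrable (fun t => |Uf n (y - t) * W (y - t)|) volume 0 g := by
    have := (hw_intabs hkn hint (i := j-1) (j := j) (by omega) hj.le).comp_sub_left y
    simp only [← hy] at this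
    have h3 : y - nz n (j-1) = g := rfl
    rw [h3, sub_self] at this
    exact this.symm
  have i2' : IntervalIntegrable (fun z => |Uf n z * W z|) volume y (y+g) := by
    apply (hw_intabs hkn hint (i := j) (j := j+1) (by omega) (by omega)).mono_set
    rw [Set.uIcc_of_le (by linarith), ← hy, Set.uIcc_of_le (by linarith)]
    exact Set.Icc_subset_Icc le_rfl (by linarith)
  have i2 : IntervalIntegrable (fun t => |Uf n (y + t) * W (y + t)|) volume 0 g := by
    have := i2'.comp_add_left y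
    simpa using this
  have i3 : IntervalIntegrable (fun z => |Uf n z * W z|) volume (y+g) (nz n (j+1)) := by
    apply (hw_intabs hkn hint (i := j) (j := j+1) (by omega) (by omega)).mono_set
    rw [Set.uIcc_of_le (by linarith), ← hy, Set.uIcc_of_le (by linarith)]
    exact Set.Icc_subset_Icc (by linarith) le_rfl
  have hsplit : ∫ z in y..(nz n (j+1)), |Uf n z * W z|
      = (∫ z in y..(y+g), |Uf n z * W z|) + ∫ z in (y+g)..(nz n (j+1)), |Uf n z * W z| :=
    (intervalIntegral.integral_add_adjacent_intervals i2' i3).symm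
  have hnn : 0 ≤ ∫ z in (y+g)..(nz n (j+1)), |Uf n z * W z| :=
    intervalIntegral.integral_nonneg (by linarith) (fun z _ => abs_nonneg _)
  have hlt : 0 < ∫ t in (0:ℝ)..g, (|Uf n (y + t) * W (y + t)| - |Uf n (y - t) * W (y - t)|) := by
    apply intervalIntegral_pos_of_pos_on (i2.sub i1) _ hg0
    intro t ht
    have h3 := Uf_reflect (n := n) (j := j) hj1 (by omega) ht.1 (by rw [← hy, ← hg]; exact ht.2.le)
    rw [← hy] at h3
    have h4 := hrefl j hj1 hj t ht.1 (by rw [← hy]; linarith [ht.2])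
      (by rw [← hy]; linarith [ht.2])
    rw [← hy] at h4
    have h5 : 0 < W (y - t) := hpos _ ⟨by linarith [ht.2], by linarith [ht.1]⟩
    have h6 : 0 < W (y + t) := h5.trans_le h4
    rw [abs_mul, abs_mul, abs_of_pos h5, abs_of_pos h6]
    have h7 : 0 ≤ |Uf n (y - t)| := abs_nonneg _
    nlinarith [mul_le_mul_of_nonneg_left h4 h7, mul_lt_mul_of_pos_right h3 h6]
  rw [intervalIntegral.integral_sub i2 i1] at hlt
  rw [e1, hsplit, ← e2]
  linarith

end

theorem half_wave {n k : ℕ} (hk1 : 1 ≤ k) (hkn : k ≤ n) {W : ℝ → ℝ}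
    (hpos : ∀ z ∈ Set.Ioc 0 (nz n k), 0 < W z) (hcont : ContinuousOn W (Set.Ioc 0 (nz n k)))
    (hint : IntervalIntegrable (fun z => Uf n z * W z) volume 0 (nz n k))
    (hrefl : ∀ j, 1 ≤ j → j < k → ∀ t, 0 < t → t < nz n j → nz n j + t ≤ nz n k →
      W (nz n j - t) ≤ W (nz n j + t)) :
    0 < (-1)^(k-1) * ∫ z in (0:ℝ)..(nz n k), Uf n z * W z := by
  have key : ∀ j, j < k →
      0 < (-1)^j * (∫ z in (0:ℝ)..(nz n (j+1)), Uf n z * W z) ∧
      (-1)^j * (∫ z in (0:ℝ)..(nz n (j+1)), Uf n z * W z)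
        ≤ ∫ z in (nz n j)..(nz n (j+1)), |Uf n z * W z| := by
    intro j
    induction j with
    | zero =>
      intro hj
      have h1 := hw_seg hkn hpos hint hj
      have h2 := hw_pos hkn hpos hint hj
      rw [nz_zero] at h1 h2 ⊢
      rw [h1]
      simp only [pow_zero, one_mul]
      exact ⟨h2, le_rfl⟩
    | succ j ih =>
      intro hj
      obtain ⟨ih1, ih2⟩ := ih (by omega)
      have h1 := hw_seg hkn hpos hint hj
      have h3 := hw_step hkn hpos hint hrefl (j := j+1) (by omega) hj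
      rw [show j + 1 - 1 = j by omega] at h3
      have hsplit : ∫ z in (0:ℝ)..(nz n (j+1+1)), Uf n z * W z
          = (∫ z in (0:ℝ)..(nz n (j+1)), Uf n z * W z)
            + ∫ z in (nz n (j+1))..(nz n (j+1+1)), Uf n z * W z := by
        have i1 := hw_int hkn hint (i := 0) (j := j+1) (by omega) (by omega)
        have i2 := hw_int hkn hint (i := j+1) (j := j+1+1) (by omega) (by omega)
        rw [nz_zero] at i1
        exact (intervalIntegral.integral_add_adjacent_intervals i1 i2).symm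
      rw [hsplit, h1]
      have hsq : ((-1:ℝ))^(j+1) * (-1)^(j+1) = 1 := by rw [← mul_pow]; simp
      have e : (-1:ℝ)^(j+1) * ((∫ z in (0:ℝ)..(nz n (j+1)), Uf n z * W z)
          + (-1)^(j+1) * ∫ z in (nz n (j+1))..(nz n (j+1+1)), |Uf n z * W z|)
          = (∫ z in (nz n (j+1))..(nz n (j+1+1)), |Uf n z * W z|)
            - (-1)^j * ∫ z in (0:ℝ)..(nz n (j+1)), Uf n z * W z := by
        rw [mul_add, ← mul_assoc, hsq, pow_succ]
        ring
      rw [e]
      constructor
      · linarith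
      · linarith
  have := (key (k-1) (by omega)).1
  rwa [show k - 1 + 1 = k by omega] at this

end BMoll
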