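import Pool.Agent.Lib.MP_a93a81_co.Defs

/-!
# Rational functions of the kernel (definitions only)

`t = tanh(a/2) = (1-R)/(1+R)`, `A = R d/dR = -(1/2)(1-t^2) d/dt`, `p = 2m + 3/2`.
`A g = gam g`, `A^2 g = G2 g`, `f = T0 g`, `A^j f = Tj g`.
Recursion: `T_{j+1} = gam T_j - D T_j`, `G2 = gam^2 - D gam`, `D = (1/2)(1-t^2) d/dt`.
-/

noncomputable section

namespace BMoll

def E1 (t s : ℝ) : ℝ := 1 + s*t^2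
def F1 (t s : ℝ) : ℝ := 1 - t^2 + s*t^2
def u1 (t : ℝ) : ℝ := 1 - t^2

def M1c1 (m s : ℝ) : ℝ :=
    (3/2) + 2*s + 2*m + 2*m*s

def M1c3 (m s : ℝ) : ℝ :=
    (-3/2) + 2*s^2 + (-2)*m + 2*m*s^2

/-- numerator over `E1^1 * F1^1 * u1^0` -/
def M1 (m t s : ℝ) : ℝ :=
    M1c1 m s*t + M1c3 m s*t^3

def M2c0 (m s : ℝ) : ℝ :=
    (-3/4) + (-1)*s + (-1)*m + (-1)*m*s

def M2c2 (m s : ℝ) : ℝ :=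
    (9/2) + (15/2)*s + 3*s^2 + 9*m + 16*m*s + 7*m*s^2 + 4*m^2 + 8*m^2*s + 4*m^2*s^2

def M2c4 (m s : ℝ) : ℝ :=
    (-27/4) + (-29/4)*s + (29/4)*s^2 + 9*s^3 + (-15)*m + (-16)*m*s + 16*m*s^2 + 17*m*s^3
    + (-8)*m^2 + (-8)*m^2*s + 8*m^2*s^2 + 8*m^2*s^3

def M2c6 (m s : ℝ) : ℝ :=
    3 + (3/2)*s + (-7)*s^2 + (-2)*s^3 + 5*s^4 + 7*m + 2*m*s + (-16)*m*s^2 + (-2)*m*s^3
    + 9*m*s^4 + 4*m^2 + (-8)*m^2*s^2 + 4*m^2*s^4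

def M2c8 (m s : ℝ) : ℝ :=
    (-3/4)*s + (3/4)*s^2 + 1*s^3 + (-1)*s^4 + (-1)*m*s + 1*m*s^2 + 1*m*s^3 + (-1)*m*s^4

/-- numerator over `E1^2 * F1^2 * u1^0` -/
def M2 (m t s : ℝ) : ℝ :=
    M2c0 m s + M2c2 m s*t^2 + M2c4 m s*t^4 + M2c6 m s*t^6 + M2c8 m s*t^8

def N1c1 (m s : ℝ) : ℝ :=
    (-8)*s

def N1c3 (m s : ℝ) : ℝ :=
    20*s + (-8)*s^2 + 16*m*s + 16*m*s^2

def N1c5 (m s : ℝ) : ℝ :=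
    (-12)*s + 8*s^2 + (-16)*m*s + 16*m*s^3

/-- numerator over `E1^1 * F1^0 * u1^2` -/
def N1 (m t s : ℝ) : ℝ :=
    N1c1 m s*t + N1c3 m s*t^3 + N1c5 m s*t^5

def N2c0 (m s : ℝ) : ℝ :=
    4*s

def N2c2 (m s : ℝ) : ℝ :=
    (-34)*s + (-4)*s^2 + (-40)*m*s + (-40)*m*s^2

def N2c4 (m s : ℝ) : ℝ :=
    80*s + (-4)*s^2 + (-20)*s^3 + 136*m*s + 64*m*s^2 + (-72)*m*s^3 + 32*m^2*s + 64*m^2*s^2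
    + 32*m^2*s^3

def N2c6 (m s : ℝ) : ℝ :=
    (-74)*s + 18*s^2 + 46*s^3 + (-12)*s^4 + (-152)*m*s + 128*m*s^3 + (-24)*m*s^4 + (-64)*m^2*s
    + (-64)*m^2*s^2 + 64*m^2*s^3 + 64*m^2*s^4

def N2c8 (m s : ℝ) : ℝ :=
    24*s + (-4)*s^2 + (-36)*s^3 + 16*s^4 + 56*m*s + (-16)*m*s^2 + (-64)*m*s^3 + 16*m*s^4
    + 8*m*s^5 + 32*m^2*s + (-64)*m^2*s^3 + 32*m^2*s^5

def N2c10 (m s : ℝ) : ℝ :=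
    (-6)*s^2 + 10*s^3 + (-4)*s^4 + (-8)*m*s^2 + 8*m*s^3 + 8*m*s^4 + (-8)*m*s^5

/-- numerator over `E1^2 * F1^1 * u1^2` -/
def N2 (m t s : ℝ) : ℝ :=
    N2c0 m s + N2c2 m s*t^2 + N2c4 m s*t^4 + N2c6 m s*t^6 + N2c8 m s*t^8 + N2c10 m s*t^10

def N3c1 (m s : ℝ) : ℝ :=
    28*s + 24*s^2 + 48*m*s + 48*m*s^2

def N3c3 (m s : ℝ) : ℝ :=
    (-171)*s + (-136)*s^2 + 48*s^3 + (-368)*m*s + (-344)*m*s^2 + 24*m*s^3 + (-144)*m^2*s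
    + (-288)*m^2*s^2 + (-144)*m^2*s^3

def N3c5 (m s : ℝ) : ℝ :=
    405*s + 272*s^2 + (-320)*s^3 + 1004*m*s + 716*m*s^2 + (-496)*m*s^3 + (-208)*m*s^4
    + 624*m^2*s + 864*m^2*s^2 + (-144)*m^2*s^3 + (-384)*m^2*s^4 + 64*m^3*s + 192*m^3*s^2
    + 192*m^3*s^3 + 64*m^3*s^4

def N3c7 (m s : ℝ) : ℝ :=
    (-469)*s + (-283)*s^2 + 719*s^3 + (-80)*s^4 + (-48)*s^5 + (-1284)*m*s + (-624)*m*s^2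
    + 1348*m*s^3 + 400*m*s^4 + (-288)*m*s^5 + (-1008)*m^2*s + (-816)*m^2*s^2 + 1104*m^2*s^3
    + 624*m^2*s^4 + (-288)*m^2*s^5 + (-192)*m^3*s + (-384)*m^3*s^2 + 384*m^3*s^4 + 192*m^3*s^5

def N3c9 (m s : ℝ) : ℝ :=
    267*s + 219*s^2 + (-759)*s^3 + 192*s^4 + 116*s^5 + (-24)*s^6 + 788*m*s + 332*m*s^2
    + (-1440)*m*s^3 + (-224)*m*s^4 + 664*m*s^5 + (-96)*m*s^6 + 720*m^2*s + 240*m^2*s^2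
    + (-1200)*m^2*s^3 + (-240)*m^2*s^4 + 480*m^2*s^5 + 192*m^3*s + 192*m^3*s^2
    + (-384)*m^3*s^3 + (-384)*m^3*s^4 + 192*m^3*s^5 + 192*m^3*s^6

def N3c11 (m s : ℝ) : ℝ :=
    (-60)*s + (-141)*s^2 + 405*s^3 + (-144)*s^4 + (-100)*s^5 + 40*s^6 + (-188)*m*s
    + (-224)*m*s^2 + 724*m*s^3 + 72*m*s^4 + (-544)*m*s^5 + 152*m*s^6 + 8*m*s^7 + (-192)*m^2*s
    + (-48)*m^2*s^2 + 432*m^2*s^3 + 96*m^2*s^4 + (-288)*m^2*s^5 + (-48)*m^2*s^6 + 48*m^2*s^7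
    + (-64)*m^3*s + 192*m^3*s^3 + (-192)*m^3*s^5 + 64*m^3*s^7

def N3c13 (m s : ℝ) : ℝ :=
    45*s^2 + (-93)*s^3 + 32*s^4 + 32*s^5 + (-16)*s^6 + 96*m*s^2 + (-160)*m*s^3 + (-40)*m*s^4
    + 168*m*s^5 + (-56)*m*s^6 + (-8)*m*s^7 + 48*m^2*s^2 + (-48)*m^2*s^3 + (-96)*m^2*s^4
    + 96*m^2*s^5 + 48*m^2*s^6 + (-48)*m^2*s^7

/-- numerator over `E1^3 * F1^2 * u1^2` -/
def N3 (m t s : ℝ) : ℝ :=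
    N3c1 m s*t + N3c3 m s*t^3 + N3c5 m s*t^5 + N3c7 m s*t^7 + N3c9 m s*t^9 + N3c11 m s*t^11 + N3c13 m s*t^13

def N4c0 (m s : ℝ) : ℝ :=
    (-14)*s + (-12)*s^2 + (-24)*m*s + (-24)*m*s^2

def N4c2 (m s : ℝ) : ℝ :=
    (429/2)*s + 336*s^2 + 72*s^3 + 536*m*s + 836*m*s^2 + 300*m*s^3 + 312*m^2*s + 624*m^2*s^2
    + 312*m^2*s^3

def N4c4 (m s : ℝ) : ℝ :=
    (-1042)*s + (-1734)*s^2 + 162*s^3 + 348*s^4 + (-2996)*m*s + (-4600)*m*s^2 + (-532)*m*s^3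
    + 1072*m*s^4 + (-2464)*m^2*s + (-4400)*m^2*s^2 + (-1408)*m^2*s^3 + 528*m^2*s^4
    + (-448)*m^3*s + (-1344)*m^3*s^2 + (-1344)*m^3*s^3 + (-448)*m^3*s^4

def N4c6 (m s : ℝ) : ℝ :=
    2483*s + 4151*s^2 + (-2399)*s^3 + (-1720)*s^4 + 432*s^5 + 7788*m*s + 11072*m*s^2
    + (-3792)*m*s^3 + (-6256)*m*s^4 + 820*m*s^5 + 7688*m^2*s + 11472*m^2*s^2 + (-1040)*m^2*s^3
    + (-5744)*m^2*s^4 + (-920)*m^2*s^5 + 2368*m^3*s + 5504*m^3*s^2 + 2304*m^3*s^3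
    + (-2432)*m^3*s^4 + (-1600)*m^3*s^5 + 128*m^4*s + 512*m^4*s^2 + 768*m^4*s^3 + 512*m^4*s^4
    + 128*m^4*s^5

def N4c8 (m s : ℝ) : ℝ :=
    (-3312)*s + (-5832)*s^2 + 6898*s^3 + 3092*s^4 + (-2442)*s^5 + 108*s^6 + (-11072)*m*s
    + (-14900)*m*s^2 + 14864*m*s^3 + 13100*m*s^4 + (-6192)*m*s^5 + (-600)*m*s^6
    + (-12352)*m^2*s + (-14848)*m^2*s^2 + 11216*m^2*s^3 + 14848*m^2*s^4 + (-1584)*m^2*s^5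
    + (-2720)*m^2*s^6 + (-4992)*m^3*s + (-8384)*m^3*s^2 + 2880*m^3*s^3 + 9024*m^3*s^4
    + 832*m^3*s^5 + (-1920)*m^3*s^6 + (-512)*m^4*s + (-1536)*m^4*s^2 + (-1024)*m^4*s^3
    + 1024*m^4*s^4 + 1536*m^4*s^5 + 512*m^4*s^6

def N4c10 (m s : ℝ) : ℝ :=
    (5069/2)*s + 5412*s^2 + (-19135/2)*s^3 + (-2533)*s^4 + (10409/2)*s^5 + (-720)*s^6
    + (-120)*s^7 + 8912*m*s + 12988*m*s^2 + (-22416)*m*s^3 + (-13268)*m*s^4 + 14808*m*s^5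
    + 580*m*s^6 + (-1004)*m*s^7 + 10888*m^2*s + 11024*m^2*s^2 + (-18832)*m^2*s^3
    + (-16944)*m^2*s^4 + 10224*m^2*s^5 + 6160*m^2*s^6 + (-2040)*m^2*s^7 + 5248*m^3*s
    + 5760*m^3*s^2 + (-8832)*m^3*s^3 + (-9216)*m^3*s^4 + 4224*m^3*s^5 + 3456*m^3*s^6
    + (-640)*m^3*s^7 + 768*m^4*s + 1536*m^4*s^2 + (-768)*m^4*s^3 + (-3072)*m^4*s^4
    + (-768)*m^4*s^5 + 1536*m^4*s^6 + 768*m^4*s^7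

def N4c12 (m s : ℝ) : ℝ :=
    (-1044)*s + (-3464)*s^2 + 7338*s^3 + 998*s^4 + (-5504)*s^5 + 1426*s^6 + 310*s^7 + (-60)*s^8
    + (-3828)*m*s + (-8168)*m*s^2 + 17664*m*s^3 + 7452*m*s^4 + (-16376)*m*s^5 + 1036*m*s^6
    + 2540*m*s^7 + (-320)*m*s^8 + (-5024)*m^2*s + (-5808)*m^2*s^2 + 14384*m^2*s^3
    + 10816*m^2*s^4 + (-14128)*m^2*s^5 + (-4640)*m^2*s^6 + 4768*m^2*s^7 + (-368)*m^2*s^8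
    + (-2752)*m^3*s + (-1856)*m^3*s^2 + 6720*m^3*s^3 + 4032*m^3*s^4 + (-5184)*m^3*s^5
    + (-2496)*m^3*s^6 + 1216*m^3*s^7 + 320*m^3*s^8 + (-512)*m^4*s + (-512)*m^4*s^2
    + 1536*m^4*s^3 + 1536*m^4*s^4 + (-1536)*m^4*s^5 + (-1536)*m^4*s^6 + 512*m^4*s^7
    + 512*m^4*s^8

def N4c14 (m s : ℝ) : ℝ :=
    180*s + 1413*s^2 + (-3024)*s^3 + (-318)*s^4 + 3069*s^5 + (-1136)*s^6 + (-304)*s^7 + 120*s^8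
    + 684*m*s + 3552*m*s^2 + (-7436)*m*s^3 + (-2748)*m*s^4 + 9080*m*s^5 + (-1420)*m*s^6
    + (-2340)*m*s^7 + 616*m*s^8 + 12*m*s^9 + 952*m^2*s + 2608*m^2*s^2 + (-5648)*m^2*s^3
    + (-4592)*m^2*s^4 + 8528*m^2*s^5 + 1360*m^2*s^6 + (-3920)*m^2*s^7 + 624*m^2*s^8
    + 88*m^2*s^9 + 576*m^3*s + 512*m^3*s^2 + (-1920)*m^3*s^3 + (-1536)*m^3*s^4 + 2304*m^3*s^5
    + 1536*m^3*s^6 + (-1152)*m^3*s^7 + (-512)*m^3*s^8 + 192*m^3*s^9 + 128*m^4*s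
    + (-512)*m^4*s^3 + 768*m^4*s^5 + (-512)*m^4*s^7 + 128*m^4*s^9

def N4c16 (m s : ℝ) : ℝ :=
    (-270)*s^2 + 498*s^3 + 202*s^4 + (-822)*s^5 + 322*s^6 + 138*s^7 + (-68)*s^8 + (-756)*m*s^2
    + 1300*m*s^3 + 776*m*s^4 + (-2200)*m*s^5 + 300*m*s^6 + 916*m*s^7 + (-320)*m*s^8
    + (-16)*m*s^9 + (-672)*m^2*s^2 + 992*m^2*s^3 + 1136*m^2*s^4 + (-2096)*m^2*s^5
    + (-256)*m^2*s^6 + 1216*m^2*s^7 + (-208)*m^2*s^8 + (-112)*m^2*s^9 + (-192)*m^3*s^2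
    + 192*m^3*s^3 + 576*m^3*s^4 + (-576)*m^3*s^5 + (-576)*m^3*s^6 + 576*m^3*s^7 + 192*m^3*s^8
    + (-192)*m^3*s^9

def N4c18 (m s : ℝ) : ℝ :=
    (45/2)*s^3 + (-69)*s^4 + (125/2)*s^5 + (-24)*s^7 + 8*s^8 + 48*m*s^3 + (-128)*m*s^4
    + 60*m*s^5 + 104*m*s^6 + (-112)*m*s^7 + 24*m*s^8 + 4*m*s^9 + 24*m^2*s^3 + (-48)*m^2*s^4
    + (-24)*m^2*s^5 + 96*m^2*s^6 + (-24)*m^2*s^7 + (-48)*m^2*s^8 + 24*m^2*s^9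

/-- numerator over `E1^4 * F1^3 * u1^2` -/
def N4 (m t s : ℝ) : ℝ :=
    N4c0 m s + N4c2 m s*t^2 + N4c4 m s*t^4 + N4c6 m s*t^6 + N4c8 m s*t^8 + N4c10 m s*t^10 + N4c12 m s*t^12 + N4c14 m s*t^14 + N4c16 m s*t^16 + N4c18 m s*t^18

def gam (m t s : ℝ) : ℝ := M1 m t s / (E1 t s * F1 t s)
def G2 (m t s : ℝ) : ℝ := M2 m t s / (E1 t s ^ 2 * F1 t s ^ 2)
def T0 (t s : ℝ) : ℝ := 8*s*t^2 * F1 t s / u1 t ^ 2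
def T1f (m t s : ℝ) : ℝ := N1 m t s / (E1 t s * u1 t ^ 2)
def T2f (m t s : ℝ) : ℝ := N2 m t s / (E1 t s ^ 2 * F1 t s * u1 t ^ 2)
def T3f (m t s : ℝ) : ℝ := N3 m t s / (E1 t s ^ 3 * F1 t s ^ 2 * u1 t ^ 2)
def T4f (m t s : ℝ) : ℝ := N4 m t s / (E1 t s ^ 4 * F1 t s ^ 3 * u1 t ^ 2)

/-- `ρ = μ tanh a - 2`, `tanh a = 2t/(1+t^2)`, `μ = 3m/5` -/
def rhot (m t : ℝ) : ℝ := (6/5)*m*t/(1+t^2) - 2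

end BMoll

end
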