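import Pool.Agent.Lib.MP_a93a81_co.KPoly

/-!
# Module KERFORM : derivatives of the kernel functions

For `R > 0`, `0 ≤ s`, `t = (1-R)/(1+R)`:  `Eh R s = (1+R)^2 E1`, `Fh R s = (1+R)^2 F1`,
`u1 = 4R/(1+R)^2`, `R dt/dR = -(1/2)(1-t^2)`, `Aop g = gam g`, and
`Aop (T(t(R)) g(R)) = (gam T - (1/2)(1-t^2) T'(t)) g`; all rational functions are handled through
their numerators.
-/

namespace BMoll

/-- `t = (1-R)/(1+R)` -/
noncomputable def tR (R : ℝ) : ℝ := (1-R)/(1+R)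

theorem tR_hasDeriv {R : ℝ} (hR : 0 < R) : HasDerivAt tR (-2/(1+R)^2) R := by
  have h1 : (1:ℝ) + R ≠ 0 := by positivity
  have h := ((hasDerivAt_id R).const_sub 1).div
    ((hasDerivAt_id R).const_add 1) h1
  refine (h.congr_deriv ?_)
  simp
  ring

theorem u1_tR {R : ℝ} (hR : 0 < R) : u1 (tR R) = 4*R/(1+R)^2 := by
  have h1 : (1:ℝ) + R ≠ 0 := by positivity
  rw [u1, tR]
  field_simp
  ring

theorem kf_u1_pos {R : ℝ} (hR : 0 < R) : 0 < u1 (tR R) := by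
  rw [u1_tR hR]
  positivity

theorem E1_pos' {t s : ℝ} (hs : 0 ≤ s) : 0 < E1 t s := by
  rw [E1]
  positivity

theorem F1_pos' {t s : ℝ} (ht : 0 < u1 t) (hs : 0 ≤ s) : 0 < F1 t s := by
  have : 0 ≤ s * t^2 := by positivity
  rw [F1]
  rw [u1] at ht
  linarith

theorem Eh_eq {R s : ℝ} (hR : 0 < R) : Eh R s = (1+R)^2 * E1 (tR R) s := by
  have h1 : (1:ℝ) + R ≠ 0 := by positivity
  rw [Eh, E1, tR]
  field_simp

theorem Fh_eq {R s : ℝ} (hR : 0 < R) : Fh R s = (1+R)^2 * F1 (tR R) s := by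
  have h1 : (1:ℝ) + R ≠ 0 := by positivity
  rw [Fh, F1, tR]
  field_simp
  ring

theorem Eh_pos {R s : ℝ} (hR : 0 < R) (hs : 0 ≤ s) : 0 < Eh R s := by
  rw [Eh]
  positivity

theorem Fh_pos {R s : ℝ} (hR : 0 < R) (hs : 0 ≤ s) : 0 < Fh R s := by
  rw [Fh]
  positivity

theorem G0_pos (m : ℕ) {R s : ℝ} (hR : 0 < R) (hs : 0 ≤ s) : 0 < G0 m R s := by
  rw [G0]
  exact mul_pos (mul_pos (pow_pos hR _) (Real.rpow_pos_of_pos (Eh_pos hR hs) _))
    (Real.rpow_pos_of_pos (Fh_pos hR hs) _)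

theorem Eh_smooth (s : ℝ) : ContDiff ℝ ⊤ (fun R => Eh R s) := by
  unfold Eh
  fun_prop

theorem Fh_smooth (s : ℝ) : ContDiff ℝ ⊤ (fun R => Fh R s) := by
  unfold Fh
  fun_prop

theorem G0_smooth (m : ℕ) {s : ℝ} (hs : 0 ≤ s) :
    ContDiffOn ℝ ⊤ (fun R => G0 m R s) (Set.Ioi 0) := by
  unfold G0
  refine ContDiffOn.mul (ContDiffOn.mul (by fun_prop) ?_) ?_
  · exact (Eh_smooth s).contDiffOn.rpow_const_of_ne (fun R hR => (Eh_pos hR hs).ne')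
  · exact (Fh_smooth s).contDiffOn.rpow_const_of_ne (fun R hR => (Fh_pos hR hs).ne')

theorem F0_smooth (m : ℕ) {s : ℝ} (hs : 0 ≤ s) :
    ContDiffOn ℝ ⊤ (fun R => F0 m R s) (Set.Ioi 0) := by
  unfold F0
  refine ContDiffOn.mul ?_ (G0_smooth m hs)
  refine ContDiffOn.div ?_ (by fun_prop) ?_
  · have := (Fh_smooth s).contDiffOn (s := Set.Ioi 0)
    fun_prop
  · intro R hR
    have : (0:ℝ) < R := hR
    positivity

/-- `R g' = gam g` -/
theorem G0_hasDeriv (m : ℕ) {R s : ℝ} (hR : 0 < R) (hs : 0 ≤ s) :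
    HasDerivAt (fun r => G0 m r s) (gam m (tR R) s * G0 m R s / R) R := by
  have hE := Eh_pos (s := s) hR hs
  have hF := Fh_pos (s := s) hR hs
  have dE : HasDerivAt (fun r => Eh r s) (2*(1+R) - 2*(1-R)*s) R := by
    unfold Eh
    have h := (((hasDerivAt_id R).const_add 1).pow 2).add
      (((((hasDerivAt_id R).const_sub 1).pow 2)).mul_const s)
    refine (h.congr_deriv ?_)
    simp
    ring
  have dF : HasDerivAt (fun r => Fh r s) (4 - 2*(1-R)*s) R := by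
    unfold Fh
    have h := (((hasDerivAt_id R).const_mul 4)).add
      (((((hasDerivAt_id R).const_sub 1).pow 2)).mul_const s)
    refine (h.congr_deriv ?_)
    simp
    ring
  have h1 := ((hasDerivAt_pow (2*m+2) R).mul
    (dE.rpow_const (p := (-(2*m+3/2) : ℝ)) (Or.inl hE.ne'))).mul
    (dF.rpow_const (p := (-(1/2) : ℝ)) (Or.inl hF.ne'))
  refine (h1.congr_deriv ?_)
  simp only [Pi.mul_apply]
  rw [Real.rpow_sub_one hE.ne', Real.rpow_sub_one hF.ne']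
  rw [G0]
  set A := Eh R s ^ (-(2*m+3/2) : ℝ)
  set B := Fh R s ^ (-(1/2) : ℝ)
  have hR1 : (1:ℝ) + R ≠ 0 := by positivity
  have hE1 : 0 < E1 (tR R) s := E1_pos' hs
  have hF1 : 0 < F1 (tR R) s := F1_pos' (kf_u1_pos hR) hs
  have e1 : (2*(1+R) - 2*(1-R)*s)*R/Eh R s = (1-tR R)*(1-tR R*s)/E1 (tR R) s := by
    rw [Eh_eq hR, div_eq_div_iff (by positivity) (by positivity)]
    rw [tR]
    field_simp
    ring
  have e2 : (4 - 2*(1-R)*s)*R/Fh R s = (1-tR R)*(1+tR R-tR R*s)/F1 (tR R) s := by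
    rw [Fh_eq hR, div_eq_div_iff (by positivity) (by positivity)]
    rw [tR]
    field_simp
    ring
  have hg : gam m (tR R) s = (2*m+2) - (2*m+3/2)*((2*(1+R) - 2*(1-R)*s)*R/Eh R s)
      - (1/2)*((4 - 2*(1-R)*s)*R/Fh R s) := by
    rw [e1, e2, gam, M1, M1c1, M1c3]
    field_simp
    rw [E1, F1]
    ring
  rw [hg]
  have e3 : (2*m+2-1) = 2*m+1 := by omega
  rw [e3]
  push_cast
  field_simp
  ring


theorem Aop_mul_G0 (m : ℕ) {R s : ℝ} (hR : 0 < R) (hs : 0 ≤ s) {F T : ℝ → ℝ} {d T' : ℝ}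
    (hF : ∀ r, 0 < r → F r = T (tR r) * G0 m r s) (hd : HasDerivAt T d (tR R))
    (hT' : T' = gam m (tR R) s * T (tR R) - (1/2)*u1 (tR R)*d) :
    Aop F R = T' * G0 m R s := by
  have h1 : HasDerivAt (fun r => T (tR r)) (d * (-2/(1+R)^2)) R := hd.comp R (tR_hasDeriv hR)
  have h2 := h1.mul (G0_hasDeriv m hR hs)
  have h3 : F =ᶠ[nhds R] (fun r => T (tR r)) * (fun r => G0 m r s) := by
    filter_upwards [Ioi_mem_nhds hR] with r hr
    exact hF r hr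
  have h4 := (h2.congr_of_eventuallyEq h3).deriv
  rw [Aop, h4, hT', u1_tR hR]
  have hR1 : (1:ℝ) + R ≠ 0 := by positivity
  field_simp
  ring

noncomputable section

def dE1 (t s : ℝ) : ℝ := 2*s*t
def dF1 (t s : ℝ) : ℝ := -2*t + 2*s*t
def du1 (t : ℝ) : ℝ := -2*t

def dM1 (m t s : ℝ) : ℝ := M1c1 m s + 3*M1c3 m s*t^2
def N0 (t s : ℝ) : ℝ := 8*s*t^2 + (-8*s + 8*s^2)*t^4
def dN0 (t s : ℝ) : ℝ := 16*s*t + 4*(-8*s + 8*s^2)*t^3
def dN1 (m t s : ℝ) : ℝ := N1c1 m s + 3*N1c3 m s*t^2 + 5*N1c5 m s*t^4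
def dN2 (m t s : ℝ) : ℝ :=
    2*N2c2 m s*t + 4*N2c4 m s*t^3 + 6*N2c6 m s*t^5 + 8*N2c8 m s*t^7 + 10*N2c10 m s*t^9
def dN3 (m t s : ℝ) : ℝ :=
    N3c1 m s + 3*N3c3 m s*t^2 + 5*N3c5 m s*t^4 + 7*N3c7 m s*t^6 + 9*N3c9 m s*t^8
     + 11*N3c11 m s*t^10 + 13*N3c13 m s*t^12

theorem id0 (m t s : ℝ) : N1 m t s * F1 t s =
    M1 m t s * N0 t s - (1/2)*u1 t*dN0 t s*(E1 t s*F1 t s)
      + (1/2)*u1 t*N0 t s*(0*dE1 t s*F1 t s + 0*dF1 t s*E1 t s)
      + N0 t s*du1 t*(E1 t s*F1 t s) := by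
  unfold N1 N1c1 N1c3 N1c5 M1 M1c1 M1c3 N0 dN0 u1 du1 E1 F1 dE1 dF1
  ring

theorem idG (m t s : ℝ) : M2 m t s =
    M1 m t s * M1 m t s - (1/2)*u1 t*dM1 m t s*(E1 t s*F1 t s)
      + (1/2)*u1 t*M1 m t s*(1*dE1 t s*F1 t s + 1*dF1 t s*E1 t s) := by
  unfold M2 M2c0 M2c2 M2c4 M2c6 M2c8 dM1 M1 M1c1 M1c3 u1 E1 F1 dE1 dF1
  ring

theorem id1 (m t s : ℝ) : N2 m t s =
    M1 m t s * N1 m t s - (1/2)*u1 t*dN1 m t s*(E1 t s*F1 t s)
      + (1/2)*u1 t*N1 m t s*(1*dE1 t s*F1 t s + 0*dF1 t s*E1 t s)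
      + N1 m t s*du1 t*(E1 t s*F1 t s) := by
  unfold N2 N2c0 N2c2 N2c4 N2c6 N2c8 N2c10 dN1 N1 N1c1 N1c3 N1c5 M1 M1c1 M1c3 u1 du1 E1 F1 dE1 dF1
  ring

theorem id2 (m t s : ℝ) : N3 m t s =
    M1 m t s * N2 m t s - (1/2)*u1 t*dN2 m t s*(E1 t s*F1 t s)
      + (1/2)*u1 t*N2 m t s*(2*dE1 t s*F1 t s + 1*dF1 t s*E1 t s)
      + N2 m t s*du1 t*(E1 t s*F1 t s) := by
  unfold N3 N3c1 N3c3 N3c5 N3c7 N3c9 N3c11 N3c13 dN2 N2 N2c0 N2c2 N2c4 N2c6 N2c8 N2c10 M1 M1c1 M1c3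
    u1 du1 E1 F1 dE1 dF1
  ring

theorem id3 (m t s : ℝ) : N4 m t s =
    M1 m t s * N3 m t s - (1/2)*u1 t*dN3 m t s*(E1 t s*F1 t s)
      + (1/2)*u1 t*N3 m t s*(3*dE1 t s*F1 t s + 2*dF1 t s*E1 t s)
      + N3 m t s*du1 t*(E1 t s*F1 t s) := by
  unfold N4 N4c0 N4c2 N4c4 N4c6 N4c8 N4c10 N4c12 N4c14 N4c16 N4c18 dN3 N3 N3c1 N3c3 N3c5 N3c7 N3c9
    N3c11 N3c13 M1 M1c1 M1c3 u1 du1 E1 F1 dE1 dF1
  ring


theorem pow_hasDeriv {f : ℝ → ℝ} {f' x : ℝ} (h : HasDerivAt f f' x) (h0 : f x ≠ 0) (a : ℕ) :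
    HasDerivAt (fun y => f y ^ a) (a * f' / f x * f x ^ a) x := by
  have h1 := h.pow a
  refine h1.congr_deriv ?_
  rcases a with _ | a
  · simp
  · simp only [Nat.add_sub_cancel]
    field_simp
    ring

theorem E1_hasDeriv (t s : ℝ) : HasDerivAt (fun x => E1 x s) (dE1 t s) t := by
  unfold E1
  have h := (((hasDerivAt_id t).pow 2).const_mul s).const_add 1
  refine h.congr_deriv ?_
  simp [dE1]
  ring

theorem F1_hasDeriv (t s : ℝ) : HasDerivAt (fun x => F1 x s) (dF1 t s) t := by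
  unfold F1
  have h := ((((hasDerivAt_id t).pow 2).const_sub 1)).add (((hasDerivAt_id t).pow 2).const_mul s)
  refine h.congr_deriv ?_
  simp [dF1]
  ring

theorem u1_hasDeriv (t : ℝ) : HasDerivAt u1 (du1 t) t := by
  unfold u1
  have h := ((((hasDerivAt_id t).pow 2).const_sub 1))
  refine h.congr_deriv ?_
  simp [du1]

theorem quot_hasDeriv {N : ℝ → ℝ} {N' t s : ℝ} (hE : E1 t s ≠ 0) (hF : F1 t s ≠ 0) (hu : u1 t ≠ 0)
    (hN : HasDerivAt N N' t) (a b c : ℕ) :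
    HasDerivAt (fun x => N x / (E1 x s ^ a * F1 x s ^ b * u1 x ^ c))
      (N' / (E1 t s ^ a * F1 t s ^ b * u1 t ^ c) - N t / (E1 t s ^ a * F1 t s ^ b * u1 t ^ c) *
        (a * dE1 t s / E1 t s + b * dF1 t s / F1 t s + c * du1 t / u1 t)) t := by
  have h := hN.div (((pow_hasDeriv (E1_hasDeriv t s) hE a).mul
    (pow_hasDeriv (F1_hasDeriv t s) hF b)).mul (pow_hasDeriv (u1_hasDeriv t) hu c))
    (mul_ne_zero (mul_ne_zero (pow_ne_zero a hE) (pow_ne_zero b hF)) (pow_ne_zero c hu))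
  refine h.congr_deriv ?_
  simp only [Pi.mul_apply]
  field_simp

theorem step_val {m t s : ℝ} (N N' : ℝ) (hE : E1 t s ≠ 0) (hF : F1 t s ≠ 0) (hu : u1 t ≠ 0)
    (a b c : ℕ) :
    gam m t s * (N / (E1 t s ^ a * F1 t s ^ b * u1 t ^ c)) - (1/2) * u1 t *
      (N' / (E1 t s ^ a * F1 t s ^ b * u1 t ^ c) - N / (E1 t s ^ a * F1 t s ^ b * u1 t ^ c) *
        (a * dE1 t s / E1 t s + b * dF1 t s / F1 t s + c * du1 t / u1 t))
    = (M1 m t s * N - (1/2)*u1 t*N'*(E1 t s*F1 t s)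
      + (1/2)*u1 t*N*(a*dE1 t s*F1 t s + b*dF1 t s*E1 t s)
      + (c/2)*N*du1 t*(E1 t s*F1 t s)) / (E1 t s ^ (a+1) * F1 t s ^ (b+1) * u1 t ^ c) := by
  unfold gam
  field_simp
  ring

theorem N1_hasDeriv (m t s : ℝ) : HasDerivAt (fun x => N1 m x s) (dN1 m t s) t := by
  unfold N1
  have h := (((hasDerivAt_id t).const_mul (N1c1 m s)).add (((hasDerivAt_id t).pow 3).const_mul
    (N1c3 m s))).add (((hasDerivAt_id t).pow 5).const_mul (N1c5 m s))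
  refine h.congr_deriv ?_
  simp [dN1]
  ring

theorem M1_hasDeriv (m t s : ℝ) : HasDerivAt (fun x => M1 m x s) (dM1 m t s) t := by
  unfold M1
  have h := (((hasDerivAt_id t).const_mul (M1c1 m s)).add (((hasDerivAt_id t).pow 3).const_mul
    (M1c3 m s)))
  refine h.congr_deriv ?_
  simp [dM1]
  ring

theorem N0_hasDeriv (t s : ℝ) : HasDerivAt (fun x => N0 x s) (dN0 t s) t := by
  unfold N0
  have h := ((((hasDerivAt_id t).pow 2).const_mul (8*s)).add (((hasDerivAt_id t).pow 4).const_mul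
    (-8*s + 8*s^2)))
  refine h.congr_deriv ?_
  simp [dN0]
  ring

theorem N2_hasDeriv (m t s : ℝ) : HasDerivAt (fun x => N2 m x s) (dN2 m t s) t := by
  unfold N2
  have h := ((((((hasDerivAt_const t (N2c0 m s)).add
    (((hasDerivAt_id t).pow 2).const_mul (N2c2 m s))).add
    (((hasDerivAt_id t).pow 4).const_mul (N2c4 m s))).add
    (((hasDerivAt_id t).pow 6).const_mul (N2c6 m s))).add
    (((hasDerivAt_id t).pow 8).const_mul (N2c8 m s))).add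
    (((hasDerivAt_id t).pow 10).const_mul (N2c10 m s)))
  refine h.congr_deriv ?_
  simp [dN2]
  ring

theorem N3_hasDeriv (m t s : ℝ) : HasDerivAt (fun x => N3 m x s) (dN3 m t s) t := by
  unfold N3
  have h := (((((((((hasDerivAt_id t)).const_mul (N3c1 m s)).add
    (((hasDerivAt_id t).pow 3).const_mul (N3c3 m s))).add
    (((hasDerivAt_id t).pow 5).const_mul (N3c5 m s))).add
    (((hasDerivAt_id t).pow 7).const_mul (N3c7 m s))).add
    (((hasDerivAt_id t).pow 9).const_mul (N3c9 m s))).add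
    (((hasDerivAt_id t).pow 11).const_mul (N3c11 m s))).add
    (((hasDerivAt_id t).pow 13).const_mul (N3c13 m s)))
  refine h.congr_deriv ?_
  simp [dN3]
  ring

/-- one step of the recursion -/
def Step (m s : ℝ) (T : ℝ → ℝ) (T' : ℝ) (t : ℝ) : Prop :=
  ∃ d, HasDerivAt T d t ∧ T' = gam m t s * T t - (1/2) * u1 t * d

theorem stepG {m t s : ℝ} (hE : E1 t s ≠ 0) (hF : F1 t s ≠ 0) (hu : u1 t ≠ 0) :
    Step m s (fun x => gam m x s) (G2 m t s) t := by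
  have h := quot_hasDeriv hE hF hu (M1_hasDeriv m t s) 1 1 0
  have e : (fun x => M1 m x s / (E1 x s ^ 1 * F1 x s ^ 1 * u1 x ^ 0)) = fun x => gam m x s := by
    ext x
    simp [gam]
  rw [e] at h
  refine ⟨_, h, ?_⟩
  have h2 := step_val (m := m) (M1 m t s) (dM1 m t s) hE hF hu 1 1 0
  have e2 : gam m t s = M1 m t s / (E1 t s ^ 1 * F1 t s ^ 1 * u1 t ^ 0) := by
    simp [gam]
  show G2 m t s = gam m t s * gam m t s - _
  nth_rewrite 2 [e2]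
  rw [h2, G2, idG]
  congr 1
  · push_cast
    ring
  · ring

theorem step0 {m t s : ℝ} (hE : E1 t s ≠ 0) (hF : F1 t s ≠ 0) (hu : u1 t ≠ 0) :
    Step m s (fun x => T0 x s) (T1f m t s) t := by
  have h := quot_hasDeriv hE hF hu (N0_hasDeriv t s) 0 0 2
  have e : ∀ x, T0 x s = N0 x s / (E1 x s ^ 0 * F1 x s ^ 0 * u1 x ^ 2) := by
    intro x
    simp only [T0, N0, F1, pow_zero, one_mul]
    congr 1
    ring
  have e' : (fun x => N0 x s / (E1 x s ^ 0 * F1 x s ^ 0 * u1 x ^ 2)) = fun x => T0 x s := by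
    ext x
    rw [e x]
  rw [e'] at h
  refine ⟨_, h, ?_⟩
  have h2 := step_val (m := m) (N0 t s) (dN0 t s) hE hF hu 0 0 2
  show T1f m t s = gam m t s * T0 t s - _
  rw [e t, h2, T1f]
  have h3 := id0 m t s
  rw [div_eq_div_iff (by positivity) (by positivity)]
  push_cast
  linear_combination (E1 t s * u1 t ^ 2) * h3

theorem step1 {m t s : ℝ} (hE : E1 t s ≠ 0) (hF : F1 t s ≠ 0) (hu : u1 t ≠ 0) :
    Step m s (fun x => T1f m x s) (T2f m t s) t := by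
  have h := quot_hasDeriv hE hF hu (N1_hasDeriv m t s) 1 0 2
  have e : ∀ x, T1f m x s = N1 m x s / (E1 x s ^ 1 * F1 x s ^ 0 * u1 x ^ 2) := by
    intro x
    simp only [T1f, pow_zero, mul_one, pow_one]
  have e' : (fun x => N1 m x s / (E1 x s ^ 1 * F1 x s ^ 0 * u1 x ^ 2)) = fun x => T1f m x s := by
    ext x
    rw [e x]
  rw [e'] at h
  refine ⟨_, h, ?_⟩
  have h2 := step_val (m := m) (N1 m t s) (dN1 m t s) hE hF hu 1 0 2
  show T2f m t s = gam m t s * T1f m t s - _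
  rw [e t, h2, T2f, id1]
  congr 1
  · push_cast
    ring
  · ring

theorem step2 {m t s : ℝ} (hE : E1 t s ≠ 0) (hF : F1 t s ≠ 0) (hu : u1 t ≠ 0) :
    Step m s (fun x => T2f m x s) (T3f m t s) t := by
  have h := quot_hasDeriv hE hF hu (N2_hasDeriv m t s) 2 1 2
  have e : ∀ x, T2f m x s = N2 m x s / (E1 x s ^ 2 * F1 x s ^ 1 * u1 x ^ 2) := by
    intro x
    simp only [T2f, pow_one]
  have e' : (fun x => N2 m x s / (E1 x s ^ 2 * F1 x s ^ 1 * u1 x ^ 2)) = fun x => T2f m x s := by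
    ext x
    rw [e x]
  rw [e'] at h
  refine ⟨_, h, ?_⟩
  have h2 := step_val (m := m) (N2 m t s) (dN2 m t s) hE hF hu 2 1 2
  show T3f m t s = gam m t s * T2f m t s - _
  rw [e t, h2, T3f, id2]
  congr 1
  push_cast
  ring

theorem step3 {m t s : ℝ} (hE : E1 t s ≠ 0) (hF : F1 t s ≠ 0) (hu : u1 t ≠ 0) :
    Step m s (fun x => T3f m x s) (T4f m t s) t := by
  have h := quot_hasDeriv hE hF hu (N3_hasDeriv m t s) 3 2 2
  refine ⟨_, h, ?_⟩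
  have h2 := step_val (m := m) (N3 m t s) (dN3 m t s) hE hF hu 3 2 2
  show T4f m t s = gam m t s * (N3 m t s / _) - _
  rw [h2, T4f, id3]
  congr 1
  push_cast
  ring

end

theorem Aop_step (m : ℕ) {R s : ℝ} (hR : 0 < R) (hs : 0 ≤ s) {F T : ℝ → ℝ} {T' : ℝ}
    (hF : ∀ r, 0 < r → F r = T (tR r) * G0 m r s) (h : Step m s T T' (tR R)) :
    Aop F R = T' * G0 m R s := by
  obtain ⟨d, hd, hT⟩ := h
  exact Aop_mul_G0 m hR hs hF hd hT

theorem A1_G0 (m : ℕ) {R s : ℝ} (hR : 0 < R) (hs : 0 ≤ s) :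
    Aop (fun r => G0 m r s) R = gam m (tR R) s * G0 m R s := by
  rw [Aop, (G0_hasDeriv m hR hs).deriv]
  field_simp

theorem A2_G0 (m : ℕ) {R s : ℝ} (hR : 0 < R) (hs : 0 ≤ s) :
    Aop (Aop (fun r => G0 m r s)) R = G2 m (tR R) s * G0 m R s := by
  refine Aop_step m hR hs (T := fun x => gam m x s) (fun r hr => A1_G0 m hr hs) ?_
  exact stepG (E1_pos' hs).ne' (F1_pos' (kf_u1_pos hR) hs).ne' (kf_u1_pos hR).ne'

theorem kf_F0_eq (m : ℕ) {R s : ℝ} (hR : 0 < R) : F0 m R s = T0 (tR R) s * G0 m R s := by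
  rw [F0, T0, u1_tR hR, Fh_eq hR]
  have hR1 : (1:ℝ) + R ≠ 0 := by positivity
  congr 1
  rw [tR]
  field_simp
  ring

theorem A1_F0 (m : ℕ) {R s : ℝ} (hR : 0 < R) (hs : 0 ≤ s) :
    Aop (fun r => F0 m r s) R = T1f m (tR R) s * G0 m R s := by
  refine Aop_step m hR hs (T := fun x => T0 x s) (fun r hr => kf_F0_eq m hr) ?_
  exact step0 (E1_pos' hs).ne' (F1_pos' (kf_u1_pos hR) hs).ne' (kf_u1_pos hR).ne'

theorem A2_F0 (m : ℕ) {R s : ℝ} (hR : 0 < R) (hs : 0 ≤ s) :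
    Aop (Aop (fun r => F0 m r s)) R = T2f m (tR R) s * G0 m R s := by
  refine Aop_step m hR hs (T := fun x => T1f m x s) (fun r hr => A1_F0 m hr hs) ?_
  exact step1 (E1_pos' hs).ne' (F1_pos' (kf_u1_pos hR) hs).ne' (kf_u1_pos hR).ne'

theorem Ks_form (m : ℕ) {R s : ℝ} (hR : 0 < R) (hs : 0 ≤ s) :
    Ks m s R = (1 + (2*m*T1f m (tR R) s + T2f m (tR R) s)/(4*(m+1))) * G0 m R s := by
  rw [Ks, A1_F0 m hR hs, A2_F0 m hR hs]
  ring

/-- linear combination of steps -/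
theorem Step.comb {m s t c1 c2 c3 : ℝ} {P Q S : ℝ → ℝ} {P' Q' S' : ℝ} (h1 : Step m s P P' t)
    (h2 : Step m s Q Q' t) (h3 : Step m s S S' t) :
    Step m s (fun x => c1 * P x + c2 * Q x + c3 * S x) (c1 * P' + c2 * Q' + c3 * S') t := by
  obtain ⟨d1, h1, e1⟩ := h1
  obtain ⟨d2, h2, e2⟩ := h2
  obtain ⟨d3, h3, e3⟩ := h3
  refine ⟨c1 * d1 + c2 * d2 + c3 * d3, ((h1.const_mul c1).add (h2.const_mul c2)).add
    (h3.const_mul c3), ?_⟩
  rw [e1, e2, e3]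
  ring

theorem step_one {m s t : ℝ} : Step m s (fun _ => 1) (gam m t s) t :=
  ⟨0, hasDerivAt_const t 1, by ring⟩

theorem A1_Ks (m : ℕ) {R s : ℝ} (hR : 0 < R) (hs : 0 ≤ s) :
    Aop (Ks m s) R
      = (gam m (tR R) s + (2*m*T2f m (tR R) s + T3f m (tR R) s)/(4*(m+1))) * G0 m R s := by
  have hE := (E1_pos' (t := tR R) hs).ne'
  have hF := (F1_pos' (kf_u1_pos hR) hs).ne'
  have hu := (kf_u1_pos hR).ne'
  have h := (step_one (m := m) (s := s) (t := tR R)).comb (c1 := 1) (c2 := 2*m/(4*(m+1)))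
    (c3 := 1/(4*(m+1))) (step1 hE hF hu) (step2 hE hF hu)
  rw [Aop_step m hR hs (fun r hr => ?_) h]
  · ring
  · rw [Ks_form m hr hs]
    ring

theorem A2_Ks (m : ℕ) {R s : ℝ} (hR : 0 < R) (hs : 0 ≤ s) :
    Aop (Aop (Ks m s)) R
      = (G2 m (tR R) s + (2*m*T3f m (tR R) s + T4f m (tR R) s)/(4*(m+1))) * G0 m R s := by
  have hE := (E1_pos' (t := tR R) hs).ne'
  have hF := (F1_pos' (kf_u1_pos hR) hs).ne'
  have hu := (kf_u1_pos hR).ne'
  have h := (stepG (m := m) (s := s) (t := tR R) hE hF hu).comb (c1 := 1) (c2 := 2*m/(4*(m+1)))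
    (c3 := 1/(4*(m+1))) (step2 hE hF hu) (step3 hE hF hu)
  rw [Aop_step m hR hs (fun r hr => ?_) h]
  · ring
  · rw [A1_Ks m hr hs]
    ring

theorem Ks_smooth (m : ℕ) {s : ℝ} (hs : 0 ≤ s) : ContDiffOn ℝ ⊤ (Ks m s) (Set.Ioi 0) := by
  have e : Set.EqOn (Ks m s) (fun R => (1 + (2*m*T1f m (tR R) s + T2f m (tR R) s)/(4*(m+1)))
      * G0 m R s) (Set.Ioi 0) := fun R hR => Ks_form m hR hs
  refine ContDiffOn.congr ?_ e
  refine ContDiffOn.mul ?_ (G0_smooth m hs)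
  have ht : ContDiffOn ℝ ⊤ tR (Set.Ioi 0) := by
    unfold tR
    refine ContDiffOn.div (by fun_prop) (by fun_prop) ?_
    intro R hR
    have : (0:ℝ) < R := hR
    positivity
  have hE : ContDiffOn ℝ ⊤ (fun R => E1 (tR R) s) (Set.Ioi 0) := by
    unfold E1
    fun_prop
  have hF : ContDiffOn ℝ ⊤ (fun R => F1 (tR R) s) (Set.Ioi 0) := by
    unfold F1
    fun_prop
  have hu : ContDiffOn ℝ ⊤ (fun R => u1 (tR R)) (Set.Ioi 0) := by
    unfold u1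
    fun_prop
  have hN1 : ContDiffOn ℝ ⊤ (fun R => N1 m (tR R) s) (Set.Ioi 0) := by
    unfold N1
    fun_prop
  have hN2 : ContDiffOn ℝ ⊤ (fun R => N2 m (tR R) s) (Set.Ioi 0) := by
    unfold N2
    fun_prop
  have h1 : ContDiffOn ℝ ⊤ (fun R => T1f m (tR R) s) (Set.Ioi 0) := by
    unfold T1f
    refine hN1.div (hE.mul (hu.pow 2)) ?_
    intro R hR
    have h1 := (E1_pos' (t := tR R) hs).ne'
    have h2 := (kf_u1_pos hR).ne'
    positivity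
  have h2 : ContDiffOn ℝ ⊤ (fun R => T2f m (tR R) s) (Set.Ioi 0) := by
    unfold T2f
    refine hN2.div (((hE.pow 2).mul hF).mul (hu.pow 2)) ?_
    intro R hR
    have h1 := (E1_pos' (t := tR R) hs).ne'
    have h2 := (kf_u1_pos hR).ne'
    have h3 := (F1_pos' (kf_u1_pos hR) hs).ne'
    positivity
  fun_prop

end BMoll
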