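import Pool.Agent.Lib.MP_a93a81_co.Defs

/-!
# Module LPBASIC : basic facts on `LP` and `pr`
-/

namespace BMoll

open Polynomial Finset

theorem Lop_gt (p : ℝ[X]) {i : ℕ} (hi : p.natDegree < i) : Lop p.coeff i = 0 := by
  unfold Lop
  rw [coeff_eq_zero_of_natDegree_lt hi, coeff_eq_zero_of_natDegree_lt (by omega : p.natDegree < i + 1)]
  simp

theorem LP_coeff (p : ℝ[X]) (i : ℕ) : (LP p).coeff i = Lop p.coeff i := by
  unfold LP
  rw [finsetSum_coeff]
  simp only [coeff_C_mul, coeff_X_pow]
  by_cases hi : i < p.natDegree + 1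
  · rw [Finset.sum_eq_single i]
    · simp
    · intro b _ hb
      simp [Ne.symm hb]
    · intro h
      exact absurd (Finset.mem_range.mpr hi) h
  · rw [Finset.sum_eq_zero, Lop_gt p (by omega)]
    intro b hb
    have : b < p.natDegree + 1 := Finset.mem_range.mp hb
    have h2 : i ≠ b := by omega
    simp [h2]

theorem Lop_smul (c : ℝ) (a : ℕ → ℝ) (i : ℕ) : Lop (fun j => c * a j) i = c^2 * Lop a i := by
  unfold Lop
  by_cases hi : i = 0
  · simp [hi]; ring
  · simp [hi]; ring

theorem pr_monic {n : ℕ} (x : Fin n → ℝ) : (pr x).Monic := by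
  unfold pr
  exact monic_prod_of_monic _ _ fun k _ => monic_X_add_C (x k)

theorem pr_natDegree {n : ℕ} (x : Fin n → ℝ) : (pr x).natDegree = n := by
  unfold pr
  rw [natDegree_prod_of_monic _ _ fun k _ => monic_X_add_C (x k)]
  simp

theorem pr_cons {n : ℕ} (r : ℝ) (x : Fin n → ℝ) :
    pr (Fin.cons r x : Fin (n+1) → ℝ) = (X + C r) * pr x := by
  unfold pr
  rw [Fin.prod_univ_succ]
  simp

theorem pr_snoc {n : ℕ} (x : Fin n → ℝ) (r : ℝ) :
    pr (Fin.snoc x r : Fin (n+1) → ℝ) = pr x * (X + C r) := by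
  unfold pr
  rw [Fin.prod_univ_castSucc]
  simp

theorem pr_coeff_gt {n : ℕ} (x : Fin n → ℝ) {i : ℕ} (hi : n < i) : (pr x).coeff i = 0 := by
  apply coeff_eq_zero_of_natDegree_lt
  rw [pr_natDegree]; exact hi

theorem pr_coeff_pos : ∀ {n : ℕ} {x : Fin n → ℝ} (_ : ∀ k, 0 < x k) {i : ℕ} (_ : i ≤ n),
    0 < (pr x).coeff i := by
  intro n
  induction n with
  | zero =>
    intro x _ i hi
    have : i = 0 := by omega
    subst this
    simp [pr]
  | succ n ih =>
    intro x hx i hi
    have h1 : pr x = (X + C (x 0)) * pr (Fin.tail x) := by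
      rw [← pr_cons, Fin.cons_self_tail]
    have hx' : ∀ k, 0 < Fin.tail x k := fun k => hx _
    rw [h1, add_mul, coeff_add, coeff_C_mul]
    rcases i with _ | i
    · have h2 : (X * pr (Fin.tail x)).coeff 0 = 0 := by simp
      rw [h2]
      have := mul_pos (hx 0) (ih hx' (Nat.zero_le n))
      linarith
    · rw [coeff_X_mul]
      have h3 : 0 < (pr (Fin.tail x)).coeff i := ih hx' (by omega)
      have h4 : 0 ≤ (pr (Fin.tail x)).coeff (i+1) := by
        by_cases h : i + 1 ≤ n
        · exact (ih hx' h).le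
        · rw [pr_coeff_gt _ (by omega)]
      have := mul_nonneg (hx 0).le h4
      linarith

theorem pr_roots {n : ℕ} (x : Fin n → ℝ) : (pr x).roots = (Finset.univ.val.map fun k => - x k) := by
  unfold pr
  rw [roots_prod]
  · have : ∀ k : Fin n, (X + C (x k)).roots = {- x k} := by
      intro k
      exact roots_X_add_C (x k)
    simp only [this]
    rw [Multiset.bind_singleton]
  · exact (pr_monic x).ne_zero

theorem pr_inj {n : ℕ} {x y : Fin n → ℝ} (hx : StrictMono x) (hy : StrictMono y)
    (h : pr x = pr y) : x = y := by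
  have h1 : (pr x).roots = (pr y).roots := by rw [h]
  rw [pr_roots, pr_roots] at h1
  have h2 : Set.range x = Set.range y := by
    ext t
    constructor
    · rintro ⟨k, rfl⟩
      have : - x k ∈ (Finset.univ.val.map fun k => - x k) := Multiset.mem_map.mpr ⟨k, by simp, rfl⟩
      rw [h1] at this
      obtain ⟨j, _, hj⟩ := Multiset.mem_map.mp this
      exact ⟨j, by linarith⟩
    · rintro ⟨k, rfl⟩
      have : - y k ∈ (Finset.univ.val.map fun k => - y k) := Multiset.mem_map.mpr ⟨k, by simp, rfl⟩
      rw [← h1] at this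
      obtain ⟨j, _, hj⟩ := Multiset.mem_map.mp this
      exact ⟨j, by linarith⟩
  exact (StrictMono.range_inj hx hy).mp h2

theorem coeff_lin (D : ℝ[X]) (r : ℝ) (i : ℕ) :
    ((X + C r) * D).coeff i = (if i = 0 then 0 else D.coeff (i-1)) + r * D.coeff i := by
  rw [add_mul, coeff_add, coeff_C_mul]
  rcases i with _ | i
  · simp
  · rw [coeff_X_mul]; simp

/-- `L((X+r) D) = (X + r^2) L(D) + r M(D)` with `M_k = d_{k-1} d_k - d_{k-2} d_{k+1}`; in the
form used for moves: `r' L((X+r)D) - r L((X+r')D) = (r'-r)(X - r r') L(D)`. -/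
theorem LP_move (D : ℝ[X]) (r r' : ℝ) :
    C r' * LP ((X + C r) * D) - C r * LP ((X + C r') * D)
      = C (r' - r) * (X - C (r*r')) * LP D := by
  ext i
  have hY : ((X - C (r*r')) * LP D).coeff i = (X * LP D).coeff i - (r*r') * (LP D).coeff i := by
    rw [sub_mul, coeff_sub, coeff_C_mul]
  rw [mul_assoc, coeff_sub, coeff_C_mul, coeff_C_mul, coeff_C_mul, hY]
  simp only [LP_coeff]
  have hX : (X * LP D).coeff i = if i = 0 then 0 else Lop D.coeff (i-1) := by
    rcases i with _ | i
    · simp
    · rw [coeff_X_mul, LP_coeff]; simp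
  rw [hX]
  unfold Lop
  simp only [coeff_lin]
  rcases i with _ | i
  · simp; ring
  · rcases i with _ | i
    · simp; ring
    · simp; ring

theorem pr_coeff_zero {n : ℕ} (x : Fin n → ℝ) : (pr x).coeff 0 = ∏ k, x k := by
  unfold pr
  rw [coeff_zero_eq_eval_zero, eval_prod]
  simp

theorem LP_natDegree_le (p : ℝ[X]) : (LP p).natDegree ≤ p.natDegree := by
  rw [natDegree_le_iff_coeff_eq_zero]
  intro N hN
  rw [LP_coeff, Lop_gt p hN]

/-- coefficients of the reversed zero set -/
theorem pr_rev_coeff {n : ℕ} {x : Fin n → ℝ} (hx : ∀ k, 0 < x k) {i : ℕ} (hi : i ≤ n) :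
    (pr (fun k => 1 / x k.rev)).coeff i = (∏ k, x k)⁻¹ * (pr x).coeff (n - i) := by
  have key : pr (fun k => 1 / x k.rev) = C (∏ k, x k)⁻¹ * (pr x).reverse := by
    have h1 : pr (fun k => 1 / x k.rev) = ∏ k, (X + C (1 / x k)) := by
      unfold pr
      exact Equiv.prod_comp Fin.revPerm (fun k => (X + C (1 / x k)))
    have h2 : (pr x).reverse = ∏ k, (1 + C (x k) * X) := by
      unfold pr
      have : ∀ s : Finset (Fin n), (∏ k ∈ s, (X + C (x k))).reverse = ∏ k ∈ s, (1 + C (x k) * X) := by
        intro s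
        induction s using Finset.induction_on with
        | empty =>
          rw [Finset.prod_empty, Finset.prod_empty]
          simpa using reverse_C (1:ℝ)
        | insert a s ha ih =>
          rw [Finset.prod_insert ha, Finset.prod_insert ha, reverse_mul_of_domain, ih]
          congr 1
          have hX : (X : ℝ[X]).reverse = 1 := by
            have := reverse_mul_X (1:ℝ[X])
            rw [one_mul] at this
            rw [this]
            simpa using reverse_C (1:ℝ)
          rw [reverse_add_C, hX]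
          simp
      exact this _
    rw [h1, h2, ← Finset.prod_inv_distrib, map_prod, ← Finset.prod_mul_distrib]
    refine Finset.prod_congr rfl fun k _ => ?_
    have : x k ≠ 0 := (hx k).ne'
    rw [mul_add, ← mul_assoc, ← C_mul, inv_mul_cancel₀ this]
    simp [add_comm]
  rw [key, coeff_C_mul, coeff_reverse, pr_natDegree, revAt_le hi]

/-- reversal commutes with `L`: if `x* _k = 1/x_{n-1-k}` then `pr x*` is the normalised reversal
of `pr x`, and `LP` of it is the normalised reversal of `LP (pr x)`.  Form needed: if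
`LP (pr x) = pr σ` then `LP (pr x*) = pr σ*`. -/
theorem LP_rev {n : ℕ} {x σ : Fin n → ℝ} (hx : ∀ k, 0 < x k) (hσ : ∀ k, 0 < σ k)
    (h : LP (pr x) = pr σ) :
    LP (pr (fun k => 1 / x k.rev)) = pr (fun k => 1 / σ k.rev) := by
  have hP : (∏ k, x k) ^ 2 = ∏ k, σ k := by
    have := congrArg (fun p => p.coeff 0) h
    simp only [LP_coeff, pr_coeff_zero] at this
    rw [← this]
    unfold Lop
    simp [pr_coeff_zero]
  ext i
  rw [LP_coeff]
  by_cases hi : i ≤ n
  · rw [pr_rev_coeff hσ hi, ← h, LP_coeff, ← hP]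
    have hc : ∀ j, j ≤ n → (pr (fun k => 1 / x k.rev)).coeff j = (∏ k, x k)⁻¹ * (pr x).coeff (n - j) :=
      fun j hj => pr_rev_coeff hx hj
    unfold Lop
    rw [hc i hi]
    by_cases h0 : i = 0
    · subst h0
      simp only [if_true, zero_mul, sub_zero, tsub_zero]
      by_cases hn : n = 0
      · subst hn; simp
      · rw [if_neg hn, pr_coeff_gt x (by omega : n < n + 1)]
        ring
    · rw [if_neg h0, hc (i-1) (by omega)]
      by_cases hin : i = n
      · subst hin
        rw [pr_coeff_gt _ (by omega : i < i + 1)]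
        simp
        try ring
      · rw [hc (i+1) (by omega), if_neg (by omega : n - i ≠ 0)]
        rw [show n - (i - 1) = n - i + 1 by omega, show n - (i+1) = n - i - 1 by omega]
        ring
  · rw [pr_coeff_gt _ (by omega), Lop_gt]
    rw [pr_natDegree]; omega

end BMoll
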