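import Pool.Agent.Lib.MP_a93a81_co.T1

/-!
# Module MOVES : the zeros of L(D) are increasing functions of the zeros of D

One move: `A = (X+r) D`, `A' = (X+r') D`, `0 < r < r'`, `L(A) = pr σ`, `L(A') = pr σ'`,
`L(D) = pr υ`.  By `LP_move` at `-u`: `r' p_A(u) - r p_{A'}(u) = -(r'-r)(u + r r') p_D(u)`.
At `u = σ'_k ∈ (υ_{k-1}, υ_k)` (T1_interlace) `p_D(u)` has sign `(-1)^k` (k from 0), so
`p_A(σ'_k)` has sign `(-1)^{k+1}`; on `(υ_{k-1},υ_k)` the polynomial `p_A` has the single zero
`σ_k` and sign `(-1)^k` before, `(-1)^{k+1}` after it: so `σ_k < σ'_k`.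
General: change the coordinates one at a time (`pr` is invariant under permutations; T1 gives
real-rootedness at each stage; the intermediate vectors need not be sorted).
-/

namespace BMoll

open Polynomial Finset

theorem pr_eval_neg {n : ℕ} (x : Fin n → ℝ) (u : ℝ) : (pr x).eval (-u) = ∏ j, (x j - u) := by
  unfold pr
  rw [eval_prod]
  refine Finset.prod_congr rfl fun j _ => ?_
  rw [eval_add, eval_X, eval_C]
  ring

theorem prod_sign_eq {n k : ℕ} (hk : k ≤ n) (x : Fin n → ℝ) (u : ℝ)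
    (h1 : ∀ j : Fin n, (j : ℕ) < k → x j < u) (h2 : ∀ j : Fin n, k ≤ (j : ℕ) → u ≤ x j) :
    (-1) ^ k * ∏ j, (x j - u) = ∏ j, |x j - u| := by
  have h3 : ∀ j : Fin n, x j - u = (if (j : ℕ) < k then (-1) else 1) * |x j - u| := by
    intro j
    split_ifs with h
    · rw [abs_of_neg (by linarith [h1 j h])]; ring
    · rw [abs_of_nonneg (by linarith [h2 j (not_lt.mp h)])]; ring
  have h4 : ∏ j : Fin n, (if (j : ℕ) < k then (-1 : ℝ) else 1) = (-1) ^ k := by
    rw [Finset.prod_ite, Finset.prod_const, Finset.prod_const_one, mul_one]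
    congr 1
    rw [Fin.card_filter_val_lt]
    exact min_eq_right hk
  calc (-1) ^ k * ∏ j, (x j - u)
      = (-1) ^ k * ∏ j : Fin n, ((if (j : ℕ) < k then (-1 : ℝ) else 1) * |x j - u|) := by
        rw [← Finset.prod_congr rfl (fun j _ => h3 j)]
    _ = ∏ j, |x j - u| := by
        rw [Finset.prod_mul_distrib, h4, ← mul_assoc, ← mul_pow]
        norm_num

/-- strict monotonicity under a strict increase of one zero (`ρ` need not be sorted). -/
theorem LP_move_one {n : ℕ} {ρ : Fin n → ℝ} (hρ : ∀ k, 0 < ρ k) {r r' : ℝ} (hr : 0 < r)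
    (hrr' : r < r') {σ σ' : Fin (n+1) → ℝ} (hσ : StrictMono σ) (hσ' : StrictMono σ')
    (h : LP ((X + C r) * pr ρ) = pr σ) (h' : LP ((X + C r') * pr ρ) = pr σ') (k : Fin (n+1)) :
    σ k < σ' k := by
  obtain ⟨υ, hυ, hυ0, hL⟩ := T1 hρ
  have hr' : 0 < r' := hr.trans hrr'
  have i1 := T1_interlace hρ hr hυ hL hσ (by rw [pr_cons]; exact h)
  have i2 := T1_interlace hρ hr' hυ hL hσ' (by rw [pr_cons]; exact h')
  have hpos' : 0 < σ' k := by
    obtain ⟨τ, hτ, hτ0, hLτ⟩ := T1 (ρ := (Fin.cons r' ρ : Fin (n+1) → ℝ)) (by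
      intro j
      refine Fin.cases ?_ ?_ j
      · simpa using hr'
      · intro i; simpa using hρ i)
    have : σ' = τ := pr_inj hσ' hτ (by rw [← h', ← hLτ, pr_cons])
    rw [this]; exact hτ0 k
  by_contra hcon
  push Not at hcon
  set u := σ' k with hu
  -- signs
  have s1 : (-1) ^ (k:ℕ) * ∏ j, (υ j - u) = ∏ j, |υ j - u| := by
    refine prod_sign_eq (Nat.lt_succ_iff.mp k.2) υ u ?_ ?_
    · intro j hj
      have h1 := (i2 j).2
      have h2 : σ' j.succ ≤ σ' k := hσ'.monotone (by
        rw [Fin.le_def, Fin.val_succ]; omega)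
      exact lt_of_lt_of_le h1 h2
    · intro j hj
      have h1 := (i2 j).1
      have h2 : σ' k ≤ σ' j.castSucc := hσ'.monotone (by
        rw [Fin.le_def, Fin.val_castSucc]; exact hj)
      exact (lt_of_le_of_lt h2 h1).le
  have s1' : 0 < ∏ j, |υ j - u| := by
    refine Finset.prod_pos fun j _ => abs_pos.mpr ?_
    rcases lt_or_ge (j : ℕ) k with hj | hj
    · have h1 := (i2 j).2
      have h2 : σ' j.succ ≤ σ' k := hσ'.monotone (by
        rw [Fin.le_def, Fin.val_succ]; omega)
      have := lt_of_lt_of_le h1 h2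
      linarith
    · have h1 := (i2 j).1
      have h2 : σ' k ≤ σ' j.castSucc := hσ'.monotone (by
        rw [Fin.le_def, Fin.val_castSucc]; exact hj)
      have := lt_of_le_of_lt h2 h1
      linarith
  have s2 : (-1) ^ (k:ℕ) * ∏ j, (σ j - u) = ∏ j, |σ j - u| := by
    refine prod_sign_eq k.2.le σ u ?_ ?_
    · intro j hj
      have hjn : (j : ℕ) < n := lt_of_lt_of_le hj (Nat.lt_succ_iff.mp k.2)
      have h1 := (i1 ⟨j, hjn⟩).1
      have h1' : (⟨j, hjn⟩ : Fin n).castSucc = j := by ext; simp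
      rw [h1'] at h1
      have h2 := (i2 ⟨j, hjn⟩).2
      have h3 : σ' (⟨j, hjn⟩ : Fin n).succ ≤ σ' k := hσ'.monotone (by
        rw [Fin.le_def, Fin.val_succ]; simpa using hj)
      linarith
    · intro j hj
      exact hcon.trans (hσ.monotone (by rw [Fin.le_def]; exact hj))
  have s2' : 0 ≤ ∏ j, |σ j - u| := Finset.prod_nonneg fun j _ => abs_nonneg _
  have hmove := congrArg (fun p : ℝ[X] => p.eval (-u)) (LP_move (pr ρ) r r')
  simp only [eval_sub, eval_mul, eval_C, eval_X, h, h', hL, pr_eval_neg] at hmove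
  have hz : ∏ j, (σ' j - u) = 0 := Finset.prod_eq_zero (Finset.mem_univ k) (by rw [hu]; ring)
  rw [hz] at hmove
  have hm2 : r' * ((-1) ^ (k:ℕ) * ∏ j, (σ j - u))
      = -((r' - r) * (u + r * r') * ((-1) ^ (k:ℕ) * ∏ j, (υ j - u))) := by
    linear_combination (-1) ^ (k:ℕ) * hmove
  rw [s1, s2] at hm2
  have p1 : 0 < (r' - r) * (u + r * r') * ∏ j, |υ j - u| := by
    have : 0 < r' - r := by linarith
    have : 0 < u + r * r' := by positivity
    positivity
  have p2 : 0 ≤ r' * ∏ j, |σ j - u| := by positivity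
  linarith

theorem pr_succAbove {n : ℕ} (x : Fin (n+1) → ℝ) (a : Fin (n+1)) :
    pr x = (X + C (x a)) * pr (fun j => x (a.succAbove j)) := by
  unfold pr
  exact Fin.prod_univ_succAbove _ a

/-- one coordinate of `ρ` is raised (weakly) to `t` -/
theorem LP_update_le {n : ℕ} {ρ : Fin n → ℝ} (hρ : ∀ k, 0 < ρ k) (a : Fin n) {t : ℝ}
    (ht : ρ a ≤ t) {σ σ' : Fin n → ℝ} (hσ : StrictMono σ) (hσ' : StrictMono σ')
    (h : LP (pr ρ) = pr σ) (h' : LP (pr (Function.update ρ a t)) = pr σ') (k : Fin n) :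
    σ k ≤ σ' k ∧ (ρ a < t → σ k < σ' k) := by
  cases n with
  | zero => exact a.elim0
  | succ n =>
    rcases eq_or_lt_of_le ht with he | hlt
    · subst he
      rw [Function.update_eq_self] at h'
      have : σ = σ' := pr_inj hσ hσ' (by rw [← h, ← h'])
      subst this
      exact ⟨le_rfl, fun h => absurd h (lt_irrefl _)⟩
    · have e1 := pr_succAbove ρ a
      have e2 := pr_succAbove (Function.update ρ a t) a
      rw [Function.update_self] at e2
      have e3 : (fun j => Function.update ρ a t (a.succAbove j))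
          = fun j => ρ (a.succAbove j) := by
        funext j
        exact Function.update_of_ne (Fin.succAbove_ne a j) _ _
      rw [e3] at e2
      rw [e1] at h
      rw [e2] at h'
      have := LP_move_one (fun j => hρ (a.succAbove j)) (hρ a) hlt hσ hσ' h h' k
      exact ⟨this.le, fun _ => this⟩

/-- weak monotonicity (`n` arbitrary, `ρ ≤ ρ'` pointwise). -/
theorem LP_mono {n : ℕ} {ρ ρ' : Fin n → ℝ} (hρ : ∀ k, 0 < ρ k) (hle : ∀ k, ρ k ≤ ρ' k)
    {σ σ' : Fin n → ℝ} (hσ : StrictMono σ) (hσ' : StrictMono σ')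
    (h : LP (pr ρ) = pr σ) (h' : LP (pr ρ') = pr σ') (k : Fin n) : σ k ≤ σ' k := by
  classical
  have key : ∀ s : Finset (Fin n), ∀ τ : Fin n → ℝ, StrictMono τ →
      LP (pr (fun j => if j ∈ s then ρ' j else ρ j)) = pr τ → σ k ≤ τ k := by
    intro s
    induction s using Finset.induction_on with
    | empty =>
      intro τ hτ hLτ
      simp only [Finset.notMem_empty, if_false] at hLτ
      have : σ = τ := pr_inj hσ hτ (by rw [← h, ← hLτ])
      rw [this]
    | insert a s ha ih =>
      intro τ hτ hLτ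
      set x : Fin n → ℝ := fun j => if j ∈ s then ρ' j else ρ j with hx
      have hxpos : ∀ j, 0 < x j := by
        intro j
        simp only [hx]
        split_ifs
        · exact lt_of_lt_of_le (hρ j) (hle j)
        · exact hρ j
      obtain ⟨τ₀, hτ₀, -, hL₀⟩ := T1 hxpos
      have hxa : x a = ρ a := by simp [hx, ha]
      have hupd : (fun j => if j ∈ insert a s then ρ' j else ρ j) = Function.update x a (ρ' a) := by
        funext j
        by_cases hj : j = a
        · subst hj; simp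
        · rw [Function.update_of_ne hj]
          simp [hx, Finset.mem_insert, hj]
      rw [hupd] at hLτ
      have h1 := ih τ₀ hτ₀ hL₀
      have h2 := (LP_update_le hxpos a (by rw [hxa]; exact hle a) hτ₀ hτ hL₀ hLτ k).1
      exact h1.trans h2
  exact key Finset.univ σ' hσ' (by simpa using h')

/-- strict monotonicity if all zeros increase strictly. -/
theorem LP_mono_strict {n : ℕ} {ρ ρ' : Fin n → ℝ} (hρ : ∀ k, 0 < ρ k) (hlt : ∀ k, ρ k < ρ' k)
    {σ σ' : Fin n → ℝ} (hσ : StrictMono σ) (hσ' : StrictMono σ')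
    (h : LP (pr ρ) = pr σ) (h' : LP (pr ρ') = pr σ') (k : Fin n) : σ k < σ' k := by
  classical
  have hx : ∀ j, 0 < Function.update ρ k (ρ' k) j := by
    intro j
    by_cases hj : j = k
    · subst hj; rw [Function.update_self]; exact (hρ j).trans (hlt j)
    · rw [Function.update_of_ne hj]; exact hρ j
  obtain ⟨τ, hτ, -, hL⟩ := T1 hx
  have h1 := (LP_update_le hρ k (hlt k).le hσ hτ h hL k).2 (hlt k)
  have h2 := LP_mono hx (ρ' := ρ') (by
    intro j
    by_cases hj : j = k
    · subst hj; rw [Function.update_self]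
    · rw [Function.update_of_ne hj]; exact (hlt j).le) hτ hσ' hL h' k
  exact lt_of_lt_of_le h1 h2

end BMoll
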