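import Pool.Agent.Lib.MP_a93a81_co.NarAlg

/-!
# Module NARZEROS : zeros of the Narayana polynomials

Proof.  Induction on `n` with the Sturm property: `f_n` has `n` distinct positive zeros
`y_0 < … < y_{n-1}` and `f_n(z) = ∏ (1 - z/y_k)` (degree `n`, `f_n(0) = 1`).  At a zero of
`f_{n+1}`: `(n+4) f_{n+2} = -(n+1)(1+y)^2 f_n`, so `f_{n+2}` has the sign opposite to `f_n`;
with interlacing of the zeros of `f_n` and `f_{n+1}` the signs of `f_n` at the zeros of
`f_{n+1}` alternate, so `f_{n+2}` (positive at `0`, sign `(-1)^{n+2}` at `+∞`) has a zero in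
each of the `n+2` intervals.  Symmetry `y_k y_l = 1` for `k+l+1=n` from `fN_inv`
(the map `y ↦ 1/y` reverses the zero set).
-/

namespace BMoll

open Polynomial Finset

namespace NarZ

theorem ivt_one {f : ℝ → ℝ} (hf : Continuous f) {a b : ℝ} (hab : a < b)
    (h : f a * f b < 0) : ∃ c, a < c ∧ c < b ∧ f c = 0 := by
  rcases lt_trichotomy (f a) 0 with ha | ha | ha
  · have hb : 0 < f b := by
      by_contra hb
      push Not at hb
      nlinarith [mul_nonneg_of_nonpos_of_nonpos ha.le hb]
    have := intermediate_value_Ioo hab.le hf.continuousOn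
    obtain ⟨c, hc, hc0⟩ := this ⟨ha, hb⟩
    exact ⟨c, hc.1, hc.2, hc0⟩
  · rw [ha] at h
    simp at h
  · have hb : f b < 0 := by
      by_contra hb
      push Not at hb
      nlinarith [mul_nonneg ha.le hb]
    have := intermediate_value_Ioo' hab.le hf.continuousOn
    obtain ⟨c, hc, hc0⟩ := this ⟨hb, ha⟩
    exact ⟨c, hc.1, hc.2, hc0⟩

theorem ivt_zeros {N : ℕ} {f : ℝ → ℝ} (hf : Continuous f) {e : Fin (N+1) → ℝ}
    (he : StrictMono e) (hs : ∀ k : Fin (N+1), 0 < (-1)^(k:ℕ) * f (e k)) :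
    ∃ c : Fin N → ℝ, ∀ k, e k.castSucc < c k ∧ c k < e k.succ ∧ f (c k) = 0 := by
  have h : ∀ k : Fin N, ∃ c, e k.castSucc < c ∧ c < e k.succ ∧ f c = 0 := by
    intro k
    refine ivt_one hf (he (Fin.castSucc_lt_succ)) ?_
    have h1 := hs k.castSucc
    have h2 := hs k.succ
    simp only [Fin.val_castSucc, Fin.val_succ] at h1 h2
    have h3 := mul_pos h1 h2
    have h4 : (-1:ℝ)^(k:ℕ) * (-1)^((k:ℕ)) = 1 := by
      rw [← mul_pow]; simp
    have h5 : (-1)^(k:ℕ) * f (e k.castSucc) * ((-1)^((k:ℕ)+1) * f (e k.succ))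
        = -(f (e k.castSucc) * f (e k.succ)) := by
      rw [pow_succ]
      linear_combination (-(f (e k.castSucc) * f (e k.succ))) * h4
    rw [h5] at h3
    linarith
  choose c hc using h
  exact ⟨c, hc⟩

theorem prod_form {N : ℕ} {Q : ℝ[X]} (hQ : Q.natDegree ≤ N) (h0 : Q.eval 0 = 1)
    {c : Fin N → ℝ} (hc : Function.Injective c) (hpos : ∀ k, c k ≠ 0)
    (hz : ∀ k, Q.eval (c k) = 0) (z : ℝ) : Q.eval z = ∏ k, (1 - z / c k) := by
  set R : ℝ[X] := ∏ k, (C 1 - C (1 / c k) * X) with hR
  have hRd : R.natDegree ≤ N := by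
    rw [hR]
    refine (natDegree_prod_le _ _).trans ?_
    calc ∑ k : Fin N, (C 1 - C (1 / c k) * X : ℝ[X]).natDegree ≤ ∑ k : Fin N, 1 := by
          refine Finset.sum_le_sum ?_
          intro k _
          refine (natDegree_sub_le _ _).trans ?_
          simp only [natDegree_C]
          refine max_le (by omega) ?_
          exact (natDegree_C_mul_le _ _).trans natDegree_X_le
      _ = N := by simp
  have hRe : ∀ w, R.eval w = ∏ k, (1 - w / c k) := by
    intro w
    rw [hR, eval_prod]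
    refine Finset.prod_congr rfl ?_
    intro k _
    simp only [eval_sub, eval_C, eval_mul, eval_X]
    ring
  have key : Q - R = 0 := by
    let pts : Finset ℝ := insert 0 (Finset.univ.image c)
    refine Polynomial.eq_zero_of_natDegree_lt_card_of_eval_eq_zero' (Q - R) pts ?_ ?_
    · intro w hw
      rw [Finset.mem_insert, Finset.mem_image] at hw
      rcases hw with rfl | ⟨k, -, rfl⟩
      · rw [eval_sub, h0, hRe]
        simp
      · rw [eval_sub, hz, hRe]
        have : ∏ j, (1 - c k / c j) = 0 := by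
          refine Finset.prod_eq_zero (Finset.mem_univ k) ?_
          rw [div_self (hpos k), sub_self]
        rw [this, sub_zero]
    · have hcard : pts.card = N + 1 := by
        rw [Finset.card_insert_of_notMem, Finset.card_image_of_injective _ hc]
        · simp
        · rw [Finset.mem_image]
          rintro ⟨k, -, hk⟩
          exact hpos k hk
      rw [hcard]
      have : (Q - R).natDegree ≤ N := (natDegree_sub_le _ _).trans (max_le hQ hRd)
      omega
  have hQR : Q = R := sub_eq_zero.1 key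
  rw [hQR, hRe]

theorem fN_prod_form {N : ℕ} {c : Fin N → ℝ} (hc : Function.Injective c) (hpos : ∀ k, c k ≠ 0)
    (hz : ∀ k, fN N (c k) = 0) (z : ℝ) : fN N z = ∏ k, (1 - z / c k) := by
  have e : ∀ w, fN N w = ((fP N).comp (-X)).eval w := fun w => congrFun (fN_eq' N) w
  rw [e]
  refine prod_form ?_ ?_ hc hpos ?_ z
  · refine (natDegree_comp_le).trans ?_
    have h1 : (fP N).natDegree ≤ N := by
      rw [natDegree_le_iff_coeff_eq_zero]
      intro i hi
      rw [fP_coeff, nar_zero hi]
    rw [natDegree_neg, natDegree_X, mul_one]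
    exact h1
  · rw [← e, fN_at_zero]
  · intro k
    rw [← e, hz]

/-- the induction hypothesis -/
structure Good (n : ℕ) (a : Fin n → ℝ) (b : Fin (n+1) → ℝ) : Prop where
  ma : StrictMono a
  mb : StrictMono b
  pa : ∀ k, 0 < a k
  pb : ∀ k, 0 < b k
  fa : ∀ z, fN n z = ∏ k, (1 - z / a k)
  fb : ∀ z, fN (n+1) z = ∏ k, (1 - z / b k)
  il : ∀ k : Fin n, b k.castSucc < a k ∧ a k < b k.succ

theorem good_zero : Good 0 (fun k => k.elim0) (fun _ => 1) where
  ma := fun k => k.elim0
  mb := fun i j h => by omega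
  pa := fun k => k.elim0
  pb := fun _ => one_pos
  fa := fun z => by simp [fN_zero_left]
  fb := fun z => by simp [fN_one_left]
  il := fun k => k.elim0

theorem sign_prod {n : ℕ} (a : Fin n → ℝ) (pa : ∀ k, 0 < a k) (w : ℝ) (k : ℕ) (hk : k ≤ n)
    (h1 : ∀ i : Fin n, (i:ℕ) < k → a i < w) (h2 : ∀ i : Fin n, k ≤ (i:ℕ) → w < a i) :
    0 < (-1)^k * ∏ i, (1 - w / a i) := by
  have hcard : (Finset.univ.filter (fun i : Fin n => (i:ℕ) < k)).card = k := by
    rw [Fin.card_filter_val_lt]
    exact min_eq_right hk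
  have hpow : (-1:ℝ)^k = ∏ i : Fin n, (if (i:ℕ) < k then (-1:ℝ) else 1) := by
    rw [Finset.prod_ite, Finset.prod_const, Finset.prod_const_one, mul_one, hcard]
  rw [hpow, ← Finset.prod_mul_distrib]
  refine Finset.prod_pos ?_
  intro i _
  have hai := pa i
  by_cases hi : (i:ℕ) < k
  · rw [if_pos hi]
    have := h1 i hi
    have h3 : 1 < w / a i := by rw [lt_div_iff₀ hai]; linarith
    linarith
  · rw [if_neg hi]
    have := h2 i (by omega)
    have h3 : w / a i < 1 := by rw [div_lt_iff₀ hai]; linarith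
    linarith

theorem good_succ {n : ℕ} {a : Fin n → ℝ} {b : Fin (n+1) → ℝ} (h : Good n a b) :
    ∃ c : Fin (n+2) → ℝ, Good (n+1) b c := by
  have hcont : Continuous (fN (n+2)) := (fN_contDiff (n+2)).continuous
  -- signs of `f_n` at the zeros of `f_{n+1}`
  have hsn : ∀ k : Fin (n+1), 0 < (-1)^(k:ℕ) * fN n (b k) := by
    intro k
    rw [h.fa]
    refine sign_prod a h.pa (b k) k (by omega) ?_ ?_
    · intro i hi
      refine lt_of_lt_of_le (h.il i).2 (h.mb.monotone ?_)
      rw [Fin.le_def, Fin.val_succ]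
      omega
    · intro i hi
      refine lt_of_le_of_lt (h.mb.monotone ?_) (h.il i).1
      rw [Fin.le_def, Fin.val_castSucc]
      exact hi
  have hzb : ∀ k : Fin (n+1), fN (n+1) (b k) = 0 := by
    intro k
    rw [h.fb]
    refine Finset.prod_eq_zero (Finset.mem_univ k) ?_
    rw [div_self (h.pb k).ne', sub_self]
  have hs2 : ∀ k : Fin (n+1), 0 < (-1)^((k:ℕ)+1) * fN (n+2) (b k) := by
    intro k
    have h1 := fN_rec n (b k)
    rw [hzb k, mul_zero, zero_sub] at h1
    have h2 := hsn k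
    have h3 : 0 < ((n:ℝ)+4) := by positivity
    have h4 : 0 < ((n:ℝ)+1) * (1 + b k)^2 := by
      have := h.pb k
      positivity
    have h5 : ((n:ℝ)+4) * ((-1)^((k:ℕ)+1) * fN (n+2) (b k))
        = ((n:ℝ)+1) * (1 + b k)^2 * ((-1)^(k:ℕ) * fN n (b k)) := by
      rw [pow_succ]
      linear_combination (-(-1)^(k:ℕ)) * h1
    have h6 : 0 < ((n:ℝ)+4) * ((-1)^((k:ℕ)+1) * fN (n+2) (b k)) := by
      rw [h5]
      exact mul_pos h4 h2
    exact pos_of_mul_pos_right h6 h3.le
  -- a point beyond all zeros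
  obtain ⟨M, hMb, hM⟩ : ∃ M : ℝ, b (Fin.last n) < M ∧ 0 < (-1)^(n+2) * fN (n+2) M := by
    have hev : ∀ᶠ t in nhdsWithin (0:ℝ) (Set.Ioi 0), 0 < fN (n+2) t := by
      have h1 : Filter.Tendsto (fN (n+2)) (nhdsWithin (0:ℝ) (Set.Ioi 0)) (nhds (fN (n+2) 0)) :=
        (hcont.tendsto 0).mono_left nhdsWithin_le_nhds
      refine h1.eventually (lt_mem_nhds ?_)
      rw [fN_at_zero]
      exact one_pos
    have hev2 : ∀ᶠ t in nhdsWithin (0:ℝ) (Set.Ioi 0), t < 1 / b (Fin.last n) := by
      refine nhdsWithin_le_nhds (gt_mem_nhds ?_)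
      exact one_div_pos.2 (h.pb _)
    have hev3 : ∀ᶠ t in nhdsWithin (0:ℝ) (Set.Ioi 0), 0 < t := self_mem_nhdsWithin
    obtain ⟨t, ht1, ht2, ht3⟩ := (hev.and (hev2.and hev3)).exists
    refine ⟨1 / t, ?_, ?_⟩
    · rw [lt_one_div (h.pb _) ht3]
      exact ht2
    · have h1 := fN_inv (n+2) ht3.ne'
      have h2 : 0 < t^(n+2) := pow_pos ht3 _
      have h4 : (-1:ℝ)^(n+2) * (-1)^(n+2) = 1 := by
        rw [← mul_pow]; simp
      have h3 : t^(n+2) * ((-1)^(n+2) * fN (n+2) (1/t)) = fN (n+2) t := by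
        linear_combination (-1)^(n+2) * h1 + fN (n+2) t * h4
      have h5 : 0 < t^(n+2) * ((-1)^(n+2) * fN (n+2) (1/t)) := by
        rw [h3]
        exact ht1
      exact pos_of_mul_pos_right h5 h2.le
  -- the separating points
  let e : Fin (n+2+1) → ℝ := Fin.cons 0 (Fin.snoc b M)
  have e0 : e 0 = 0 := rfl
  have es : ∀ k : Fin (n+1), e k.castSucc.succ = b k := by
    intro k
    simp [e]
  have el : e (Fin.last (n+2)) = M := by
    have : Fin.last (n+2) = (Fin.last (n+1)).succ := rfl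
    rw [this]
    simp [e]
  have hes : StrictMono e := by
    rw [Fin.strictMono_iff_lt_succ]
    intro i
    refine Fin.cases ?_ ?_ i
    · have h1 : e (Fin.castSucc 0) = 0 := rfl
      have h2 : e (Fin.succ 0) = b 0 := es 0
      rw [h1, h2]
      exact h.pb 0
    · intro j
      refine Fin.lastCases ?_ ?_ j
      · have h1 : (Fin.last n).succ.castSucc = (Fin.last n).castSucc.succ := rfl
        rw [h1, es]
        have h2 : (Fin.last n).succ.succ = Fin.last (n+2) := rfl
        rw [h2, el]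
        exact hMb
      · intro k
        have h1 : (k.castSucc).succ.castSucc = (k.castSucc).castSucc.succ := rfl
        have h2 : (k.castSucc).succ.succ = (k.succ).castSucc.succ := rfl
        rw [h1, h2, es, es]
        exact h.mb Fin.castSucc_lt_succ
  have hsg : ∀ k : Fin (n+2+1), 0 < (-1)^(k:ℕ) * fN (n+2) (e k) := by
    intro k
    refine Fin.cases ?_ ?_ k
    · rw [e0, fN_at_zero]
      simp
    · intro j
      refine Fin.lastCases ?_ ?_ j
      · have h1 : (Fin.last (n+1)).succ = Fin.last (n+2) := rfl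
        rw [h1, el]
        exact hM
      · intro i
        rw [es]
        have := hs2 i
        simpa using this
  obtain ⟨c, hc⟩ := ivt_zeros hcont hes hsg
  have hcm : StrictMono c := by
    rw [Fin.strictMono_iff_lt_succ]
    intro i
    have h1 := (hc i.castSucc).2.1
    have h2 := (hc i.succ).1
    have h3 : i.castSucc.succ = i.succ.castSucc := rfl
    rw [h3] at h1
    exact h1.trans h2
  have hcp : ∀ k, 0 < c k := by
    intro k
    have h1 := (hc k).1
    have h2 : e 0 ≤ e k.castSucc := hes.monotone (Fin.zero_le _)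
    rw [e0] at h2
    linarith
  refine ⟨c, h.mb, hcm, h.pb, hcp, h.fb, ?_, ?_⟩
  · exact fN_prod_form hcm.injective (fun k => (hcp k).ne') (fun k => (hc k).2.2)
  · intro k
    have h1 := (hc k.castSucc).2.1
    have h2 := (hc k.succ).1
    rw [es] at h1
    have h3 : k.succ.castSucc = k.castSucc.succ := rfl
    rw [h3, es] at h2
    exact ⟨h1, h2⟩

/-- the sequence of zero sets -/
noncomputable def seq : (n : ℕ) → {p : (Fin n → ℝ) × (Fin (n+1) → ℝ) // Good n p.1 p.2}
  | 0 => ⟨(fun k => k.elim0, fun _ => 1), good_zero⟩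
  | n+1 => ⟨((seq n).1.2, Classical.choose (good_succ (seq n).2)),
      Classical.choose_spec (good_succ (seq n).2)⟩

end NarZ

theorem nar_zeros : ∃ y : (n : ℕ) → Fin n → ℝ,
    (∀ n, StrictMono (y n)) ∧ (∀ n k, 0 < y n k) ∧
    (∀ n z, fN n z = ∏ k, (1 - z / y n k)) ∧
    (∀ n (k l : Fin n), (k:ℕ) + l + 1 = n → y n k * y n l = 1) ∧
    (∀ n (k : Fin n), y (n+1) k.castSucc < y n k ∧ y n k < y (n+1) k.succ) := by
  refine ⟨fun n => (NarZ.seq n).1.1, fun n => (NarZ.seq n).2.ma, fun n => (NarZ.seq n).2.pa,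
    fun n => (NarZ.seq n).2.fa, ?_, fun n k => (NarZ.seq n).2.il k⟩
  intro n k l hkl
  have hG := (NarZ.seq n).2
  set a := (NarZ.seq n).1.1 with ha
  have hzero : ∀ z, fN n z = 0 ↔ ∃ k, a k = z := by
    intro z
    rw [hG.fa, Finset.prod_eq_zero_iff]
    constructor
    · rintro ⟨k, -, hk⟩
      refine ⟨k, ?_⟩
      have hk' := hG.pa k
      have : z / a k = 1 := by linarith
      rw [div_eq_one_iff_eq hk'.ne'] at this
      exact this.symm
    · rintro ⟨k, rfl⟩
      refine ⟨k, Finset.mem_univ k, ?_⟩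
      rw [div_self (hG.pa k).ne', sub_self]
  have hr : a = fun k => 1 / a k.rev := by
    refine (StrictMono.range_inj hG.ma ?_).1 ?_
    · intro i j hij
      have h1 : a j.rev < a i.rev := hG.ma (Fin.rev_lt_rev.2 hij)
      exact one_div_lt_one_div_of_lt (hG.pa _) h1
    · have hinv : ∀ k, ∃ j, a j = 1 / a k := by
        intro k
        rw [← hzero]
        have h1 := fN_inv n (hG.pa k).ne'
        have h2 : fN n (a k) = 0 := (hzero _).2 ⟨k, rfl⟩
        rw [h2, mul_zero] at h1
        exact (mul_eq_zero.1 h1).resolve_left (pow_ne_zero _ (hG.pa k).ne')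
      ext z
      constructor
      · rintro ⟨k, rfl⟩
        obtain ⟨j, hj⟩ := hinv k
        refine ⟨j.rev, ?_⟩
        simp only [Fin.rev_rev]
        rw [hj, one_div_one_div]
      · rintro ⟨k, rfl⟩
        exact hinv _
  have h1 := congrFun hr k
  have h2 : k.rev = l := by
    ext
    rw [Fin.val_rev]
    omega
  simp only [h2] at h1
  change a k * a l = 1
  rw [h1]
  field_simp [(hG.pa l).ne']

/-- zeros of `f_n`, in increasing order -/
noncomputable def ny : (n : ℕ) → Fin n → ℝ := Classical.choose nar_zeros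

theorem ny_strictMono (n : ℕ) : StrictMono (ny n) := (Classical.choose_spec nar_zeros).1 n

theorem ny_pos (n : ℕ) (k : Fin n) : 0 < ny n k := (Classical.choose_spec nar_zeros).2.1 n k

theorem fN_prod (n : ℕ) (z : ℝ) : fN n z = ∏ k, (1 - z / ny n k) :=
  (Classical.choose_spec nar_zeros).2.2.1 n z

theorem ny_symm (n : ℕ) (k l : Fin n) (h : (k:ℕ) + l + 1 = n) : ny n k * ny n l = 1 :=
  (Classical.choose_spec nar_zeros).2.2.2.1 n k l h

theorem ny_interlace (n : ℕ) (k : Fin n) :
    ny (n+1) k.castSucc < ny n k ∧ ny n k < ny (n+1) k.succ :=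
  (Classical.choose_spec nar_zeros).2.2.2.2 n k

end BMoll
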