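import Pool.Agent.Lib.MP_a93a81_co.EllRoots

/-!
# Module RAYLEIGH : strict Rayleigh inequality

`ell(Φ) ell(X^2 Φ) < ell(X Φ)^2` for `Φ = ∏ (X + v_l)`, `v_l` real.

Proof (polar derivatives on the projective line).  For an angle `θ` put
`E_θ = cos θ + X sin θ` and `F(θ) = ell(Q E_θ^n)`.  If `F` has `n` distinct zeros mod `π`, then
by Rolle's theorem on the circle its polar derivative has `n-1` distinct zeros mod `π`.
-/

namespace BMoll

open Polynomial Finset

/-- `E_θ = cos θ + X sin θ`. -/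
private noncomputable def EE (θ : ℝ) : ℝ[X] := C (Real.cos θ) + C (Real.sin θ) * X

private noncomputable def EP (θ : ℝ) : ℝ[X] := -C (Real.sin θ) + C (Real.cos θ) * X

private noncomputable def FF (Q : ℝ[X]) (n : ℕ) (θ : ℝ) : ℝ := ell (Q * EE θ ^ n)

private noncomputable def GG (Q : ℝ[X]) (n : ℕ) (θ : ℝ) : ℝ := ell (Q * EP θ * EE θ ^ n)

private theorem ell_C_mul (a : ℝ) (p : ℝ[X]) : ell (C a * p) = a * ell p := by
  rw [← smul_eq_C_mul, map_smul, smul_eq_mul]

private theorem FF_succ (Q : ℝ[X]) (n : ℕ) (θ : ℝ) :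
    FF Q (n+1) θ = Real.cos θ * FF Q n θ + Real.sin θ * FF (Q * X) n θ := by
  unfold FF
  rw [← ell_C_mul, ← ell_C_mul, ← map_add]
  congr 1
  rw [pow_succ, EE]
  ring

private theorem GG_eq (Q : ℝ[X]) (n : ℕ) (θ : ℝ) :
    GG Q n θ = -Real.sin θ * FF Q n θ + Real.cos θ * FF (Q * X) n θ := by
  unfold FF GG
  rw [← ell_C_mul, ← ell_C_mul, ← map_add]
  congr 1
  rw [EP, C_neg]
  ring

private theorem GG_succ (Q : ℝ[X]) (n : ℕ) (θ : ℝ) :
    GG Q (n+1) θ = Real.cos θ * GG Q n θ + Real.sin θ * GG (Q * X) n θ := by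
  unfold GG
  rw [← ell_C_mul, ← ell_C_mul, ← map_add]
  congr 1
  rw [pow_succ, EE]
  ring

private theorem hasDerivAt_FF (n : ℕ) : ∀ (Q : ℝ[X]) (θ : ℝ),
    HasDerivAt (FF Q (n+1)) ((n+1) * GG Q n θ) θ := by
  induction n with
  | zero =>
    intro Q θ
    have h : FF Q 1 = fun θ => Real.cos θ * ell Q + Real.sin θ * ell (Q * X) := by
      funext θ
      rw [FF_succ]
      simp [FF]
    rw [show (0 + 1) = 1 from rfl, h]
    have h1 := ((Real.hasDerivAt_cos θ).mul_const (ell Q)).add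
      ((Real.hasDerivAt_sin θ).mul_const (ell (Q * X)))
    refine h1.congr_deriv ?_
    rw [GG_eq]
    simp [FF]
  | succ n ih =>
    intro Q θ
    have h : FF Q (n+1+1) = fun θ => Real.cos θ * FF Q (n+1) θ + Real.sin θ * FF (Q * X) (n+1) θ := by
      funext θ
      rw [FF_succ]
    rw [h]
    have h1 := ((Real.hasDerivAt_cos θ).mul (ih Q θ)).add
      ((Real.hasDerivAt_sin θ).mul (ih (Q * X) θ))
    refine h1.congr_deriv ?_
    rw [GG_succ]
    have := GG_eq Q (n+1) θ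
    rw [GG_succ] at this
    push_cast
    linear_combination -this

/-- the polar identity -/
private theorem FF_polar (Q : ℝ[X]) (n : ℕ) (φ θ : ℝ) :
    FF (Q * EE φ) n θ = Real.cos (θ - φ) * FF Q (n+1) θ - Real.sin (θ - φ) * GG Q n θ := by
  unfold FF GG
  rw [← ell_C_mul, ← ell_C_mul, ← map_sub]
  congr 1
  have h : EE φ = C (Real.cos (θ - φ)) * EE θ - C (Real.sin (θ - φ)) * EP θ := by
    unfold EE EP
    have h1 : Real.cos φ = Real.cos (θ - φ) * Real.cos θ + Real.sin (θ - φ) * Real.sin θ := by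
      have := Real.cos_sub θ (θ - φ)
      rw [sub_sub_cancel] at this
      rw [this]; ring
    have h2 : Real.sin φ = Real.cos (θ - φ) * Real.sin θ - Real.sin (θ - φ) * Real.cos θ := by
      have := Real.sin_sub θ (θ - φ)
      rw [sub_sub_cancel] at this
      rw [this]; ring
    rw [h1, h2]
    simp only [C_add, C_sub, C_mul]
    ring
  rw [h, pow_succ]
  ring

private theorem FF_add_pi (Q : ℝ[X]) (n : ℕ) (θ : ℝ) :
    FF Q n (θ + Real.pi) = (-1)^n * FF Q n θ := by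
  unfold FF
  have h : EE (θ + Real.pi) = C (-1) * EE θ := by
    unfold EE
    rw [Real.cos_add_pi, Real.sin_add_pi, C_neg, C_neg, C_neg, C_1]
    ring
  rw [h, mul_pow, ← C_pow, ← ell_C_mul]
  congr 1
  ring

private theorem FF_zero_add_int (Q : ℝ[X]) (n : ℕ) (θ : ℝ) (m : ℤ) :
    FF Q n (θ + m * Real.pi) = 0 ↔ FF Q n θ = 0 := by
  induction m using Int.induction_on with
  | zero => simp
  | succ i ih =>
    rw [← ih]
    have : θ + ((i:ℤ) + 1 : ℤ) * Real.pi = (θ + (i:ℤ) * Real.pi) + Real.pi := by push_cast; ring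
    rw [this, FF_add_pi]
    simp
  | pred i ih =>
    rw [← ih]
    have : θ + (-(i:ℤ) : ℤ) * Real.pi = (θ + (-(i:ℤ) - 1 : ℤ) * Real.pi) + Real.pi := by
      push_cast; ring
    rw [this, FF_add_pi]
    simp

/-- `k` distinct zeros in `[β, β + π)` -/
private def ZZ (f : ℝ → ℝ) (k : ℕ) (β : ℝ) : Prop :=
  ∃ z : Fin k → ℝ, StrictMono z ∧ (∀ i, β ≤ z i ∧ z i < β + Real.pi) ∧ ∀ i, f (z i) = 0

private theorem ZZ_shift {Q : ℝ[X]} {n k : ℕ} {β : ℝ} (h : ZZ (FF Q n) k β) (β' : ℝ) :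
    ZZ (FF Q n) k β' := by
  classical
  obtain ⟨z, hz, hb, h0⟩ := h
  obtain ⟨S, hS⟩ : ∃ S : Finset ℝ, S = univ.image fun i => toIcoMod Real.pi_pos β' (z i) :=
    ⟨_, rfl⟩
  have hmem : ∀ x ∈ S, ∃ j, toIcoMod Real.pi_pos β' (z j) = x := by
    intro x hx
    rw [hS] at hx
    obtain ⟨j, -, hj⟩ := mem_image.1 hx
    exact ⟨j, hj⟩
  have hinj : Function.Injective fun i => toIcoMod Real.pi_pos β' (z i) := by
    intro i j hij
    simp only at hij
    have h1 := toIcoMod_add_toIcoDiv_zsmul Real.pi_pos β' (z i)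
    have h2 := toIcoMod_add_toIcoDiv_zsmul Real.pi_pos β' (z j)
    rw [hij] at h1
    have h3 : z i - z j = ((toIcoDiv Real.pi_pos β' (z i) - toIcoDiv Real.pi_pos β' (z j) : ℤ) : ℝ)
        * Real.pi := by
      rw [zsmul_eq_mul] at h1 h2
      push_cast
      rw [sub_mul]
      linarith
    set m : ℤ := toIcoDiv Real.pi_pos β' (z i) - toIcoDiv Real.pi_pos β' (z j) with hm
    have hpi := Real.pi_pos
    have h4 := hb i
    have h5 := hb j
    have h6 : (m:ℝ) * Real.pi < 1 * Real.pi := by rw [← h3]; linarith [h4.2, h5.1]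
    have h7 : (-1:ℝ) * Real.pi < (m:ℝ) * Real.pi := by rw [← h3]; linarith [h4.1, h5.2]
    have h8 : (m:ℝ) < 1 := lt_of_mul_lt_mul_right h6 hpi.le
    have h9 : (-1:ℝ) < m := lt_of_mul_lt_mul_right h7 hpi.le
    have h10 : m < 1 := by exact_mod_cast h8
    have h11 : -1 < m := by exact_mod_cast h9
    have h12 : m = 0 := by omega
    rw [h12] at h3
    exact hz.injective (by push_cast at h3; linarith)
  have hcard : S.card = k := by
    rw [hS, card_image_of_injective _ hinj, card_univ, Fintype.card_fin]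
  refine ⟨fun i => S.orderEmbOfFin hcard i, (S.orderEmbOfFin hcard).strictMono, ?_, ?_⟩
  · intro i
    obtain ⟨j, hj⟩ := hmem _ (S.orderEmbOfFin_mem hcard i)
    show β' ≤ (S.orderEmbOfFin hcard) i ∧ (S.orderEmbOfFin hcard) i < β' + Real.pi
    rw [← hj]
    exact ⟨left_le_toIcoMod _ _ _, toIcoMod_lt_right _ _ _⟩
  · intro i
    obtain ⟨j, hj⟩ := hmem _ (S.orderEmbOfFin_mem hcard i)
    show FF Q n ((S.orderEmbOfFin hcard) i) = 0
    rw [← hj]
    have h1 := toIcoMod_add_toIcoDiv_zsmul Real.pi_pos β' (z j)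
    rw [← FF_zero_add_int Q n _ (toIcoDiv Real.pi_pos β' (z j))]
    rw [zsmul_eq_mul] at h1
    rw [h1]
    exact h0 j

/-- derivative of `F / sin^n` -/
private theorem hasDerivAt_quot (Q : ℝ[X]) (n : ℕ) (φ θ : ℝ) (h : Real.sin (θ - φ) ≠ 0) :
    HasDerivAt (fun θ => FF Q (n+1) θ / Real.sin (θ - φ) ^ (n+1))
      (-((n+1) * FF (Q * EE φ) n θ / Real.sin (θ - φ) ^ (n+2))) θ := by
  have h1 : HasDerivAt (fun θ => Real.sin (θ - φ) ^ (n+1))
      (((n+1 : ℕ):ℝ) * Real.sin (θ - φ) ^ n * (Real.cos (θ - φ) * 1)) θ := by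
    have h2 : HasDerivAt (fun θ => Real.sin (θ - φ)) (Real.cos (θ - φ) * 1) θ :=
      ((hasDerivAt_id θ).sub_const φ).sin
    exact h2.pow (n+1)
  have h3 := (hasDerivAt_FF n Q θ).div h1 (pow_ne_zero _ h)
  refine h3.congr_deriv ?_
  rw [FF_polar]
  field_simp
  push_cast
  ring

private theorem sin_pos_of {φ θ : ℝ} (h1 : φ < θ) (h2 : θ < φ + Real.pi) :
    0 < Real.sin (θ - φ) :=
  Real.sin_pos_of_pos_of_lt_pi (by linarith) (by linarith)

/-- Rolle on the circle -/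
private theorem rolle_circle {Q : ℝ[X]} {n : ℕ} {φ a b : ℝ} (ha : φ ≤ a) (hab : a < b)
    (hb : b < φ + Real.pi) (h0 : FF Q (n+1) a = 0) (h1 : FF Q (n+1) b = 0) :
    ∃ c, a ≤ c ∧ c < b ∧ FF (Q * EE φ) n c = 0 := by
  rcases eq_or_lt_of_le ha with rfl | ha
  · refine ⟨φ, le_rfl, hab, ?_⟩
    rw [FF_polar, h0]
    simp
  · have hs : ∀ x ∈ Set.Icc a b, Real.sin (x - φ) ≠ 0 := fun x hx =>
      (sin_pos_of (lt_of_lt_of_le ha hx.1) (lt_of_le_of_lt hx.2 hb)).ne'
    obtain ⟨c, hc, hc0⟩ := exists_hasDerivAt_eq_zero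
      (f := fun θ => FF Q (n+1) θ / Real.sin (θ - φ) ^ (n+1))
      (f' := fun θ => -((n+1) * FF (Q * EE φ) n θ / Real.sin (θ - φ) ^ (n+2))) hab
      (fun x hx => (hasDerivAt_quot Q n φ x (hs x hx)).continuousAt.continuousWithinAt)
      (by simp [h0, h1])
      (fun x hx => hasDerivAt_quot Q n φ x (hs x (Set.Ioo_subset_Icc_self hx)))
    refine ⟨c, hc.1.le, hc.2, ?_⟩
    have hsc := hs c (Set.Ioo_subset_Icc_self hc)
    have hn : ((n:ℝ)+1) ≠ 0 := by positivity
    simp only [neg_eq_zero, div_eq_zero_iff, mul_eq_zero, pow_eq_zero_iff (n := n+2) (by omega),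
      hsc, hn, or_false, false_or] at hc0
    exact hc0

private theorem polar_step {Q : ℝ[X]} {n : ℕ} {φ : ℝ} (h : ZZ (FF Q (n+1)) (n+1) φ) :
    ZZ (FF (Q * EE φ) n) n φ := by
  obtain ⟨z, hz, hb, h0⟩ := h
  have key : ∀ i : Fin n, ∃ c, z i.castSucc ≤ c ∧ c < z i.succ ∧ FF (Q * EE φ) n c = 0 := fun i =>
    rolle_circle (hb _).1 (hz (Fin.castSucc_lt_succ)) (hb _).2 (h0 _) (h0 _)
  choose c hc1 hc2 hc3 using key
  refine ⟨c, ?_, ?_, hc3⟩
  · intro i j hij
    calc c i < z i.succ := hc2 i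
      _ ≤ z j.castSucc := hz.monotone (by
          rw [Fin.le_def]; simpa using hij)
      _ ≤ c j := hc1 j
  · intro i
    exact ⟨(hb _).1.trans (hc1 i), (hc2 i).trans (hb _).2⟩

private theorem polar_ne {Q : ℝ[X]} {n : ℕ} {φ : ℝ} (hn : 1 ≤ n) (h : ZZ (FF Q (n+1)) (n+1) φ)
    (hne : ∃ θ, FF Q (n+1) θ ≠ 0) : ∃ θ, FF (Q * EE φ) n θ ≠ 0 := by
  by_contra hcon
  push Not at hcon
  obtain ⟨θ, hθ⟩ := hne
  apply hθ
  obtain ⟨z, hz, hb, h0⟩ := h
  -- a zero in the open interval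
  obtain ⟨y, hy1, hy2, hy0⟩ : ∃ y, φ < y ∧ y < φ + Real.pi ∧ FF Q (n+1) y = 0 := by
    refine ⟨z (Fin.last n), ?_, (hb _).2, h0 _⟩
    have : z 0 < z (Fin.last n) := hz (by rw [Fin.lt_def]; simp; omega)
    exact lt_of_le_of_lt (hb 0).1 this
  have main : ∀ x, φ < x → x < φ + Real.pi → FF Q (n+1) x = 0 := by
    intro x hx1 hx2
    set g : ℝ → ℝ := fun θ => FF Q (n+1) θ / Real.sin (θ - φ) ^ (n+1) with hg
    have hd : ∀ w ∈ Set.Ioo φ (φ + Real.pi), HasDerivAt g 0 w := by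
      intro w hw
      have := hasDerivAt_quot Q n φ w (sin_pos_of hw.1 hw.2).ne'
      rw [hcon w] at this
      simpa using this
    have hconst : g x = g y := by
      have hconv : Convex ℝ (Set.Ioo φ (φ + Real.pi)) := convex_Ioo _ _
      have := hconv.norm_image_sub_le_of_norm_hasDerivWithin_le (f := g) (f' := fun _ => 0)
        (C := 0) (fun w hw => (hd w hw).hasDerivWithinAt) (by simp) (x := y) (y := x)
        ⟨hy1, hy2⟩ ⟨hx1, hx2⟩
      simp only [zero_mul, norm_le_zero_iff] at this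
      linarith [sub_eq_zero.1 this]
    have hgy : g y = 0 := by simp [hg, hy0]
    rw [hgy] at hconst
    have hs := (sin_pos_of hx1 hx2).ne'
    simpa [hg, hs] using hconst
  have main2 : ∀ x, φ ≤ x → x < φ + Real.pi → FF Q (n+1) x = 0 := by
    intro x hx1 hx2
    rcases eq_or_lt_of_le hx1 with rfl | hx1
    · have := hcon φ
      rw [FF_polar] at this
      simpa using this
    · exact main x hx1 hx2
  have h1 := toIcoMod_add_toIcoDiv_zsmul Real.pi_pos φ θ
  rw [zsmul_eq_mul] at h1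
  rw [← h1, FF_zero_add_int]
  exact main2 _ (left_le_toIcoMod _ _ _) (toIcoMod_lt_right _ _ _)

/-- `X + C v` as a multiple of some `E_φ` -/
private theorem exists_angle (v : ℝ) : ∃ φ c : ℝ, 0 < φ ∧ φ < Real.pi ∧
    φ = Real.pi / 2 - Real.arctan v ∧ c ≠ 0 ∧ EE φ = C c * (X + C v) := by
  refine ⟨Real.pi / 2 - Real.arctan v, Real.cos (Real.arctan v), ?_, ?_, rfl, ?_, ?_⟩
  · linarith [Real.arctan_lt_pi_div_two v]
  · linarith [Real.neg_pi_div_two_lt_arctan v]
  · exact (Real.cos_arctan_pos v).ne'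
  · have h1 : Real.sin (Real.arctan v) = v * Real.cos (Real.arctan v) := by
      have h2 := Real.tan_arctan v
      rw [Real.tan_eq_sin_div_cos] at h2
      rw [div_eq_iff (Real.cos_arctan_pos v).ne'] at h2
      exact h2
    unfold EE
    rw [Real.cos_pi_div_two_sub, Real.sin_pi_div_two_sub, h1]
    simp only [C_mul]
    ring

private theorem FF_smul (Q : ℝ[X]) (n : ℕ) (c : ℝ) (θ : ℝ) :
    FF (Q * C c) n θ = c * FF Q n θ := by
  unfold FF
  rw [← ell_C_mul]
  congr 1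
  ring

private theorem polar_step' {Q : ℝ[X]} {n : ℕ} (v : ℝ) (hn : 1 ≤ n)
    (h : ZZ (FF Q (n+1)) (n+1) 0) (hne : ∃ θ, FF Q (n+1) θ ≠ 0) :
    ZZ (FF (Q * (X + C v)) n) n 0 ∧ ∃ θ, FF (Q * (X + C v)) n θ ≠ 0 := by
  obtain ⟨φ, c, -, -, -, hc, hE⟩ := exists_angle v
  have h1 := ZZ_shift h φ
  have hEq : ∀ θ, FF (Q * EE φ) n θ = c * FF (Q * (X + C v)) n θ := by
    intro θ
    rw [hE, ← FF_smul]
    congr 1
    ring
  constructor
  · obtain ⟨z, hz, hb, h0⟩ := ZZ_shift (polar_step h1) 0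
    refine ⟨z, hz, hb, fun i => ?_⟩
    have := h0 i
    rw [hEq] at this
    exact (mul_eq_zero.1 this).resolve_left hc
  · obtain ⟨θ, hθ⟩ := polar_ne hn h1 hne
    refine ⟨θ, fun h2 => hθ ?_⟩
    rw [hEq, h2, mul_zero]

private theorem start (N : ℕ) : ZZ (FF 1 N) N 0 := by
  obtain ⟨t, ht, h0⟩ := ell_pow_roots N
  refine ⟨fun k => Real.pi / 2 - Real.arctan (t k.rev), ?_, ?_, ?_⟩
  · intro i j hij
    have h1 : t j.rev < t i.rev := ht (Fin.rev_lt_rev.2 hij)
    have h2 := Real.arctan_strictMono h1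
    simp only
    linarith
  · intro i
    constructor
    · simp only; linarith [Real.arctan_lt_pi_div_two (t i.rev)]
    · simp only; linarith [Real.neg_pi_div_two_lt_arctan (t i.rev)]
  · intro i
    obtain ⟨φ, c, -, -, hφ, hc, hE⟩ := exists_angle (t i.rev)
    simp only
    rw [← hφ]
    unfold FF
    rw [hE, one_mul, mul_pow, ← C_pow, ell_C_mul, h0, mul_zero]

private theorem all_steps {n : ℕ} : ∀ (v : Fin n → ℝ) (m : ℕ), 1 ≤ m →
    ZZ (FF (∏ l, (X + C (v l))) m) m 0 ∧ ∃ θ, FF (∏ l, (X + C (v l))) m θ ≠ 0 := by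
  induction n with
  | zero =>
    intro v m _
    simp only [Finset.univ_eq_empty, Finset.prod_empty]
    refine ⟨start m, 0, ?_⟩
    have h1 : ell (1:ℝ[X]) = 1 := by
      rw [← C_1]
      unfold ell
      rw [Polynomial.lsum_apply, sum_C_index (by simp)]
      simp [ellm]
    unfold FF EE
    simp [h1]
  | succ n ih =>
    intro v m hm
    rw [Fin.prod_univ_castSucc]
    obtain ⟨h1, h2⟩ := ih (fun l => v l.castSucc) (m+1) (by omega)
    exact polar_step' (v (Fin.last n)) hm h1 h2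

theorem rayleigh {n : ℕ} (v : Fin n → ℝ) :
    ell (∏ l, (X + C (v l))) * ell (X^2 * ∏ l, (X + C (v l)))
      < (ell (X * ∏ l, (X + C (v l))))^2 := by
  set Φ : ℝ[X] := ∏ l, (X + C (v l)) with hΦ
  obtain ⟨⟨z, hz, hb, h0⟩, θ, hθ⟩ := all_steps v 2 (by norm_num)
  rw [← hΦ] at h0 hθ
  set A := ell Φ with hA
  set B := ell (X * Φ) with hB
  set D := ell (X^2 * Φ) with hD
  have hF : ∀ θ, FF Φ 2 θ = A * Real.cos θ ^ 2 + 2 * B * (Real.cos θ * Real.sin θ)
      + D * Real.sin θ ^ 2 := by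
    intro θ
    unfold FF EE
    have : Φ * (C (Real.cos θ) + C (Real.sin θ) * X) ^ 2 =
        C (Real.cos θ ^ 2) * Φ + C (2 * (Real.cos θ * Real.sin θ)) * (X * Φ)
          + C (Real.sin θ ^ 2) * (X^2 * Φ) := by
      simp only [C_pow, C_mul, map_ofNat]
      ring
    rw [this, map_add, map_add, ell_C_mul, ell_C_mul, ell_C_mul]
    ring
  have e1 := h0 0
  have e2 := h0 1
  rw [hF] at e1 e2 hθ
  set c1 := Real.cos (z 0)
  set s1 := Real.sin (z 0)
  set c2 := Real.cos (z 1)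
  set s2 := Real.sin (z 1)
  have hdet : c1 * s2 - c2 * s1 ≠ 0 := by
    have h1 : c1 * s2 - c2 * s1 = Real.sin (z 1 - z 0) := by
      rw [Real.sin_sub]; ring
    rw [h1]
    have hlt : z 0 < z 1 := hz (by decide)
    exact (Real.sin_pos_of_pos_of_lt_pi (by linarith)
      (by linarith [(hb 0).1, (hb 1).2])).ne'
  set b := A * (c1 * c2) + B * (c1 * s2 + c2 * s1) + D * (s1 * s2) with hbdef
  have hb0 : b ≠ 0 := by
    intro hb0
    have hd2 : (c1 * s2 - c2 * s1)^2 ≠ 0 := pow_ne_zero _ hdet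
    have hA0 : A = 0 := by
      have : A * (c1 * s2 - c2 * s1)^2 = 0 := by
        rw [hbdef] at hb0
        linear_combination s2^2 * e1 + s1^2 * e2 - 2 * s1 * s2 * hb0
      exact (mul_eq_zero.1 this).resolve_right hd2
    have hD0 : D = 0 := by
      have : D * (c1 * s2 - c2 * s1)^2 = 0 := by
        rw [hbdef] at hb0
        linear_combination c2^2 * e1 + c1^2 * e2 - 2 * c1 * c2 * hb0
      exact (mul_eq_zero.1 this).resolve_right hd2
    have hB0 : B = 0 := by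
      have : B * (c1 * s2 - c2 * s1)^2 = 0 := by
        rw [hbdef] at hb0
        linear_combination -c2*s2 * e1 - c1*s1 * e2 + (c1*s2 + c2*s1) * hb0
      exact (mul_eq_zero.1 this).resolve_right hd2
    apply hθ
    rw [hA0, hB0, hD0]
    ring
  have hmain : (B^2 - A * D) * (c1 * s2 - c2 * s1)^2 = b^2 := by
    rw [hbdef]
    linear_combination
      (-(A * c2^2 + 2 * B * (c2*s2) + D * s2^2)) * e1
  have hpos : 0 < b^2 := by positivity
  have hd2 : 0 < (c1 * s2 - c2 * s1)^2 := by positivity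
  rw [← hmain] at hpos
  have := (mul_pos_iff_of_pos_right hd2).1 hpos
  linarith

end BMoll
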