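import Pool.Agent.Lib.MP_a93a81_co.LPBasic

/-!
# Module SEP : separators imply membership in the class
-/

namespace BMoll

open Polynomial Finset

theorem sep_zero {F : ℝ → ℝ} (hF : Continuous F) {s a b : ℝ} (hab : a < b) (ha : 0 < s * F (-a))
    (hb : s * F (-b) < 0) : ∃ x, a < x ∧ x < b ∧ F (-x) = 0 := by
  have hc : ContinuousOn (fun t => s * F (-t)) (Set.Icc a b) := by
    fun_prop
  obtain ⟨x, hx, hx0⟩ := intermediate_value_Ioo' hab.le hc (⟨hb, ha⟩ : (0:ℝ) ∈ Set.Ioo (s * F (-b)) (s * F (-a)))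
  refine ⟨x, hx.1, hx.2, ?_⟩
  have hs : s ≠ 0 := by
    rintro rfl
    simp at ha
  exact (mul_eq_zero.mp hx0).resolve_left hs

theorem sep {m : ℕ} {b : ℕ → ℝ} (hbm : 0 < b m) (hb0 : ∀ i, m < i → b i = 0) {l h : Fin m → ℝ}
    (hl : ∀ k, 0 < l k) (hlh : ∀ k, l k < h k) (hhl : ∀ i j : Fin m, i < j → h i ≤ l j)
    (hsl : ∀ k : Fin m, 0 < (-1)^(k:ℕ) * ∑ i ∈ range (m+1), b i * (-(l k))^i)
    (hsh : ∀ k : Fin m, 0 < (-1)^((k:ℕ)+1) * ∑ i ∈ range (m+1), b i * (-(h k))^i)
    (hll : ∀ i j : Fin m, (i:ℕ) + j + 1 = m → 1 ≤ l i * l j)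
    (hhh : ∀ i j : Fin m, (i:ℕ) + j + 2 = m → h i * h j ≤ 1) :
    ∃ x : Fin m → ℝ, Cls m x ∧ ∀ i, b i = b m * (pr x).coeff i := by
  have hbm' := hbm
  set B : ℝ[X] := ∑ i ∈ range (m+1), C (b i) * X^i with hB
  have hBe : ∀ z, B.eval z = ∑ i ∈ range (m+1), b i * z^i := by
    intro z
    rw [hB, eval_finsetSum]
    refine Finset.sum_congr rfl fun i _ => ?_
    simp
  have hBc : ∀ i, B.coeff i = b i := by
    intro i
    rw [hB, finsetSum_coeff]
    simp only [coeff_C_mul, coeff_X_pow]
    by_cases hi : i < m + 1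
    · rw [Finset.sum_eq_single i]
      · simp
      · intro j _ hj
        simp [Ne.symm hj]
      · intro h
        exact absurd (Finset.mem_range.mpr hi) h
    · rw [hb0 i (by omega)]
      refine Finset.sum_eq_zero fun j hj => ?_
      have : j < m + 1 := Finset.mem_range.mp hj
      have h2 : i ≠ j := by omega
      simp [h2]
  have hx : ∀ k : Fin m, ∃ x, l k < x ∧ x < h k ∧ B.eval (-x) = 0 := by
    intro k
    refine sep_zero (F := fun z => B.eval z) B.continuous (s := (-1)^(k:ℕ)) (hlh k) ?_ ?_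
    · rw [hBe]; exact hsl k
    · have := hsh k
      rw [← hBe, pow_succ] at this
      linarith
  choose x hx1 hx2 hx3 using hx
  have hmono : StrictMono x := by
    intro i j hij
    exact (hx2 i).trans_le ((hhl i j hij).trans (hx1 j).le)
  have hpos : ∀ k, 0 < x k := fun k => (hl k).trans (hx1 k)
  have heq : B = C (b m) * pr x := by
    refine Polynomial.eq_of_degree_sub_lt_of_eval_index_eq (s := (Finset.univ : Finset (Fin m)))
      (v := fun k => - x k) ?_ ?_ ?_
    · intro i _ j _ hij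
      exact hmono.injective (neg_injective hij)
    · rw [Finset.card_univ, Fintype.card_fin, degree_lt_iff_coeff_zero]
      intro k hk
      rw [coeff_sub, hBc, coeff_C_mul]
      rcases hk.lt_or_eq with h1 | h1
      · rw [hb0 k h1, pr_coeff_gt x h1]; ring
      · subst h1
        have : (pr x).coeff m = 1 := by
          have := (pr_monic x).coeff_natDegree
          rwa [pr_natDegree] at this
        rw [this]; ring
    · intro k _
      rw [hx3 k, eval_mul]
      have : (pr x).eval (- x k) = 0 := by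
        unfold pr
        rw [eval_prod]
        exact Finset.prod_eq_zero (Finset.mem_univ k) (by simp)
      rw [this, mul_zero]
  refine ⟨x, ⟨hmono, hpos, ?_, ?_⟩, ?_⟩
  · intro i j hij
    calc (1:ℝ) ≤ l i * l j := hll i j hij
      _ < x i * x j := mul_lt_mul'' (hx1 i) (hx1 j) (hl i).le (hl j).le
  · intro i j hij
    calc x i * x j < h i * h j := mul_lt_mul'' (hx2 i) (hx2 j) (hpos i).le (hpos j).le
      _ ≤ 1 := hhh i j hij
  · intro i
    rw [← hBc i, heq, coeff_C_mul]

end BMoll
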