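import Pool.Agent.Lib.MP_a93a81_co.NarZeros

/-!
# Module STURMA : extended zero sequence, sign and differential equation of `U_n`

`U_n(z) = z f_n(z) (1+z)^{-(n+1)}`; `U'' + (n+1)(n+2)/(z(1+z)^2) U = 0` follows from `fN_ode`.
Zeros of `U_n` on `[0,∞)`: `0 = nz n 0 < nz n 1 < … < nz n n`; `U_n` has sign `(-1)^j` on
`(nz n j, nz n (j+1))` (from `fN_prod`).
-/

namespace BMoll

/-- extended zero sequence: `nz n 0 = 0`, `nz n (j+1) = ny n j` -/
noncomputable def nz (n j : ℕ) : ℝ :=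
  if h : 1 ≤ j ∧ j ≤ n then ny n ⟨j-1, by omega⟩ else 0

theorem nz_zero (n : ℕ) : nz n 0 = 0 := by simp [nz]

theorem nz_succ (n : ℕ) (k : Fin n) : nz n ((k:ℕ)+1) = ny n k := by
  unfold nz
  rw [dif_pos ⟨by omega, by omega⟩]
  congr 1

theorem nz_pos {n j : ℕ} (h1 : 1 ≤ j) (h2 : j ≤ n) : 0 < nz n j := by
  unfold nz
  rw [dif_pos ⟨h1, h2⟩]
  exact ny_pos n _

theorem nz_lt {n i j : ℕ} (hij : i < j) (hj : j ≤ n) : nz n i < nz n j := by
  rcases Nat.eq_zero_or_pos i with rfl | hi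
  · rw [nz_zero]
    exact nz_pos (by omega) hj
  · unfold nz
    rw [dif_pos ⟨hi, by omega⟩, dif_pos ⟨by omega, hj⟩]
    refine ny_strictMono n ?_
    rw [Fin.lt_def]
    change i - 1 < j - 1
    omega

theorem nz_le {n i j : ℕ} (hij : i ≤ j) (hj : j ≤ n) : nz n i ≤ nz n j := by
  rcases Nat.eq_or_lt_of_le hij with rfl | h
  · exact le_rfl
  · exact (nz_lt h hj).le

theorem Uf_zero_iff {n j : ℕ} (h2 : j ≤ n) : Uf n (nz n j) = 0 := by
  unfold Uf
  rcases Nat.eq_zero_or_pos j with rfl | hj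
  · rw [nz_zero]
    simp
  · have h : fN n (nz n j) = 0 := by
      unfold nz
      rw [dif_pos ⟨hj, h2⟩, fN_prod]
      refine Finset.prod_eq_zero (Finset.mem_univ (⟨j-1, by omega⟩ : Fin n)) ?_
      rw [div_self (ny_pos n _).ne', sub_self]
    rw [h, mul_zero, zero_div]

/-- sign of `U_n` between consecutive zeros -/
theorem Uf_sign {n j : ℕ} (hj : j + 1 ≤ n) {z : ℝ} (h1 : nz n j < z) (h2 : z < nz n (j+1)) :
    0 < (-1)^j * Uf n z := by
  have hz : 0 < z := by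
    have : nz n 0 ≤ nz n j := nz_le (Nat.zero_le _) (by omega)
    rw [nz_zero] at this
    linarith
  have h3 : 0 < (-1)^j * fN n z := by
    rw [fN_prod]
    refine NarZ.sign_prod (ny n) (ny_pos n) z j (by omega) ?_ ?_
    · intro i hi
      rw [← nz_succ]
      exact lt_of_le_of_lt (nz_le (by omega) (by omega)) h1
    · intro i hi
      rw [← nz_succ]
      exact lt_of_lt_of_le h2 (nz_le (by omega) (by omega))
  have h4 : (-1)^j * Uf n z = ((-1)^j * fN n z) * (z / (1+z)^(n+1)) := by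
    unfold Uf
    ring
  rw [h4]
  positivity

theorem Uf_smooth (n : ℕ) : ContDiffOn ℝ ⊤ (Uf n) (Set.Ioi (-1)) := by
  unfold Uf
  refine ContDiffOn.div ?_ ?_ ?_
  · exact (contDiff_id.mul (fN_contDiff n)).contDiffOn
  · exact ((contDiff_const.add contDiff_id).pow _).contDiffOn
  · intro z hz
    have : (0:ℝ) < 1 + z := by
      have := Set.mem_Ioi.1 hz
      linarith
    exact (pow_pos this _).ne'

theorem fN_hasDerivAt (n : ℕ) (z : ℝ) : HasDerivAt (fN n) (deriv (fN n) z) z :=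
  (((fN_contDiff n).differentiable (by simp)) z).hasDerivAt

theorem fN_hasDerivAt2 (n : ℕ) (z : ℝ) :
    HasDerivAt (deriv (fN n)) (deriv (deriv (fN n)) z) z := by
  have h : ContDiff ℝ 1 (deriv (fN n)) := by
    have h2 : ContDiff ℝ (1 + 1) (fN n) := (fN_contDiff n).of_le le_top
    exact (contDiff_succ_iff_deriv.1 h2).2.2
  exact ((h.differentiable (by simp)) z).hasDerivAt

/-- first derivative of `U_n` -/
theorem Uf_hasDerivAt (n : ℕ) {z : ℝ} (hz : -1 < z) :
    HasDerivAt (Uf n) (((1 - n*z) * fN n z + z*(1+z) * deriv (fN n) z) / (1+z)^(n+2)) z := by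
  have h1 : (0:ℝ) < 1 + z := by linarith
  have hnum : HasDerivAt (fun w => w * fN n w) (1 * fN n z + z * deriv (fN n) z) z :=
    (hasDerivAt_id z).mul (fN_hasDerivAt n z)
  have hden : HasDerivAt (fun w : ℝ => (1 + w)^(n+1)) ((n+1 : ℕ) * (1+z)^(n+1-1) * 1) z :=
    ((hasDerivAt_id z).const_add 1).pow (n+1)
  have h := hnum.div hden (pow_ne_zero _ h1.ne')
  refine h.congr_deriv ?_
  simp only [Nat.add_sub_cancel]
  push_cast
  have h2 : (1+z) ≠ 0 := h1.ne'
  field_simp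
  ring

theorem Uf_ode (n : ℕ) {z : ℝ} (hz : 0 < z) :
    deriv (deriv (Uf n)) z = -(((n:ℝ)+1)*(n+2)/(z*(1+z)^2)) * Uf n z := by
  have h1 : (0:ℝ) < 1 + z := by linarith
  have hev : deriv (Uf n) =ᶠ[nhds z]
      fun w => ((1 - n*w) * fN n w + w*(1+w) * deriv (fN n) w) / (1+w)^(n+2) := by
    filter_upwards [lt_mem_nhds (show (-1:ℝ) < z by linarith)] with w hw
    exact (Uf_hasDerivAt n hw).deriv
  rw [hev.deriv_eq]
  have ha : HasDerivAt (fun w : ℝ => 1 - n*w) (-(n:ℝ)) z := by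
    have := ((hasDerivAt_id z).const_mul (n:ℝ)).const_sub 1
    simpa using this
  have hb : HasDerivAt (fun w : ℝ => w*(1+w)) (1 + 2*z) z := by
    have := (hasDerivAt_id z).mul ((hasDerivAt_id z).const_add 1)
    refine this.congr_deriv ?_
    simp
    ring
  have hnum : HasDerivAt (fun w => (1 - n*w) * fN n w + w*(1+w) * deriv (fN n) w)
      ((-(n:ℝ) * fN n z + (1 - n*z) * deriv (fN n) z) +
        ((1+2*z) * deriv (fN n) z + z*(1+z) * deriv (deriv (fN n)) z)) z :=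
    (ha.mul (fN_hasDerivAt n z)).add (hb.mul (fN_hasDerivAt2 n z))
  have hden : HasDerivAt (fun w : ℝ => (1 + w)^(n+2)) ((n+2 : ℕ) * (1+z)^(n+2-1) * 1) z :=
    ((hasDerivAt_id z).const_add 1).pow (n+2)
  have h := (hnum.div hden (pow_ne_zero _ h1.ne')).deriv
  rw [show (fun w => ((1 - (n:ℝ)*w) * fN n w + w*(1+w) * deriv (fN n) w) / (1+w)^(n+2))
    = ((fun w => (1 - (n:ℝ)*w) * fN n w + w*(1+w) * deriv (fN n) w) / fun w : ℝ => (1 + w)^(n+2))
    from rfl, h]
  have e : n + 2 - 1 = n + 1 := rfl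
  rw [e]
  unfold Uf
  push_cast
  have h2 : (1+z) ≠ 0 := h1.ne'
  have hz0 : z ≠ 0 := hz.ne'
  have hode := fN_ode n z
  field_simp
  linear_combination ((1+z)^(n*2) * (1+z)^5) * hode

end BMoll
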