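import Pool.Agent.Lib.MP_a93a81_co.SturmA

/-!
# Module STURMB : the equation `U'' + (n+1)(n+2)/(z(1+z)^2) U = 0` and its Sturm consequences

`U_n(z) = z f_n(z) (1+z)^{-(n+1)}`; the equation follows from `fN_ode`.  `q(z) = (n+1)(n+2)/(z(1+z)^2)`
is positive and strictly decreasing on `(0,∞)`.  Zeros of `U_n` on `[0,∞)`:
`0 = nz n 0 < nz n 1 < … < nz n n` and `U_n` has sign `(-1)^j` on `(nz n j, nz n (j+1))`
(from `fN_prod`).
REFLECTION.  Fix `1 ≤ j`, `j+1 ≤ n`, `y = nz n j`, `g₁ = y - nz n (j-1)`, `g₂ = nz n (j+1) - y`,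
`u(t) = |U(y-t)|` on `[0,g₁]`, `v(t) = |U(y+t)|` on `[0,g₂]` (`|U| = ±U` with constant sign there).
`u(0) = v(0) = 0`, `u'(0) = v'(0)`.  `D = v'u - v u'`: `D(0) = 0`,
`D' = (q(y-t) - q(y+t)) u v > 0` for `0 < t < min(g₁,g₂)`, so `D > 0` on `(0, min(g₁,g₂)]`.
If `g₂ ≤ g₁`: at `t = g₂`: `v = 0`, `v' ≤ 0`, `u ≥ 0`, `D = v'u ≤ 0`, contradiction.  So `g₁ < g₂`;
`(v/u)' = D/u² > 0` on `(0,g₁)`; if `v ≤ u` at some `t₀ < g₁` then `v < u` before `t₀` and `v - u`
is strictly convex on `[0,t₀]` with vanishing value and derivative at `0`, so it is positive at `t₀`,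
contradiction; at `t = g₁`, `u = 0 < v`.
SPACING.  Let `q₀ = q(y)`, `ω = √q₀`, `g = g₂`.  If `g < π/ω`: `S(t) = sin(ω t)`, `v` as above,
`v'' = -q(y+t) v`, `D = v'S - vS'`, `D(0) = 0`, `D' = (q₀ - q(y+t)) v S > 0` on `(0,g)`, but
`D(g) = v'(g) S(g) ≤ 0`, contradiction.  So `g ≥ π/ω = π √y (1+y)/√((n+1)(n+2))`.
-/

namespace BMoll

/-- Wronskian comparison on `[0,T]`. -/
theorem wronski_pos {u v u1 v1 u2 v2 a b : ℝ → ℝ} {T : ℝ} (hT : 0 < T)
    (hu : ∀ t ∈ Set.Icc 0 T, HasDerivAt u (u1 t) t) (hv : ∀ t ∈ Set.Icc 0 T, HasDerivAt v (v1 t) t)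
    (hu1 : ∀ t ∈ Set.Icc 0 T, HasDerivAt u1 (u2 t) t)
    (hv1 : ∀ t ∈ Set.Icc 0 T, HasDerivAt v1 (v2 t) t)
    (hu2 : ∀ t ∈ Set.Ioo 0 T, u2 t = - a t * u t) (hv2 : ∀ t ∈ Set.Ioo 0 T, v2 t = - b t * v t)
    (hab : ∀ t ∈ Set.Ioo 0 T, b t < a t) (hup : ∀ t ∈ Set.Ioo 0 T, 0 < u t)
    (hvp : ∀ t ∈ Set.Ioo 0 T, 0 < v t) (h0 : v1 0 * u 0 - v 0 * u1 0 = 0) :
    0 < v1 T * u T - v T * u1 T := by
  have hD : ∀ t ∈ Set.Icc 0 T, HasDerivAt (fun t => v1 t * u t - v t * u1 t)
      (v2 t * u t - v t * u2 t) t := by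
    intro t ht
    exact (((hv1 t ht).mul (hu t ht)).sub ((hv t ht).mul (hu1 t ht))).congr_deriv (by ring)
  have hmono : StrictMonoOn (fun t => v1 t * u t - v t * u1 t) (Set.Icc 0 T) := by
    apply strictMonoOn_of_deriv_pos (convex_Icc 0 T)
    · exact fun t ht => (hD t ht).continuousAt.continuousWithinAt
    · intro t ht
      rw [interior_Icc] at ht
      rw [(hD t (Set.Ioo_subset_Icc_self ht)).deriv, hu2 t ht, hv2 t ht]
      have h1 := hab t ht
      have h2 := mul_pos (hup t ht) (hvp t ht)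
      nlinarith [mul_pos (sub_pos.2 h1) h2]
  have := hmono (Set.left_mem_Icc.2 hT.le) (Set.right_mem_Icc.2 hT.le) hT
  simp only at this
  linarith

/-- a function positive to the left of a zero has nonpositive derivative there -/
theorem deriv_nonpos_of_pos_left {v : ℝ → ℝ} {T d : ℝ} (hT : 0 < T) (hd : HasDerivAt v d T)
    (hpos : ∀ t ∈ Set.Ioo 0 T, 0 < v t) (h0 : v T = 0) : d ≤ 0 := by
  by_contra hcon
  push Not at hcon
  have h1 := hd.hasDerivWithinAt (s := Set.Iio T)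
  rw [hasDerivWithinAt_iff_tendsto_slope' (by simp)] at h1
  have h2 : ∀ᶠ x in nhdsWithin T (Set.Iio T), 0 < slope v T x := h1.eventually (lt_mem_nhds hcon)
  have h3 : ∀ᶠ x in nhdsWithin T (Set.Iio T), x ∈ Set.Ioo 0 T := Ioo_mem_nhdsLT hT
  obtain ⟨x, hx1, hx2⟩ := (h2.and h3).exists
  rw [slope_def_field, h0] at hx1
  have h4 := hpos x hx2
  have h5 : x - T < 0 := by linarith [hx2.2]
  have h6 : (v x - 0) / (x - T) < 0 := div_neg_of_pos_of_neg (by linarith) h5
  linarith

theorem Uf_hasDeriv (n : ℕ) {z : ℝ} (hz : -1 < z) : HasDerivAt (Uf n) (deriv (Uf n) z) z := by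
  have h := (Uf_smooth n).contDiffAt (Ioi_mem_nhds hz)
  exact (h.differentiableAt (by simp)).hasDerivAt

theorem Uf_hasDeriv2 (n : ℕ) {z : ℝ} (hz : -1 < z) :
    HasDerivAt (deriv (Uf n)) (deriv (deriv (Uf n)) z) z := by
  have h := (Uf_smooth n)
  have h2 : ContDiffOn ℝ 1 (deriv (Uf n)) (Set.Ioi (-1)) :=
    ((contDiffOn_succ_iff_deriv_of_isOpen isOpen_Ioi).1 (h.of_le le_top)).2.2
  exact ((h2.contDiffAt (Ioi_mem_nhds hz)).differentiableAt (by simp)).hasDerivAt

/-- the coefficient of the equation -/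
noncomputable def qn (n : ℕ) (z : ℝ) : ℝ := ((n:ℝ)+1)*(n+2)/(z*(1+z)^2)

theorem qn_lt (n : ℕ) {z w : ℝ} (hz : 0 < z) (hw : z < w) : qn n w < qn n z := by
  unfold qn
  have hw0 : 0 < w := hz.trans hw
  apply div_lt_div_of_pos_left (by positivity) (by positivity)
  have h1 : (1+z)^2 < (1+w)^2 := by nlinarith
  have h2 : 0 < (1+z)^2 := by positivity
  nlinarith

theorem Uf_ode' (n : ℕ) {z : ℝ} (hz : 0 < z) :
    deriv (deriv (Uf n)) z = -(qn n z) * Uf n z := Uf_ode n hz

section refl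

variable {n j : ℕ} (h1 : 1 ≤ j) (h2 : j + 1 ≤ n)

include h1 h2

theorem nz_basic : 0 ≤ nz n (j-1) ∧ nz n (j-1) < nz n j ∧ nz n j < nz n (j+1) := by
  refine ⟨?_, nz_lt (by omega) (by omega), nz_lt (by omega) (by omega)⟩
  rcases Nat.eq_zero_or_pos (j-1) with h | h
  · rw [h, nz_zero]
  · exact (nz_pos (by omega) (by omega)).le

theorem left_pos {t : ℝ} (ht : 0 < t) (ht' : t < nz n j - nz n (j-1)) :
    0 < -((-1)^j * Uf n (nz n j - t)) := by
  have hh := Uf_sign (n := n) (j := j-1) (by omega) (z := nz n j - t) (by linarith)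
    (by rw [show j - 1 + 1 = j by omega]; linarith)
  have : ((-1:ℝ))^j = (-1)^(j-1) * (-1) := by
    rw [← pow_succ, show j - 1 + 1 = j by omega]
  rw [this]
  linarith

theorem right_pos {t : ℝ} (ht : 0 < t) (ht' : t < nz n (j+1) - nz n j) :
    0 < (-1)^j * Uf n (nz n j + t) :=
  Uf_sign (n := n) (j := j) h2 (by linarith) (by linarith)

theorem ju_deriv {t : ℝ} (ht : t ≤ nz n j) :
    HasDerivAt (fun t => -((-1)^j * Uf n (nz n j - t))) ((-1)^j * deriv (Uf n) (nz n j - t)) t := by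
  have hh := Uf_hasDeriv n (z := nz n j - t) (by linarith)
  have h3 : HasDerivAt (fun t => nz n j - t) (-1) t := by
    simpa using (hasDerivAt_id t).const_sub (nz n j)
  exact ((hh.comp t h3).const_mul ((-1:ℝ)^j)).neg.congr_deriv (by ring)

theorem ju_deriv2 {t : ℝ} (ht : t ≤ nz n j) :
    HasDerivAt (fun t => (-1)^j * deriv (Uf n) (nz n j - t))
      (-((-1)^j * deriv (deriv (Uf n)) (nz n j - t))) t := by
  have hh := Uf_hasDeriv2 n (z := nz n j - t) (by linarith)
  have h3 : HasDerivAt (fun t => nz n j - t) (-1) t := by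
    simpa using (hasDerivAt_id t).const_sub (nz n j)
  exact ((hh.comp t h3).const_mul ((-1:ℝ)^j)).congr_deriv (by ring)

theorem jv_deriv {t : ℝ} (ht : 0 ≤ t) :
    HasDerivAt (fun t => (-1)^j * Uf n (nz n j + t)) ((-1)^j * deriv (Uf n) (nz n j + t)) t := by
  have hb := nz_basic h1 h2
  have hh := Uf_hasDeriv n (z := nz n j + t) (by linarith [hb.1, hb.2.1])
  have h3 : HasDerivAt (fun t => nz n j + t) 1 t := by
    simpa using (hasDerivAt_id t).const_add (nz n j)
  exact ((hh.comp t h3).const_mul ((-1:ℝ)^j)).congr_deriv (by ring)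

theorem jv_deriv2 {t : ℝ} (ht : 0 ≤ t) :
    HasDerivAt (fun t => (-1)^j * deriv (Uf n) (nz n j + t))
      ((-1)^j * deriv (deriv (Uf n)) (nz n j + t)) t := by
  have hb := nz_basic h1 h2
  have hh := Uf_hasDeriv2 n (z := nz n j + t) (by linarith [hb.1, hb.2.1])
  have h3 : HasDerivAt (fun t => nz n j + t) 1 t := by
    simpa using (hasDerivAt_id t).const_add (nz n j)
  exact ((hh.comp t h3).const_mul ((-1:ℝ)^j)).congr_deriv (by ring)

theorem jwronski {T : ℝ} (hT : 0 < T) (hT1 : T ≤ nz n j - nz n (j-1))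
    (hT2 : T ≤ nz n (j+1) - nz n j) :
    0 < ((-1)^j * deriv (Uf n) (nz n j + T)) * (-((-1)^j * Uf n (nz n j - T)))
      - ((-1)^j * Uf n (nz n j + T)) * ((-1)^j * deriv (Uf n) (nz n j - T)) := by
  have hb := nz_basic h1 h2
  have hz0 : Uf n (nz n j) = 0 := Uf_zero_iff (by omega)
  refine wronski_pos (u := fun t => -((-1)^j * Uf n (nz n j - t)))
    (v := fun t => (-1)^j * Uf n (nz n j + t))
    (u1 := fun t => (-1)^j * deriv (Uf n) (nz n j - t))
    (v1 := fun t => (-1)^j * deriv (Uf n) (nz n j + t))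
    (u2 := fun t => -((-1)^j * deriv (deriv (Uf n)) (nz n j - t)))
    (v2 := fun t => (-1)^j * deriv (deriv (Uf n)) (nz n j + t))
    (a := fun t => qn n (nz n j - t)) (b := fun t => qn n (nz n j + t)) hT
    (fun t ht => ju_deriv h1 h2 (by linarith [ht.2, hb.1]))
    (fun t ht => jv_deriv h1 h2 ht.1)
    (fun t ht => ju_deriv2 h1 h2 (by linarith [ht.2, hb.1]))
    (fun t ht => jv_deriv2 h1 h2 ht.1)
    (fun t ht => ?_) (fun t ht => ?_) (fun t ht => ?_) (fun t ht => ?_) (fun t ht => ?_) ?_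
  · rw [Uf_ode' n (by linarith [ht.2, hb.1])]
    ring
  · rw [Uf_ode' n (by linarith [ht.1, hb.1, hb.2.1])]
    ring
  · exact qn_lt n (by linarith [ht.2, hb.1]) (by linarith [ht.1])
  · exact left_pos h1 h2 ht.1 (by linarith [ht.2])
  · exact right_pos h1 h2 ht.1 (by linarith [ht.2])
  · simp [hz0]

theorem jgap : nz n j - nz n (j-1) < nz n (j+1) - nz n j := by
  have hb := nz_basic h1 h2
  by_contra hcon
  push Not at hcon
  set g := nz n (j+1) - nz n j with hg
  have hg0 : 0 < g := by linarith [hb.2.2]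
  have hw := jwronski h1 h2 hg0 hcon le_rfl
  have hv0 : Uf n (nz n j + g) = 0 := by
    rw [hg, show nz n j + (nz n (j+1) - nz n j) = nz n (j+1) by ring]
    exact Uf_zero_iff (by omega)
  have hd : (-1)^j * deriv (Uf n) (nz n j + g) ≤ 0 :=
    deriv_nonpos_of_pos_left (v := fun t => (-1)^j * Uf n (nz n j + t)) hg0
      (jv_deriv h1 h2 hg0.le) (fun t ht => right_pos h1 h2 ht.1 ht.2) (by simp [hv0])
  have hu : 0 ≤ -((-1)^j * Uf n (nz n j - g)) := by
    rcases hcon.lt_or_eq with h | h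
    · exact (left_pos h1 h2 hg0 h).le
    · rw [h, show nz n j - (nz n j - nz n (j-1)) = nz n (j-1) by ring, Uf_zero_iff (by omega)]
      simp
  rw [hv0] at hw
  have := mul_nonpos_of_nonpos_of_nonneg hd hu
  linarith

theorem jrefl {t₀ : ℝ} (ht : 0 < t₀) (ht' : t₀ < nz n j - nz n (j-1)) :
    -((-1)^j * Uf n (nz n j - t₀)) < (-1)^j * Uf n (nz n j + t₀) := by
  have hb := nz_basic h1 h2
  have hgap := jgap h1 h2
  have hz0 : Uf n (nz n j) = 0 := Uf_zero_iff (by omega)
  by_contra hcon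
  push Not at hcon
  -- v / u is strictly increasing
  have hmono : StrictMonoOn (fun t => ((-1)^j * Uf n (nz n j + t)) /
      (-((-1)^j * Uf n (nz n j - t)))) (Set.Ioc 0 t₀) := by
    apply strictMonoOn_of_deriv_pos (convex_Ioc 0 t₀)
    · intro t ht2
      have hp := left_pos h1 h2 ht2.1 (by linarith [ht2.2])
      exact ((jv_deriv h1 h2 ht2.1.le).div (ju_deriv h1 h2 (by linarith [ht2.2, hb.1]))
        hp.ne').continuousAt.continuousWithinAt
    · intro t ht2
      rw [interior_Ioc] at ht2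
      have hp := left_pos h1 h2 ht2.1 (by linarith [ht2.2])
      have hw := jwronski h1 h2 ht2.1 (by linarith [ht2.2]) (by linarith [ht2.2])
      have hd := ((jv_deriv h1 h2 ht2.1.le).div (ju_deriv h1 h2 (by linarith [ht2.2, hb.1]))
        hp.ne')
      have hd2 := hd.deriv
      have hfun : (fun t => ((-1)^j * Uf n (nz n j + t)) / (-((-1)^j * Uf n (nz n j - t))))
        = ((fun t => (-1)^j * Uf n (nz n j + t)) / fun t => -((-1)^j * Uf n (nz n j - t))) := rfl
      rw [hfun, hd2]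
      apply div_pos
      · linarith
      · positivity
  have hlt : ∀ t ∈ Set.Ioo 0 t₀, (-1)^j * Uf n (nz n j + t) < -((-1)^j * Uf n (nz n j - t)) := by
    intro t ht2
    have hm := hmono ⟨ht2.1, ht2.2.le⟩ ⟨ht, le_rfl⟩ ht2.2
    simp only at hm
    have hp := left_pos h1 h2 ht2.1 (by linarith [ht2.2])
    have hp0 := left_pos h1 h2 ht ht'
    have h3 : ((-1)^j * Uf n (nz n j + t₀)) / (-((-1)^j * Uf n (nz n j - t₀))) ≤ 1 := by
      rw [div_le_one hp0]; exact hcon
    have h4 := hm.trans_le h3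
    rw [div_lt_one hp] at h4
    exact h4
  -- w' increases
  have hw1 : StrictMonoOn (fun t => (-1)^j * deriv (Uf n) (nz n j + t)
      - (-1)^j * deriv (Uf n) (nz n j - t)) (Set.Icc 0 t₀) := by
    apply strictMonoOn_of_deriv_pos (convex_Icc 0 t₀)
    · intro t ht2
      exact ((jv_deriv2 h1 h2 ht2.1).sub (ju_deriv2 h1 h2
        (by linarith [ht2.2, hb.1]))).continuousAt.continuousWithinAt
    · intro t ht2
      rw [interior_Icc] at ht2
      have hd := ((jv_deriv2 h1 h2 ht2.1.le).sub (ju_deriv2 h1 h2 (t := t)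
        (by linarith [ht2.2, hb.1]))).deriv
      have hfun : (fun t => (-1)^j * deriv (Uf n) (nz n j + t)
          - (-1)^j * deriv (Uf n) (nz n j - t))
        = ((fun t => (-1)^j * deriv (Uf n) (nz n j + t))
          - fun t => (-1)^j * deriv (Uf n) (nz n j - t)) := rfl
      rw [hfun, hd, Uf_ode' n (z := nz n j - t) (by linarith [ht2.2, hb.1]),
        Uf_ode' n (z := nz n j + t) (by linarith [ht2.1, hb.1, hb.2.1])]
      have h3 := hlt t ht2
      have h4 := right_pos h1 h2 ht2.1 (by linarith [ht2.2])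
      have h5 := qn_lt n (z := nz n j - t) (w := nz n j + t) (by linarith [ht2.2, hb.1])
        (by linarith [ht2.1])
      have h6 : 0 < qn n (nz n j + t) := by
        unfold qn
        have : 0 < nz n j + t := by linarith [ht2.1, hb.1, hb.2.1]
        positivity
      nlinarith [mul_lt_mul'' h5 h3 h6.le h4.le]
  have hwpos : ∀ t ∈ Set.Ioc 0 t₀, 0 < (-1)^j * deriv (Uf n) (nz n j + t)
      - (-1)^j * deriv (Uf n) (nz n j - t) := by
    intro t ht2
    have := hw1 (Set.left_mem_Icc.2 ht.le) ⟨ht2.1.le, ht2.2⟩ ht2.1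
    simpa using this
  have hw : StrictMonoOn (fun t => (-1)^j * Uf n (nz n j + t)
      - (-((-1)^j * Uf n (nz n j - t)))) (Set.Icc 0 t₀) := by
    apply strictMonoOn_of_deriv_pos (convex_Icc 0 t₀)
    · intro t ht2
      exact ((jv_deriv h1 h2 ht2.1).sub (ju_deriv h1 h2
        (by linarith [ht2.2, hb.1]))).continuousAt.continuousWithinAt
    · intro t ht2
      rw [interior_Icc] at ht2
      have hd := ((jv_deriv h1 h2 ht2.1.le).sub (ju_deriv h1 h2 (t := t)
        (by linarith [ht2.2, hb.1]))).deriv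
      have hfun : (fun t => (-1)^j * Uf n (nz n j + t)
          - (-((-1)^j * Uf n (nz n j - t))))
        = ((fun t => (-1)^j * Uf n (nz n j + t))
          - fun t => -((-1)^j * Uf n (nz n j - t))) := rfl
      rw [hfun, hd]
      exact hwpos t ⟨ht2.1, ht2.2.le⟩
  have := hw (Set.left_mem_Icc.2 ht.le) (Set.right_mem_Icc.2 ht.le) ht
  simp [hz0] at this
  linarith

end refl

theorem gap_lt {n j : ℕ} (h1 : 1 ≤ j) (h2 : j + 1 ≤ n) :
    nz n j - nz n (j-1) < nz n (j+1) - nz n j := jgap h1 h2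

theorem Uf_reflect {n j : ℕ} (h1 : 1 ≤ j) (h2 : j + 1 ≤ n) {t : ℝ} (ht : 0 < t)
    (ht' : t ≤ nz n j - nz n (j-1)) :
    |Uf n (nz n j - t)| < |Uf n (nz n j + t)| := by
  have hgap := jgap h1 h2
  have habs : ∀ x : ℝ, |(-1)^j * x| = |x| := by
    intro x; rw [abs_mul, abs_pow]; simp
  rcases ht'.lt_or_eq with h | h
  · have h3 := jrefl h1 h2 ht h
    have h4 := left_pos h1 h2 ht h
    have h5 := right_pos h1 h2 ht (by linarith)
    rw [← habs (Uf n (nz n j + t)), ← habs (Uf n (nz n j - t)), abs_of_pos h5,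
      ← abs_neg, abs_of_pos h4]
    exact h3
  · have h5 := right_pos h1 h2 ht (by linarith)
    rw [← habs (Uf n (nz n j + t)), abs_of_pos h5]
    have : nz n j - t = nz n (j-1) := by rw [h]; ring
    rw [this, Uf_zero_iff (by omega), abs_zero]
    exact h5

theorem spacing {n j : ℕ} (h1 : 1 ≤ j) (h2 : j + 1 ≤ n) :
    Real.pi * √(nz n j) / √(((n:ℝ)+1)*(n+2)) ≤ nz n (j+1) - nz n j := by
  have hb := nz_basic h1 h2
  set y := nz n j with hy
  have hy0 : 0 < y := by linarith [hb.1, hb.2.1]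
  set g := nz n (j+1) - y with hg
  have hg0 : 0 < g := by linarith [hb.2.2]
  have hz0 : Uf n y = 0 := Uf_zero_iff (by omega)
  have hv0 : Uf n (y + g) = 0 := by
    rw [hg, show y + (nz n (j+1) - y) = nz n (j+1) by ring]
    exact Uf_zero_iff (by omega)
  set c : ℝ := ((n:ℝ)+1)*(n+2) with hc
  have hc0 : 0 < c := by positivity
  set ω : ℝ := √(qn n y) with hω
  have hq0 : 0 < qn n y := by unfold qn; positivity
  have hω0 : 0 < ω := Real.sqrt_pos.2 hq0
  have hω2 : ω^2 = qn n y := Real.sq_sqrt hq0.le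
  -- main claim
  have hmain : Real.pi / ω ≤ g := by
    by_contra hcon
    push Not at hcon
    have hgω : g * ω < Real.pi := by rwa [lt_div_iff₀ hω0] at hcon
    have hS : ∀ t ∈ Set.Ioc 0 g, 0 < Real.sin (ω * t) := by
      intro t ht
      apply Real.sin_pos_of_pos_of_lt_pi (mul_pos hω0 ht.1)
      nlinarith [ht.2]
    have hw := wronski_pos (u := fun t => Real.sin (ω * t))
      (v := fun t => (-1)^j * Uf n (y + t))
      (u1 := fun t => ω * Real.cos (ω * t))
      (v1 := fun t => (-1)^j * deriv (Uf n) (y + t))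
      (u2 := fun t => - (ω^2) * Real.sin (ω * t))
      (v2 := fun t => (-1)^j * deriv (deriv (Uf n)) (y + t))
      (a := fun _ => ω^2) (b := fun t => qn n (y + t)) hg0
      (fun t ht => by
        have h3 : HasDerivAt (fun t => ω * t) ω t := by
          simpa using (hasDerivAt_id t).const_mul ω
        exact ((Real.hasDerivAt_sin (ω * t)).comp t h3).congr_deriv (by ring))
      (fun t ht => jv_deriv h1 h2 ht.1)
      (fun t ht => by
        have h3 : HasDerivAt (fun t => ω * t) ω t := by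
          simpa using (hasDerivAt_id t).const_mul ω
        exact (((Real.hasDerivAt_cos (ω * t)).comp t h3).const_mul ω).congr_deriv (by ring))
      (fun t ht => jv_deriv2 h1 h2 ht.1)
      (fun t ht => by ring)
      (fun t ht => by
        rw [Uf_ode' n (by linarith [ht.1])]
        ring)
      (fun t ht => by
        rw [hω2]
        exact qn_lt n hy0 (by linarith [ht.1]))
      (fun t ht => hS t ⟨ht.1, ht.2.le⟩)
      (fun t ht => right_pos h1 h2 ht.1 ht.2)
      (by simp [hz0])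
    have hd : (-1)^j * deriv (Uf n) (y + g) ≤ 0 :=
      deriv_nonpos_of_pos_left (v := fun t => (-1)^j * Uf n (y + t)) hg0
        (jv_deriv h1 h2 hg0.le) (fun t ht => right_pos h1 h2 ht.1 ht.2) (by simp [hv0])
    simp only [hv0] at hw
    have := mul_nonpos_of_nonpos_of_nonneg hd (hS g ⟨hg0, le_rfl⟩).le
    linarith
  refine le_trans ?_ hmain
  have hωeq : ω = √c / (√y * (1+y)) := by
    rw [hω]
    unfold qn
    rw [← hc, Real.sqrt_div hc0.le, Real.sqrt_mul hy0.le, Real.sqrt_sq (by positivity)]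
  have hsc : 0 < √c := Real.sqrt_pos.2 hc0
  have hsy : 0 < √y := Real.sqrt_pos.2 hy0
  rw [hωeq, div_div_eq_mul_div]
  apply div_le_div_of_nonneg_right _ hsc.le
  apply mul_le_mul_of_nonneg_left _ Real.pi_pos.le
  nlinarith

end BMoll
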