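import Pool.Agent.Lib.MP_a93a81_co.Rayleigh

/-!
# Module T1 : L(D) has n simple negative zeros, interlacing with L((X+r)D)

`D = pr ρ`, `p_ρ(u) = (LP (pr ρ)).eval (-u)` for `u > 0`.  By `LP_functional`
`p_ρ(u) = (-√u)^n (∏ρ_l) S(u)`, `S(u) = ell(∏ (X + w_l(u)))`, `w_l(u) = √u/ρ_l - ρ_l/√u`,
`w_l' > 0`.  And for `A = (X+r) D`:
`p_A(u) = (-√u)^n (∏ρ_l) [ (r^2-u) ell(Φ) - r√u ell(XΦ) ]`, `Φ = ∏ (X + w_l(u))`.
KEY: at a zero `u` of `p_ρ`: `p_A(u) p_ρ'(u) > 0` (`n ≥ 1`).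
INDUCTION on `n`: `p_A` has alternating signs at `0, σ_0, …, σ_{n-1}, M`.
-/

namespace BMoll

open Polynomial Finset

namespace T1aux

theorem ell_C_mul (c : ℝ) (q : ℝ[X]) : ell (C c * q) = c * ell q := by
  rw [← smul_eq_C_mul, map_smul, smul_eq_mul]

/-- the points of evaluation -/
noncomputable def w (ρ u : ℝ) : ℝ := √u / ρ - ρ / √u

theorem factor {ρ u : ℝ} (hρ : 0 < ρ) (hu : 0 < u) :
    C (ρ ^ 2 - u) - C (ρ * √u) * X = C (-(ρ * √u)) * (X + C (w ρ u)) := by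
  have hs : 0 < √u := Real.sqrt_pos.mpr hu
  have h2 : √u * √u = u := Real.mul_self_sqrt hu.le
  have h : ρ ^ 2 - u = -(ρ * √u) * w ρ u := by
    unfold w
    field_simp
    nlinarith [h2]
  rw [mul_add, ← C_mul, ← h, C_neg]
  ring

theorem eval_pr {n : ℕ} {ρ : Fin n → ℝ} (hρ : ∀ k, 0 < ρ k) {u : ℝ} (hu : 0 < u) :
    (LP (pr ρ)).eval (-u) = (∏ l, -(ρ l * √u)) * ell (∏ l, (X + C (w (ρ l) u))) := by
  rw [LP_functional ρ hu, ← ell_C_mul]
  congr 1
  rw [map_prod, ← Finset.prod_mul_distrib]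
  exact Finset.prod_congr rfl fun l _ => factor (hρ l) hu

theorem eval_cons {n : ℕ} {ρ : Fin n → ℝ} (hρ : ∀ k, 0 < ρ k) {r : ℝ} {u : ℝ} (hu : 0 < u) :
    (LP (pr (Fin.cons r ρ : Fin (n+1) → ℝ))).eval (-u) = (∏ l, -(ρ l * √u)) *
      ((r ^ 2 - u) * ell (∏ l, (X + C (w (ρ l) u))) -
        r * √u * ell (X * ∏ l, (X + C (w (ρ l) u)))) := by
  rw [LP_functional _ hu, Fin.prod_univ_succ]
  simp only [Fin.cons_zero, Fin.cons_succ]
  have h1 : ∏ l, (C (ρ l ^ 2 - u) - C (ρ l * √u) * X)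
      = C (∏ l, -(ρ l * √u)) * ∏ l, (X + C (w (ρ l) u)) := by
    rw [map_prod, ← Finset.prod_mul_distrib]
    exact Finset.prod_congr rfl fun l _ => factor (hρ l) hu
  rw [h1]
  have h2 : (C (r ^ 2 - u) - C (r * √u) * X) *
      (C (∏ l, -(ρ l * √u)) * ∏ l, (X + C (w (ρ l) u)))
      = C (∏ l, -(ρ l * √u)) * (C (r ^ 2 - u) * ∏ l, (X + C (w (ρ l) u))
        - C (r * √u) * (X * ∏ l, (X + C (w (ρ l) u)))) := by ring
  rw [h2, ell_C_mul, map_sub, ell_C_mul, ell_C_mul]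

theorem hasDerivAt_ell {ι : Type*} [DecidableEq ι] (f : ι → ℝ → ℝ) (f' : ι → ℝ) (u : ℝ)
    (s : Finset ι) (hf : ∀ l, HasDerivAt (f l) (f' l) u) (q : ℝ[X]) :
    HasDerivAt (fun x => ell (q * ∏ l ∈ s, (X + C (f l x))))
      (∑ l ∈ s, f' l * ell (q * ∏ j ∈ s.erase l, (X + C (f j u)))) u := by
  induction s using Finset.induction_on generalizing q with
  | empty => simpa using hasDerivAt_const u _
  | insert a s ha ih =>
    have h1 : (fun x => ell (q * ∏ l ∈ insert a s, (X + C (f l x))))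
        = fun x => ell ((q * X) * ∏ l ∈ s, (X + C (f l x)))
          + f a x * ell (q * ∏ l ∈ s, (X + C (f l x))) := by
      funext x
      rw [Finset.prod_insert ha, ← ell_C_mul, ← map_add]
      congr 1
      ring
    rw [h1]
    have h2 := (ih (q * X)).add ((hf a).mul (ih q))
    refine h2.congr_deriv ?_
    rw [Finset.sum_insert ha, Finset.erase_insert ha]
    have h3 : ∀ l ∈ s, f' l * ell (q * ∏ j ∈ (insert a s).erase l, (X + C (f j u)))
        = f' l * ell (q * X * ∏ j ∈ s.erase l, (X + C (f j u)))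
          + f a u * (f' l * ell (q * ∏ j ∈ s.erase l, (X + C (f j u)))) := by
      intro l hl
      have hla : l ≠ a := fun h => ha (h ▸ hl)
      rw [Finset.erase_insert_of_ne hla.symm, Finset.prod_insert (by simp [ha])]
      have : q * ((X + C (f a u)) * ∏ j ∈ s.erase l, (X + C (f j u)))
          = q * X * ∏ j ∈ s.erase l, (X + C (f j u))
            + C (f a u) * (q * ∏ j ∈ s.erase l, (X + C (f j u))) := by ring
      rw [this, map_add, ell_C_mul]
      ring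
    rw [Finset.sum_congr rfl h3, Finset.sum_add_distrib, ← Finset.mul_sum]
    ring

theorem prod_erase_univ {M : Type*} [CommMonoid M] {n : ℕ} (f : Fin (n+1) → M) (l : Fin (n+1)) :
    ∏ j ∈ univ.erase l, f j = ∏ i, f (l.succAbove i) := by
  have h : (univ.erase l : Finset (Fin (n+1))) = univ.image l.succAbove := by
    rw [Fin.image_succAbove_univ, Finset.compl_singleton]
  rw [h, Finset.prod_image fun _ _ _ _ h => Fin.succAbove_right_injective h]

theorem key_sign {n : ℕ} (v : Fin (n+1) → ℝ) (g : Fin (n+1) → ℝ) (hg : ∀ l, 0 < g l)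
    (h0 : ell (∏ l, (X + C (v l))) = 0) :
    (∑ l, g l * ell (∏ j ∈ univ.erase l, (X + C (v j)))) * ell (X * ∏ l, (X + C (v l))) < 0 := by
  have h1 : ∀ l, ell (∏ j ∈ univ.erase l, (X + C (v j))) * ell (X * ∏ l, (X + C (v l))) < 0 := by
    intro l
    have hR := rayleigh (fun i => v (l.succAbove i))
    rw [← prod_erase_univ (fun j => X + C (v j)) l] at hR
    obtain ⟨Ψ, hΨ⟩ : ∃ Ψ, Ψ = ∏ j ∈ univ.erase l, (X + C (v j)) := ⟨_, rfl⟩
    rw [← hΨ] at hR ⊢
    have hΦ : ∏ j, (X + C (v j)) = (X + C (v l)) * Ψ := by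
      rw [hΨ]
      exact (Finset.mul_prod_erase univ (fun j => X + C (v j)) (mem_univ l)).symm
    rw [hΦ] at h0 ⊢
    have e1 : ell ((X + C (v l)) * Ψ) = ell (X * Ψ) + v l * ell Ψ := by
      rw [add_mul, map_add, ell_C_mul]
    have e2 : ell (X * ((X + C (v l)) * Ψ)) = ell (X ^ 2 * Ψ) + v l * ell (X * Ψ) := by
      rw [← ell_C_mul, ← map_add]
      congr 1
      ring
    rw [e1] at h0
    rw [e2]
    have e3 : ell (X * Ψ) = - (v l * ell Ψ) := by linarith
    have e4 : ell Ψ * (ell (X ^ 2 * Ψ) + v l * ell (X * Ψ))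
        = ell Ψ * ell (X ^ 2 * Ψ) - (ell (X * Ψ)) ^ 2 := by
      rw [e3]; ring
    rw [e4]
    linarith
  rw [Finset.sum_mul]
  have h2 : ∀ l ∈ (univ : Finset (Fin (n+1))),
      g l * ell (∏ j ∈ univ.erase l, (X + C (v j))) * ell (X * ∏ l, (X + C (v l))) < 0 := by
    intro l _
    rw [mul_assoc]
    exact mul_neg_of_pos_of_neg (hg l) (h1 l)
  exact Finset.sum_neg h2 ⟨0, mem_univ 0⟩

/-- derivative of the evaluation points -/
noncomputable def w' (ρ u : ℝ) : ℝ := 1 / (2 * √u) / ρ + ρ * (1 / (2 * √u)) / (√u) ^ 2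

theorem hasDerivAt_w {ρ u : ℝ} (hρ : 0 < ρ) (hu : 0 < u) : HasDerivAt (w ρ) (w' ρ u) u := by
  have hs : 0 < √u := Real.sqrt_pos.mpr hu
  have h1 : HasDerivAt (fun x => √x) (1 / (2 * √u)) u := Real.hasDerivAt_sqrt hu.ne'
  have h2 := (h1.div_const ρ).sub ((hasDerivAt_const u ρ).div h1 hs.ne')
  refine h2.congr_deriv ?_
  unfold w'
  field_simp
  ring

theorem w'_pos {ρ u : ℝ} (hρ : 0 < ρ) (hu : 0 < u) : 0 < w' ρ u := by
  have hs : 0 < √u := Real.sqrt_pos.mpr hu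
  unfold w'
  positivity

/-- KEY: at a zero of `L(D)` the value of `L((X+r)D)` has the sign of the derivative. -/
theorem key {n : ℕ} {ρ : Fin (n+1) → ℝ} (hρ : ∀ k, 0 < ρ k) {r : ℝ} (hr : 0 < r) {u : ℝ}
    (hu : 0 < u) (h0 : (LP (pr ρ)).eval (-u) = 0) :
    (LP (pr (Fin.cons r ρ : Fin (n+2) → ℝ))).eval (-u) *
      (-(LP (pr ρ)).derivative.eval (-u)) > 0 := by
  have hs : 0 < √u := Real.sqrt_pos.mpr hu
  obtain ⟨c, hc⟩ : ∃ c : ℝ → ℝ, c = fun x => ∏ l, -(ρ l * √x) := ⟨_, rfl⟩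
  have hc0 : c u ≠ 0 := by
    rw [hc]
    refine Finset.prod_ne_zero_iff.mpr fun l _ => ?_
    exact neg_ne_zero.mpr (mul_pos (hρ l) hs).ne'
  have hcd : DifferentiableAt ℝ c u := by
    have h1 : DifferentiableAt ℝ (fun x => √x) u := (Real.hasDerivAt_sqrt hu.ne').differentiableAt
    rw [hc]
    have h2 : ∀ l ∈ (univ : Finset (Fin (n+1))),
        DifferentiableAt ℝ (fun x => -(ρ l * √x)) u := fun l _ => (h1.const_mul (ρ l)).neg
    exact DifferentiableAt.fun_finsetProd h2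
  have hS := hasDerivAt_ell (fun l x => w (ρ l) x) (fun l => w' (ρ l) u) u univ
    (fun l => hasDerivAt_w (hρ l) hu) 1
  simp only [one_mul] at hS
  obtain ⟨S', hS'⟩ : ∃ S', S' = ∑ l, w' (ρ l) u * ell (∏ j ∈ univ.erase l, (X + C (w (ρ j) u))) :=
    ⟨_, rfl⟩
  rw [← hS'] at hS
  have hE := eval_pr hρ hu
  rw [h0] at hE
  have hS0 : ell (∏ l, (X + C (w (ρ l) u))) = 0 := by
    rcases mul_eq_zero.mp hE.symm with h | h
    · exact absurd (by rw [hc]; exact h) hc0
    · exact h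
  -- derivative of p
  have hp : HasDerivAt (fun x => (LP (pr ρ)).eval (-x)) (-(LP (pr ρ)).derivative.eval (-u)) u := by
    have h1 := (LP (pr ρ)).hasDerivAt (-u)
    have h2 := h1.comp u (hasDerivAt_neg u)
    refine h2.congr_deriv ?_
    ring
  have hp2 : HasDerivAt (fun x => (LP (pr ρ)).eval (-x)) (c u * S') u := by
    have h1 := hcd.hasDerivAt.mul hS
    rw [hS0, mul_zero, zero_add] at h1
    refine h1.congr_of_eventuallyEq ?_
    filter_upwards [lt_mem_nhds hu] with x hx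
    rw [eval_pr hρ hx, hc]
    rfl
  have hpe := hp.unique hp2
  rw [hpe, eval_cons hρ hu, hS0, mul_zero, zero_sub]
  have hk := key_sign (fun l => w (ρ l) u) (fun l => w' (ρ l) u) (fun l => w'_pos (hρ l) hu) hS0
  rw [← hS'] at hk
  have hcu : ∏ l, -(ρ l * √u) = c u := by rw [hc]
  rw [hcu]
  have h3 : 0 < c u ^ 2 := by positivity
  have h4 : 0 < r * √u := mul_pos hr hs
  have h5 : c u * -(r * √u * ell (X * ∏ l, (X + C (w (ρ l) u)))) * (c u * S')
      = - ((c u ^ 2 * (r * √u)) * (S' * ell (X * ∏ l, (X + C (w (ρ l) u))))) := by ring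
  rw [h5]
  have h6 := mul_neg_of_pos_of_neg (mul_pos h3 h4) hk
  linarith

/-- degree and leading coefficient of `LP (pr x)` -/
theorem LP_pr_coeff {n : ℕ} (x : Fin n → ℝ) : (LP (pr x)).coeff n = 1 := by
  rw [LP_coeff]
  unfold Lop
  have h1 : (pr x).coeff n = 1 := by
    have := pr_monic x
    rw [Monic, leadingCoeff, pr_natDegree] at this
    exact this
  rw [h1, pr_coeff_gt x (Nat.lt_succ_self n)]
  simp

theorem LP_pr_natDegree_le {n : ℕ} (x : Fin n → ℝ) : (LP (pr x)).natDegree ≤ n := by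
  rw [natDegree_le_iff_coeff_eq_zero]
  intro i hi
  rw [LP_coeff]
  unfold Lop
  rw [pr_coeff_gt x hi, pr_coeff_gt x (Nat.lt_succ_of_lt hi)]
  simp

theorem LP_pr_monic {n : ℕ} (x : Fin n → ℝ) : (LP (pr x)).Monic :=
  monic_of_natDegree_le_of_coeff_eq_one n (LP_pr_natDegree_le x) (LP_pr_coeff x)

theorem LP_pr_natDegree {n : ℕ} (x : Fin n → ℝ) : (LP (pr x)).natDegree = n := by
  refine le_antisymm (LP_pr_natDegree_le x) (le_natDegree_of_ne_zero ?_)
  rw [LP_pr_coeff]; exact one_ne_zero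

theorem LP_pr_eval_zero {n : ℕ} {x : Fin n → ℝ} (hx : ∀ k, 0 < x k) :
    0 < (LP (pr x)).eval 0 := by
  rw [← coeff_zero_eq_eval_zero, LP_coeff]
  unfold Lop
  have := pr_coeff_pos hx (Nat.zero_le n)
  simp only [if_true, zero_mul, sub_zero]
  positivity

/-- a polynomial with alternating signs -/
theorem roots_of_signs {N : ℕ} {P : ℝ[X]} (hm : P.Monic) (hd : P.natDegree = N) (b : ℕ → ℝ)
    (hb : ∀ k < N, b k < b (k+1)) (hs : ∀ k ≤ N, 0 < (-1)^k * P.eval (-(b k))) :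
    ∃ τ : Fin N → ℝ, StrictMono τ ∧ (∀ k : Fin N, b k < τ k ∧ τ k < b (k+1)) ∧ P = pr τ := by
  have h1 : ∀ k : Fin N, ∃ t, b k < t ∧ t < b (k+1) ∧ P.eval (-t) = 0 := by
    intro k
    have hlt := hb k k.2
    have hcont : ContinuousOn (fun t => (-1)^(k:ℕ) * P.eval (-t)) (Set.Icc (b k) (b (k+1))) := by
      fun_prop
    have e1 := hs k k.2.le
    have e2 := hs (k+1) k.2
    have e3 : (-1)^(k:ℕ) * P.eval (-(b (k+1))) < 0 := by
      rw [pow_succ] at e2
      linarith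
    have := intermediate_value_Ioo' hlt.le hcont
    obtain ⟨t, ht, ht0⟩ := this ⟨e3, e1⟩
    refine ⟨t, ht.1, ht.2, ?_⟩
    have h5 : ((-1:ℝ))^(k:ℕ) ≠ 0 := by positivity
    exact (mul_eq_zero.mp ht0).resolve_left h5
  choose τ hτ1 hτ2 hτ3 using h1
  have hbm : ∀ i j : ℕ, i ≤ j → j ≤ N → b i ≤ b j := by
    intro i j hij
    induction j, hij using Nat.le_induction with
    | base => intro _; exact le_rfl
    | succ j hij ih => intro hj; exact (ih (by omega)).trans (hb j (by omega)).le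
  have hmono : StrictMono τ := by
    intro i j hij
    have hij' : (i:ℕ) + 1 ≤ j := hij
    exact (hτ2 i).trans_le ((hbm _ _ hij' j.2.le).trans (hτ1 j).le)
  refine ⟨τ, hmono, fun k => ⟨hτ1 k, hτ2 k⟩, ?_⟩
  refine eq_of_degree_le_of_eval_finset_eq (univ.image fun k => -(τ k)) ?_ ?_ ?_ ?_
  · rw [Finset.card_image_of_injective _ (fun i j h => hmono.injective (neg_injective h)),
      Finset.card_fin, degree_eq_natDegree hm.ne_zero, hd]
  · rw [degree_eq_natDegree hm.ne_zero, hd, degree_eq_natDegree (pr_monic τ).ne_zero, pr_natDegree]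
  · rw [hm.leadingCoeff, (pr_monic τ).leadingCoeff]
  · intro x hx
    obtain ⟨k, -, rfl⟩ := Finset.mem_image.mp hx
    rw [hτ3 k]
    unfold pr
    rw [eval_prod]
    symm
    exact Finset.prod_eq_zero (mem_univ k) (by simp)

/-- sign of the derivative of `∏ (σ_j - u)` at a zero -/
theorem deriv_sign {n : ℕ} {σ : Fin n → ℝ} (hσ : StrictMono σ) (k : Fin n) :
    0 < (-1)^(k:ℕ) * (pr σ).derivative.eval (-(σ k)) := by
  have h1 : pr σ = (X + C (σ k)) * ∏ j ∈ univ.erase k, (X + C (σ j)) :=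
    (Finset.mul_prod_erase univ (fun j => X + C (σ j)) (mem_univ k)).symm
  have h2 : (pr σ).derivative.eval (-(σ k)) = ∏ j ∈ univ.erase k, (σ j - σ k) := by
    rw [h1, derivative_mul]
    simp only [derivative_add, derivative_X, derivative_C, add_zero, one_mul, eval_add, eval_mul,
      eval_X, eval_C, neg_add_cancel, zero_mul, eval_prod]
    exact Finset.prod_congr rfl fun j _ => by ring
  have h3 : (univ.erase k : Finset (Fin n)) = Finset.Iio k ∪ Finset.Ioi k := by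
    ext j
    simp only [mem_erase, mem_univ, and_true, mem_union, mem_Iio, mem_Ioi]
    exact ne_iff_lt_or_gt
  have h4 : Disjoint (Finset.Iio k) (Finset.Ioi k) := by
    rw [Finset.disjoint_left]
    intro j h5 h6
    rw [mem_Iio] at h5
    rw [mem_Ioi] at h6
    exact lt_asymm h5 h6
  rw [h2, h3, Finset.prod_union h4, ← mul_assoc]
  have h5 : (-1:ℝ)^(k:ℕ) * ∏ j ∈ Finset.Iio k, (σ j - σ k) = ∏ j ∈ Finset.Iio k, (σ k - σ j) := by
    have h6 : (-1:ℝ)^(k:ℕ) = ∏ j ∈ Finset.Iio k, (-1:ℝ) := by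
      rw [Finset.prod_const, Fin.card_Iio]
    rw [h6, ← Finset.prod_mul_distrib]
    exact Finset.prod_congr rfl fun j _ => by ring
  rw [h5]
  refine mul_pos (Finset.prod_pos fun j hj => ?_) (Finset.prod_pos fun j hj => ?_)
  · rw [mem_Iio] at hj
    exact sub_pos.mpr (hσ hj)
  · rw [mem_Ioi] at hj
    exact sub_pos.mpr (hσ hj)

/-- positivity at infinity -/
theorem sign_large {N : ℕ} (hN : 0 < N) {P : ℝ[X]} (hm : P.Monic) (hd : P.natDegree = N) (B : ℝ) :
    ∃ M, B < M ∧ 0 < (-1)^N * P.eval (-M) := by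
  have h1 : Filter.Tendsto (fun x => (C ((-1)^N) * P.comp (-X)).eval x) Filter.atTop
      Filter.atTop := by
    refine tendsto_atTop_of_leadingCoeff_nonneg _ ?_ ?_
    · rw [← natDegree_pos_iff_degree_pos, natDegree_C_mul (by positivity), natDegree_comp,
        natDegree_neg, natDegree_X, hd]
      omega
    · rw [leadingCoeff_mul, leadingCoeff_C, leadingCoeff_comp (by simp), hm.leadingCoeff, hd]
      simp only [leadingCoeff_neg, leadingCoeff_X, one_mul]
      rw [← mul_pow]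
      norm_num
  have h2 := (h1.eventually_gt_atTop 0).and (Filter.eventually_gt_atTop B)
  obtain ⟨M, hM1, hM2⟩ := h2.exists
  refine ⟨M, hM2, ?_⟩
  simpa [eval_comp] using hM1

/-- the induction step -/
theorem step {n : ℕ} {ρ : Fin n → ℝ} (hρ : ∀ k, 0 < ρ k) {r : ℝ} (hr : 0 < r)
    {σ : Fin n → ℝ} (hσ : StrictMono σ) (hσ0 : ∀ k, 0 < σ k) (h : LP (pr ρ) = pr σ) :
    ∃ τ : Fin (n+1) → ℝ, StrictMono τ ∧ (∀ k, 0 < τ k) ∧
      LP (pr (Fin.cons r ρ : Fin (n+1) → ℝ)) = pr τ ∧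
      ∀ k : Fin n, τ k.castSucc < σ k ∧ σ k < τ k.succ := by
  obtain ⟨P, hP⟩ : ∃ P, P = LP (pr (Fin.cons r ρ : Fin (n+1) → ℝ)) := ⟨_, rfl⟩
  have hρ' : ∀ k, 0 < (Fin.cons r ρ : Fin (n+1) → ℝ) k := by
    intro k
    refine Fin.cases ?_ (fun j => ?_) k
    · simpa using hr
    · simpa using hρ j
  have hm : P.Monic := by rw [hP]; exact LP_pr_monic _
  have hd : P.natDegree = n + 1 := by rw [hP]; exact LP_pr_natDegree _
  obtain ⟨B, hB⟩ : ∃ B : ℝ, ∀ k, σ k ≤ B := by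
    refine ⟨∑ k, σ k, fun k => ?_⟩
    exact Finset.single_le_sum (fun j _ => (hσ0 j).le) (mem_univ k)
  obtain ⟨M, hM1, hM2⟩ := sign_large (Nat.succ_pos n) hm hd (max B 0)
  have hMB : B < M := (le_max_left _ _).trans_lt hM1
  have hM0 : 0 < M := (le_max_right _ _).trans_lt hM1
  obtain ⟨b, hb⟩ : ∃ b : ℕ → ℝ, b = fun k => if k = 0 then 0 else
    if h : k - 1 < n then σ ⟨k-1, h⟩ else M := ⟨_, rfl⟩
  have hb0 : b 0 = 0 := by rw [hb]; simp
  have hb1 : ∀ k : Fin n, b (k+1) = σ k := by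
    intro k
    rw [hb]
    simp
  have hbM : b (n+1) = M := by rw [hb]; simp
  have hsign : ∀ k : Fin n, 0 < (-1)^((k:ℕ)+1) * P.eval (-(σ k)) := by
    intro k
    rcases n with _ | n
    · exact k.elim0
    · have e0 : (LP (pr ρ)).eval (-(σ k)) = 0 := by
        rw [h]
        unfold pr
        rw [eval_prod]
        exact Finset.prod_eq_zero (mem_univ k) (by simp)
      have e1 := key hρ hr (hσ0 k) e0
      have e2 := deriv_sign hσ k
      rw [← h] at e2
      rw [← hP] at e1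
      have e3 : (-1:ℝ)^((k:ℕ)+1) * P.eval (-(σ k)) * ((-1)^(k:ℕ) *
          (LP (pr ρ)).derivative.eval (-(σ k)))
          = P.eval (-(σ k)) * (-(LP (pr ρ)).derivative.eval (-(σ k))) := by
        have : ((-1:ℝ)^(k:ℕ)) * (-1)^(k:ℕ) = 1 := by rw [← mul_pow]; norm_num
        rw [pow_succ]
        linear_combination (-P.eval (-(σ k)) * (LP (pr ρ)).derivative.eval (-(σ k))) * this
      rw [← e3] at e1
      exact (pos_iff_pos_of_mul_pos e1).mpr e2
  obtain ⟨τ, hτ1, hτ2, hτ3⟩ := roots_of_signs hm hd b (by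
    intro k hk
    rcases k with _ | k
    · rw [hb0]
      rcases Nat.eq_zero_or_pos n with hn | hn
      · subst hn
        rw [hbM]; exact hM0
      · have := hb1 ⟨0, hn⟩
        simp only at this
        rw [this]
        exact hσ0 _
    · have hk' : k < n := by omega
      have e1 := hb1 ⟨k, hk'⟩
      simp only at e1
      rw [e1]
      rcases Nat.lt_or_ge (k+1) n with hk2 | hk2
      · have e2 := hb1 ⟨k+1, hk2⟩
        simp only at e2
        rw [e2]
        exact hσ (by simp [Fin.lt_def])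
      · have : k + 1 = n := by omega
        rw [this, hbM]
        exact (hB _).trans_lt hMB) (by
    intro k hk
    rcases k with _ | k
    · rw [hb0, neg_zero, pow_zero, one_mul, hP]
      exact LP_pr_eval_zero hρ'
    · rcases Nat.lt_or_ge k n with hk2 | hk2
      · have e2 := hb1 ⟨k, hk2⟩
        simp only at e2
        rw [e2]
        exact hsign ⟨k, hk2⟩
      · have : k = n := by omega
        subst this
        rw [hbM]
        exact hM2)
  have hbnn : ∀ k, k ≤ n → 0 ≤ b k := by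
    intro k hk
    rcases k with _ | k
    · rw [hb0]
    · have := hb1 ⟨k, by omega⟩
      simp only at this
      rw [this]
      exact (hσ0 _).le
  refine ⟨τ, hτ1, fun k => (hbnn k (by omega)).trans_lt (hτ2 k).1, by rw [← hP]; exact hτ3, ?_⟩
  intro k
  constructor
  · have := (hτ2 k.castSucc).2
    rw [Fin.val_castSucc, hb1 k] at this
    exact this
  · have := (hτ2 k.succ).1
    rw [Fin.val_succ, hb1 k] at this
    exact this

end T1aux

/-- `L(D)` is real-rooted with simple negative zeros. -/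
theorem T1 {n : ℕ} {ρ : Fin n → ℝ} (hρ : ∀ k, 0 < ρ k) :
    ∃ σ : Fin n → ℝ, StrictMono σ ∧ (∀ k, 0 < σ k) ∧ LP (pr ρ) = pr σ := by
  induction n with
  | zero =>
    refine ⟨Fin.elim0, fun i => i.elim0, fun i => i.elim0, ?_⟩
    have h1 : LP (pr ρ) = 1 := by
      have := T1aux.LP_pr_monic ρ
      exact this.natDegree_eq_zero.mp (T1aux.LP_pr_natDegree ρ)
    rw [h1]
    unfold pr
    simp
  | succ n ih =>
    obtain ⟨σ, h1, h2, h3⟩ := ih (ρ := Fin.tail ρ) (fun k => hρ k.succ)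
    obtain ⟨τ, h4, h5, h6, -⟩ := T1aux.step (r := ρ 0) (fun k => hρ k.succ) (hρ 0) h1 h2 h3
    refine ⟨τ, h4, h5, ?_⟩
    rw [← h6]
    congr 2
    exact (Fin.cons_self_tail ρ).symm

/-- interlacing of `L(D)` and `L((X+r)D)` -/
theorem T1_interlace {n : ℕ} {ρ : Fin n → ℝ} (hρ : ∀ k, 0 < ρ k) {r : ℝ} (hr : 0 < r)
    {σ : Fin n → ℝ} (hσ : StrictMono σ) (h : LP (pr ρ) = pr σ)
    {τ : Fin (n+1) → ℝ} (hτ : StrictMono τ)
    (h' : LP (pr (Fin.cons r ρ : Fin (n+1) → ℝ)) = pr τ) (k : Fin n) :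
    τ k.castSucc < σ k ∧ σ k < τ k.succ := by
  obtain ⟨σ', h1, h2, h3⟩ := T1 hρ
  have e1 : σ = σ' := pr_inj hσ h1 (by rw [← h, h3])
  subst e1
  obtain ⟨τ', h4, h5, h6, h7⟩ := T1aux.step hρ hr hσ h2 h
  have e2 : τ = τ' := pr_inj hτ h4 (by rw [← h', h6])
  subst e2
  exact h7 k

end BMoll
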